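import Pool.Agent.Helper45.S1.TraceClass

/-!
# Compressions to finite dimensional subspaces
-/

open scoped BigOperators InnerProductSpace Cardinal
open Module Filter Topology

set_option linter.unusedSectionVars false

namespace Pool.H45.S1

variable {H : Type*} [NormedAddCommGroup H] [InnerProductSpace ℝ H] [CompleteSpace H]

section
variable (W : Submodule ℝ H) [FiniteDimensional ℝ W] [CompleteSpace W]

/-- compression of an operator -/
noncomputable def cmp (T : H →L[ℝ] H) : W →L[ℝ] W :=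
  W.orthogonalProjectionOnto ∘L (T ∘L W.subtypeL)

/-- extension by zero -/
noncomputable def lft (δ : W →L[ℝ] W) : H →L[ℝ] H :=
  W.subtypeL ∘L (δ ∘L W.orthogonalProjectionOnto)

theorem cmp_sub (T T' : H →L[ℝ] H) : cmp W (T - T') = cmp W T - cmp W T' := by
  ext x; simp [cmp]

theorem lft_sub (T T' : W →L[ℝ] W) : lft W (T - T') = lft W T - lft W T' := by
  ext x; simp [lft]

theorem norm_cmp_le (T : H →L[ℝ] H) : ‖cmp W T‖ ≤ ‖T‖ := by
  refine ContinuousLinearMap.opNorm_le_bound _ (norm_nonneg _) fun x => ?_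
  have h1 : cmp W T x = W.orthogonalProjectionOnto (T x) := rfl
  rw [h1]
  have h2 := W.orthogonalProjectionOnto.le_opNorm (T (x : H))
  have h3 := W.orthogonalProjectionOnto_norm_le
  have h4 := T.le_opNorm (x : H)
  have h5 : ‖(x : H)‖ = ‖x‖ := rfl
  rw [h5] at h4
  calc _ ≤ _ := h2
    _ ≤ 1 * ‖T (x : H)‖ := mul_le_mul_of_nonneg_right h3 (norm_nonneg _)
    _ = ‖T (x : H)‖ := one_mul _
    _ ≤ _ := h4

theorem norm_lft_le (δ : W →L[ℝ] W) : ‖lft W δ‖ ≤ ‖δ‖ := by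
  refine ContinuousLinearMap.opNorm_le_bound _ (norm_nonneg δ) fun x => ?_
  have h1 : ‖lft W δ x‖ = ‖δ (W.orthogonalProjectionOnto x)‖ := rfl
  rw [h1]
  have h2 := W.orthogonalProjectionOnto.le_opNorm x
  have h3 := W.orthogonalProjectionOnto_norm_le
  refine (δ.le_opNorm _).trans ?_
  refine mul_le_mul_of_nonneg_left ?_ (norm_nonneg _)
  calc _ ≤ _ := h2
    _ ≤ 1 * ‖x‖ := mul_le_mul_of_nonneg_right h3 (norm_nonneg _)
    _ = ‖x‖ := one_mul _

theorem finrank_cmp_le {F : H →L[ℝ] H} {j : ℕ} (hF : (F : H →ₗ[ℝ] H).rank ≤ j) :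
    finrank ℝ (cmp W F).toLinearMap.range ≤ j := by
  refine finrank_le_of_rank_le ?_
  have e : (cmp W F).toLinearMap = (W.orthogonalProjectionOnto : H →ₗ[ℝ] W).comp
      ((F : H →ₗ[ℝ] H).comp (W.subtypeL : W →ₗ[ℝ] H)) := rfl
  have h1 : (cmp W F).toLinearMap.rank ≤ (F : H →ₗ[ℝ] H).rank := by
    rw [e]
    exact (LinearMap.rank_comp_le_right _ _).trans (LinearMap.rank_comp_le_left _ _)
  exact h1.trans hF

theorem rank_lft_le {F : W →L[ℝ] W} {j : ℕ} (hF : finrank ℝ F.toLinearMap.range ≤ j) :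
    ((lft W F : H →L[ℝ] H) : H →ₗ[ℝ] H).rank ≤ j := by
  have e : ((lft W F : H →L[ℝ] H) : H →ₗ[ℝ] H) = (W.subtypeL : W →ₗ[ℝ] H).comp
      ((F : W →ₗ[ℝ] W).comp (W.orthogonalProjectionOnto : H →ₗ[ℝ] W)) := rfl
  have h1 : ((lft W F : H →L[ℝ] H) : H →ₗ[ℝ] H).rank ≤ (F : W →ₗ[ℝ] W).rank := by
    rw [e]
    exact (LinearMap.rank_comp_le_right _ _).trans (LinearMap.rank_comp_le_left _ _)
  refine h1.trans ?_
  have h2 : (F : W →ₗ[ℝ] W).rank = ((finrank ℝ F.toLinearMap.range : ℕ) : Cardinal) :=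
    (Module.finrank_eq_rank ℝ _).symm
  rw [h2]
  exact_mod_cast hF

theorem sv_cmp_le (T : H →L[ℝ] H) (j : ℕ) : sv (cmp W T) j ≤ snum T j := by
  by_cases hj : j < finrank ℝ W
  · refine le_snum fun F hF => ?_
    have h1 := sv_le_of_rank (cmp W T) (cmp W F) hj (finrank_cmp_le W hF)
    rw [← cmp_sub] at h1
    exact h1.trans (norm_cmp_le W _)
  · rw [sv_eq_zero_of_rank_le (cmp W T) ((Submodule.finrank_le _).trans (not_lt.1 hj))]
    exact snum_nonneg _ _

theorem tn_cmp_le {T : H →L[ℝ] H} (h : Summable (snum T)) : tn (cmp W T) ≤ tnorm T := by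
  rw [tn, ← Finset.sum_range (fun i => sv (cmp W T) i)]
  refine (Finset.sum_le_sum fun j _ => sv_cmp_le W T j).trans ?_
  exact h.sum_le_tsum _ (fun i _ => snum_nonneg _ i)

theorem snum_le_cmp (T : H →L[ℝ] H) (j : ℕ) :
    snum T j ≤ ‖T - lft W (cmp W T)‖ + sv (cmp W T) j := by
  obtain ⟨F, hF, h1⟩ := exists_trunc (cmp W T) j
  refine (snum_le (rank_lft_le W hF)).trans ?_
  have e : T - lft W F = (T - lft W (cmp W T)) + lft W (cmp W T - F) := by
    rw [lft_sub]; abel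
  rw [e]
  refine (norm_add_le _ _).trans (add_le_add (le_refl _) ?_)
  exact (norm_lft_le W _).trans h1

theorem sum_range_sv_le (δ : W →L[ℝ] W) (K : ℕ) : ∑ j ∈ Finset.range K, sv δ j ≤ tn δ := by
  have h1 : ∑ j ∈ Finset.range K, sv δ j ≤ ∑ j ∈ Finset.range (max K (finrank ℝ W)), sv δ j :=
    Finset.sum_le_sum_of_subset_of_nonneg (Finset.range_mono (le_max_left _ _))
      (fun i _ _ => sv_nonneg _ i)
  refine h1.trans (le_of_eq ?_)
  rw [tn, ← Finset.sum_range (fun i => sv δ i)]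
  symm
  refine Finset.sum_subset (Finset.range_mono (le_max_right _ _)) fun i _ hi => ?_
  rw [Finset.mem_range, not_lt] at hi
  exact sv_eq_zero_of_rank_le δ ((Submodule.finrank_le _).trans hi)

end

/-- good finite dimensional subspaces for a finite rank operator -/
theorem exists_good_of_rank {F : H →L[ℝ] H} {j : ℕ} (hF : (F : H →ₗ[ℝ] H).rank ≤ j) :
    ∃ W₀ : Submodule ℝ H, FiniteDimensional ℝ W₀ ∧
      ∀ (W : Submodule ℝ H) [FiniteDimensional ℝ W] [CompleteSpace W], W₀ ≤ W →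
        lft W (cmp W F) = F := by
  have hfin : FiniteDimensional ℝ (LinearMap.range (F : H →ₗ[ℝ] H)) := by
    refine Module.rank_lt_aleph0_iff.1 ?_
    exact lt_of_le_of_lt hF (Cardinal.natCast_lt_aleph0)
  have hfin2 : FiniteDimensional ℝ (LinearMap.ker (F : H →ₗ[ℝ] H))ᗮ := by
    let g : (LinearMap.ker (F : H →ₗ[ℝ] H))ᗮ →ₗ[ℝ] LinearMap.range (F : H →ₗ[ℝ] H) :=
      ((F : H →ₗ[ℝ] H).rangeRestrict).comp (Submodule.subtype _)
    refine Module.Finite.of_injective g ?_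
    rw [← LinearMap.ker_eq_bot, LinearMap.ker_eq_bot']
    intro x hx
    have h1 : F (x : H) = 0 := congrArg Subtype.val hx
    have h2 : (x : H) ∈ LinearMap.ker (F : H →ₗ[ℝ] H) := h1
    have h3 : ⟪(x : H), (x : H)⟫_ℝ = 0 := Submodule.inner_right_of_mem_orthogonal h2 x.2
    exact Subtype.ext (inner_self_eq_zero.1 h3)
  refine ⟨LinearMap.range (F : H →ₗ[ℝ] H) ⊔ (LinearMap.ker (F : H →ₗ[ℝ] H))ᗮ,
    Submodule.finiteDimensional_sup _ _, ?_⟩
  intro W _ _ hW
  have hr : LinearMap.range (F : H →ₗ[ℝ] H) ≤ W := le_sup_left.trans hW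
  have hk : (LinearMap.ker (F : H →ₗ[ℝ] H))ᗮ ≤ W := le_sup_right.trans hW
  ext x
  have e1 : lft W (cmp W F) x = W.starProjection (F (W.starProjection x)) := rfl
  rw [e1]
  have h1 : F (W.starProjection x) = F x := by
    have h2 : x - W.starProjection x ∈ Wᗮ := W.sub_starProjection_mem_orthogonal x
    have h3 : x - W.starProjection x ∈ (LinearMap.ker (F : H →ₗ[ℝ] H))ᗮᗮ :=
      Submodule.orthogonal_le hk h2
    have hclosed : IsClosed ((LinearMap.ker (F : H →ₗ[ℝ] H) : Submodule ℝ H) : Set H) :=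
      F.isClosed_ker
    have h4 : (LinearMap.ker (F : H →ₗ[ℝ] H))ᗮᗮ = LinearMap.ker (F : H →ₗ[ℝ] H) := by
      rw [Submodule.orthogonal_orthogonal_eq_closure]
      exact hclosed.submodule_topologicalClosure_eq
    rw [h4] at h3
    have h5 : F (x - W.starProjection x) = 0 := h3
    rw [map_sub, sub_eq_zero] at h5
    exact h5.symm
  rw [h1]
  exact W.starProjection_eq_self_iff.2 (hr ⟨x, rfl⟩)

theorem exists_good {T : H →L[ℝ] H} (h : Summable (snum T)) {η : ℝ} (hη : 0 < η) :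
    ∃ W₀ : Submodule ℝ H, FiniteDimensional ℝ W₀ ∧
      ∀ (W : Submodule ℝ H) [FiniteDimensional ℝ W] [CompleteSpace W], W₀ ≤ W →
        ‖T - lft W (cmp W T)‖ ≤ η := by
  have hlim := h.tendsto_atTop_zero
  obtain ⟨j, hj⟩ := ((tendsto_order.1 hlim).2 (η / 4) (by positivity)).exists
  obtain ⟨F, hF, h1⟩ := exists_approx T j (show 0 < η / 4 by positivity)
  obtain ⟨W₀, hfin, hW₀⟩ := exists_good_of_rank hF
  refine ⟨W₀, hfin, fun W _ _ hW => ?_⟩
  have e : T - lft W (cmp W T) = (T - F) - lft W (cmp W (T - F)) := by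
    rw [cmp_sub, lft_sub, hW₀ W hW]; abel
  rw [e]
  have h2 := norm_sub_le (T - F) (lft W (cmp W (T - F)))
  have h3 := (norm_lft_le W (cmp W (T - F))).trans (norm_cmp_le W (T - F))
  linarith

theorem exists_good_tn {T : H →L[ℝ] H} (h : Summable (snum T)) {ε : ℝ} (hε : 0 < ε) :
    ∃ W₀ : Submodule ℝ H, FiniteDimensional ℝ W₀ ∧
      ∀ (W : Submodule ℝ H) [FiniteDimensional ℝ W] [CompleteSpace W], W₀ ≤ W →
        tnorm T ≤ tn (cmp W T) + ε := by
  have hlim := h.hasSum.tendsto_sum_nat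
  obtain ⟨K, hK⟩ := ((tendsto_order.1 hlim).1 (tnorm T - ε / 2) (by
    show tnorm T - ε / 2 < tnorm T
    linarith)).exists
  obtain ⟨W₀, hfin, hW₀⟩ := exists_good h (show 0 < ε / (2 * (K + 1)) by positivity)
  refine ⟨W₀, hfin, fun W _ _ hW => ?_⟩
  have h1 := hW₀ W hW
  have h2 : ∑ j ∈ Finset.range K, snum T j ≤
      ∑ j ∈ Finset.range K, (ε / (2 * (K + 1)) + sv (cmp W T) j) :=
    Finset.sum_le_sum fun j _ => (snum_le_cmp W T j).trans (add_le_add h1 (le_refl _))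
  rw [Finset.sum_add_distrib, Finset.sum_const, Finset.card_range, nsmul_eq_mul] at h2
  have h3 := sum_range_sv_le W (cmp W T) K
  have h4 : (K : ℝ) * (ε / (2 * (K + 1))) ≤ ε / 2 := by
    rw [mul_div_assoc', div_le_div_iff₀ (by positivity) (by norm_num)]
    nlinarith
  linarith

/-- a single finite dimensional subspace for a finite family of operators -/
theorem exists_good_family {κ : Type*} [Finite κ] (T : κ → (H →L[ℝ] H))
    (h : ∀ i, Summable (snum (T i))) {ε : ℝ} (hε : 0 < ε) :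
    ∃ W : Submodule ℝ H, ∃ _ : FiniteDimensional ℝ W,
      ∀ [CompleteSpace W], ∀ i, tnorm (T i) ≤ tn (cmp W (T i)) + ε := by
  choose W₀ hfin hW₀ using fun i => exists_good_tn (h i) hε
  have hf : FiniteDimensional ℝ (⨆ i, W₀ i : Submodule ℝ H) := Submodule.finiteDimensional_iSup _
  exact ⟨⨆ i, W₀ i, hf, fun i => hW₀ i _ (le_iSup W₀ i)⟩

end Pool.H45.S1
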