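import Pool.Agent.Helper45.S1.QSMain

/-!
# From lower bounds for unit vectors to cotype
-/

open scoped BigOperators
open Finset Filter Topology

set_option linter.unusedSectionVars false

namespace Pool.H45.S1

variable {X : Type*} [NormedAddCommGroup X] [NormedSpace ℝ X]

/-- the second moment of the Rademacher sum -/
noncomputable def mom {n : ℕ} (x : Fin n → X) : ℝ := avg (fun ε => ‖∑ j, sg (ε j) • x j‖ ^ 2)

theorem mom_nonneg {n : ℕ} (x : Fin n → X) : 0 ≤ mom x := avg_nonneg fun ε => by positivity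

/-- lower bounds for unit vectors, up to an arbitrarily small power -/
def UnitLower (X : Type*) [NormedAddCommGroup X] [NormedSpace ℝ X] : Prop :=
  ∀ δ : ℝ, 0 < δ → ∃ c : ℝ, 0 < c ∧ ∀ (n : ℕ), 1 ≤ n → ∀ v : Fin n → X, (∀ j, ‖v j‖ = 1) →
    c * (n : ℝ) ^ (1 - δ) ≤ mom v

theorem unitLower_of_qs {ρ : X → X → ℝ} {η : ℝ → ℝ} (h : QSD ρ η) (hW : WeakCotype ρ) :
    UnitLower X := by
  intro δ hδ
  by_cases hX : ∃ e : X, ‖e‖ = 1
  · obtain ⟨e, he⟩ := hX
    -- choose `a` and `B`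
    obtain ⟨a₀, ha₀⟩ : ∃ a₀ : ℕ, max (η 2) 1 < 2 ^ a₀ := pow_unbounded_of_one_lt _ (by norm_num)
    have ha : max (η 2) 1 ≤ 2 ^ (a₀ + 1) := ha₀.le.trans (by
      rw [pow_succ]; nlinarith [pow_pos (show (0 : ℝ) < 2 by norm_num) a₀])
    obtain ⟨B, hB1, hB⟩ : ∃ B : ℕ, 1 ≤ B ∧ η ((2⁻¹ : ℝ) ^ B) ≤ 2⁻¹ := by
      have h1 : Tendsto (fun B : ℕ => (2⁻¹ : ℝ) ^ B) atTop (𝓝[>] 0) := by
        refine tendsto_nhdsWithin_iff.2 ⟨tendsto_pow_atTop_nhds_zero_of_lt_one (by norm_num)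
          (by norm_num), Eventually.of_forall fun B => ?_⟩
        exact Set.mem_Ioi.2 (by positivity)
      have h2 := (h.lim.comp h1).eventually (gt_mem_nhds (show (0 : ℝ) < 2⁻¹ by norm_num))
      obtain ⟨B, hB⟩ := (h2.and (eventually_ge_atTop 1)).exists
      exact ⟨B, hB.2, hB.1.le⟩
    obtain ⟨κ, hκ⟩ := exists_nat_gt (8 * ((a₀ + 1 : ℕ) : ℝ) / δ)
    have hκ0 : (0 : ℝ) < κ := lt_of_le_of_lt (by positivity) hκ
    have hκ1 : 1 ≤ κ := by
      have : 0 < κ := by exact_mod_cast hκ0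
      omega
    obtain ⟨C, hC, hmain⟩ := main_ineq h hW ha (by omega) hB1 hB he κ hκ1
    refine ⟨min 1 (C ^ (-(1 / (κ : ℝ)))), lt_min one_pos (by positivity), ?_⟩
    intro n hn v hv
    have hn0 : (0 : ℝ) < n := by exact_mod_cast hn
    have hn1 : (1 : ℝ) ≤ n := by exact_mod_cast hn
    have hp1 : (n : ℝ) ^ (1 - δ) ≤ n := by
      calc (n : ℝ) ^ (1 - δ) ≤ (n : ℝ) ^ (1 : ℝ) :=
            Real.rpow_le_rpow_of_exponent_le hn1 (by linarith)
        _ = n := Real.rpow_one _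
    by_cases hS : mom v ≤ n
    · have h1 := hmain n hn v hv hS
      set q := mom v / n with hq
      change 1 ≤ C * (n : ℝ) ^ (8 * (a₀ + 1)) * q ^ κ at h1
      have hq0 : 0 ≤ q := div_nonneg (mom_nonneg v) hn0.le
      have h2 : C⁻¹ * ((n : ℝ) ^ (8 * (a₀ + 1)))⁻¹ ≤ q ^ κ := by
        rw [← mul_inv, inv_le_iff_one_le_mul₀' (by positivity)]
        exact h1
      have h3 := Real.rpow_le_rpow (by positivity) h2 (show 0 ≤ 1 / (κ : ℝ) by positivity)
      rw [one_div (κ : ℝ), Real.pow_rpow_inv_natCast hq0 (by omega), Real.mul_rpow (by positivity)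
        (by positivity)] at h3
      have e1 : (C⁻¹) ^ ((κ : ℝ)⁻¹) = C ^ (-(1 / (κ : ℝ))) := by
        rw [one_div, Real.rpow_neg hC.le, Real.inv_rpow hC.le]
      have e2 : (n : ℝ) ^ (-δ) ≤ (((n : ℝ) ^ (8 * (a₀ + 1)))⁻¹) ^ ((κ : ℝ)⁻¹) := by
        rw [← Real.rpow_natCast, ← Real.rpow_neg hn0.le, ← Real.rpow_mul hn0.le]
        refine Real.rpow_le_rpow_of_exponent_le hn1 ?_
        rw [div_lt_iff₀ hδ] at hκ
        rw [neg_mul, neg_le_neg_iff, ← div_eq_mul_inv, div_le_iff₀ hκ0]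
        push_cast at hκ ⊢
        linarith
      rw [e1] at h3
      have h4 : C ^ (-(1 / (κ : ℝ))) * (n : ℝ) ^ (-δ) ≤ q :=
        (mul_le_mul_of_nonneg_left e2 (by positivity)).trans h3
      have h5 : mom v = q * n := by rw [hq]; field_simp
      rw [h5]
      have e3 : (n : ℝ) ^ (1 - δ) = (n : ℝ) ^ (-δ) * n := by
        rw [show (1 : ℝ) - δ = -δ + 1 by ring, Real.rpow_add_one hn0.ne']
      rw [e3, ← mul_assoc]
      refine mul_le_mul_of_nonneg_right ?_ hn0.le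
      exact (mul_le_mul_of_nonneg_right (min_le_right _ _) (by positivity)).trans h4
    · push Not at hS
      have : min 1 (C ^ (-(1 / (κ : ℝ)))) * (n : ℝ) ^ (1 - δ) ≤ 1 * n :=
        mul_le_mul (min_le_left _ _) hp1 (by positivity) zero_le_one
      linarith
  · refine ⟨1, one_pos, fun n hn v hv => ?_⟩
    exact absurd ⟨v ⟨0, hn⟩, hv _⟩ hX

/-- contraction for the second moment -/
theorem mom_contraction {n : ℕ} (x : Fin n → X) (a : Fin n → ℝ) (ha : ∀ j, |a j| ≤ 1) :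
    mom (fun j => a j • x j) ≤ mom x := contraction 2 x a ha

theorem mom_smul {n : ℕ} (c : ℝ) (x : Fin n → X) : mom (fun j => c • x j) = c ^ 2 * mom x := by
  rw [mom, mom, ← avg_const_mul]
  congr 1
  ext ε
  have : ∑ j, sg (ε j) • c • x j = c • ∑ j, sg (ε j) • x j := by
    rw [Finset.smul_sum]
    refine Finset.sum_congr rfl fun j _ => ?_
    rw [smul_comm]
  rw [this, norm_smul, mul_pow, Real.norm_eq_abs, sq_abs]

theorem mom_tail {n : ℕ} (x : Fin (n + 1) → X) : mom (fun j : Fin n => x j.succ) ≤ mom x := by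
  have h := mom_contraction x (Fin.cons 0 (fun _ => 1)) (by
    intro j
    refine Fin.cases ?_ (fun j => ?_) j <;> simp)
  refine le_trans (le_of_eq ?_) h
  rw [mom, mom, avg_succ, smul_eq_mul]
  have e : ∀ u : ℤˣ, (fun ε : Fin n → ℤˣ => ‖∑ j, sg ((Fin.cons u ε : Fin (n + 1) → ℤˣ) j) •
      ((Fin.cons 0 (fun _ => 1) : Fin (n + 1) → ℝ) j • x j)‖ ^ 2) =
      fun ε => ‖∑ j : Fin n, sg (ε j) • x j.succ‖ ^ 2 := by
    intro u
    ext ε
    rw [Fin.sum_univ_succ]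
    simp
  rw [e 1, e (-1)]
  ring

theorem mom_perm {n : ℕ} (x : Fin n → X) (σ : Equiv.Perm (Fin n)) : mom (x ∘ σ) = mom x := by
  rw [mom, mom, avg, avg]
  congr 1
  refine Fintype.sum_equiv (Equiv.arrowCongr σ (Equiv.refl ℤˣ)) _ _ fun ε => ?_
  congr 2
  rw [← Equiv.sum_comp σ (fun j => sg ((Equiv.arrowCongr σ (Equiv.refl ℤˣ)) ε j) • x j)]
  refine Finset.sum_congr rfl fun j _ => ?_
  simp [Equiv.arrowCongr]

/-- second moment form of the cotype inequality, for sorted vectors -/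
theorem sorted_cotype {δ c q : ℝ} (hc : 0 < c) (hq : 0 < q)
    (hlow : ∀ (n : ℕ), 1 ≤ n → ∀ v : Fin n → X, (∀ j, ‖v j‖ = 1) →
      c * (n : ℝ) ^ (1 - δ) ≤ mom v) :
    ∀ (n : ℕ) (x : Fin n → X), Monotone (fun j => ‖x j‖) →
      ∑ j, ‖x j‖ ^ q ≤ (mom x / c) ^ (q / 2) *
        ∑ k ∈ Finset.range n, ((k : ℝ) + 1) ^ (-((1 - δ) * (q / 2)))
  | 0, x, hx => by simp
  | (n + 1), x, hx => by
    rw [Fin.sum_univ_succ, Finset.sum_range_succ, mul_add, add_comm]
    have htail := sorted_cotype hc hq hlow n (fun j => x j.succ) (fun i j hij => hx (by simpa using hij))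
    refine add_le_add (htail.trans ?_) ?_
    · refine mul_le_mul_of_nonneg_right ?_ (Finset.sum_nonneg fun k _ => by positivity)
      refine Real.rpow_le_rpow (div_nonneg (mom_nonneg _) hc.le) ?_ (by positivity)
      exact div_le_div_of_nonneg_right (mom_tail x) hc.le
    · by_cases h0 : ‖x 0‖ = 0
      · rw [h0, Real.zero_rpow hq.ne']
        have := mom_nonneg x
        positivity
      · have hr : 0 < ‖x 0‖ := lt_of_le_of_ne (norm_nonneg _) (Ne.symm h0)
        have hge : ∀ j, ‖x 0‖ ≤ ‖x j‖ := fun j => hx (Fin.zero_le j)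
        have hpos : ∀ j, 0 < ‖x j‖ := fun j => hr.trans_le (hge j)
        have h1 := hlow (n + 1) (by omega) (fun j => ‖x j‖⁻¹ • x j) (fun j => by
          rw [norm_smul, norm_inv, norm_norm, inv_mul_cancel₀ (hpos j).ne'])
        have h2 := mom_contraction x (fun j => ‖x 0‖ / ‖x j‖) (fun j => by
          rw [abs_of_nonneg (by positivity), div_le_one (hpos j)]; exact hge j)
        have e1 : mom (fun j => (‖x 0‖ / ‖x j‖) • x j) =
            ‖x 0‖ ^ 2 * mom (fun j => ‖x j‖⁻¹ • x j) := by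
          rw [← mom_smul]
          congr 1
          ext j
          rw [smul_smul, div_eq_mul_inv]
        rw [e1] at h2
        have h3 : ‖x 0‖ ^ 2 * (c * (((n + 1 : ℕ) : ℝ)) ^ (1 - δ)) ≤ mom x :=
          (mul_le_mul_of_nonneg_left h1 (by positivity)).trans h2
        have hn1 : (0 : ℝ) < ((n : ℝ) + 1) := by positivity
        have h4 : ‖x 0‖ ^ 2 ≤ mom x / c * ((n : ℝ) + 1) ^ (-(1 - δ)) := by
          rw [Real.rpow_neg hn1.le, ← div_eq_mul_inv, div_div, le_div_iff₀ (by positivity)]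
          push_cast at h3
          exact h3
        have h5 := Real.rpow_le_rpow (by positivity) h4 (show 0 ≤ q / 2 by positivity)
        rw [Real.mul_rpow (div_nonneg (mom_nonneg _) hc.le) (by positivity),
          ← Real.rpow_mul hn1.le, ← Real.rpow_natCast, ← Real.rpow_mul hr.le] at h5
        have e2 : ((2 : ℕ) : ℝ) * (q / 2) = q := by push_cast; ring
        rw [e2, neg_mul] at h5
        exact h5

/-- Jensen -/
theorem mom_rpow_le {n : ℕ} (x : Fin n → X) {q : ℝ} (hq : 2 ≤ q) :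
    mom x ^ (q / 2) ≤ avg (fun ε => ‖∑ j, sg (ε j) • x j‖ ^ q) := by
  have h := Real.rpow_arith_mean_le_arith_mean_rpow (Finset.univ : Finset (Fin n → ℤˣ))
    (fun _ => ((2 : ℝ) ^ n)⁻¹) (fun ε => ‖∑ j, sg (ε j) • x j‖ ^ 2) (fun _ _ => by positivity)
    (by
      have := avg_const (n := n) (1 : ℝ)
      rw [avg_eq_mul, Finset.mul_sum] at this
      simp) (fun _ _ => by positivity) (p := q / 2) (by linarith)
  rw [← Finset.mul_sum, ← Finset.mul_sum] at h
  rw [mom, avg_eq_mul, avg_eq_mul]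
  refine h.trans (le_of_eq ?_)
  congr 1
  refine Finset.sum_congr rfl fun ε _ => ?_
  rw [← Real.rpow_natCast, ← Real.rpow_mul (norm_nonneg _)]
  congr 1
  push_cast; ring

theorem cotype_of_unitLower (hX : UnitLower X) {q : ℝ} (hq : 2 < q) :
    ∃ C : ℝ, 0 ≤ C ∧ ∀ (n : ℕ) (x : Fin n → X),
      ∑ j, ‖x j‖ ^ q ≤ C ^ q * avg (fun ε => ‖∑ j, sg (ε j) • x j‖ ^ q) := by
  set δ : ℝ := 1 / 2 - 1 / q with hδ
  have hq0 : 0 < q := by linarith
  have hδ0 : 0 < δ := by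
    rw [hδ, sub_pos]
    exact one_div_lt_one_div_of_lt (by norm_num) hq
  obtain ⟨c, hc, hlow⟩ := hX δ hδ0
  have hα : 1 < (1 - δ) * (q / 2) := by
    have : (1 - δ) * (q / 2) = 1 / 2 + q / 4 := by rw [hδ]; field_simp; ring
    rw [this]; linarith
  set α := (1 - δ) * (q / 2) with hαd
  have hsum : Summable (fun k : ℕ => ((k : ℝ) + 1) ^ (-α)) := by
    have h1 : Summable (fun k : ℕ => (k : ℝ) ^ (-α)) := Real.summable_nat_rpow.2 (by linarith)
    have h2 := (summable_nat_add_iff 1).2 h1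
    refine h2.congr fun k => ?_
    push_cast; rfl
  set Z : ℝ := ∑' k : ℕ, ((k : ℝ) + 1) ^ (-α) with hZ
  have hZ0 : 0 ≤ Z := tsum_nonneg fun k => by positivity
  refine ⟨((1 / c) ^ (q / 2) * Z) ^ (1 / q), by positivity, fun n x => ?_⟩
  have e1 : (((1 / c) ^ (q / 2) * Z) ^ (1 / q)) ^ q = (1 / c) ^ (q / 2) * Z := by
    rw [← Real.rpow_mul (by positivity), one_div_mul_cancel hq0.ne', Real.rpow_one]
  rw [e1]
  set σ := Tuple.sort (fun j => ‖x j‖) with hσ
  have hmono : Monotone (fun j => ‖(x ∘ σ) j‖) := Tuple.monotone_sort (fun j => ‖x j‖)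
  have h1 := sorted_cotype hc hq0 hlow n (x ∘ σ) hmono
  rw [mom_perm] at h1
  have e2 : ∑ j, ‖(x ∘ σ) j‖ ^ q = ∑ j, ‖x j‖ ^ q := Equiv.sum_comp σ (fun j => ‖x j‖ ^ q)
  rw [e2, ← hαd] at h1
  have h2 : ∑ k ∈ Finset.range n, ((k : ℝ) + 1) ^ (-α) ≤ Z :=
    hsum.sum_le_tsum _ (fun k _ => by positivity)
  have h3 := mom_rpow_le x hq.le
  have hm := mom_nonneg x
  calc ∑ j, ‖x j‖ ^ q ≤ (mom x / c) ^ (q / 2) * Z :=
        h1.trans (mul_le_mul_of_nonneg_left h2 (by positivity))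
    _ = (1 / c) ^ (q / 2) * Z * mom x ^ (q / 2) := by
        rw [div_eq_mul_one_div, Real.mul_rpow hm (by positivity)]; ring
    _ ≤ _ := mul_le_mul_of_nonneg_left h3 (by positivity)

end Pool.H45.S1
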