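import Pool.Agent.Helper45.S1.Upper2

/-!
# The lower estimate for the resolvent map
-/

open scoped BigOperators InnerProductSpace
open Module

set_option linter.unusedSectionVars false

namespace Pool.H45.S1

variable {E : Type*} [NormedAddCommGroup E] [InnerProductSpace ℝ E] [FiniteDimensional ℝ E]
  [CompleteSpace E]

theorem N_Ps_pow_le {A : E →L[ℝ] E} (hA : star A = -A) {t : ℝ} (ht : 0 < t) (k : ℕ) :
    t * N (trL E) k (Ps t A) ^ (2 ^ (k + 1)) ≤
      ∑ m : Fin (finrank ℝ E), ((if sv A m ≤ t then sv A m * (sv A m / t) else 0) +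
        (if sv A m ≤ t then 0 else t)) := by
  obtain ⟨b, hb⟩ := exists_svd A
  rw [N_pow_eq_of_eigen b k (Ps t A) (fun m => sv A m ^ 2 / (t ^ 2 + sv A m ^ 2))
    (fun m => Ps_eigen hA ht (hb m)), Finset.mul_sum]
  refine Finset.sum_le_sum fun m _ => ?_
  have h0 := sv_nonneg A m
  set a := sv A m
  have hpos : 0 < t ^ 2 + a ^ 2 := by positivity
  have h1 : a ^ 2 / (t ^ 2 + a ^ 2) ≤ 1 := by
    rw [div_le_one hpos]; nlinarith only [sq_nonneg t]
  have h2 : (a ^ 2 / (t ^ 2 + a ^ 2)) ^ (2 ^ k) ≤ a ^ 2 / (t ^ 2 + a ^ 2) := by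
    have h3 : 1 ≤ 2 ^ k := Nat.one_le_two_pow
    calc (a ^ 2 / (t ^ 2 + a ^ 2)) ^ (2 ^ k) ≤ (a ^ 2 / (t ^ 2 + a ^ 2)) ^ 1 :=
          pow_le_pow_of_le_one (by (clear * - ht; positivity)) h1 h3
      _ = _ := pow_one _
  refine (mul_le_mul_of_nonneg_left h2 ht.le).trans ?_
  by_cases h : a ≤ t
  · rw [if_pos h, if_pos h, add_zero]
    have : a * (a / t) = t * (a ^ 2 / t ^ 2) := by field_simp
    rw [this]
    refine mul_le_mul_of_nonneg_left ?_ ht.le
    exact div_le_div_of_nonneg_left (by positivity) (by positivity) (by nlinarith only [sq_nonneg a])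
  · rw [if_neg h, if_neg h, zero_add]
    exact mul_le_of_le_one_right ht.le h1

theorem sum_N_Ps_pow_le {A : E →L[ℝ] E} (hA : star A = -A) {t0 : ℝ} (ht0 : 0 < t0) (k M : ℕ) :
    ∑ i ∈ Finset.range M, (t0 * 2 ^ i) * N (trL E) k (Ps (t0 * 2 ^ i) A) ^ (2 ^ (k + 1)) ≤
      4 * tn A := by
  refine (Finset.sum_le_sum fun i _ => N_Ps_pow_le hA (by positivity) k).trans ?_
  rw [Finset.sum_comm, tn, Finset.mul_sum]
  refine Finset.sum_le_sum fun m _ => ?_
  have h0 := sv_nonneg A m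
  set a := sv A m
  rw [Finset.sum_add_distrib]
  have h1 := geom_small ht0 h0 M
  have h2 : ∑ i ∈ Finset.range M, (if a ≤ t0 * 2 ^ i then a * (a / (t0 * 2 ^ i)) else 0) ≤ 2 * a := by
    have h3 := geom_large (σ := a) (t0 := t0) (r := 1 / 2) ht0 h0
      (u := fun i => a / (t0 * 2 ^ i)) (by norm_num) (by norm_num)
      (fun i => by rw [pow_succ]; field_simp) (fun i => by positivity)
      (fun i hi => by rw [div_le_one (by positivity)]; exact hi) M
    have e : ∀ i ∈ Finset.range M, (if a ≤ t0 * 2 ^ i then a * (a / (t0 * 2 ^ i)) else 0) =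
        a * (if a ≤ t0 * 2 ^ i then a / (t0 * 2 ^ i) else 0) := by
      intro i _
      split_ifs <;> simp
    rw [Finset.sum_congr rfl e, ← Finset.mul_sum]
    have h4 : (1 - 1 / 2 : ℝ)⁻¹ = 2 := by norm_num
    rw [h4] at h3
    nlinarith only [h0, h3]
  linarith

theorem N_Xs_le {A : E →L[ℝ] E} (k : ℕ) (t : ℝ) : N (trL E) k (Xs t A) ≤ N (trL E) k (Ps t A) := by
  rw [Xs, N_smul tracial_trL]
  have h := N_add_le tracial_trL k (Ps t A) (star (Ps t A))
  rw [N_star tracial_trL] at h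
  have : |(2 : ℝ)⁻¹| = 2⁻¹ := by norm_num
  rw [this]; linarith

theorem N_Fs_le {A : E →L[ℝ] E} (k : ℕ) (t : ℝ) : N (trL E) k (Fs t A) ≤ N (trL E) k (Ps t A) := by
  rw [Fs, N_smul tracial_trL, sub_eq_add_neg]
  have h := N_add_le tracial_trL k (Ps t A) (-star (Ps t A))
  have h2 : N (trL E) k (-star (Ps t A)) = N (trL E) k (Ps t A) := by
    have := N_smul tracial_trL k (-1 : ℝ) (star (Ps t A))
    rw [neg_one_smul, abs_neg, abs_one, one_mul, N_star tracial_trL] at this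
    exact this
  rw [h2] at h
  have : |(2 : ℝ)⁻¹| = 2⁻¹ := by norm_num
  rw [this]; linarith

theorem trL_star_mul_eq (D M : E →L[ℝ] E) : trL E (star D * M) = trL E (D * star M) := by
  rw [← trL_star (star D * M), star_mul, star_star, trL_comm]

theorem trL_Fs_sub (A A' : E →L[ℝ] E) (t : ℝ) (M : E →L[ℝ] E) :
    trL E ((Fs t A - Fs t A') * M) = 2⁻¹ * trL E ((Ps t A - Ps t A') * (M - star M)) := by
  have h1 := trL_star_mul_eq (Ps t A) M
  have h2 := trL_star_mul_eq (Ps t A') M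
  rw [Fs, Fs]
  simp only [sub_mul, mul_sub, smul_mul_assoc, map_sub, map_smul, smul_eq_mul, h1, h2]
  ring

theorem trL_Xs_sub (A A' : E →L[ℝ] E) (t : ℝ) (M : E →L[ℝ] E) :
    trL E ((Xs t A - Xs t A') * M) = 2⁻¹ * trL E ((Ps t A - Ps t A') * (M + star M)) := by
  have h1 := trL_star_mul_eq (Ps t A) M
  have h2 := trL_star_mul_eq (Ps t A') M
  rw [Xs, Xs]
  simp only [sub_mul, mul_add, add_mul, smul_mul_assoc, map_sub, map_add, map_smul, smul_eq_mul,
    h1, h2]
  ring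

theorem telescope_sum {A : E →L[ℝ] E} (hA : star A = -A) {t0 : ℝ} (ht0 : 0 < t0) (M : ℕ) :
    ∑ i ∈ Finset.range M, (3 / 2 * (t0 * 2 ^ i)) • (Fs (t0 * 2 ^ (i + 1)) A * Xs (t0 * 2 ^ i) A) =
      (t0 * 2 ^ M) • Fs (t0 * 2 ^ M) A - t0 • Fs t0 A := by
  induction M with
  | zero => simp
  | succ M ih =>
    rw [Finset.sum_range_succ, ih]
    have h := telescope hA (t := t0 * 2 ^ M) (by positivity)
    have e : 2 * (t0 * 2 ^ M) = t0 * 2 ^ (M + 1) := by rw [pow_succ]; ring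
    rw [e] at h
    rw [← h]
    abel

theorem rpow_bound {S P c C : ℝ} (hS : 0 ≤ S) (hP : 2 ≤ P) (hc1 : 1 ≤ c) (hC : 0 ≤ C)
    (hcC : c ≤ C ^ 2) :
    (c * S) ^ (1 / P) ≤ C * S ^ (1 / P) := by
  rw [Real.mul_rpow (by linarith) hS]
  refine mul_le_mul_of_nonneg_right ?_ (Real.rpow_nonneg hS _)
  calc c ^ (1 / P) ≤ c ^ (1 / 2 : ℝ) :=
        Real.rpow_le_rpow_of_exponent_le hc1 (one_div_le_one_div_of_le (by norm_num) hP)
    _ = √c := (Real.sqrt_eq_rpow c).symm
    _ ≤ √(C ^ 2) := Real.sqrt_le_sqrt hcC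
    _ = C := Real.sqrt_sq hC

/-- bound for `N` of a weighted family from a bound for the sum of powers -/
theorem N_le_of_pow_sum {ι : Type*} [Fintype ι] {t : ι → ℝ} (ht : ∀ i, 0 ≤ t i) (k : ℕ)
    (B : ι → (E →L[ℝ] E)) {S : ℝ}
    (h : ∑ i, t i * N (trL E) k (B i) ^ (2 ^ (k + 1)) ≤ S) :
    N (tauW E t) k B ≤ S ^ (1 / (2 : ℝ) ^ (k + 1)) := by
  have h1 : N (tauW E t) k B ^ ((2 : ℝ) ^ (k + 1)) ≤ S := by
    rw [rpow_two_pow, N_pow_tauW ht]; exact h
  have hP : (0 : ℝ) < (2 : ℝ) ^ (k + 1) := by positivity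
  have h2 := Real.rpow_le_rpow (Real.rpow_nonneg (N_nonneg _ _) _) h1
    (by positivity : (0 : ℝ) ≤ 1 / (2 : ℝ) ^ (k + 1))
  rwa [← Real.rpow_mul (N_nonneg _ _), mul_one_div, div_self hP.ne', Real.rpow_one] at h2

theorem lower {A A' : E →L[ℝ] E} (hA : star A = -A) (hA' : star A' = -A') {t0 : ℝ}
    (ht0 : 0 < t0) (M k : ℕ) :
    ∃ B : Fin (M + 1) → (E →L[ℝ] E),
      N (tauW E fun i : Fin (M + 1) => t0 * 2 ^ (i : ℕ)) k B ≤
        3 * (tn A ^ (1 / (2 : ℝ) ^ (k + 1)) + tn A' ^ (1 / (2 : ℝ) ^ (k + 1))) ∧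
      tn (A - A') ≤ ∑ i : Fin (M + 1), (t0 * 2 ^ (i : ℕ)) *
          trL E ((Ps (t0 * 2 ^ (i : ℕ)) A - Ps (t0 * 2 ^ (i : ℕ)) A') * B i) +
        finrank ℝ E * (2 * t0 + (‖A‖ ^ 3 + ‖A'‖ ^ 3) / (t0 * 2 ^ M) ^ 2) := by
  classical
  obtain ⟨K, hK, hKt⟩ := exists_contraction (A - A')
  set t : ℕ → ℝ := fun i => t0 * 2 ^ i with ht
  have htpos : ∀ i, 0 < t i := fun i => by simp only [ht]; positivity
  have htsucc : ∀ i, t (i + 1) = 2 * t i := fun i => by simp only [ht]; rw [pow_succ]; ring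
  set M1 : ℕ → (E →L[ℝ] E) := fun i => Xs (t i) A * K with hM1
  set M2 : ℕ → (E →L[ℝ] E) := fun i => K * Fs (t (i + 1)) A' with hM2
  set U1 : ℕ → (E →L[ℝ] E) := fun i => if i = 0 then 0 else M1 (i - 1) with hU1
  set U2 : ℕ → (E →L[ℝ] E) := fun i => if i < M then M2 i else 0 with hU2
  set B1 : Fin (M + 1) → (E →L[ℝ] E) := fun i => (3 / 8 : ℝ) • (U1 i - star (U1 i)) with hB1
  set B2 : Fin (M + 1) → (E →L[ℝ] E) := fun i => (3 / 4 : ℝ) • (U2 i + star (U2 i)) with hB2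
  set τ := tauW E fun i : Fin (M + 1) => t0 * 2 ^ (i : ℕ) with hτ
  have hτtr : Tracial τ := tracial_tauW fun i => by positivity
  have hP2 : (2 : ℝ) ≤ (2 : ℝ) ^ (k + 1) := by
    rw [pow_succ]
    have : (1 : ℝ) ≤ 2 ^ k := one_le_pow₀ (by norm_num)
    linarith
  refine ⟨B1 + B2, ?_, ?_⟩
  · -- the norm bound
    have hN1 : N τ k (fun i : Fin (M + 1) => U1 i) ≤ 3 * tn A ^ (1 / (2 : ℝ) ^ (k + 1)) := by
      refine (N_le_of_pow_sum (fun i => by positivity) k _ (S := 8 * tn A) ?_).trans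
        (rpow_bound (tn_nonneg A) hP2 (by norm_num) (by norm_num) (by norm_num))
      have e1 : ∑ i : Fin (M + 1), (t0 * 2 ^ (i : ℕ)) * N (trL E) k (U1 i) ^ (2 ^ (k + 1)) =
          ∑ i ∈ Finset.range (M + 1), t i * N (trL E) k (U1 i) ^ (2 ^ (k + 1)) :=
        (Finset.sum_range (fun i => t i * N (trL E) k (U1 i) ^ (2 ^ (k + 1)))).symm
      rw [e1, Finset.sum_range_succ']
      have e2 : N (trL E) k (U1 0) ^ (2 ^ (k + 1)) = 0 := by
        have : N (trL E) k (0 : E →L[ℝ] E) = 0 := by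
          have := N_smul (A := E →L[ℝ] E) tracial_trL k (0 : ℝ) 0
          simpa using this
        simp [hU1, this]
      rw [e2, mul_zero, add_zero]
      have e3 : ∀ i ∈ Finset.range M, t (i + 1) * N (trL E) k (U1 (i + 1)) ^ (2 ^ (k + 1)) ≤
          2 * (t i * N (trL E) k (Ps (t i) A) ^ (2 ^ (k + 1))) := by
        intro i _
        have h1 : U1 (i + 1) = Xs (t i) A * K := by simp [hU1, hM1]
        rw [h1, htsucc, mul_assoc]
        refine mul_le_mul_of_nonneg_left (mul_le_mul_of_nonneg_left ?_ (htpos i).le) (by norm_num)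
        exact pow_le_pow_left₀ (N_nonneg _ _) (((N_contr k _ K hK).1).trans (N_Xs_le k _)) _
      refine (Finset.sum_le_sum e3).trans ?_
      rw [← Finset.mul_sum]
      have := sum_N_Ps_pow_le hA ht0 k M
      linarith
    have hN2 : N τ k (fun i : Fin (M + 1) => U2 i) ≤ 3 / 2 * tn A' ^ (1 / (2 : ℝ) ^ (k + 1)) := by
      refine (N_le_of_pow_sum (fun i => by positivity) k _ (S := 2 * tn A') ?_).trans
        (rpow_bound (tn_nonneg A') hP2 (by norm_num) (by norm_num) (by norm_num))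
      have e1 : ∑ i : Fin (M + 1), (t0 * 2 ^ (i : ℕ)) * N (trL E) k (U2 i) ^ (2 ^ (k + 1)) =
          ∑ i ∈ Finset.range (M + 1), t i * N (trL E) k (U2 i) ^ (2 ^ (k + 1)) :=
        (Finset.sum_range (fun i => t i * N (trL E) k (U2 i) ^ (2 ^ (k + 1)))).symm
      rw [e1, Finset.sum_range_succ]
      have e2 : N (trL E) k (U2 M) ^ (2 ^ (k + 1)) = 0 := by
        have : N (trL E) k (0 : E →L[ℝ] E) = 0 := by
          have := N_smul (A := E →L[ℝ] E) tracial_trL k (0 : ℝ) 0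
          simpa using this
        simp [hU2, this]
      rw [e2, mul_zero, add_zero]
      have e3 : ∀ i ∈ Finset.range M, t i * N (trL E) k (U2 i) ^ (2 ^ (k + 1)) ≤
          2⁻¹ * (t (i + 1) * N (trL E) k (Ps (t (i + 1)) A') ^ (2 ^ (k + 1))) := by
        intro i hi
        have h1 : U2 i = K * Fs (t (i + 1)) A' := by
          simp only [hU2, hM2]; rw [if_pos (Finset.mem_range.1 hi)]
        have h2 : t i = 2⁻¹ * t (i + 1) := by rw [htsucc]; ring
        rw [h1]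
        conv_lhs => rw [h2]
        rw [mul_assoc]
        refine mul_le_mul_of_nonneg_left (mul_le_mul_of_nonneg_left ?_ (htpos _).le) (by norm_num)
        exact pow_le_pow_left₀ (N_nonneg _ _) (((N_contr k _ K hK).2).trans (N_Fs_le k _)) _
      refine (Finset.sum_le_sum e3).trans ?_
      rw [← Finset.mul_sum]
      have h5 := sum_N_Ps_pow_le hA' ht0 k (M + 1)
      rw [Finset.sum_range_succ'] at h5
      have h6 : 0 ≤ (t0 * 2 ^ 0) * N (trL E) k (Ps (t0 * 2 ^ 0) A') ^ (2 ^ (k + 1)) :=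
        mul_nonneg (by positivity) (pow_nonneg (N_nonneg _ _) _)
      have h7 : ∑ i ∈ Finset.range M, t (i + 1) * N (trL E) k (Ps (t (i + 1)) A') ^ (2 ^ (k + 1)) ≤
          4 * tn A' := by
        refine le_trans ?_ h5
        exact le_add_of_nonneg_right h6
      linarith
    have hb1 : N τ k B1 ≤ 3 / 4 * N τ k (fun i : Fin (M + 1) => U1 i) := by
      have e : B1 = (3 / 8 : ℝ) • ((fun i : Fin (M + 1) => U1 i) + (-1 : ℝ) • star (fun i : Fin (M + 1) => U1 i)) := by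
        ext1 i
        simp only [hB1, Pi.smul_apply, Pi.add_apply, Pi.star_apply, Pi.neg_apply, neg_one_smul,
          sub_eq_add_neg]
      rw [e, N_smul hτtr]
      have h1 := N_add_le hτtr k (fun i : Fin (M + 1) => U1 i) ((-1 : ℝ) • star (fun i : Fin (M + 1) => U1 i))
      rw [N_smul hτtr, N_star hτtr, abs_neg, abs_one, one_mul] at h1
      have : |(3 / 8 : ℝ)| = 3 / 8 := by norm_num
      rw [this]; linarith
    have hb2 : N τ k B2 ≤ 3 / 2 * N τ k (fun i : Fin (M + 1) => U2 i) := by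
      have e : B2 = (3 / 4 : ℝ) • ((fun i : Fin (M + 1) => U2 i) + star (fun i : Fin (M + 1) => U2 i)) := by
        ext1 i
        simp only [hB2, Pi.smul_apply, Pi.add_apply, Pi.star_apply]
      rw [e, N_smul hτtr]
      have h1 := N_add_le hτtr k (fun i : Fin (M + 1) => U2 i) (star (fun i : Fin (M + 1) => U2 i))
      rw [N_star hτtr] at h1
      have : |(3 / 4 : ℝ)| = 3 / 4 := by norm_num
      rw [this]; linarith
    have hs1 : 0 ≤ tn A ^ (1 / (2 : ℝ) ^ (k + 1)) := Real.rpow_nonneg (tn_nonneg _) _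
    have hs2 : 0 ≤ tn A' ^ (1 / (2 : ℝ) ^ (k + 1)) := Real.rpow_nonneg (tn_nonneg _) _
    have := N_add_le hτtr k B1 B2
    linarith
  · -- the reproducing formula
    have e1 : ∑ i : Fin (M + 1), (t0 * 2 ^ (i : ℕ)) *
          trL E ((Ps (t0 * 2 ^ (i : ℕ)) A - Ps (t0 * 2 ^ (i : ℕ)) A') * (B1 + B2) i) =
        ∑ i ∈ Finset.range (M + 1), t i * trL E ((Ps (t i) A - Ps (t i) A') *
            ((3 / 8 : ℝ) • (U1 i - star (U1 i)) + (3 / 4 : ℝ) • (U2 i + star (U2 i)))) :=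
      (Finset.sum_range (fun i => t i * trL E ((Ps (t i) A - Ps (t i) A') *
            ((3 / 8 : ℝ) • (U1 i - star (U1 i)) + (3 / 4 : ℝ) • (U2 i + star (U2 i)))))).symm
    have e2 : ∑ i ∈ Finset.range (M + 1), t i * trL E ((Ps (t i) A - Ps (t i) A') *
            ((3 / 8 : ℝ) • (U1 i - star (U1 i)) + (3 / 4 : ℝ) • (U2 i + star (U2 i)))) =
        ∑ i ∈ Finset.range M, (3 / 2 * t i) *
          trL E (K * (Fs (t (i + 1)) A * Xs (t i) A - Fs (t (i + 1)) A' * Xs (t i) A')) := by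
      have h1 : ∀ i, t i * trL E ((Ps (t i) A - Ps (t i) A') *
            ((3 / 8 : ℝ) • (U1 i - star (U1 i)) + (3 / 4 : ℝ) • (U2 i + star (U2 i)))) =
          (3 / 8 * t i) * trL E ((Ps (t i) A - Ps (t i) A') * (U1 i - star (U1 i))) +
          (3 / 4 * t i) * trL E ((Ps (t i) A - Ps (t i) A') * (U2 i + star (U2 i))) := by
        intro i
        rw [mul_add, mul_smul_comm, mul_smul_comm, map_add, map_smul, map_smul, smul_eq_mul,
          smul_eq_mul]
        ring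
      simp only [h1]
      rw [Finset.sum_add_distrib, Finset.sum_range_succ', Finset.sum_range_succ]
      have h2 : U1 0 = 0 := by simp [hU1]
      have h3 : U2 M = 0 := by simp [hU2]
      rw [h2, h3]
      simp only [star_zero, sub_zero, add_zero, mul_zero, map_zero]
      rw [← Finset.sum_add_distrib]
      refine Finset.sum_congr rfl fun i hi => ?_
      have h4 : U1 (i + 1) = Xs (t i) A * K := by simp [hU1, hM1]
      have h5 : U2 i = K * Fs (t (i + 1)) A' := by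
        simp only [hU2, hM2]; rw [if_pos (Finset.mem_range.1 hi)]
      have h6 := trL_Fs_sub A A' (t (i + 1)) (Xs (t i) A * K)
      have h7 := trL_Xs_sub A A' (t i) (K * Fs (t (i + 1)) A')
      have h8 : trL E (K * (Fs (t (i + 1)) A * Xs (t i) A - Fs (t (i + 1)) A' * Xs (t i) A')) =
          trL E ((Fs (t (i + 1)) A - Fs (t (i + 1)) A') * (Xs (t i) A * K)) +
          trL E ((Xs (t i) A - Xs (t i) A') * (K * Fs (t (i + 1)) A')) := by
        have g1 : K * (Fs (t (i + 1)) A * Xs (t i) A - Fs (t (i + 1)) A' * Xs (t i) A') =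
            K * ((Fs (t (i + 1)) A - Fs (t (i + 1)) A') * Xs (t i) A) +
            (K * Fs (t (i + 1)) A') * (Xs (t i) A - Xs (t i) A') := by
          simp only [mul_sub, sub_mul, mul_assoc]; abel
        rw [g1, map_add, trL_comm K, trL_comm (K * Fs (t (i + 1)) A'), mul_assoc]
      rw [h8, h6, h7, h4, h5, htsucc]
      ring
    rw [e1, e2]
    have e3 : ∑ i ∈ Finset.range M, (3 / 2 * t i) *
          trL E (K * (Fs (t (i + 1)) A * Xs (t i) A - Fs (t (i + 1)) A' * Xs (t i) A')) =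
        trL E (K * (((t0 * 2 ^ M) • Fs (t0 * 2 ^ M) A - t0 • Fs t0 A) -
          ((t0 * 2 ^ M) • Fs (t0 * 2 ^ M) A' - t0 • Fs t0 A'))) := by
      rw [← telescope_sum hA ht0 M, ← telescope_sum hA' ht0 M, ← Finset.sum_sub_distrib,
        Finset.mul_sum, map_sum]
      refine Finset.sum_congr rfl fun i _ => ?_
      rw [← smul_sub, mul_smul_comm, map_smul, smul_eq_mul]
    rw [e3, hKt]
    have e4 : A - A' = (((t0 * 2 ^ M) • Fs (t0 * 2 ^ M) A - t0 • Fs t0 A) -
          ((t0 * 2 ^ M) • Fs (t0 * 2 ^ M) A' - t0 • Fs t0 A')) +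
        ((A - (t0 * 2 ^ M) • Fs (t0 * 2 ^ M) A) - (A' - (t0 * 2 ^ M) • Fs (t0 * 2 ^ M) A') +
          (t0 • Fs t0 A - t0 • Fs t0 A')) := by abel
    conv_lhs => rw [e4]
    rw [mul_add, map_add]
    refine add_le_add (le_refl _) ?_
    refine (le_abs_self _).trans ((abs_trL_le _).trans ?_)
    refine mul_le_mul_of_nonneg_left ?_ (Nat.cast_nonneg _)
    refine (norm_mul_le _ _).trans ?_
    have htM : 0 < t0 * 2 ^ M := by positivity
    have n1 := norm_A_sub_le hA htM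
    have n2 := norm_A_sub_le hA' htM
    have n3 : ‖t0 • Fs t0 A‖ ≤ t0 := by
      rw [norm_smul, Real.norm_of_nonneg ht0.le]
      exact mul_le_of_le_one_right ht0.le (norm_Fs_le hA ht0)
    have n4 : ‖t0 • Fs t0 A'‖ ≤ t0 := by
      rw [norm_smul, Real.norm_of_nonneg ht0.le]
      exact mul_le_of_le_one_right ht0.le (norm_Fs_le hA' ht0)
    refine (mul_le_mul_of_nonneg_right hK (norm_nonneg _)).trans ?_
    rw [one_mul, add_div]
    refine (norm_add_le _ _).trans ?_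
    have n5 := norm_sub_le (A - (t0 * 2 ^ M) • Fs (t0 * 2 ^ M) A) (A' - (t0 * 2 ^ M) • Fs (t0 * 2 ^ M) A')
    have n6 := norm_sub_le (t0 • Fs t0 A) (t0 • Fs t0 A')
    linarith

end Pool.H45.S1
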