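import Pool.Agent.Helper45.S1.UpperL
import Pool.Agent.Helper45.S1.Lower

/-!
# The cut-off identity with sparse scales
-/

open scoped BigOperators InnerProductSpace
open Module

set_option linter.unusedSectionVars false

namespace Pool.H45.S1

variable {E : Type*} [NormedAddCommGroup E] [InnerProductSpace ℝ E] [FiniteDimensional ℝ E]
  [CompleteSpace E]

theorem Qs_comm {A : E →L[ℝ] E} (hA : star A = -A) {s t : ℝ} (hs : 0 < s) (ht : 0 < t) :
    Qs t A * Qs s A = Qs s A * Qs t A := by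
  have hc : Commute (Qs t A) A := A_mul_Qs hA ht
  have hc2 : Commute (Qs t A) (s ^ 2 • (1 : E →L[ℝ] E) - A * A) :=
    ((Commute.one_right _).smul_right _).sub_right (hc.mul_right hc)
  calc Qs t A * Qs s A = (Qs s A * (s ^ 2 • (1 : E →L[ℝ] E) - A * A)) * (Qs t A * Qs s A) := by
        rw [Qs_mul hA hs, one_mul]
    _ = Qs s A * (((s ^ 2 • (1 : E →L[ℝ] E) - A * A) * Qs t A) * Qs s A) := by
        simp only [mul_assoc]
    _ = Qs s A * ((Qs t A * (s ^ 2 • (1 : E →L[ℝ] E) - A * A)) * Qs s A) := by rw [hc2.eq]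
    _ = (Qs s A * Qs t A) * ((s ^ 2 • (1 : E →L[ℝ] E) - A * A) * Qs s A) := by
        simp only [mul_assoc]
    _ = Qs s A * Qs t A := by rw [mul_Qs hA hs, mul_one]

theorem Xs_Fs_comm {A : E →L[ℝ] E} (hA : star A = -A) {s t : ℝ} (hs : 0 < s) (ht : 0 < t) :
    Xs t A * Fs s A = Fs s A * Xs t A := by
  rw [Xs_eq hA ht, Fs_eq hA hs]
  have h1 : Qs t A * (A * Qs s A) = (A * Qs s A) * Qs t A := by
    rw [← mul_assoc, A_mul_Qs hA ht, mul_assoc, Qs_comm hA hs ht, mul_assoc]
  simp only [sub_mul, mul_sub, one_mul, mul_one, smul_mul_assoc, mul_smul_comm, h1]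
  rw [smul_sub, smul_comm s (t ^ 2)]

theorem telescopeL {A : E →L[ℝ] E} (hA : star A = -A) {t L : ℝ} (ht : 0 < t) (hL : 0 < L) :
    (1 - (L ^ 2)⁻¹) • (((L * t) • Fs (L * t) A) * Xs t A) =
      (L * t) • Fs (L * t) A - t • Fs t A := by
  have ht2 : 0 < L * t := by positivity
  set q := Qs t A with hqd
  set r := Qs (L * t) A with hrd
  have hres : q - r = ((L ^ 2 - 1) * t ^ 2) • (r * q) := by
    have e1 : r * (((L * t) ^ 2 • (1 : E →L[ℝ] E) - A * A) * q) = q := by
      rw [← mul_assoc, Qs_mul hA ht2, one_mul]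
    have e2 : r * ((t ^ 2 • (1 : E →L[ℝ] E) - A * A) * q) = r := by
      rw [mul_Qs hA ht, mul_one]
    have e3 : q - r = r * (((L * t) ^ 2 • (1 : E →L[ℝ] E) - A * A) * q) -
      r * ((t ^ 2 • (1 : E →L[ℝ] E) - A * A) * q) := by rw [e1, e2]
    have : ((L ^ 2 - 1) * t ^ 2) • (r * q) = (L * t) ^ 2 • (r * q) - t ^ 2 • (r * q) := by
      rw [← sub_smul]; congr 1; ring
    rw [e3, this]
    simp only [sub_mul, mul_sub, smul_mul_assoc, mul_smul_comm, one_mul]
    abel
  rw [Fs_eq hA ht2, Fs_eq hA ht, Xs_eq hA ht, ← hqd, ← hrd]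
  have hq' : q = r + ((L ^ 2 - 1) * t ^ 2) • (r * q) := by rw [← hres]; abel
  have e4 : A * q = A * r + ((L ^ 2 - 1) * t ^ 2) • (A * (r * q)) := by
    conv_lhs => rw [hq']
    rw [mul_add, mul_smul_comm]
  rw [e4]
  simp only [smul_mul_assoc, mul_sub, mul_one, mul_smul_comm, smul_smul, smul_sub, smul_add,
    mul_assoc]
  have : ∀ (a b c d e : ℝ) (x y : E →L[ℝ] E), d = a - b → e = c →
      d • x - e • y = a • x - (b • x + c • y) := by
    intro a b c d e x y h1 h2
    rw [h1, h2, sub_smul]; abel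
  exact this _ _ _ _ _ _ _ (by field_simp) (by field_simp)

/-- the algebraic cut-off identity -/
theorem cut_identity (κ : ℝ) (a c x a' c' x' : E →L[ℝ] E) (hax : x * a = a * x)
    (hcx : x * c = c * x) (h : κ • (a * x) = a - c) (h' : κ • (a' * x') = a' - c') :
    (a - c) - (a' - c') = x * (a - a') + κ • ((1 - x) * (a - a') * x') - x * (c - c') +
      (c - (1 - κ) • a) * (x - x') := by
  have e0 : κ • (a * x * x') = (a - c) * x' := by rw [← smul_mul_assoc, h]
  have e1 : κ • (a * x') - κ • (x * a * x') = κ • (a * x') - (a - c) * x' := by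
    rw [hax, e0]
  have e2 : κ • (x * a' * x') = x * (a' - c') := by
    rw [mul_assoc, ← mul_smul_comm, h']
  have e3 : κ • ((1 - x) * (a - a') * x') =
      κ • (a * x') - (a - c) * x' - (a' - c') + x * (a' - c') := by
    have : (1 - x) * (a - a') * x' = a * x' - x * a * x' - a' * x' + x * a' * x' := by
      simp only [sub_mul, mul_sub, one_mul]; abel
    rw [this, smul_add, smul_sub, smul_sub, e1, e2, h']
  rw [e3]
  have e4 : (c - (1 - κ) • a) * (x - x') = c * x - c * x' - (a * x - (a - c)) +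
      (a * x' - κ • (a * x')) := by
    have h1 : ((1 - κ) • a) * x = a * x - (a - c) := by
      rw [smul_mul_assoc, sub_smul, one_smul, h]
    have h2 : ((1 - κ) • a) * x' = a * x' - κ • (a * x') := by
      rw [smul_mul_assoc, sub_smul, one_smul]
    rw [sub_mul, mul_sub, mul_sub, h1, h2]; abel
  rw [e4]
  simp only [sub_mul, mul_sub, hax, hcx]
  abel

theorem norm_one_sub_Xs_le {A : E →L[ℝ] E} (hA : star A = -A) {t : ℝ} (ht : 0 < t) :
    ‖1 - Xs t A‖ ≤ 1 := by
  rw [Xs_eq hA ht]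
  have : (1 : E →L[ℝ] E) - (1 - t ^ 2 • Qs t A) = t ^ 2 • Qs t A := by abel
  rw [this, norm_smul, Real.norm_of_nonneg (by positivity)]
  exact norm_Qs_le hA ht

theorem sum_N_Ps_pow_leL {A : E →L[ℝ] E} (hA : star A = -A) {t0 : ℝ} (ht0 : 0 < t0) (k M : ℕ) :
    ∑ i ∈ Finset.range M, sc t0 k i * N (trL E) k (Ps (sc t0 k i) A) ^ (2 ^ (k + 1)) ≤
      4 * tn A := by
  refine (Finset.sum_le_sum fun i _ => N_Ps_pow_le hA (sc_pos ht0 k i) k).trans ?_
  rw [Finset.sum_comm, tn, Finset.mul_sum]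
  refine Finset.sum_le_sum fun m _ => ?_
  have h0 := sv_nonneg A m
  set a := sv A m
  rw [Finset.sum_add_distrib]
  have hL := Lk_pos k
  have hL2 := two_le_Lk k
  have h1 := geomG_small (t := sc t0 k) (sc_pos ht0 k) (two_sc_le ht0 k) h0 M
  have h2 : ∑ i ∈ Finset.range M, (if a ≤ sc t0 k i then a * (a / sc t0 k i) else 0) ≤ 2 * a := by
    have hr : (Lk k)⁻¹ ≤ 1 / 2 := by
      rw [inv_le_comm₀ hL (by norm_num)]; linarith
    have hr0 : 0 < (Lk k)⁻¹ := by positivity
    have h3 := geomG_large (σ := a) (t := sc t0 k) (r := (Lk k)⁻¹)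
      (u := fun i => a / sc t0 k i) hr0 (by linarith)
      (fun i => by
        have := sc_pos ht0 k i
        rw [sc_succ]; field_simp)
      (fun i => by
        have := sc_pos ht0 k i
        positivity)
      (fun i hi => by rw [div_le_one (sc_pos ht0 k i)]; exact hi) M
    have e : ∀ i ∈ Finset.range M, (if a ≤ sc t0 k i then a * (a / sc t0 k i) else 0) =
        a * (if a ≤ sc t0 k i then a / sc t0 k i else 0) := by
      intro i _
      split_ifs <;> simp
    rw [Finset.sum_congr rfl e, ← Finset.mul_sum]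
    have h4 : (1 - (Lk k)⁻¹)⁻¹ ≤ 2 := by
      rw [inv_le_comm₀ (by linarith) (by norm_num)]; linarith
    nlinarith
  linarith

theorem telescope_sumL (A : E →L[ℝ] E) (t0 : ℝ) (k M : ℕ) :
    ∑ i ∈ Finset.range M, (sc t0 k (i + 1) • Fs (sc t0 k (i + 1)) A -
      sc t0 k i • Fs (sc t0 k i) A) =
      sc t0 k M • Fs (sc t0 k M) A - sc t0 k 0 • Fs (sc t0 k 0) A :=
  Finset.sum_range_sub (fun i => sc t0 k i • Fs (sc t0 k i) A) M

end Pool.H45.S1
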