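import Mathlib

/-!
# Common definitions for MP_428398_an (embeddings into the trace class)
-/

open scoped BigOperators

namespace Pool.H45.S1

/-- the real number `±1` attached to a sign -/
def sg (u : ℤˣ) : ℝ := ((u : ℤ) : ℝ)

/-- average over all sign vectors -/
noncomputable def avg {n : ℕ} {Y : Type*} [AddCommGroup Y] [Module ℝ Y]
    (f : (Fin n → ℤˣ) → Y) : Y :=
  ((2 : ℝ) ^ n)⁻¹ • ∑ ε, f ε

/-- Rademacher type 2 with constant `√K` (second moments). -/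
def HasType2 (Z : Type*) [SeminormedAddCommGroup Z] [NormedSpace ℝ Z] (K : ℝ) : Prop :=
  ∀ (n : ℕ) (z : Fin n → Z),
    avg (fun ε => ‖∑ j, sg (ε j) • z j‖ ^ 2) ≤ K * ∑ j, ‖z j‖ ^ 2

/-- the inequality dual to type 2 -/
def KProp (Y : Type*) [SeminormedAddCommGroup Y] [NormedSpace ℝ Y] (K : ℝ) : Prop :=
  ∀ (n : ℕ) (g : (Fin n → ℤˣ) → Y),
    ∑ j, ‖avg (fun ε => sg (ε j) • g ε)‖ ^ 2 ≤ K * avg (fun ε => ‖g ε‖ ^ 2)

/-- a tracial functional on a real star algebra -/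
structure Tracial {A : Type*} [Ring A] [StarRing A] [Algebra ℝ A] (τ : A →ₗ[ℝ] ℝ) : Prop where
  map_comm : ∀ a b, τ (a * b) = τ (b * a)
  map_star : ∀ a, τ (star a) = τ a
  map_nonneg : ∀ a, 0 ≤ τ (star a * a)

/-- the Schatten `2^(k+1)` norm attached to a tracial functional -/
noncomputable def N {A : Type*} [Ring A] [StarRing A] [Algebra ℝ A] (τ : A →ₗ[ℝ] ℝ) :
    ℕ → A → ℝ
  | 0, a => √(τ (star a * a))
  | (k + 1), a => √(N τ k (star a * a))

end Pool.H45.S1
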