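import Pool.Agent.Helper45.S1.Svd

/-!
# Skew-adjoint dilation
-/

open scoped BigOperators InnerProductSpace
open Module

set_option linter.unusedSectionVars false

namespace Pool.H45.S1

variable {W E : Type*} [NormedAddCommGroup W] [InnerProductSpace ℝ W] [FiniteDimensional ℝ W]
  [CompleteSpace W] [NormedAddCommGroup E] [InnerProductSpace ℝ E] [FiniteDimensional ℝ E]
  [CompleteSpace E]

theorem tn_star_le (T : E →L[ℝ] E) : tn (star T) ≤ tn T := by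
  obtain ⟨K, hK, h⟩ := exists_contraction (star T)
  rw [h, ← trL_star, star_mul, star_star]
  exact (le_abs_self _).trans (abs_trL_mul_le_tn T (star K) (by rwa [clm_norm_star]))

theorem tn_neg_le (T : E →L[ℝ] E) : tn (-T) ≤ tn T := by
  obtain ⟨K, hK, h⟩ := exists_contraction (-T)
  rw [h]
  have : K * -T = (-K) * T := by rw [mul_neg, neg_mul]
  rw [this, trL_comm]
  exact (le_abs_self _).trans (abs_trL_mul_le_tn T (-K) (by rwa [norm_neg]))

/-- cyclicity of the trace for maps between different spaces -/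
theorem trL_comp_comm (f : W →L[ℝ] E) (g : E →L[ℝ] W) :
    trL E (f ∘L g) = trL W (g ∘L f) := by
  rw [trL_apply, trL_apply]
  exact (LinearMap.trace_comp_comm' (f : W →ₗ[ℝ] E) (g : E →ₗ[ℝ] W)).symm

theorem tn_comp_le (V : W →L[ℝ] E) (U : E →L[ℝ] W) (hV : ‖V‖ ≤ 1) (hU : ‖U‖ ≤ 1)
    (δ : W →L[ℝ] W) : tn (V ∘L (δ ∘L U)) ≤ tn δ := by
  obtain ⟨K, hK, h⟩ := exists_contraction (V ∘L (δ ∘L U))
  rw [h]
  have e1 : K * (V ∘L (δ ∘L U)) = (K ∘L V ∘L δ) ∘L U := rfl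
  rw [e1, trL_comp_comm]
  have e2 : U ∘L (K ∘L V ∘L δ) = (U ∘L K ∘L V) * δ := rfl
  rw [e2, trL_comm]
  refine (le_abs_self _).trans (abs_trL_mul_le_tn δ _ ?_)
  refine (ContinuousLinearMap.opNorm_comp_le _ _).trans ?_
  have h1 := ContinuousLinearMap.opNorm_comp_le K V
  have h2 : ‖K ∘L V‖ ≤ 1 := h1.trans (mul_le_one₀ hK (norm_nonneg _) hV)
  exact mul_le_one₀ hU (norm_nonneg _) h2

/-- the skew dilation -/
noncomputable def dil (V₁ V₂ : W →L[ℝ] E) (δ : W →L[ℝ] W) : E →L[ℝ] E :=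
  V₂ ∘L (δ ∘L ContinuousLinearMap.adjoint V₁) - V₁ ∘L (star δ ∘L ContinuousLinearMap.adjoint V₂)

theorem dil_sub (V₁ V₂ : W →L[ℝ] E) (δ δ' : W →L[ℝ] W) :
    dil V₁ V₂ (δ - δ') = dil V₁ V₂ δ - dil V₁ V₂ δ' := by
  ext x
  simp only [dil, star_sub, sub_apply, ContinuousLinearMap.comp_apply, map_sub]
  abel

theorem star_dil (V₁ V₂ : W →L[ℝ] E) (δ : W →L[ℝ] W) :
    star (dil V₁ V₂ δ) = - dil V₁ V₂ δ := by
  rw [dil, star_sub]
  simp only [ContinuousLinearMap.star_eq_adjoint, ContinuousLinearMap.adjoint_comp,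
    ContinuousLinearMap.adjoint_adjoint]
  rw [neg_sub]
  rfl

theorem tn_dil_le {V₁ V₂ : W →L[ℝ] E} (h₁ : ‖V₁‖ ≤ 1) (h₂ : ‖V₂‖ ≤ 1) (δ : W →L[ℝ] W) :
    tn (dil V₁ V₂ δ) ≤ 2 * tn δ := by
  have a₁ : ‖ContinuousLinearMap.adjoint V₁‖ ≤ 1 := by rwa [LinearIsometryEquiv.norm_map]
  have a₂ : ‖ContinuousLinearMap.adjoint V₂‖ ≤ 1 := by rwa [LinearIsometryEquiv.norm_map]
  rw [dil, sub_eq_add_neg]
  refine (tn_add_le _ _).trans ?_
  have b₁ := tn_comp_le V₂ (ContinuousLinearMap.adjoint V₁) h₂ a₁ δ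
  have b₂ := tn_comp_le V₁ (ContinuousLinearMap.adjoint V₂) h₁ a₂ (star δ)
  have b₃ := tn_star_le δ
  have b₄ := tn_neg_le (V₁ ∘L (star δ ∘L ContinuousLinearMap.adjoint V₂))
  linarith

theorem le_tn_dil {V₁ V₂ : W →L[ℝ] E} (h₁ : ‖V₁‖ ≤ 1) (h₂ : ‖V₂‖ ≤ 1)
    (e₁ : ContinuousLinearMap.adjoint V₁ ∘L V₁ = 1) (e₂ : ContinuousLinearMap.adjoint V₂ ∘L V₂ = 1)
    (e₃ : ContinuousLinearMap.adjoint V₂ ∘L V₁ = 0) (δ : W →L[ℝ] W) :
    tn δ ≤ tn (dil V₁ V₂ δ) := by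
  obtain ⟨K, hK, h⟩ := exists_contraction δ
  have a₂ : ‖ContinuousLinearMap.adjoint V₂‖ ≤ 1 := by rwa [LinearIsometryEquiv.norm_map]
  set KK : E →L[ℝ] E := V₁ ∘L (K ∘L ContinuousLinearMap.adjoint V₂) with hKK
  have hKKn : ‖KK‖ ≤ 1 := by
    refine (ContinuousLinearMap.opNorm_comp_le _ _).trans ?_
    have h1 := ContinuousLinearMap.opNorm_comp_le K (ContinuousLinearMap.adjoint V₂)
    exact mul_le_one₀ h₁ (norm_nonneg _) (h1.trans (mul_le_one₀ hK (norm_nonneg _) a₂))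
  have key : trL W (K * δ) = trL E (dil V₁ V₂ δ * KK) := by
    have e4 : dil V₁ V₂ δ * KK = (V₂ ∘L (δ ∘L K)) ∘L ContinuousLinearMap.adjoint V₂ := by
      ext x
      have g1 : ∀ y, ContinuousLinearMap.adjoint V₁ (V₁ y) = y := fun y => by
        have := congrArg (fun T : W →L[ℝ] W => T y) e₁
        simpa using this
      have g3 : ∀ y, ContinuousLinearMap.adjoint V₂ (V₁ y) = 0 := fun y => by
        have := congrArg (fun T : W →L[ℝ] W => T y) e₃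
        simpa using this
      rw [clm_mul_apply, hKK]
      simp only [dil, sub_apply, ContinuousLinearMap.comp_apply, g1, g3, map_zero, sub_zero]
    rw [e4, trL_comp_comm]
    have e5 : ContinuousLinearMap.adjoint V₂ ∘L (V₂ ∘L (δ ∘L K)) =
        (ContinuousLinearMap.adjoint V₂ ∘L V₂) ∘L (δ ∘L K) := rfl
    rw [e5, e₂, trL_comm]
    rfl
  rw [h, key]
  exact (le_abs_self _).trans (abs_trL_mul_le_tn _ KK hKKn)

/-- existence of the two isometries -/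
theorem exists_isometries (W : Type*) [NormedAddCommGroup W] [InnerProductSpace ℝ W]
    [FiniteDimensional ℝ W] [CompleteSpace W] :
    ∃ V₁ V₂ : W →L[ℝ] WithLp 2 (W × W), ‖V₁‖ ≤ 1 ∧ ‖V₂‖ ≤ 1 ∧
      ContinuousLinearMap.adjoint V₁ ∘L V₁ = 1 ∧ ContinuousLinearMap.adjoint V₂ ∘L V₂ = 1 ∧
      ContinuousLinearMap.adjoint V₂ ∘L V₁ = 0 := by
  let L₁ : W →ₗ[ℝ] WithLp 2 (W × W) :=
    (WithLp.linearEquiv 2 ℝ (W × W)).symm.toLinearMap ∘ₗ LinearMap.inl ℝ W W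
  let L₂ : W →ₗ[ℝ] WithLp 2 (W × W) :=
    (WithLp.linearEquiv 2 ℝ (W × W)).symm.toLinearMap ∘ₗ LinearMap.inr ℝ W W
  have hin₁ : ∀ x y : W, ⟪L₁ x, L₁ y⟫_ℝ = ⟪x, y⟫_ℝ := by
    intro x y
    rw [WithLp.prod_inner_apply]
    simp [L₁]
  have hin₂ : ∀ x y : W, ⟪L₂ x, L₂ y⟫_ℝ = ⟪x, y⟫_ℝ := by
    intro x y
    rw [WithLp.prod_inner_apply]
    simp [L₂]
  have hin₃ : ∀ x y : W, ⟪L₂ x, L₁ y⟫_ℝ = 0 := by
    intro x y
    rw [WithLp.prod_inner_apply]
    simp [L₁, L₂]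
  refine ⟨LinearMap.toContinuousLinearMap L₁, LinearMap.toContinuousLinearMap L₂, ?_, ?_, ?_, ?_, ?_⟩
  · refine ContinuousLinearMap.opNorm_le_bound _ zero_le_one fun x => ?_
    rw [one_mul]
    refine le_of_sq_le_sq ?_ (norm_nonneg _)
    rw [← real_inner_self_eq_norm_sq, ← real_inner_self_eq_norm_sq]
    exact (hin₁ x x).le
  · refine ContinuousLinearMap.opNorm_le_bound _ zero_le_one fun x => ?_
    rw [one_mul]
    refine le_of_sq_le_sq ?_ (norm_nonneg _)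
    rw [← real_inner_self_eq_norm_sq, ← real_inner_self_eq_norm_sq]
    exact (hin₂ x x).le
  · ext x
    refine ext_inner_left ℝ fun y => ?_
    rw [ContinuousLinearMap.comp_apply, ContinuousLinearMap.adjoint_inner_right]
    exact hin₁ y x
  · ext x
    refine ext_inner_left ℝ fun y => ?_
    rw [ContinuousLinearMap.comp_apply, ContinuousLinearMap.adjoint_inner_right]
    exact hin₂ y x
  · ext x
    refine ext_inner_left ℝ fun y => ?_
    rw [ContinuousLinearMap.comp_apply, ContinuousLinearMap.adjoint_inner_right]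
    simpa using hin₃ y x

end Pool.H45.S1
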