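import Pool.Agent.Helper45.S1.StarTCL
import Pool.Agent.Helper45.S1.Cotype

/-!
# Maps with a large gap force almost cotype two
-/

open scoped BigOperators
open Finset Filter Topology

set_option linter.unusedSectionVars false

namespace Pool.H45.S1

variable {X : Type*} [NormedAddCommGroup X] [NormedSpace ℝ X]
variable {ρ : X → X → ℝ}

theorem one_le_mom {n : ℕ} (hn : 1 ≤ n) {v : Fin n → X} (hv : ∀ j, ‖v j‖ = 1) : 1 ≤ mom v := by
  classical
  set j₀ : Fin n := ⟨0, hn⟩ with hj₀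
  have h := mom_contraction v (fun j => if j = j₀ then 1 else 0) (fun j => by
    by_cases hj : j = j₀ <;> simp [hj])
  refine le_trans (le_of_eq ?_) h
  rw [mom]
  have e : (fun ε : Fin n → ℤˣ => ‖∑ j, sg (ε j) • ((if j = j₀ then (1 : ℝ) else 0) • v j)‖ ^ 2) =
      fun _ => 1 := by
    ext ε
    rw [Finset.sum_eq_single j₀]
    · rw [if_pos rfl, one_smul, norm_smul, Real.norm_eq_abs, abs_sg, hv, one_mul, one_pow]
    · intro j _ hj
      rw [if_neg hj, zero_smul, smul_zero]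
    · intro hj; exact absurd (Finset.mem_univ _) hj
  rw [e, avg_const]

/-- chaining -/
theorem chain_le (hself : ∀ x, ρ x x = 0) (htri : ∀ x y z, ρ x z ≤ ρ x y + ρ y z) {t a : ℝ}
    (h : ∀ x y, ‖x - y‖ ≤ t → ρ x y ≤ a) (n : ℕ) :
    ∀ x y, ‖x - y‖ ≤ n * t → ρ x y ≤ n * a := by
  induction n with
  | zero =>
    intro x y hxy
    have : x = y := by
      rw [Nat.cast_zero, zero_mul] at hxy
      exact sub_eq_zero.1 (norm_le_zero_iff.1 hxy)
    rw [this, hself]; simp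
  | succ n ih =>
    intro x y hxy
    set z : X := x + ((n : ℝ) + 1)⁻¹ • (y - x) with hz
    have hn : (0 : ℝ) < (n : ℝ) + 1 := by positivity
    have e1 : x - z = ((n : ℝ) + 1)⁻¹ • (x - y) := by rw [hz]; module
    have e2 : z - y = ((n : ℝ) * ((n : ℝ) + 1)⁻¹) • (x - y) := by
      rw [hz]
      have : (n : ℝ) * ((n : ℝ) + 1)⁻¹ = 1 - ((n : ℝ) + 1)⁻¹ := by field_simp; ring
      rw [this]; module
    push_cast at hxy ⊢
    have h1 : ‖x - z‖ ≤ t := by
      rw [e1, norm_smul, Real.norm_eq_abs, abs_of_pos (by positivity), inv_mul_le_iff₀ hn]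
      exact hxy
    have h2 : ‖z - y‖ ≤ n * t := by
      rw [e2, norm_smul, Real.norm_eq_abs, abs_of_nonneg (by positivity), mul_assoc]
      refine mul_le_mul_of_nonneg_left ?_ (Nat.cast_nonneg n)
      rw [inv_mul_le_iff₀ hn]; exact hxy
    have h3 := htri x z y
    have h4 := h x z h1
    have h5 := ih z y h2
    linarith

theorem chain_bound (hself : ∀ x, ρ x x = 0) (htri : ∀ x y z, ρ x z ≤ ρ x y + ρ y z) {t a : ℝ}
    (ht : 0 < t) (ha : 0 ≤ a) (h : ∀ x y, ‖x - y‖ ≤ t → ρ x y ≤ a) (x y : X) :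
    ρ x y ≤ a * (1 + ‖x - y‖ / t) := by
  have h1 : ‖x - y‖ ≤ (⌈‖x - y‖ / t⌉₊ : ℝ) * t := by
    rw [← div_le_iff₀ ht]; exact Nat.le_ceil _
  have h2 := chain_le hself htri h ⌈‖x - y‖ / t⌉₊ x y h1
  have h3 : (⌈‖x - y‖ / t⌉₊ : ℝ) < ‖x - y‖ / t + 1 := Nat.ceil_lt_add_one (by positivity)
  calc ρ x y ≤ (⌈‖x - y‖ / t⌉₊ : ℝ) * a := h2
    _ ≤ (‖x - y‖ / t + 1) * a := mul_le_mul_of_nonneg_right h3.le ha
    _ = _ := by ring

theorem sqrt_div_facts {n P : ℕ} (hP : 1 ≤ P) (hPn : P ≤ n) :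
    n ≤ (Nat.sqrt (n / P) + 1) ^ 2 * P ∧ (Nat.sqrt (n / P) + 1) ^ 2 * P ≤ 4 * n := by
  set q := n / P with hq
  have hq1 : 1 ≤ q := (Nat.one_le_div_iff (by omega)).2 hPn
  have h1 := Nat.lt_succ_sqrt q
  have h2 := Nat.sqrt_le q
  have h3 : 1 ≤ Nat.sqrt q := Nat.sqrt_pos.2 hq1
  have h4 : q * P ≤ n := Nat.div_mul_le_self n P
  have h5 : n < (q + 1) * P := by
    have := Nat.lt_mul_div_succ n (show 0 < P by omega)
    rw [mul_comm] at this
    exact this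
  constructor
  · have : q + 1 ≤ (Nat.sqrt q + 1) ^ 2 := by rw [sq]; exact h1
    exact h5.le.trans (Nat.mul_le_mul_right P this)
  · have : (Nat.sqrt q + 1) ^ 2 ≤ 4 * q := by nlinarith only [hq1, h2]
    calc (Nat.sqrt q + 1) ^ 2 * P ≤ 4 * q * P := Nat.mul_le_mul_right P this
      _ = 4 * (q * P) := by ring
      _ ≤ 4 * n := Nat.mul_le_mul_left 4 h4

/-- the key estimate -/
theorem gap_lower {C : ℝ} (hC : 0 < C) (hnn : ∀ x y, 0 ≤ ρ x y) (hW : StrongCotype ρ C)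
    {a t lam K : ℝ} (ha : 0 < a) (ht : 0 < t) (hlam : 0 < lam)
    (hup : ∀ x y, ρ x y ≤ a * (1 + ‖x - y‖ / t))
    (hlow : ∀ x y, lam ≤ ‖x - y‖ → K * a ≤ ρ x y) (hK0 : 0 ≤ K) (hK : 416 * C ≤ K ^ 2)
    {n k : ℕ} (hkn : 2 ^ (k + 1) ≤ n)
    (hk : 1 + 4 * lam * n / t ≤ (2 : ℝ) ^ (2 ^ (k + 1)))
    {v : Fin n → X} (hv : ∀ j, ‖v j‖ = 1) :
    (t / lam) ^ 2 * (n / 2 ^ (k + 1)) ≤ mom v := by
  set P : ℕ := 2 ^ (k + 1) with hP
  have hP1 : 1 ≤ P := Nat.one_le_two_pow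
  have hPc : (2 : ℝ) ^ (k + 1) = (P : ℝ) := by rw [hP]; push_cast; rfl
  have hP0 : (0 : ℝ) < P := by exact_mod_cast hP1
  have hn : 1 ≤ n := hP1.trans hkn
  have hn0 : (0 : ℝ) < n := by exact_mod_cast hn
  have hS0 := mom_nonneg v
  rw [hPc]
  obtain ⟨hN1, hN2⟩ := sqrt_div_facts hP1 hkn
  set N : ℕ := Nat.sqrt (n / P) + 1 with hN
  have : NeZero N := ⟨by omega⟩
  have hN0 := Npos (N := N)
  have hNn1 : (n : ℝ) ≤ (N : ℝ) ^ 2 * P := by exact_mod_cast hN1
  have hNn2 : (N : ℝ) ^ 2 * P ≤ 4 * n := by exact_mod_cast hN2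
  set f : (Fin n → ZMod (8 * N)) → X := fun x => (2 * lam) • tst N v x with hf
  have hfn : ∀ x, ‖f x‖ ≤ 2 * lam * n := by
    intro x
    rw [hf]
    simp only
    rw [norm_smul, Real.norm_eq_abs, abs_of_pos (by positivity)]
    exact mul_le_mul_of_nonneg_left (norm_tst_le (fun j => (hv j).le) x) (by positivity)
  set R : ℝ := a * (1 + 4 * lam * n / t) with hR
  have hR0 : 0 ≤ R := by positivity
  have hRx : ∀ x, ρ (f x) (f 0) ≤ R := by
    intro x
    refine (hup _ _).trans (mul_le_mul_of_nonneg_left ?_ ha.le)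
    have h1 : ‖f x - f 0‖ ≤ 4 * lam * n := by
      refine (norm_sub_le _ _).trans ?_
      have := hfn x; have := hfn 0; linarith
    have := div_le_div_of_nonneg_right h1 ht.le
    linarith only [this]
  set Sv : ℝ := avg (fun ε => ∑ x, (ρ (f (x + vec ε)) (f x) ^ (1 - 1 / (2 : ℝ) ^ (k + 1))) ^ 2)
    with hSv
  have hSv0 : 0 ≤ Sv := avg_nonneg fun ε => Finset.sum_nonneg fun x _ => sq_nonneg _
  have hW1 := hW k n (8 * N) f R hRx (2 * N)
  have hW2 := hW k n (8 * N) f R hRx N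
  set Nx : ℝ := ((8 * N : ℕ) : ℝ) ^ n with hNx
  have hNx0 : 0 < Nx := by
    rw [hNx]
    push_cast
    positivity
  have hcard : ((Fintype.card (Fin n → ZMod (8 * N)) : ℕ) : ℝ) = Nx := by
    rw [hNx, Fintype.card_pi, Finset.prod_const, ZMod.card, Finset.card_univ, Fintype.card_fin]
    push_cast; rfl
  -- lower bound
  have hstep : ∀ (c : ZMod (8 * N)) (x : Fin n → ZMod (8 * N)) (j : Fin n),
      1 / 2 ≤ |zz N (x j + c) - zz N (x j)| → K * a ≤ ρ (f (x + Pi.single j c)) (f x) := by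
    intro c x j hc
    refine hlow _ _ ?_
    have h1 : f (x + Pi.single j c) - f x = (2 * lam) • (tst N v (x + Pi.single j c) - tst N v x) := by
      rw [hf]; simp only; rw [smul_sub]
    rw [h1, tst_single, norm_smul, norm_smul, hv j, mul_one, Real.norm_eq_abs, Real.norm_eq_abs,
      abs_of_pos (by positivity)]
    nlinarith only [hlam, hc]
  have hlowsum : (n : ℝ) * Nx * (K * a) ^ 2 ≤
      (∑ j, ∑ x, ρ (f (x + Pi.single j (2 * ((2 * N : ℕ) : ZMod (8 * N))))) (f x) ^ 2) +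
      (∑ j, ∑ x, ρ (f (x + Pi.single j (2 * ((N : ℕ) : ZMod (8 * N))))) (f x) ^ 2) := by
    have e1 : (n : ℝ) * Nx * (K * a) ^ 2 =
        ∑ j : Fin n, ∑ x : Fin n → ZMod (8 * N), (K * a) ^ 2 := by
      rw [Finset.sum_const, Finset.card_univ, Fintype.card_fin, nsmul_eq_mul, Finset.sum_const,
        Finset.card_univ, nsmul_eq_mul, hcard, mul_assoc]
    rw [e1, ← Finset.sum_add_distrib]
    refine Finset.sum_le_sum fun j _ => ?_
    rw [← Finset.sum_add_distrib]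
    refine Finset.sum_le_sum fun x _ => ?_
    have e2 : (2 * ((2 * N : ℕ) : ZMod (8 * N))) = ((4 * N : ℕ) : ZMod (8 * N)) := by
      push_cast; ring
    have e3 : (2 * ((N : ℕ) : ZMod (8 * N))) = ((2 * N : ℕ) : ZMod (8 * N)) := by
      push_cast; ring
    rw [e2, e3]
    have hKa : 0 ≤ K * a := by positivity
    rcases zz_nondeg (N := N) (x j) with hc | hc
    · have h1 := pow_le_pow_left₀ hKa (hstep _ x j hc) 2
      have h2 : 0 ≤ ρ (f (x + Pi.single j ((2 * N : ℕ) : ZMod (8 * N)))) (f x) ^ 2 := by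
        positivity
      linarith only [h1, h2]
    · have h1 := pow_le_pow_left₀ hKa (hstep _ x j hc) 2
      have h2 : 0 ≤ ρ (f (x + Pi.single j ((4 * N : ℕ) : ZMod (8 * N)))) (f x) ^ 2 := by
        positivity
      linarith only [h1, h2]
  -- upper bound
  have hexp0 : (0 : ℝ) ≤ 1 / P := by positivity
  have hexp1 : 1 / (P : ℝ) ≤ 1 := by
    rw [div_le_one hP0]; exact_mod_cast hP1
  have hRP : R ^ (1 / (P : ℝ)) ≤ a ^ (1 / (P : ℝ)) * 2 := by
    rw [hR, Real.mul_rpow ha.le (by positivity)]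
    refine mul_le_mul_of_nonneg_left ?_ (by positivity)
    have h1 := Real.rpow_le_rpow (by positivity) hk hexp0
    rw [one_div, Real.pow_rpow_inv_natCast (by norm_num) (by omega)] at h1
    rw [one_div]; exact h1
  have hpt : ∀ (ε : Fin n → ℤˣ) (x : Fin n → ZMod (8 * N)),
      (R ^ (1 / (P : ℝ))) ^ 2 * (ρ (f (x + vec ε)) (f x) ^ (1 - 1 / (P : ℝ))) ^ 2 ≤
        8 * a ^ 2 + (32 * a ^ 2 * lam ^ 2 / t ^ 2) * ‖tst N v (x + vec ε) - tst N v x‖ ^ 2 := by
    intro ε x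
    have hτ : ‖f (x + vec ε) - f x‖ = 2 * lam * ‖tst N v (x + vec ε) - tst N v x‖ := by
      rw [hf]; simp only
      rw [← smul_sub, norm_smul, Real.norm_eq_abs, abs_of_pos (by positivity)]
    set y := ‖tst N v (x + vec ε) - tst N v x‖ with hy
    have hy0 : 0 ≤ y := norm_nonneg _
    have h1 : ρ (f (x + vec ε)) (f x) ≤ a * (1 + 2 * lam * y / t) := by
      rw [← hτ]; exact hup _ _
    have h2 : ρ (f (x + vec ε)) (f x) ^ (1 - 1 / (P : ℝ)) ≤
        a ^ (1 - 1 / (P : ℝ)) * (1 + 2 * lam * y / t) := by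
      have h3 := Real.rpow_le_rpow (hnn _ _) h1 (show 0 ≤ 1 - 1 / (P : ℝ) by linarith only [hexp1])
      rw [Real.mul_rpow ha.le (by positivity)] at h3
      refine h3.trans (mul_le_mul_of_nonneg_left ?_ (by positivity))
      have h4 : (1 : ℝ) ≤ 1 + 2 * lam * y / t := by
        have : 0 ≤ 2 * lam * y / t := by positivity
        linarith only [this]
      calc (1 + 2 * lam * y / t) ^ (1 - 1 / (P : ℝ)) ≤ (1 + 2 * lam * y / t) ^ (1 : ℝ) :=
            Real.rpow_le_rpow_of_exponent_le h4 (by linarith only [hexp0])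
        _ = _ := Real.rpow_one _
    have hprod : R ^ (1 / (P : ℝ)) * ρ (f (x + vec ε)) (f x) ^ (1 - 1 / (P : ℝ)) ≤
        2 * a * (1 + 2 * lam * y / t) := by
      have h5 := mul_le_mul hRP h2 (Real.rpow_nonneg (hnn _ _) _) (by positivity)
      have h6 : a ^ (1 / (P : ℝ)) * a ^ (1 - 1 / (P : ℝ)) = a := by
        rw [← Real.rpow_add ha, add_sub_cancel, Real.rpow_one]
      calc _ ≤ _ := h5
        _ = 2 * (a ^ (1 / (P : ℝ)) * a ^ (1 - 1 / (P : ℝ))) * (1 + 2 * lam * y / t) := by ring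
        _ = _ := by rw [h6]
    have h7 := pow_le_pow_left₀ (mul_nonneg (Real.rpow_nonneg hR0 _)
      (Real.rpow_nonneg (hnn _ _) _)) hprod 2
    rw [mul_pow] at h7
    refine h7.trans ?_
    have h8 : (1 + 2 * lam * y / t) ^ 2 ≤ 2 + 2 * (2 * lam * y / t) ^ 2 := by
      linarith only [sq_nonneg (1 - 2 * lam * y / t)]
    calc (2 * a * (1 + 2 * lam * y / t)) ^ 2 = 4 * a ^ 2 * (1 + 2 * lam * y / t) ^ 2 := by ring
      _ ≤ 4 * a ^ 2 * (2 + 2 * (2 * lam * y / t) ^ 2) := mul_le_mul_of_nonneg_left h8 (by positivity)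
      _ = _ := by ring
  have hQ : (R ^ (1 / (P : ℝ))) ^ 2 * Sv ≤
      Nx * (8 * a ^ 2 + (8 * a ^ 2 * lam ^ 2 / t ^ 2) * (P * mom v / n)) := by
    rw [hSv, hPc, ← avg_const_mul]
    have h1 : ∀ ε : Fin n → ℤˣ, (R ^ (1 / (P : ℝ))) ^ 2 *
        ∑ x, (ρ (f (x + vec ε)) (f x) ^ (1 - 1 / (P : ℝ))) ^ 2 ≤
        Nx * (8 * a ^ 2) + (32 * a ^ 2 * lam ^ 2 / t ^ 2) *
          (Nx * ((1 / (2 * N)) ^ 2 * mom v)) := by
      intro ε
      rw [Finset.mul_sum]
      refine (Finset.sum_le_sum fun x _ => hpt ε x).trans ?_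
      rw [Finset.sum_add_distrib, Finset.sum_const, Finset.card_univ, nsmul_eq_mul, hcard,
        ← Finset.mul_sum]
      refine add_le_add (le_refl _) (mul_le_mul_of_nonneg_left ?_ (by positivity))
      exact sum_tst_le (N := N) v ε 2
    have h2 := avg_mono h1
    rw [avg_const] at h2
    refine h2.trans ?_
    have h3 : (1 / (2 * (N : ℝ))) ^ 2 * mom v ≤ 4⁻¹ * (P * mom v / n) := by
      have e : (1 / (2 * (N : ℝ))) ^ 2 * mom v = 4⁻¹ * (mom v / (N : ℝ) ^ 2) := by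
        field_simp; ring
      rw [e]
      refine mul_le_mul_of_nonneg_left ?_ (by norm_num)
      rw [div_le_div_iff₀ (by positivity) hn0]
      calc mom v * n ≤ mom v * ((N : ℝ) ^ 2 * P) := mul_le_mul_of_nonneg_left hNn1 hS0
        _ = _ := by ring
    have h4 : Nx * ((1 / (2 * (N : ℝ))) ^ 2 * mom v) ≤ Nx * (4⁻¹ * (P * mom v / n)) :=
      mul_le_mul_of_nonneg_left h3 hNx0.le
    have h5 := mul_le_mul_of_nonneg_left h4
      (show 0 ≤ 32 * a ^ 2 * lam ^ 2 / t ^ 2 by positivity)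
    refine (add_le_add (le_refl _) h5).trans (le_of_eq ?_)
    ring
  have hSv2 := hSv
  rw [hPc] at hW1 hW2 hSv2
  rw [← hSv2] at hW1 hW2
  set Q := (R ^ (1 / (P : ℝ))) ^ 2 * Sv with hQd
  have hcoef : C * (((2 * N : ℕ) : ℝ) ^ 2 * P + n) * Q + C * ((N : ℝ) ^ 2 * P + n) * Q ≤
      C * (22 * n) * Q := by
    have hQ0 : 0 ≤ Q := by positivity
    have e1 : ((2 * N : ℕ) : ℝ) ^ 2 = 4 * (N : ℝ) ^ 2 := by push_cast; ring
    rw [e1, ← add_mul, ← mul_add]
    refine mul_le_mul_of_nonneg_right (mul_le_mul_of_nonneg_left ?_ hC.le) hQ0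
    linarith only [hNn2]
  have hfin : (n : ℝ) * Nx * (K * a) ^ 2 ≤
      C * (22 * n) * (Nx * (8 * a ^ 2 + (8 * a ^ 2 * lam ^ 2 / t ^ 2) * (P * mom v / n))) :=
    (hlowsum.trans ((add_le_add hW1 hW2).trans hcoef)).trans
      (mul_le_mul_of_nonneg_left hQ (by positivity))
  have hfin2 : K ^ 2 ≤ 176 * C * (1 + lam ^ 2 / t ^ 2 * (P * mom v / n)) := by
    have hpos : 0 < (n : ℝ) * Nx * a ^ 2 := by positivity
    refine le_of_mul_le_mul_left ?_ hpos
    calc (n : ℝ) * Nx * a ^ 2 * K ^ 2 = (n : ℝ) * Nx * (K * a) ^ 2 := by ring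
      _ ≤ _ := hfin
      _ = _ := by ring
  have hfin3 : 1 ≤ lam ^ 2 / t ^ 2 * (P * mom v / n) := by
    by_contra hcon
    push Not at hcon
    have : 176 * C * (1 + lam ^ 2 / t ^ 2 * (P * mom v / n)) < 176 * C * 2 :=
      mul_lt_mul_of_pos_left (by linarith only [hcon]) (by positivity)
    linarith only [hC, hK, hfin2, this]
  have hfin4 : (t / lam) ^ 2 * (n / P) * (lam ^ 2 / t ^ 2 * (P * mom v / n)) = mom v := by
    field_simp
  calc (t / lam) ^ 2 * (n / P) = (t / lam) ^ 2 * (n / P) * 1 := (mul_one _).symm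
    _ ≤ (t / lam) ^ 2 * (n / P) * (lam ^ 2 / t ^ 2 * (P * mom v / n)) :=
        mul_le_mul_of_nonneg_left hfin3 (by positivity)
    _ = mom v := hfin4

end Pool.H45.S1
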