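import Pool.Agent.Helper45.S1.Gap

/-!
# From a gap to lower bounds for unit vectors
-/

open scoped BigOperators
open Finset Filter Topology

set_option linter.unusedSectionVars false

namespace Pool.H45.S1

variable {X : Type*} [NormedAddCommGroup X] [NormedSpace ℝ X]
variable {ρ : X → X → ℝ}

/-- the choice of the exponent -/
theorem exists_exponent {δ : ℝ} (hδ : 0 < δ) {B : ℕ} (hB : 2 ≤ B) {n : ℕ} (hn : 1 ≤ n) :
    ∃ k : ℕ, ((B * n : ℕ) : ℝ) ≤ (2 : ℝ) ^ (2 ^ (k + 1)) ∧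
      (2 : ℝ) ^ (k + 1) ≤ (2 + 4 * (B : ℝ) ^ δ / δ) * (n : ℝ) ^ δ := by
  set m := Nat.clog 2 (B * n) with hm
  have hBn : 2 ≤ B * n := by nlinarith
  have hm1 : 1 ≤ m := by
    rw [hm]
    exact Nat.clog_pos (by norm_num) hBn
  refine ⟨Nat.log 2 m, ?_, ?_⟩
  · have h1 : B * n ≤ 2 ^ m := Nat.le_pow_clog (by norm_num) _
    have h2 : m ≤ 2 ^ (Nat.log 2 m + 1) := (Nat.lt_pow_succ_log_self (by norm_num) m).le
    have h3 : B * n ≤ 2 ^ (2 ^ (Nat.log 2 m + 1)) := h1.trans (Nat.pow_le_pow_right (by norm_num) h2)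
    exact_mod_cast h3
  · have h1 : 2 ^ (Nat.log 2 m + 1) ≤ 2 * m := by
      rw [pow_succ, mul_comm]
      exact Nat.mul_le_mul_left 2 (Nat.pow_log_le_self 2 (by omega))
    have h1' : (2 : ℝ) ^ (Nat.log 2 m + 1) ≤ 2 * m := by exact_mod_cast h1
    have h2 : 2 ^ (m - 1) < B * n := by
      have := Nat.pow_pred_clog_lt_self (b := 2) (by norm_num) (x := B * n) (by omega)
      exact this
    have h2' : (2 : ℝ) ^ (m - 1) ≤ (B : ℝ) * n := by
      have : ((2 ^ (m - 1) : ℕ) : ℝ) ≤ ((B * n : ℕ) : ℝ) := by exact_mod_cast h2.le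
      push_cast at this
      exact this
    have h3 : ((m - 1 : ℕ) : ℝ) * Real.log 2 ≤ Real.log ((B : ℝ) * n) := by
      have := Real.log_le_log (by positivity) h2'
      rwa [Real.log_pow] at this
    have h4 : Real.log ((B : ℝ) * n) ≤ ((B : ℝ) * n) ^ δ / δ :=
      Real.log_le_rpow_div (by positivity) hδ
    have h5 : ((B : ℝ) * n) ^ δ = (B : ℝ) ^ δ * (n : ℝ) ^ δ :=
      Real.mul_rpow (by positivity) (by positivity)
    have h6 : (1 : ℝ) ≤ (n : ℝ) ^ δ := Real.one_le_rpow (by exact_mod_cast hn) hδ.le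
    have h7 : (1 / 2 : ℝ) ≤ Real.log 2 := by
      have := Real.log_two_gt_d9
      linarith
    have h8 : ((m - 1 : ℕ) : ℝ) ≤ 2 * (((B : ℝ) ^ δ * (n : ℝ) ^ δ) / δ) := by
      have h9 : ((m - 1 : ℕ) : ℝ) * (1 / 2) ≤ ((m - 1 : ℕ) : ℝ) * Real.log 2 :=
        mul_le_mul_of_nonneg_left h7 (Nat.cast_nonneg _)
      rw [h5] at h4
      linarith
    have h10 : (m : ℝ) = ((m - 1 : ℕ) : ℝ) + 1 := by
      rw [Nat.cast_sub hm1]; push_cast; ring
    calc (2 : ℝ) ^ (Nat.log 2 m + 1) ≤ 2 * m := h1'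
      _ = 2 * 1 + 2 * ((m - 1 : ℕ) : ℝ) := by rw [h10]; ring
      _ ≤ 2 * (n : ℝ) ^ δ + 2 * (2 * (((B : ℝ) ^ δ * (n : ℝ) ^ δ) / δ)) := by linarith
      _ = _ := by ring

theorem unitLower_of_gap {C : ℝ} (hC : 0 < C) (hnn : ∀ x y, 0 ≤ ρ x y) (hW : StrongCotype ρ C)
    {a t lam K : ℝ} (ha : 0 < a) (ht : 0 < t) (hlam : 0 < lam)
    (hup : ∀ x y, ρ x y ≤ a * (1 + ‖x - y‖ / t))
    (hlow : ∀ x y, lam ≤ ‖x - y‖ → K * a ≤ ρ x y) (hK0 : 0 ≤ K) (hK : 416 * C ≤ K ^ 2) :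
    UnitLower X := by
  intro δ hδ
  obtain ⟨B₀, hB₀⟩ := exists_nat_gt (1 + 4 * lam / t)
  set B : ℕ := B₀ + 2 with hB
  have hB2 : 2 ≤ B := by omega
  have hB0 : (0 : ℝ) < B := by exact_mod_cast (show 0 < B by omega)
  have hBr : 1 + 4 * lam / t ≤ B := by
    rw [hB]; push_cast; linarith
  set D : ℝ := 2 + 4 * (B : ℝ) ^ δ / δ with hD
  have hD0 : 0 < D := by positivity
  refine ⟨min ((t / lam) ^ 2 / D) (1 / D), lt_min (by positivity) (by positivity), ?_⟩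
  intro n hn v hv
  have hn0 : (0 : ℝ) < n := by exact_mod_cast hn
  have hn1 : (1 : ℝ) ≤ n := by exact_mod_cast hn
  obtain ⟨k, hk1, hk2⟩ := exists_exponent hδ hB2 hn
  rw [← hD] at hk2
  have hnd : (n : ℝ) ^ (1 - δ) * (n : ℝ) ^ δ = n := by
    rw [← Real.rpow_add hn0, sub_add_cancel, Real.rpow_one]
  have hnd0 : 0 < (n : ℝ) ^ (1 - δ) := by positivity
  have hP0 : (0 : ℝ) < 2 ^ (k + 1) := by positivity
  by_cases hkn : 2 ^ (k + 1) ≤ n
  · have hk : 1 + 4 * lam * n / t ≤ (2 : ℝ) ^ (2 ^ (k + 1)) := by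
      refine le_trans ?_ hk1
      push_cast
      calc 1 + 4 * lam * n / t ≤ n + 4 * lam * n / t := by linarith
        _ = (1 + 4 * lam / t) * n := by ring
        _ ≤ B * n := mul_le_mul_of_nonneg_right hBr hn0.le
    have h1 := gap_lower hC hnn hW ha ht hlam hup hlow hK0 hK hkn hk hv
    refine le_trans ?_ h1
    calc min ((t / lam) ^ 2 / D) (1 / D) * (n : ℝ) ^ (1 - δ)
        ≤ (t / lam) ^ 2 / D * (n : ℝ) ^ (1 - δ) :=
          mul_le_mul_of_nonneg_right (min_le_left _ _) hnd0.le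
      _ = (t / lam) ^ 2 * ((n : ℝ) ^ (1 - δ) / D) := by ring
      _ ≤ (t / lam) ^ 2 * (n / 2 ^ (k + 1)) := by
          refine mul_le_mul_of_nonneg_left ?_ (by positivity)
          rw [div_le_div_iff₀ hD0 hP0]
          calc (n : ℝ) ^ (1 - δ) * 2 ^ (k + 1) ≤ (n : ℝ) ^ (1 - δ) * (D * (n : ℝ) ^ δ) :=
                mul_le_mul_of_nonneg_left hk2 hnd0.le
            _ = ((n : ℝ) ^ (1 - δ) * (n : ℝ) ^ δ) * D := by ring
            _ = n * D := by rw [hnd]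
  · push Not at hkn
    have h1 : (n : ℝ) ≤ 2 ^ (k + 1) := by exact_mod_cast hkn.le
    have h2 := one_le_mom hn hv
    refine le_trans ?_ h2
    have h3 : (n : ℝ) ^ (1 - δ) ≤ D := by
      have h4 : (n : ℝ) ^ (1 - δ) * (n : ℝ) ^ δ ≤ D * (n : ℝ) ^ δ := by
        rw [hnd]; exact h1.trans hk2
      exact le_of_mul_le_mul_right h4 (by positivity)
    calc min ((t / lam) ^ 2 / D) (1 / D) * (n : ℝ) ^ (1 - δ) ≤ 1 / D * (n : ℝ) ^ (1 - δ) :=
          mul_le_mul_of_nonneg_right (min_le_right _ _) hnd0.le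
      _ ≤ 1 / D * D := mul_le_mul_of_nonneg_left h3 (by positivity)
      _ = 1 := by field_simp

/-- metric form: a coarse upper bound and a coarse lower bound -/
theorem unitLower_of_coarse {C : ℝ} (hC : 0 < C) (hnn : ∀ x y, 0 ≤ ρ x y)
    (hself : ∀ x, ρ x x = 0) (htri : ∀ x y z, ρ x z ≤ ρ x y + ρ y z) (hW : StrongCotype ρ C)
    {β α : ℝ → ℝ} (hup : ∀ x y, ρ x y ≤ β ‖x - y‖) (hβ : MonotoneOn β (Set.Ici 0))
    (hlow : ∀ x y, α ‖x - y‖ ≤ ρ x y) (hα : MonotoneOn α (Set.Ici 0))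
    (hlim : Tendsto α atTop atTop) : UnitLower X := by
  set a : ℝ := max (β 1) 0 + 1 with hadef
  have ha : 0 < a := by positivity
  set K : ℝ := 416 * C + 1 with hKdef
  have hK0 : 0 ≤ K := by positivity
  have hK : 416 * C ≤ K ^ 2 := by rw [hKdef]; nlinarith
  obtain ⟨lam, hlam⟩ := ((hlim.eventually (eventually_ge_atTop (K * a))).and
    (eventually_gt_atTop (0 : ℝ))).exists
  refine unitLower_of_gap hC hnn hW ha one_pos hlam.2 (fun x y => ?_) (fun x y hxy => ?_) hK0 hK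
  · refine chain_bound hself htri one_pos ha.le (fun x y hxy => ?_) x y
    have h1 := hβ (Set.mem_Ici.2 (norm_nonneg (x - y))) (Set.mem_Ici.2 zero_le_one) hxy
    have h2 := hup x y
    have h3 := le_max_left (β 1) 0
    linarith
  · exact hlam.1.trans ((hα (Set.mem_Ici.2 hlam.2.le) (Set.mem_Ici.2 (norm_nonneg _)) hxy).trans
      (hlow x y))

/-- metric form: uniform continuity in both directions -/
theorem unitLower_of_uniform {C : ℝ} (hC : 0 < C) (hnn : ∀ x y, 0 ≤ ρ x y)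
    (hself : ∀ x, ρ x x = 0) (htri : ∀ x y z, ρ x z ≤ ρ x y + ρ y z) (hW : StrongCotype ρ C)
    (hcont : ∀ e : ℝ, 0 < e → ∃ d : ℝ, 0 < d ∧ ∀ x y, ‖x - y‖ < d → ρ x y < e)
    (hinv : ∀ e : ℝ, 0 < e → ∃ d : ℝ, 0 < d ∧ ∀ x y, ρ x y < d → ‖x - y‖ < e) :
    UnitLower X := by
  set K : ℝ := 416 * C + 1 with hKdef
  have hK0 : 0 < K := by positivity
  have hK : 416 * C ≤ K ^ 2 := by rw [hKdef]; nlinarith
  obtain ⟨α₀, hα₀, hα⟩ := hinv 1 one_pos
  set a : ℝ := α₀ / K with hadef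
  have ha : 0 < a := by positivity
  obtain ⟨d, hd, hc⟩ := hcont a ha
  have ht : 0 < d / 2 := by positivity
  refine unitLower_of_gap hC hnn hW ha ht one_pos (fun x y => ?_) (fun x y hxy => ?_) hK0.le hK
  · refine chain_bound hself htri ht ha.le (fun x y hxy => ?_) x y
    exact (hc x y (by linarith)).le
  · by_contra hcon
    push Not at hcon
    have h1 : K * a = α₀ := by rw [hadef]; field_simp
    rw [h1] at hcon
    have := hα x y hcon
    linarith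

end Pool.H45.S1
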