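import Pool.Agent.Helper45.S1.TypeTwo

/-!
# The Kahane inequality for even moments, and the contraction principle
-/

open scoped BigOperators
open Finset

namespace Pool.H45.S1

theorem two_point_real {m : ℕ} (hm : 1 ≤ m) (a b : ℝ) :
    (2 : ℝ)⁻¹ * ((a + 1 / (4 * m) * b) ^ (2 * m) + (a - 1 / (4 * m) * b) ^ (2 * m)) ≤
      (a ^ 2 + b ^ 2) ^ m := by
  have hm1 : (1 : ℝ) ≤ m := by exact_mod_cast hm
  set ρ : ℝ := 1 / (4 * m) with hρ
  have hρ0 : 0 < ρ := by positivity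
  have hρ4 : ρ ≤ 1 / 4 := by
    rw [hρ]
    exact one_div_le_one_div_of_le (by norm_num) (by linarith)
  have hρm : 4 * m * ρ = 1 := by rw [hρ]; field_simp
  by_cases hab : |a| ≤ |b|
  · have h2 : a ^ 2 ≤ b ^ 2 := sq_le_sq.2 hab
    have h3 : |a * b| ≤ b ^ 2 := by
      rw [abs_mul, ← sq_abs b, sq]
      exact mul_le_mul_of_nonneg_right hab (abs_nonneg b)
    have h4 := abs_le.1 h3
    have key : ∀ c : ℝ, |c| = 1 → (a + c * (ρ * b)) ^ 2 ≤ a ^ 2 + b ^ 2 := by
      intro c hc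
      have hc2 : c ^ 2 = 1 := by rw [← sq_abs, hc]; norm_num
      have e : (a + c * (ρ * b)) ^ 2 = a ^ 2 + 2 * ρ * (c * (a * b)) + ρ ^ 2 * b ^ 2 * c ^ 2 := by
        ring
      rw [e, hc2]
      have h5 : c * (a * b) ≤ b ^ 2 := by
        refine (le_abs_self _).trans ?_
        rw [abs_mul, hc, one_mul]; exact h3
      have hb2 : 0 ≤ b ^ 2 := sq_nonneg b
      have h6 : 2 * ρ * (c * (a * b)) ≤ 2 * ρ * b ^ 2 :=
        mul_le_mul_of_nonneg_left h5 (by positivity)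
      have h7 : (2 * ρ + ρ ^ 2) * b ^ 2 ≤ 1 * b ^ 2 := by
        refine mul_le_mul_of_nonneg_right ?_ hb2
        nlinarith
      nlinarith
    have k1 := key 1 (by norm_num)
    have k2 := key (-1) (by norm_num)
    rw [one_mul] at k1
    have e2 : a + -1 * (ρ * b) = a - ρ * b := by ring
    rw [e2] at k2
    have p1 : (a + ρ * b) ^ (2 * m) ≤ (a ^ 2 + b ^ 2) ^ m := by
      rw [pow_mul]; exact pow_le_pow_left₀ (sq_nonneg _) k1 m
    have p2 : (a - ρ * b) ^ (2 * m) ≤ (a ^ 2 + b ^ 2) ^ m := by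
      rw [pow_mul]; exact pow_le_pow_left₀ (sq_nonneg _) k2 m
    linarith
  · push Not at hab
    have ha : a ≠ 0 := by
      intro h; rw [h, abs_zero] at hab; exact absurd hab (not_lt.2 (abs_nonneg b))
    set t : ℝ := b / a with ht
    have hb : b = t * a := by rw [ht]; field_simp
    have ht1 : |t| < 1 := by
      rw [ht, abs_div, div_lt_one (abs_pos.2 ha)]; exact hab
    have ht2 : t ^ 2 ≤ 1 := by
      rw [← sq_abs]; exact pow_le_one₀ (abs_nonneg t) ht1.le
    obtain ⟨ht3, ht4⟩ := abs_lt.1 ht1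
    have hpos : ∀ c : ℝ, |c| = 1 → 0 ≤ 1 + c * (ρ * t) := by
      intro c hc
      have : |c * (ρ * t)| ≤ 1 := by
        rw [abs_mul, hc, one_mul, abs_mul, abs_of_pos hρ0]
        nlinarith [abs_nonneg t]
      linarith [(abs_le.1 this).1]
    have hexp : ∀ c : ℝ, |c| = 1 → (1 + c * (ρ * t)) ^ (2 * m) ≤ Real.exp (c * (t / 2)) := by
      intro c hc
      have h1 : 1 + c * (ρ * t) ≤ Real.exp (c * (ρ * t)) := by
        have := Real.add_one_le_exp (c * (ρ * t)); linarith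
      refine (pow_le_pow_left₀ (hpos c hc) h1 _).trans ?_
      rw [← Real.exp_nat_mul]
      refine le_of_eq ?_
      congr 1
      push_cast
      have : (4 * m * ρ) * (c * (t / 2)) = 2 * m * (c * (ρ * t)) := by ring
      rw [hρm, one_mul] at this
      exact this.symm
    have h1 := hexp 1 (by norm_num)
    have h2 := hexp (-1) (by norm_num)
    have hcosh : (2 : ℝ)⁻¹ * ((1 + ρ * t) ^ (2 * m) + (1 - ρ * t) ^ (2 * m)) ≤ (1 + t ^ 2) ^ m := by
      have e1 : (1 + 1 * (ρ * t)) = 1 + ρ * t := by ring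
      have e2 : (1 + -1 * (ρ * t)) = 1 - ρ * t := by ring
      rw [e1] at h1
      rw [e2] at h2
      have h3 := Real.cosh_le_exp_half_sq (t / 2)
      rw [Real.cosh_eq] at h3
      have e3 : (1 : ℝ) * (t / 2) = t / 2 := by ring
      have e4 : (-1 : ℝ) * (t / 2) = -(t / 2) := by ring
      rw [e3] at h1
      rw [e4] at h2
      have h4 : Real.exp ((t / 2) ^ 2 / 2) ≤ 1 + t ^ 2 := by
        have hy0 : 0 ≤ (t / 2) ^ 2 / 2 := by positivity
        have hy1 : |(t / 2) ^ 2 / 2| ≤ 1 := by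
          rw [abs_of_nonneg hy0]; nlinarith
        have h5 := (abs_le.1 (Real.abs_exp_sub_one_sub_id_le hy1)).2
        nlinarith [sq_nonneg t]
      have h6 : (1 : ℝ) + t ^ 2 ≤ (1 + t ^ 2) ^ m := by
        refine le_self_pow₀ ?_ (by omega)
        nlinarith [sq_nonneg t]
      linarith
    have e1 : (a + ρ * b) ^ (2 * m) = (a ^ 2) ^ m * (1 + ρ * t) ^ (2 * m) := by
      rw [hb, ← pow_mul, ← mul_pow]; congr 1; ring
    have e2 : (a - ρ * b) ^ (2 * m) = (a ^ 2) ^ m * (1 - ρ * t) ^ (2 * m) := by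
      rw [hb, ← pow_mul, ← mul_pow]; congr 1; ring
    have e3 : (a ^ 2 + b ^ 2) ^ m = (a ^ 2) ^ m * (1 + t ^ 2) ^ m := by
      rw [hb, ← mul_pow]; congr 1; ring
    rw [e1, e2, e3, ← mul_add, mul_left_comm]
    exact mul_le_mul_of_nonneg_left hcosh (by positivity)

section vector
variable {X : Type*} [SeminormedAddCommGroup X] [NormedSpace ℝ X]

theorem two_point_vector {m : ℕ} (hm : 1 ≤ m) (x v : X) :
    (2 : ℝ)⁻¹ * (‖x + (1 / (4 * m) : ℝ) • v‖ ^ (2 * m) + ‖x - (1 / (4 * m) : ℝ) • v‖ ^ (2 * m)) ≤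
      ((2 : ℝ)⁻¹ * (‖x + v‖ ^ 2 + ‖x - v‖ ^ 2)) ^ m := by
  have hm1 : (1 : ℝ) ≤ m := by exact_mod_cast hm
  set ρ : ℝ := 1 / (4 * m) with hρ
  have hρ0 : 0 < ρ := by positivity
  have hρ1 : ρ ≤ 1 := by
    rw [hρ, div_le_one (by positivity)]; linarith
  set α := ‖x + v‖
  set β := ‖x - v‖
  have h1 : ‖x + ρ • v‖ ≤ (α + β) / 2 + ρ * ((α - β) / 2) := by
    have e : x + ρ • v = ((1 + ρ) / 2) • (x + v) + ((1 - ρ) / 2) • (x - v) := by module
    rw [e]
    refine (norm_add_le _ _).trans ?_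
    rw [norm_smul, norm_smul, Real.norm_eq_abs, Real.norm_eq_abs, abs_of_nonneg (by linarith),
      abs_of_nonneg (by linarith)]
    exact le_of_eq (by ring)
  have h2 : ‖x - ρ • v‖ ≤ (α + β) / 2 - ρ * ((α - β) / 2) := by
    have e : x - ρ • v = ((1 - ρ) / 2) • (x + v) + ((1 + ρ) / 2) • (x - v) := by module
    rw [e]
    refine (norm_add_le _ _).trans ?_
    rw [norm_smul, norm_smul, Real.norm_eq_abs, Real.norm_eq_abs, abs_of_nonneg (by linarith),
      abs_of_nonneg (by linarith)]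
    exact le_of_eq (by ring)
  have h3 := two_point_real hm ((α + β) / 2) ((α - β) / 2)
  rw [← hρ] at h3
  have e : ((α + β) / 2) ^ 2 + ((α - β) / 2) ^ 2 = (2 : ℝ)⁻¹ * (α ^ 2 + β ^ 2) := by ring
  rw [e] at h3
  refine le_trans ?_ h3
  have p1 := pow_le_pow_left₀ (norm_nonneg _) h1 (2 * m)
  have p2 := pow_le_pow_left₀ (norm_nonneg _) h2 (2 * m)
  linarith

theorem avg_minkowski {n m : ℕ} (hm : 1 ≤ m) {f g : (Fin n → ℤˣ) → ℝ} (hf : ∀ ε, 0 ≤ f ε)
    (hg : ∀ ε, 0 ≤ g ε) {a b : ℝ} (ha : 0 ≤ a) (hb : 0 ≤ b)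
    (hfa : avg (fun ε => f ε ^ m) ≤ a ^ m) (hgb : avg (fun ε => g ε ^ m) ≤ b ^ m) :
    avg (fun ε => (f ε + g ε) ^ m) ≤ (a + b) ^ m := by
  have hm1 : (1 : ℝ) ≤ m := by exact_mod_cast hm
  have hm0 : (0 : ℝ) < m := by linarith
  have h := Real.Lp_add_le_of_nonneg (s := (Finset.univ : Finset (Fin n → ℤˣ))) (f := f) (g := g)
    (p := (m : ℝ)) hm1 (fun i _ => hf i) (fun i _ => hg i)
  simp only [Real.rpow_natCast] at h
  have h2n : (0 : ℝ) < (2 : ℝ) ^ n := by positivity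
  have bound : ∀ {u : (Fin n → ℤˣ) → ℝ} {c : ℝ}, (∀ ε, 0 ≤ u ε) → 0 ≤ c →
      avg (fun ε => u ε ^ m) ≤ c ^ m →
      (∑ ε, u ε ^ m) ^ (1 / (m : ℝ)) ≤ ((2 : ℝ) ^ n) ^ (1 / (m : ℝ)) * c := by
    intro u c hu hc huc
    rw [avg_eq_mul, inv_mul_le_iff₀ h2n] at huc
    have h1 := Real.rpow_le_rpow (Finset.sum_nonneg fun ε _ => pow_nonneg (hu ε) m) huc
      (show 0 ≤ 1 / (m : ℝ) by positivity)
    refine h1.trans (le_of_eq ?_)
    rw [Real.mul_rpow h2n.le (by positivity), one_div, Real.pow_rpow_inv_natCast hc (by omega)]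
  have h3 := h.trans (add_le_add (bound hf ha hfa) (bound hg hb hgb))
  rw [← mul_add] at h3
  have hS : 0 ≤ ∑ ε, (f ε + g ε) ^ m :=
    Finset.sum_nonneg fun ε _ => pow_nonneg (add_nonneg (hf ε) (hg ε)) m
  have h4 := pow_le_pow_left₀ (Real.rpow_nonneg hS _) h3 m
  rw [one_div, Real.rpow_inv_natCast_pow hS (by omega), mul_pow,
    Real.rpow_inv_natCast_pow h2n.le (by omega)] at h4
  rw [avg_eq_mul, inv_mul_le_iff₀ h2n]
  exact h4

theorem sum_cons_sg {n : ℕ} (u : ℤˣ) (ε : Fin n → ℤˣ) (v : Fin (n + 1) → X) :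
    ∑ j, sg ((Fin.cons u ε : Fin (n + 1) → ℤˣ) j) • v j =
      sg u • v 0 + ∑ j : Fin n, sg (ε j) • v j.succ := by
  rw [Fin.sum_univ_succ]
  simp

/-- Kahane inequality with a base point -/
theorem kahane_base {m : ℕ} (hm : 1 ≤ m) : ∀ (n : ℕ) (x : X) (v : Fin n → X),
    avg (fun ε => ‖x + (1 / (4 * m) : ℝ) • ∑ j, sg (ε j) • v j‖ ^ (2 * m)) ≤
      (avg (fun ε => ‖x + ∑ j, sg (ε j) • v j‖ ^ 2)) ^ m
  | 0, x, v => by
    rw [avg_zero_dim, avg_zero_dim]
    simp [pow_mul]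
  | (n + 1), x, v => by
    set ρ : ℝ := 1 / (4 * m) with hρ
    set T : (Fin n → ℤˣ) → X := fun ε => ∑ j : Fin n, sg (ε j) • v j.succ with hT
    have e1 : avg (fun ε => ‖x + ρ • ∑ j, sg (ε j) • v j‖ ^ (2 * m)) =
        avg (fun ε : Fin n → ℤˣ => (2 : ℝ)⁻¹ * (‖(x + ρ • T ε) + ρ • v 0‖ ^ (2 * m) +
          ‖(x + ρ • T ε) - ρ • v 0‖ ^ (2 * m))) := by
      rw [avg_succ, avg_const_mul, avg_add, smul_eq_mul]
      congr 3
      · ext ε
        rw [sum_cons_sg, sg_one, one_smul, smul_add]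
        congr 2; abel
      · ext ε
        rw [sum_cons_sg, sg_neg_one, smul_add]
        congr 2
        rw [neg_one_smul, smul_neg]; abel
    have e2 : avg (fun ε => ‖x + ∑ j, sg (ε j) • v j‖ ^ 2) =
        (2 : ℝ)⁻¹ * (avg (fun ε : Fin n → ℤˣ => ‖(x + v 0) + T ε‖ ^ 2) +
          avg (fun ε : Fin n → ℤˣ => ‖(x - v 0) + T ε‖ ^ 2)) := by
      rw [avg_succ, smul_eq_mul]
      congr 3
      · ext ε
        rw [sum_cons_sg, sg_one, one_smul]
        congr 2; abel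
      · ext ε
        rw [sum_cons_sg, sg_neg_one]
        congr 2
        rw [neg_one_smul]; abel
    rw [e1, e2]
    have h1 : avg (fun ε : Fin n → ℤˣ => (2 : ℝ)⁻¹ * (‖(x + ρ • T ε) + ρ • v 0‖ ^ (2 * m) +
          ‖(x + ρ • T ε) - ρ • v 0‖ ^ (2 * m))) ≤
        avg (fun ε : Fin n → ℤˣ => ((2 : ℝ)⁻¹ * ‖(x + v 0) + ρ • T ε‖ ^ 2 +
          (2 : ℝ)⁻¹ * ‖(x - v 0) + ρ • T ε‖ ^ 2) ^ m) := by
      refine avg_mono fun ε => ?_
      have h := two_point_vector hm (x + ρ • T ε) (v 0)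
      rw [← hρ] at h
      refine h.trans (le_of_eq ?_)
      rw [mul_add]
      congr 4
      · congr 1; abel
      · congr 1; abel
    refine h1.trans ?_
    have a1 := kahane_base hm n (x + v 0) (fun j => v j.succ)
    have a2 := kahane_base hm n (x - v 0) (fun j => v j.succ)
    rw [← hρ] at a1 a2
    rw [mul_add]
    refine avg_minkowski hm (fun ε => by positivity) (fun ε => by positivity)
      (mul_nonneg (by norm_num) (avg_nonneg fun ε => by positivity))
      (mul_nonneg (by norm_num) (avg_nonneg fun ε => by positivity)) ?_ ?_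
    · rw [mul_pow]
      simp only [mul_pow]
      rw [avg_const_mul]
      refine mul_le_mul_of_nonneg_left ?_ (by positivity)
      simp only [← pow_mul]
      exact a1
    · rw [mul_pow]
      simp only [mul_pow]
      rw [avg_const_mul]
      refine mul_le_mul_of_nonneg_left ?_ (by positivity)
      simp only [← pow_mul]
      exact a2

/-- Kahane inequality -/
theorem kahane {m : ℕ} (hm : 1 ≤ m) (n : ℕ) (v : Fin n → X) :
    avg (fun ε => ‖∑ j, sg (ε j) • v j‖ ^ (2 * m)) ≤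
      (4 * m) ^ (2 * m) * (avg (fun ε => ‖∑ j, sg (ε j) • v j‖ ^ 2)) ^ m := by
  have hm1 : (1 : ℝ) ≤ m := by exact_mod_cast hm
  have h := kahane_base hm n (0 : X) v
  simp only [zero_add] at h
  simp only [norm_smul, mul_pow] at h
  rw [avg_const_mul] at h
  rw [Real.norm_eq_abs, abs_of_nonneg (by positivity)] at h
  rw [one_div, inv_pow, inv_mul_le_iff₀ (by positivity)] at h
  exact h

theorem two_point_contraction (M : ℕ) {a : ℝ} (ha : |a| ≤ 1) (y v : X) :
    ‖y + a • v‖ ^ M + ‖y - a • v‖ ^ M ≤ ‖y + v‖ ^ M + ‖y - v‖ ^ M := by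
  obtain ⟨ha1, ha2⟩ := abs_le.1 ha
  set α := ‖y + v‖
  set β := ‖y - v‖
  have hα : 0 ≤ α := norm_nonneg _
  have hβ : 0 ≤ β := norm_nonneg _
  have conv : ∀ s : ℝ, -1 ≤ s → s ≤ 1 →
      ((1 + s) / 2 * α + (1 - s) / 2 * β) ^ M ≤ (1 + s) / 2 * α ^ M + (1 - s) / 2 * β ^ M := by
    intro s h1 h2
    have := (convexOn_pow M).2 (Set.mem_Ici.2 hα) (Set.mem_Ici.2 hβ)
      (show 0 ≤ (1 + s) / 2 by linarith) (show 0 ≤ (1 - s) / 2 by linarith) (by ring)
    simpa [smul_eq_mul] using this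
  have h1 : ‖y + a • v‖ ≤ (1 + a) / 2 * α + (1 - a) / 2 * β := by
    have e : y + a • v = ((1 + a) / 2) • (y + v) + ((1 - a) / 2) • (y - v) := by module
    rw [e]
    refine (norm_add_le _ _).trans ?_
    rw [norm_smul, norm_smul, Real.norm_eq_abs, Real.norm_eq_abs, abs_of_nonneg (by linarith),
      abs_of_nonneg (by linarith)]
  have h2 : ‖y - a • v‖ ≤ (1 + -a) / 2 * α + (1 - -a) / 2 * β := by
    have e : y - a • v = ((1 + -a) / 2) • (y + v) + ((1 - -a) / 2) • (y - v) := by module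
    rw [e]
    refine (norm_add_le _ _).trans ?_
    rw [norm_smul, norm_smul, Real.norm_eq_abs, Real.norm_eq_abs, abs_of_nonneg (by linarith),
      abs_of_nonneg (by linarith)]
  have p1 := (pow_le_pow_left₀ (norm_nonneg _) h1 M).trans (conv a ha1 ha2)
  have p2 := (pow_le_pow_left₀ (norm_nonneg _) h2 M).trans (conv (-a) (by linarith) (by linarith))
  linarith

/-- contraction principle with a base point -/
theorem contraction_base (M : ℕ) : ∀ (n : ℕ) (x : X) (v : Fin n → X) (a : Fin n → ℝ),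
    (∀ j, |a j| ≤ 1) →
    avg (fun ε => ‖x + ∑ j, sg (ε j) • (a j • v j)‖ ^ M) ≤
      avg (fun ε => ‖x + ∑ j, sg (ε j) • v j‖ ^ M)
  | 0, x, v, a, ha => by
    rw [avg_zero_dim, avg_zero_dim]
    simp
  | (n + 1), x, v, a, ha => by
    set T : (Fin n → ℤˣ) → X := fun ε => ∑ j : Fin n, sg (ε j) • (a j.succ • v j.succ) with hT
    set T' : (Fin n → ℤˣ) → X := fun ε => ∑ j : Fin n, sg (ε j) • v j.succ with hT'
    have e1 : avg (fun ε => ‖x + ∑ j, sg (ε j) • (a j • v j)‖ ^ M) =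
        avg (fun ε : Fin n → ℤˣ => (2 : ℝ)⁻¹ * (‖(x + T ε) + a 0 • v 0‖ ^ M +
          ‖(x + T ε) - a 0 • v 0‖ ^ M)) := by
      rw [avg_succ, avg_const_mul, avg_add, smul_eq_mul]
      congr 3
      · ext ε
        rw [sum_cons_sg (v := fun j => a j • v j), sg_one, one_smul]
        congr 2; abel
      · ext ε
        rw [sum_cons_sg (v := fun j => a j • v j), sg_neg_one]
        congr 2
        rw [neg_one_smul]; abel
    have e2 : avg (fun ε => ‖x + ∑ j, sg (ε j) • v j‖ ^ M) =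
        (2 : ℝ)⁻¹ * (avg (fun ε : Fin n → ℤˣ => ‖(x + v 0) + T' ε‖ ^ M) +
          avg (fun ε : Fin n → ℤˣ => ‖(x - v 0) + T' ε‖ ^ M)) := by
      rw [avg_succ, smul_eq_mul]
      congr 3
      · ext ε
        rw [sum_cons_sg, sg_one, one_smul]
        congr 2; abel
      · ext ε
        rw [sum_cons_sg, sg_neg_one]
        congr 2
        rw [neg_one_smul]; abel
    rw [e1, e2]
    have a1 := contraction_base M n (x + v 0) (fun j => v j.succ) (fun j => a j.succ)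
      (fun j => ha _)
    have a2 := contraction_base M n (x - v 0) (fun j => v j.succ) (fun j => a j.succ)
      (fun j => ha _)
    have h1 : avg (fun ε : Fin n → ℤˣ => (2 : ℝ)⁻¹ * (‖(x + T ε) + a 0 • v 0‖ ^ M +
          ‖(x + T ε) - a 0 • v 0‖ ^ M)) ≤
        avg (fun ε : Fin n → ℤˣ => (2 : ℝ)⁻¹ * (‖(x + v 0) + T ε‖ ^ M +
          ‖(x - v 0) + T ε‖ ^ M)) := by
      refine avg_mono fun ε => ?_
      refine mul_le_mul_of_nonneg_left ?_ (by norm_num)
      have h := two_point_contraction M (ha 0) (x + T ε) (v 0)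
      refine h.trans (le_of_eq ?_)
      congr 3
      · abel
      · abel
    refine h1.trans ?_
    rw [avg_const_mul, avg_add]
    exact mul_le_mul_of_nonneg_left (add_le_add a1 a2) (by norm_num)

/-- contraction principle -/
theorem contraction (M : ℕ) {n : ℕ} (v : Fin n → X) (a : Fin n → ℝ) (ha : ∀ j, |a j| ≤ 1) :
    avg (fun ε => ‖∑ j, sg (ε j) • (a j • v j)‖ ^ M) ≤
      avg (fun ε => ‖∑ j, sg (ε j) • v j‖ ^ M) := by
  have := contraction_base M n (0 : X) v a ha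
  simpa using this

/-- contraction principle, with a bound `c` on the coefficients -/
theorem contraction_le (M : ℕ) {n : ℕ} (v : Fin n → X) (a : Fin n → ℝ) {c : ℝ} (hc : 0 ≤ c)
    (ha : ∀ j, |a j| ≤ c) :
    avg (fun ε => ‖∑ j, sg (ε j) • (a j • v j)‖ ^ M) ≤
      c ^ M * avg (fun ε => ‖∑ j, sg (ε j) • v j‖ ^ M) := by
  have h := contraction M (fun j => c • v j) (fun j => a j / c) (fun j => by
    rcases hc.eq_or_lt with h | h
    · rw [← h]; simp
    · rw [abs_div, abs_of_pos h, div_le_one h]; exact ha j)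
  have e1 : ∀ j, (a j / c) • (c • v j) = a j • v j := by
    intro j
    rcases hc.eq_or_lt with h | h
    · have : a j = 0 := by
        have h3 := ha j
        rw [← h] at h3
        exact abs_eq_zero.1 (le_antisymm h3 (abs_nonneg _))
      rw [this, ← h]; simp
    · rw [smul_smul, div_mul_cancel₀ _ h.ne']
  simp only [e1] at h
  refine h.trans (le_of_eq ?_)
  rw [← avg_const_mul]
  congr 1
  ext ε
  have : ∑ j, sg (ε j) • c • v j = c • ∑ j, sg (ε j) • v j := by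
    rw [Finset.smul_sum]
    refine Finset.sum_congr rfl fun j _ => ?_
    rw [smul_comm]
  rw [this, norm_smul, mul_pow, Real.norm_eq_abs, abs_of_nonneg hc]

end vector

end Pool.H45.S1
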