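import Pool.Agent.Helper45.S1.CutL

/-!
# The lower estimate with sparse scales (constant independent of the exponent)
-/

open scoped BigOperators InnerProductSpace
open Module

set_option linter.unusedSectionVars false

namespace Pool.H45.S1

variable {E : Type*} [NormedAddCommGroup E] [InnerProductSpace ℝ E] [FiniteDimensional ℝ E]
  [CompleteSpace E]

theorem N_zero_op (k : ℕ) : N (trL E) k (0 : E →L[ℝ] E) = 0 := by
  have := N_smul (A := E →L[ℝ] E) tracial_trL k (0 : ℝ) 0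
  simpa using this

theorem two_le_two_pow (k : ℕ) : (2 : ℝ) ≤ (2 : ℝ) ^ (k + 1) := by
  rw [pow_succ]
  have : (1 : ℝ) ≤ 2 ^ k := one_le_pow₀ (by norm_num)
  linarith

/-- family shifted up by one scale -/
theorem N_shift_up {A : E →L[ℝ] E} (hA : star A = -A) {t0 : ℝ} (ht0 : 0 < t0) (k M : ℕ)
    (G : ℕ → (E →L[ℝ] E)) (hG : ∀ i, N (trL E) k (G i) ≤ N (trL E) k (Ps (sc t0 k i) A)) :
    N (tauW E fun i : Fin (M + 1) => sc t0 k i) k
      (fun i : Fin (M + 1) => if (i : ℕ) = 0 then 0 else G (i - 1)) ≤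
      4 * tn A ^ (1 / (2 : ℝ) ^ (k + 1)) := by
  have hL := Lk_pos k
  refine (N_le_of_pow_sum (t := fun i : Fin (M + 1) => sc t0 k i) (fun i => (sc_pos ht0 k i).le) k _ (S := Lk k * (4 * tn A)) ?_).trans ?_
  · have e1 : ∑ i : Fin (M + 1), sc t0 k i *
        N (trL E) k (if (i : ℕ) = 0 then 0 else G (i - 1)) ^ (2 ^ (k + 1)) =
          ∑ i ∈ Finset.range (M + 1), sc t0 k i *
            N (trL E) k (if i = 0 then 0 else G (i - 1)) ^ (2 ^ (k + 1)) :=
      (Finset.sum_range (fun i => sc t0 k i *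
            N (trL E) k (if i = 0 then 0 else G (i - 1)) ^ (2 ^ (k + 1)))).symm
    rw [e1, Finset.sum_range_succ', if_pos rfl, N_zero_op, zero_pow (by positivity), mul_zero,
      add_zero]
    have e3 : ∀ i ∈ Finset.range M, sc t0 k (i + 1) *
        N (trL E) k (if i + 1 = 0 then 0 else G (i + 1 - 1)) ^ (2 ^ (k + 1)) ≤
          Lk k * (sc t0 k i * N (trL E) k (Ps (sc t0 k i) A) ^ (2 ^ (k + 1))) := by
      intro i _
      rw [if_neg (by omega), Nat.add_sub_cancel, sc_succ, mul_assoc]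
      refine mul_le_mul_of_nonneg_left (mul_le_mul_of_nonneg_left ?_ (sc_pos ht0 k i).le) hL.le
      exact pow_le_pow_left₀ (N_nonneg _ _) (hG i) _
    refine (Finset.sum_le_sum e3).trans ?_
    rw [← Finset.mul_sum]
    exact mul_le_mul_of_nonneg_left (sum_N_Ps_pow_leL hA ht0 k M) hL.le
  · have h4 := rpow_bound (tn_nonneg A) (two_le_two_pow k) (c := 4) (C := 2) (by norm_num)
      (by norm_num) (by norm_num)
    rw [Real.mul_rpow hL.le (mul_nonneg (by norm_num) (tn_nonneg A)), Lk_rpow]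
    linarith

/-- unshifted family -/
theorem N_noshift {A : E →L[ℝ] E} (hA : star A = -A) {t0 : ℝ} (ht0 : 0 < t0) (k M : ℕ)
    (G : ℕ → (E →L[ℝ] E)) (hG : ∀ i, N (trL E) k (G i) ≤ N (trL E) k (Ps (sc t0 k i) A)) :
    N (tauW E fun i : Fin (M + 1) => sc t0 k i) k
      (fun i : Fin (M + 1) => if (i : ℕ) < M then G i else 0) ≤
      2 * tn A ^ (1 / (2 : ℝ) ^ (k + 1)) := by
  refine (N_le_of_pow_sum (t := fun i : Fin (M + 1) => sc t0 k i) (fun i => (sc_pos ht0 k i).le) k _ (S := 4 * tn A) ?_).trans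
    (rpow_bound (tn_nonneg A) (two_le_two_pow k) (by norm_num) (by norm_num) (by norm_num))
  have e1 : ∑ i : Fin (M + 1), sc t0 k i *
      N (trL E) k (if (i : ℕ) < M then G i else 0) ^ (2 ^ (k + 1)) =
        ∑ i ∈ Finset.range (M + 1), sc t0 k i *
          N (trL E) k (if i < M then G i else 0) ^ (2 ^ (k + 1)) :=
    (Finset.sum_range (fun i => sc t0 k i *
          N (trL E) k (if i < M then G i else 0) ^ (2 ^ (k + 1)))).symm
  rw [e1, Finset.sum_range_succ, if_neg (lt_irrefl M), N_zero_op, zero_pow (by positivity), mul_zero,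
    add_zero]
  refine (Finset.sum_le_sum fun i hi => ?_).trans (sum_N_Ps_pow_leL hA ht0 k M)
  rw [if_pos (Finset.mem_range.1 hi)]
  refine mul_le_mul_of_nonneg_left ?_ (sc_pos ht0 k i).le
  exact pow_le_pow_left₀ (N_nonneg _ _) (hG i) _

/-- family shifted down by one scale -/
theorem N_shift_down {A : E →L[ℝ] E} (hA : star A = -A) {t0 : ℝ} (ht0 : 0 < t0) (k M : ℕ)
    (G : ℕ → (E →L[ℝ] E)) (hG : ∀ i, N (trL E) k (G i) ≤ N (trL E) k (Ps (sc t0 k i) A)) :
    N (tauW E fun i : Fin (M + 1) => sc t0 k i) k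
      (fun i : Fin (M + 1) => if (i : ℕ) < M then G (i + 1) else 0) ≤
      2 * tn A ^ (1 / (2 : ℝ) ^ (k + 1)) := by
  refine (N_le_of_pow_sum (t := fun i : Fin (M + 1) => sc t0 k i) (fun i => (sc_pos ht0 k i).le) k _ (S := 4 * tn A) ?_).trans
    (rpow_bound (tn_nonneg A) (two_le_two_pow k) (by norm_num) (by norm_num) (by norm_num))
  have e1 : ∑ i : Fin (M + 1), sc t0 k i *
      N (trL E) k (if (i : ℕ) < M then G (i + 1) else 0) ^ (2 ^ (k + 1)) =
        ∑ i ∈ Finset.range (M + 1), sc t0 k i *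
          N (trL E) k (if i < M then G (i + 1) else 0) ^ (2 ^ (k + 1)) :=
    (Finset.sum_range (fun i => sc t0 k i *
          N (trL E) k (if i < M then G (i + 1) else 0) ^ (2 ^ (k + 1)))).symm
  rw [e1, Finset.sum_range_succ, if_neg (lt_irrefl M), N_zero_op, zero_pow (by positivity), mul_zero,
    add_zero]
  have h5 := sum_N_Ps_pow_leL hA ht0 k (M + 1)
  rw [Finset.sum_range_succ'] at h5
  have h6 : 0 ≤ sc t0 k 0 * N (trL E) k (Ps (sc t0 k 0) A) ^ (2 ^ (k + 1)) :=
    mul_nonneg (sc_pos ht0 k 0).le (pow_nonneg (N_nonneg _ _) _)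
  refine le_trans (Finset.sum_le_sum fun i hi => ?_) ((le_add_of_nonneg_right h6).trans h5)
  rw [if_pos (Finset.mem_range.1 hi)]
  have h7 : sc t0 k i ≤ sc t0 k (i + 1) := by
    have := two_sc_le ht0 k i
    have := sc_pos ht0 k i
    linarith
  exact mul_le_mul h7 (pow_le_pow_left₀ (N_nonneg _ _) (hG (i + 1)) _)
    (pow_nonneg (N_nonneg _ _) _) (sc_pos ht0 k (i + 1)).le

theorem lowerL {A A' : E →L[ℝ] E} (hA : star A = -A) (hA' : star A' = -A') {t0 : ℝ}
    (ht0 : 0 < t0) (M k : ℕ) :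
    ∃ B : Fin (M + 1) → (E →L[ℝ] E),
      N (tauW E fun i : Fin (M + 1) => sc t0 k i) k B ≤
        10 * (tn A ^ (1 / (2 : ℝ) ^ (k + 1)) + tn A' ^ (1 / (2 : ℝ) ^ (k + 1))) ∧
      tn (A - A') ≤ ∑ i : Fin (M + 1), sc t0 k i *
          trL E ((Ps (sc t0 k i) A - Ps (sc t0 k i) A') * B i) +
        finrank ℝ E * (2 * t0 + (‖A‖ ^ 3 + ‖A'‖ ^ 3) / (sc t0 k M) ^ 2) := by
  classical
  obtain ⟨K, hK, hKt⟩ := exists_contraction (A - A')
  set t : ℕ → ℝ := fun i => sc t0 k i with ht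
  have htpos : ∀ i, 0 < t i := fun i => sc_pos ht0 k i
  set L : ℝ := Lk k with hLd
  have hL : 0 < L := Lk_pos k
  have hL2 : 2 ≤ L := two_le_Lk k
  have htsucc : ∀ i, t (i + 1) = L * t i := fun i => sc_succ t0 k i
  set κ : ℝ := 1 - (L ^ 2)⁻¹ with hκ
  have hκ1 : κ ≤ 1 := by
    have : 0 < (L ^ 2)⁻¹ := by positivity
    linarith
  have hκ0 : 0 ≤ κ := by
    have h1 : (1 : ℝ) ≤ L ^ 2 := one_le_pow₀ (by linarith)
    have : (L ^ 2)⁻¹ ≤ 1 := inv_le_one_of_one_le₀ h1
    linarith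
  -- the families
  set Fa : ℕ → (E →L[ℝ] E) := fun i => K * Xs (t i) A with hFa
  set Fb : ℕ → (E →L[ℝ] E) := fun i => Xs (t i) A' * K * (1 - Xs (t i) A) with hFb
  set Fd : ℕ → (E →L[ℝ] E) := fun i => K * Fs (t i) A with hFd
  have hNa : ∀ i, N (trL E) k (Fa i) ≤ N (trL E) k (Ps (sc t0 k i) A) := fun i =>
    (N_contr k _ K hK).2.trans (N_Xs_le k _)
  have hNb : ∀ i, N (trL E) k (Fb i) ≤ N (trL E) k (Ps (sc t0 k i) A') := fun i =>
    ((N_contr k _ _ (norm_one_sub_Xs_le hA (htpos i))).1.trans (N_contr k _ K hK).1).trans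
      (N_Xs_le k _)
  have hNd : ∀ i, N (trL E) k (Fd i) ≤ N (trL E) k (Ps (sc t0 k i) A) := fun i =>
    (N_contr k _ K hK).2.trans (N_Fs_le k _)
  set τ := tauW E fun i : Fin (M + 1) => sc t0 k i with hτ
  have hτtr : Tracial τ := tracial_tauW fun i => (sc_pos ht0 k i).le
  set Va : Fin (M + 1) → (E →L[ℝ] E) := fun i => if (i : ℕ) = 0 then 0 else Fa (i - 1) with hVa
  set Vb : Fin (M + 1) → (E →L[ℝ] E) := fun i => if (i : ℕ) = 0 then 0 else Fb (i - 1) with hVb
  set Vc : Fin (M + 1) → (E →L[ℝ] E) := fun i => if (i : ℕ) < M then Fa i else 0 with hVc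
  set Vd : Fin (M + 1) → (E →L[ℝ] E) := fun i => if (i : ℕ) < M then Fd i else 0 with hVd
  set Ve : Fin (M + 1) → (E →L[ℝ] E) := fun i => if (i : ℕ) < M then Fd (i + 1) else 0 with hVe
  have hva : N τ k Va ≤ 4 * tn A ^ (1 / (2 : ℝ) ^ (k + 1)) := N_shift_up hA ht0 k M Fa hNa
  have hvb : N τ k Vb ≤ 4 * tn A' ^ (1 / (2 : ℝ) ^ (k + 1)) := N_shift_up hA' ht0 k M Fb hNb
  have hvc : N τ k Vc ≤ 2 * tn A ^ (1 / (2 : ℝ) ^ (k + 1)) := N_noshift hA ht0 k M Fa hNa
  have hvd : N τ k Vd ≤ 2 * tn A ^ (1 / (2 : ℝ) ^ (k + 1)) := N_noshift hA ht0 k M Fd hNd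
  have hve : N τ k Ve ≤ 2 * tn A ^ (1 / (2 : ℝ) ^ (k + 1)) := N_shift_down hA ht0 k M Fd hNd
  set U1 : Fin (M + 1) → (E →L[ℝ] E) := Va + κ • Vb - Vc with hU1
  set U2 : Fin (M + 1) → (E →L[ℝ] E) := Vd - L⁻¹ • Ve with hU2
  set B : Fin (M + 1) → (E →L[ℝ] E) :=
    (2 : ℝ)⁻¹ • (U1 - star U1) + (2 : ℝ)⁻¹ • (U2 + star U2) with hB
  have hNsub : ∀ V W : Fin (M + 1) → (E →L[ℝ] E), N τ k (V - W) ≤ N τ k V + N τ k W := by
    intro V W
    have h1 := N_add_le hτtr k V ((-1 : ℝ) • W)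
    rw [N_smul hτtr, abs_neg, abs_one, one_mul, neg_one_smul, ← sub_eq_add_neg] at h1
    exact h1
  refine ⟨B, ?_, ?_⟩
  · have a0 : 0 ≤ tn A ^ (1 / (2 : ℝ) ^ (k + 1)) := Real.rpow_nonneg (tn_nonneg _) _
    have a0' : 0 ≤ tn A' ^ (1 / (2 : ℝ) ^ (k + 1)) := Real.rpow_nonneg (tn_nonneg _) _
    have hu1 : N τ k U1 ≤ N τ k Va + κ * N τ k Vb + N τ k Vc := by
      have h1 := hNsub (Va + κ • Vb) Vc
      have h2 := N_add_le hτtr k Va (κ • Vb)
      rw [N_smul hτtr, abs_of_nonneg hκ0] at h2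
      linarith
    have hu2 : N τ k U2 ≤ N τ k Vd + L⁻¹ * N τ k Ve := by
      have h1 := hNsub Vd (L⁻¹ • Ve)
      rw [N_smul hτtr, abs_of_nonneg (by positivity)] at h1
      exact h1
    have hL1 : L⁻¹ ≤ 2⁻¹ := inv_anti₀ (by norm_num) hL2
    have hb : N τ k B ≤ N τ k U1 + N τ k U2 := by
      have h1 := N_add_le hτtr k ((2 : ℝ)⁻¹ • (U1 - star U1)) ((2 : ℝ)⁻¹ • (U2 + star U2))
      rw [N_smul hτtr, N_smul hτtr] at h1
      have h2 := hNsub U1 (star U1)
      have h3 := N_add_le hτtr k U2 (star U2)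
      rw [N_star hτtr] at h2 h3
      have : |(2 : ℝ)⁻¹| = 2⁻¹ := by norm_num
      rw [this, ← hB] at h1
      linarith
    have hnb : 0 ≤ N τ k Vb := N_nonneg _ _
    have hne : 0 ≤ N τ k Ve := N_nonneg _ _
    have h3 : κ * N τ k Vb ≤ N τ k Vb := mul_le_of_le_one_left hnb hκ1
    have h4 : L⁻¹ * N τ k Ve ≤ 2⁻¹ * N τ k Ve := mul_le_mul_of_nonneg_right hL1 hne
    linarith
  · -- the reproducing formula
    have e1 : ∑ i : Fin (M + 1), sc t0 k i *
          trL E ((Ps (sc t0 k i) A - Ps (sc t0 k i) A') * B i) =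
        ∑ i : Fin (M + 1), (t i * trL E ((Fs (t i) A - Fs (t i) A') * U1 i) +
          t i * trL E ((Xs (t i) A - Xs (t i) A') * U2 i)) := by
      refine Finset.sum_congr rfl fun i _ => ?_
      have hBi : B i = (2 : ℝ)⁻¹ • (U1 i - star (U1 i)) + (2 : ℝ)⁻¹ • (U2 i + star (U2 i)) := by
        simp only [hB, Pi.add_apply, Pi.smul_apply, Pi.sub_apply, Pi.star_apply]
      rw [hBi, trL_Fs_sub, trL_Xs_sub, mul_add ((Ps (sc t0 k i) A - Ps (sc t0 k i) A')),
        mul_smul_comm, mul_smul_comm, map_add, map_smul, map_smul, smul_eq_mul, smul_eq_mul]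
      ring
    have e2 : ∑ i : Fin (M + 1), (t i * trL E ((Fs (t i) A - Fs (t i) A') * U1 i) +
          t i * trL E ((Xs (t i) A - Xs (t i) A') * U2 i)) =
        ∑ i ∈ Finset.range M,
          trL E (K * ((t (i + 1) • Fs (t (i + 1)) A - t i • Fs (t i) A) -
            (t (i + 1) • Fs (t (i + 1)) A' - t i • Fs (t i) A'))) := by
      set W1 : ℕ → (E →L[ℝ] E) := fun i => (if i = 0 then 0 else Fa (i - 1)) +
        κ • (if i = 0 then 0 else Fb (i - 1)) - (if i < M then Fa i else 0) with hW1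
      set W2 : ℕ → (E →L[ℝ] E) := fun i => (if i < M then Fd i else 0) -
        L⁻¹ • (if i < M then Fd (i + 1) else 0) with hW2
      have hU1W : ∀ i : Fin (M + 1), U1 i = W1 i := fun i => rfl
      have hU2W : ∀ i : Fin (M + 1), U2 i = W2 i := fun i => rfl
      simp only [hU1W, hU2W]
      rw [← Finset.sum_range (fun i => t i * trL E ((Fs (t i) A - Fs (t i) A') * W1 i) +
          t i * trL E ((Xs (t i) A - Xs (t i) A') * W2 i)), Finset.sum_add_distrib]
      -- the first sum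
      have s1 : ∑ i ∈ Finset.range (M + 1), t i * trL E ((Fs (t i) A - Fs (t i) A') * W1 i) =
          ∑ i ∈ Finset.range M, (t (i + 1) * trL E ((Fs (t (i + 1)) A - Fs (t (i + 1)) A') *
            (Fa i + κ • Fb i)) - t i * trL E ((Fs (t i) A - Fs (t i) A') * Fa i)) := by
        have hsplit : ∀ i, t i * trL E ((Fs (t i) A - Fs (t i) A') * W1 i) =
            t i * trL E ((Fs (t i) A - Fs (t i) A') * ((if i = 0 then 0 else Fa (i - 1)) +
              κ • (if i = 0 then 0 else Fb (i - 1)))) -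
            t i * trL E ((Fs (t i) A - Fs (t i) A') * (if i < M then Fa i else 0)) := by
          intro i
          rw [hW1]
          simp only
          rw [mul_sub, map_sub, mul_sub]
        simp only [hsplit]
        rw [Finset.sum_sub_distrib, Finset.sum_range_succ', Finset.sum_range_succ _ M,
          Finset.sum_sub_distrib]
        simp only [if_true, smul_zero, add_zero, mul_zero, map_zero, lt_irrefl, if_false]
        congr 1
        refine Finset.sum_congr rfl fun i hi => ?_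
        rw [if_pos (Finset.mem_range.1 hi)]
      have s2 : ∑ i ∈ Finset.range (M + 1), t i * trL E ((Xs (t i) A - Xs (t i) A') * W2 i) =
          ∑ i ∈ Finset.range M, t i * trL E ((Xs (t i) A - Xs (t i) A') *
            (Fd i - L⁻¹ • Fd (i + 1))) := by
        rw [Finset.sum_range_succ]
        have h0 : W2 M = 0 := by simp [hW2]
        rw [h0, mul_zero, map_zero, mul_zero, add_zero]
        refine Finset.sum_congr rfl fun i hi => ?_
        rw [hW2]
        simp only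
        rw [if_pos (Finset.mem_range.1 hi), if_pos (Finset.mem_range.1 hi)]
      rw [s1, s2, ← Finset.sum_add_distrib]
      refine Finset.sum_congr rfl fun i _ => ?_
      have hcut := cut_identity κ (t (i + 1) • Fs (t (i + 1)) A) (t i • Fs (t i) A) (Xs (t i) A)
        (t (i + 1) • Fs (t (i + 1)) A') (t i • Fs (t i) A') (Xs (t i) A')
        (by rw [mul_smul_comm, smul_mul_assoc, Xs_Fs_comm hA (htpos _) (htpos _)])
        (by rw [mul_smul_comm, smul_mul_assoc, Xs_Fs_comm hA (htpos _) (htpos _)])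
        (by rw [htsucc]; exact telescopeL hA (htpos i) hL)
        (by rw [htsucc]; exact telescopeL hA' (htpos i) hL)
      rw [hcut]
      set f₁ := Fs (t (i + 1)) A
      set f₁' := Fs (t (i + 1)) A'
      set f₀ := Fs (t i) A
      set f₀' := Fs (t i) A'
      set x := Xs (t i) A
      set x' := Xs (t i) A'
      have hFai : Fa i = K * x := rfl
      have hFbi : Fb i = x' * K * (1 - x) := rfl
      have hFdi : Fd i = K * f₀ := rfl
      have hFdi1 : Fd (i + 1) = K * f₁ := rfl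
      have c1 : K * (x * (t (i + 1) • f₁ - t (i + 1) • f₁')) =
          t (i + 1) • ((K * x) * (f₁ - f₁')) := by
        rw [← smul_sub, mul_smul_comm, mul_smul_comm, mul_assoc]
      have c2 : K * (κ • ((1 - x) * (t (i + 1) • f₁ - t (i + 1) • f₁') * x')) =
          (t (i + 1) * κ) • ((K * (1 - x)) * ((f₁ - f₁') * x')) := by
        rw [← smul_sub]
        simp only [mul_smul_comm, smul_mul_assoc, mul_assoc, smul_smul]
        rw [mul_comm κ]
      have c3 : K * (x * (t i • f₀ - t i • f₀')) = t i • ((K * x) * (f₀ - f₀')) := by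
        rw [← smul_sub, mul_smul_comm, mul_smul_comm, mul_assoc]
      have c4 : K * ((t i • f₀ - (1 - κ) • t (i + 1) • f₁) * (x - x')) =
          t i • ((K * f₀ - L⁻¹ • (K * f₁)) * (x - x')) := by
        have h1 : (1 - κ) • t (i + 1) • f₁ = t i • (L⁻¹ • f₁) := by
          rw [smul_smul, smul_smul, htsucc, hκ]
          congr 1
          field_simp
          ring
        have h2 : K * (f₀ - L⁻¹ • f₁) = K * f₀ - L⁻¹ • (K * f₁) := by
          rw [mul_sub, mul_smul_comm]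
        rw [h1, ← smul_sub, smul_mul_assoc, mul_smul_comm, ← mul_assoc, h2]
      have hR : K * (x * (t (i + 1) • f₁ - t (i + 1) • f₁') +
          κ • ((1 - x) * (t (i + 1) • f₁ - t (i + 1) • f₁') * x') - x * (t i • f₀ - t i • f₀') +
          (t i • f₀ - (1 - κ) • t (i + 1) • f₁) * (x - x')) =
          t (i + 1) • ((K * x) * (f₁ - f₁')) + (t (i + 1) * κ) • ((K * (1 - x)) * ((f₁ - f₁') * x')) -
          t i • ((K * x) * (f₀ - f₀')) + t i • ((K * f₀ - L⁻¹ • (K * f₁)) * (x - x')) := by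
        rw [mul_add K, mul_sub K, mul_add K, c1, c2, c3, c4]
      rw [hR, map_add, map_sub, map_add, map_smul, map_smul,
        map_smul, map_smul, smul_eq_mul, smul_eq_mul, smul_eq_mul, smul_eq_mul, hFai, hFbi, hFdi,
        hFdi1]
      have d1 : trL E ((K * x) * (f₁ - f₁')) = trL E ((f₁ - f₁') * (K * x)) := trL_comm _ _
      have d2 : trL E ((K * (1 - x)) * ((f₁ - f₁') * x')) =
          trL E ((f₁ - f₁') * (x' * K * (1 - x))) := by
        rw [trL_comm]; simp only [mul_assoc]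
      have d3 : trL E ((K * x) * (f₀ - f₀')) = trL E ((f₀ - f₀') * (K * x)) := trL_comm _ _
      have d4 : trL E ((K * f₀ - L⁻¹ • (K * f₁)) * (x - x')) =
          trL E ((x - x') * (K * f₀ - L⁻¹ • (K * f₁))) := trL_comm _ _
      rw [d1, d2, d3, d4, mul_add (f₁ - f₁'), map_add, mul_smul_comm, map_smul, smul_eq_mul]
      ring
    rw [e1, e2, ← map_sum, ← Finset.mul_sum, Finset.sum_sub_distrib, telescope_sumL,
      telescope_sumL, hKt]
    have hs0 : sc t0 k 0 = t0 := by simp [sc]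
    rw [hs0]
    have e4 : A - A' = ((sc t0 k M • Fs (sc t0 k M) A - t0 • Fs t0 A) -
          (sc t0 k M • Fs (sc t0 k M) A' - t0 • Fs t0 A')) +
        ((A - sc t0 k M • Fs (sc t0 k M) A) - (A' - sc t0 k M • Fs (sc t0 k M) A') +
          (t0 • Fs t0 A - t0 • Fs t0 A')) := by abel
    conv_lhs => rw [e4]
    rw [mul_add, map_add]
    refine add_le_add (le_refl _) ?_
    refine (le_abs_self _).trans ((abs_trL_le _).trans ?_)
    refine mul_le_mul_of_nonneg_left ?_ (Nat.cast_nonneg _)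
    refine (norm_mul_le _ _).trans ?_
    have htM : 0 < sc t0 k M := sc_pos ht0 k M
    have n1 := norm_A_sub_le hA htM
    have n2 := norm_A_sub_le hA' htM
    have n3 : ‖t0 • Fs t0 A‖ ≤ t0 := by
      rw [norm_smul, Real.norm_of_nonneg ht0.le]
      exact mul_le_of_le_one_right ht0.le (norm_Fs_le hA ht0)
    have n4 : ‖t0 • Fs t0 A'‖ ≤ t0 := by
      rw [norm_smul, Real.norm_of_nonneg ht0.le]
      exact mul_le_of_le_one_right ht0.le (norm_Fs_le hA' ht0)
    refine (mul_le_mul_of_nonneg_right hK (norm_nonneg _)).trans ?_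
    rw [one_mul, add_div]
    refine (norm_add_le _ _).trans ?_
    have n5 := norm_sub_le (A - sc t0 k M • Fs (sc t0 k M) A) (A' - sc t0 k M • Fs (sc t0 k M) A')
    have n6 := norm_sub_le (t0 • Fs t0 A) (t0 • Fs t0 A')
    linarith

end Pool.H45.S1
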