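import Mathlib

/-!
# The cotype of `L_r(0,1)`
-/

open Filter Topology MeasureTheory
open scoped ENNReal

namespace Pool.H45.S1

/-- disjoint normalised indicators -/
theorem exists_disjoint_vectors (r : ℝ≥0∞) [Fact (1 ≤ r)] (n : ℕ) (hn : 0 < n) :
    ∃ v : Fin n → Lp ℝ r (volume.restrict (Set.Ioo (0 : ℝ) 1)),
      (∀ j, ‖v j‖ = ((n : ℝ)⁻¹) ^ (1 / r.toReal)) ∧
      ∀ a : Fin n → ℝ, (∀ j, |a j| ≤ 1) → ‖∑ j, a j • v j‖ ≤ 1 := by
  classical
  have hn0 : (0 : ℝ) < n := by exact_mod_cast hn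
  set μ : Measure ℝ := volume.restrict (Set.Ioo (0 : ℝ) 1) with hμ
  have hμ1 : μ Set.univ = 1 := by rw [hμ]; simp
  have : IsProbabilityMeasure μ := ⟨hμ1⟩
  set s : Fin n → Set ℝ := fun j => Set.Ioo ((j : ℝ) / n) (((j : ℝ) + 1) / n) with hs
  have hsm : ∀ j, MeasurableSet (s j) := fun j => measurableSet_Ioo
  have hsub : ∀ j, s j ⊆ Set.Ioo (0 : ℝ) 1 := by
    intro j x hx
    have h1 : (0 : ℝ) ≤ (j : ℝ) / n := by positivity
    have h2 : ((j : ℝ) + 1) / n ≤ 1 := by
      rw [div_le_one hn0]; exact_mod_cast j.2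
    exact ⟨lt_of_le_of_lt h1 hx.1, lt_of_lt_of_le hx.2 h2⟩
  have hsμ : ∀ j, μ (s j) = ENNReal.ofReal ((n : ℝ)⁻¹) := by
    intro j
    rw [hμ, Measure.restrict_apply (hsm j), Set.inter_eq_left.2 (hsub j), hs]
    simp only
    rw [Real.volume_Ioo]
    congr 1
    field_simp
    ring
  have hsreal : ∀ j, μ.real (s j) = (n : ℝ)⁻¹ := by
    intro j
    rw [Measure.real, hsμ, ENNReal.toReal_ofReal (by positivity)]
  have hr0 : r ≠ 0 := (lt_of_lt_of_le zero_lt_one (Fact.out : 1 ≤ r)).ne'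
  set v : Fin n → Lp ℝ r μ := fun j => indicatorConstLp r (hsm j) (measure_ne_top μ _) (1 : ℝ)
    with hv
  refine ⟨v, fun j => ?_, fun a ha => ?_⟩
  · rw [hv]
    simp only
    rw [norm_indicatorConstLp' hr0, hsreal, norm_one, one_mul]
    rw [hsμ]
    exact (ENNReal.ofReal_pos.2 (by positivity)).ne'
  · have hdisj : ∀ (x : ℝ) (i j : Fin n), x ∈ s i → x ∈ s j → i = j := by
      intro x i j hi hj
      have h1 := hi.1.trans hj.2
      have h2 := hj.1.trans hi.2
      rw [div_lt_div_iff_of_pos_right hn0] at h1 h2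
      have h3 : (i : ℕ) < j + 1 := by exact_mod_cast h1
      have h4 : (j : ℕ) < i + 1 := by exact_mod_cast h2
      exact Fin.ext (by omega)
    have hbound : ∀ᵐ x ∂μ, ‖(∑ j, a j • v j : Lp ℝ r μ) x‖ ≤ 1 := by
      have h1 : ⇑(∑ j, a j • v j : Lp ℝ r μ) =ᵐ[μ] fun x => ∑ j, (a j • v j : Lp ℝ r μ) x :=
        Lp.coeFn_fun_finsetSum Finset.univ (fun j => a j • v j)
      have h2 : ∀ᵐ x ∂μ, ∀ j, (a j • v j : Lp ℝ r μ) x =
          a j * (s j).indicator (fun _ => (1 : ℝ)) x := by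
        rw [ae_all_iff]
        intro j
        filter_upwards [Lp.coeFn_smul (a j) (v j),
          indicatorConstLp_coeFn (p := r) (hs := hsm j) (hμs := measure_ne_top μ _)
            (c := (1 : ℝ))] with x hx1 hx2
        rw [hx1, Pi.smul_apply, smul_eq_mul, hv]
        simp only
        rw [hx2]
      filter_upwards [h1, h2] with x hx1 hx2
      rw [hx1]
      simp_rw [hx2]
      by_cases hx : ∃ i, x ∈ s i
      · obtain ⟨i, hi⟩ := hx
        rw [Finset.sum_eq_single i]
        · rw [Set.indicator_of_mem hi, mul_one, Real.norm_eq_abs]; exact ha i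
        · intro j _ hj
          rw [Set.indicator_of_notMem (fun h => hj (hdisj x j i h hi)), mul_zero]
        · intro h; exact absurd (Finset.mem_univ _) h
      · push Not at hx
        rw [Finset.sum_eq_zero]
        · simp
        · intro j _
          rw [Set.indicator_of_notMem (hx j), mul_zero]
    refine (Lp.norm_le_of_ae_bound zero_le_one hbound).trans ?_
    rw [mul_one]
    simp [measureUnivNNReal]

end Pool.H45.S1
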