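import Pool.Agent.Helper45.S1.TypeTwo

/-!
# The metric inequality on the discrete torus
-/

open scoped BigOperators

namespace Pool.H45.S1

/-- a sign vector as an element of the discrete torus -/
def vec {n m : ℕ} (ε : Fin n → ℤˣ) : Fin n → ZMod m := fun i => ((ε i : ℤ) : ZMod m)

section
variable {Y : Type*} [SeminormedAddCommGroup Y] [NormedSpace ℝ Y] {n m : ℕ}

theorem avg_update {Y' : Type*} [AddCommGroup Y'] [Module ℝ Y'] (j : Fin n)
    (f : (Fin n → ℤˣ) → Y') :
    avg (fun ε => f (Function.update ε j 1)) + avg (fun ε => f (Function.update ε j (-1))) =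
      (2 : ℝ) • avg f := by
  rw [← avg_add]
  have h1 : ∀ ε : Fin n → ℤˣ, f (Function.update ε j 1) + f (Function.update ε j (-1)) =
      f ε + f (Function.update (1 : Fin n → ℤˣ) j (-1) * ε) := by
    intro ε
    have e : Function.update (1 : Fin n → ℤˣ) j (-1) * ε = Function.update ε j (-(ε j)) := by
      ext i
      by_cases hi : i = j
      · subst hi; simp
      · simp [hi]
    rw [e]
    rcases Int.units_eq_one_or (ε j) with h | h
    · have e2 : Function.update ε j 1 = ε := by rw [← h]; exact Function.update_eq_self j ε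
      rw [e2, h]
    · have e2 : Function.update ε j (-1) = ε := by rw [← h]; exact Function.update_eq_self j ε
      rw [e2, h, neg_neg, add_comm]
  simp only [h1]
  rw [avg_add, avg_mul, two_smul]

theorem vec_update_neg (ε : Fin n → ℤˣ) (j : Fin n) (x : Fin n → ZMod m) :
    x + vec (Function.update ε j (-1)) =
      (x - Pi.single j (2 : ZMod m)) + vec (Function.update ε j 1) := by
  ext i
  by_cases hi : i = j
  · subst hi
    simp [vec]
    ring
  · simp [vec, hi]

theorem metric_ineq {K : ℝ} (hK : KProp Y K) [NeZero m] (G : (Fin n → ZMod m) → Y) (s : ℕ) :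
    ∑ j, ∑ x, ‖G (x + Pi.single j (2 * (s : ZMod m))) - G x‖ ^ 2 ≤
      12 * ((s : ℝ) ^ 2 * K + n) *
        avg (fun ε => ∑ x, ‖G (x + vec ε) - G x‖ ^ 2) := by
  classical
  set D := avg (fun ε => ∑ x, ‖G (x + vec ε) - G x‖ ^ 2) with hD
  have hD' : D = ∑ x, avg (fun ε => ‖G (x + vec ε) - G x‖ ^ 2) := by
    rw [hD, avg_sum]
  let Ep : Fin n → (Fin n → ZMod m) → Y := fun j x => avg (fun ε => G (x + vec (Function.update ε j 1)))
  let h : Fin n → (Fin n → ZMod m) → Y := fun j x => avg (fun ε => sg (ε j) • (G (x + vec ε) - G x))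
  have hEp : ∀ j x, Ep j x - Ep j (x - Pi.single j 2) = (2 : ℝ) • h j x := by
    intro j x
    have h1 := avg_update j (fun ε => sg (ε j) • (G (x + vec ε) - G x))
    simp only [Function.update_self, sg_one, sg_neg_one, one_smul, neg_smul] at h1
    rw [← h1, ← avg_add]
    show avg _ - avg _ = _
    rw [← avg_sub]
    congr 1
    ext ε
    rw [vec_update_neg]
    abel
  -- telescoping
  have htel : ∀ (j : Fin n) (x : Fin n → ZMod m) (r : ℕ), Ep j (x + Pi.single j (2 * (r : ZMod m))) - Ep j x =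
      ∑ i ∈ Finset.range r, (2 : ℝ) • h j (x + Pi.single j (2 * ((i + 1 : ℕ) : ZMod m))) := by
    intro j x r
    induction r with
    | zero => simp
    | succ r ih =>
      rw [Finset.sum_range_succ, ← ih, ← hEp]
      have : x + Pi.single j (2 * ((r + 1 : ℕ) : ZMod m)) - Pi.single j 2 =
          x + Pi.single j (2 * (r : ZMod m)) := by
        rw [add_sub_assoc, ← Pi.single_sub]
        congr 2
        push_cast; ring
      rw [this]
      abel
  have hshift : ∀ (y : Fin n → ZMod m) (f : (Fin n → ZMod m) → ℝ), ∑ x, f (x + y) = ∑ x, f x := by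
    intro y f
    exact Fintype.sum_equiv (Equiv.addRight y) _ _ (fun x => rfl)
  -- the sum of the h's
  have hh : ∑ j, ∑ x, ‖h j x‖ ^ 2 ≤ K * D := by
    rw [Finset.sum_comm, hD', Finset.mul_sum]
    exact Finset.sum_le_sum fun x _ => hK n (fun ε => G (x + vec ε) - G x)
  have hEG : ∀ j, ∑ x, ‖Ep j x - G x‖ ^ 2 ≤ 2 * D := by
    intro j
    rw [hD', Finset.mul_sum]
    refine Finset.sum_le_sum fun x _ => ?_
    have e1 : Ep j x - G x = avg (fun ε => G (x + vec (Function.update ε j 1)) - G x) := by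
      rw [avg_sub, avg_const]
    rw [e1]
    refine (norm_avg_sq_le _).trans ?_
    have e2 := avg_update j (fun ε => ‖G (x + vec ε) - G x‖ ^ 2)
    rw [smul_eq_mul] at e2
    have e3 : 0 ≤ avg (fun ε => ‖G (x + vec (Function.update ε j (-1))) - G x‖ ^ 2) :=
      avg_nonneg fun ε => by positivity
    linarith
  have hT : ∀ j, ∑ x, ‖Ep j (x + Pi.single j (2 * (s : ZMod m))) - Ep j x‖ ^ 2 ≤
      4 * (s : ℝ) ^ 2 * ∑ x, ‖h j x‖ ^ 2 := by
    intro j
    have e1 : ∀ x, ‖Ep j (x + Pi.single j (2 * (s : ZMod m))) - Ep j x‖ ^ 2 ≤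
        s * ∑ i ∈ Finset.range s, 4 * ‖h j (x + Pi.single j (2 * ((i + 1 : ℕ) : ZMod m)))‖ ^ 2 := by
      intro x
      rw [htel]
      have h1 : ‖∑ i ∈ Finset.range s, (2 : ℝ) • h j (x + Pi.single j (2 * ((i + 1 : ℕ) : ZMod m)))‖ ≤
          ∑ i ∈ Finset.range s, 2 * ‖h j (x + Pi.single j (2 * ((i + 1 : ℕ) : ZMod m)))‖ := by
        refine (norm_sum_le _ _).trans (Finset.sum_le_sum fun i _ => ?_)
        rw [norm_smul]; norm_num
      refine (pow_le_pow_left₀ (norm_nonneg _) h1 2).trans ?_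
      have h2 := sq_sum_le_card_mul_sum_sq (s := Finset.range s)
        (f := fun i => 2 * ‖h j (x + Pi.single j (2 * ((i + 1 : ℕ) : ZMod m)))‖)
      rw [Finset.card_range] at h2
      refine h2.trans (le_of_eq ?_)
      congr 1
      refine Finset.sum_congr rfl fun i _ => ?_
      ring
    refine (Finset.sum_le_sum fun x _ => e1 x).trans ?_
    rw [← Finset.mul_sum, Finset.sum_comm]
    have e2 : ∀ i ∈ Finset.range s, ∑ x : Fin n → ZMod m,
        4 * ‖h j (x + Pi.single j (2 * ((i + 1 : ℕ) : ZMod m)))‖ ^ 2 =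
        4 * ∑ x, ‖h j x‖ ^ 2 := by
      intro i _
      rw [← Finset.mul_sum, hshift _ (fun x => ‖h j x‖ ^ 2)]
    rw [Finset.sum_congr rfl e2, Finset.sum_const, Finset.card_range, nsmul_eq_mul]
    exact le_of_eq (by ring)
  have hmain : ∀ j, ∑ x, ‖G (x + Pi.single j (2 * (s : ZMod m))) - G x‖ ^ 2 ≤
      3 * (4 * D + 4 * (s : ℝ) ^ 2 * ∑ x, ‖h j x‖ ^ 2) := by
    intro j
    have e1 : ∀ x, ‖G (x + Pi.single j (2 * (s : ZMod m))) - G x‖ ^ 2 ≤
        3 * (‖Ep j (x + Pi.single j (2 * (s : ZMod m))) - G (x + Pi.single j (2 * (s : ZMod m)))‖ ^ 2 +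
          ‖Ep j (x + Pi.single j (2 * (s : ZMod m))) - Ep j x‖ ^ 2 + ‖Ep j x - G x‖ ^ 2) := by
      intro x
      set a := Ep j (x + Pi.single j (2 * (s : ZMod m))) - G (x + Pi.single j (2 * (s : ZMod m)))
      set b := Ep j (x + Pi.single j (2 * (s : ZMod m))) - Ep j x
      set c := Ep j x - G x
      have h1 : G (x + Pi.single j (2 * (s : ZMod m))) - G x = b + c - a := by
        simp only [a, b, c]; abel
      rw [h1]
      have h2 : ‖b + c - a‖ ≤ ‖a‖ + ‖b‖ + ‖c‖ := by
        have := norm_sub_le (b + c) a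
        have := norm_add_le b c
        linarith
      have h3 := pow_le_pow_left₀ (norm_nonneg _) h2 2
      nlinarith [sq_nonneg (‖a‖ - ‖b‖), sq_nonneg (‖b‖ - ‖c‖), sq_nonneg (‖a‖ - ‖c‖)]
    refine (Finset.sum_le_sum fun x _ => e1 x).trans ?_
    rw [← Finset.mul_sum, Finset.sum_add_distrib, Finset.sum_add_distrib,
      hshift _ (fun x => ‖Ep j x - G x‖ ^ 2)]
    have := hT j
    have := hEG j
    linarith
  refine (Finset.sum_le_sum fun j _ => hmain j).trans ?_
  rw [← Finset.mul_sum, Finset.sum_add_distrib, ← Finset.mul_sum, Finset.sum_const,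
    Finset.card_univ, Fintype.card_fin, nsmul_eq_mul, ← Finset.mul_sum]
  have hs : (0 : ℝ) ≤ 4 * (s : ℝ) ^ 2 := by positivity
  nlinarith [mul_le_mul_of_nonneg_left hh hs]

end

end Pool.H45.S1
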