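import Pool.Agent.Helper45.S1.Zigzag

/-!
# Quasisymmetric embeddings into a space with weak metric cotype two
-/

open scoped BigOperators
open Finset Filter Topology

set_option linter.unusedSectionVars false

namespace Pool.H45.S1

/-- an abstract form of the inequality that holds in the trace class -/
def WeakCotype {X : Type*} (ρ : X → X → ℝ) : Prop :=
  ∀ k : ℕ, ∃ C : ℝ, 0 < C ∧ ∀ (n m : ℕ) [NeZero m] (F : (Fin n → ZMod m) → X) (R : ℝ),
    (∀ x, ρ (F x) (F 0) ≤ R) → ∀ s : ℕ,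
    ∑ j, ∑ x, ρ (F (x + Pi.single j (2 * (s : ZMod m)))) (F x) ^ 2 ≤
      C * ((s : ℝ) ^ 2 + n) * ((R ^ (1 / (2 : ℝ) ^ (k + 1))) ^ 2 *
        avg (fun ε => ∑ x, (ρ (F (x + vec ε)) (F x) ^ (1 - 1 / (2 : ℝ) ^ (k + 1))) ^ 2))

variable {X : Type*} [NormedAddCommGroup X] [NormedSpace ℝ X]

/-- the pulled back metric of a quasisymmetric embedding -/
structure QSD (ρ : X → X → ℝ) (η : ℝ → ℝ) : Prop where
  self : ∀ x, ρ x x = 0
  symm : ∀ x y, ρ x y = ρ y x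
  tri : ∀ x y z, ρ x z ≤ ρ x y + ρ y z
  pos : ∀ x y, x ≠ y → 0 < ρ x y
  ηpos : ∀ t, 0 < t → 0 < η t
  mono : MonotoneOn η (Set.Ioi 0)
  lim : Tendsto η (𝓝[>] 0) (𝓝 0)
  qs : ∀ x y z, x ≠ y → x ≠ z → y ≠ z → ρ x y ≤ η (‖x - y‖ / ‖x - z‖) * ρ x z

namespace QSD
variable {ρ : X → X → ℝ} {η : ℝ → ℝ} (h : QSD ρ η)
include h

theorem nonneg (x y : X) : 0 ≤ ρ x y := by
  by_cases hxy : x = y
  · rw [hxy, h.self]
  · exact (h.pos x y hxy).le

theorem qs1 {t : ℝ} (ht : 0 < t) {x y z : X} (hxz : x ≠ z) (hle : ‖x - y‖ ≤ t * ‖x - z‖) :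
    ρ x y ≤ max (η t) 1 * ρ x z := by
  have hm : 0 ≤ max (η t) 1 := le_max_of_le_right zero_le_one
  by_cases hxy : x = y
  · rw [← hxy, h.self]; exact mul_nonneg hm (h.nonneg _ _)
  by_cases hyz : y = z
  · rw [hyz]; exact le_mul_of_one_le_left (h.nonneg _ _) (le_max_right _ _)
  have hpz : 0 < ‖x - z‖ := norm_pos_iff.2 (sub_ne_zero.2 hxz)
  have hpy : 0 < ‖x - y‖ := norm_pos_iff.2 (sub_ne_zero.2 hxy)
  refine (h.qs x y z hxy hxz hyz).trans (mul_le_mul_of_nonneg_right ?_ (h.nonneg _ _))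
  exact (h.mono (Set.mem_Ioi.2 (div_pos hpy hpz)) (Set.mem_Ioi.2 ht)
    ((div_le_iff₀ hpz).2 hle)).trans (le_max_left _ _)

theorem qs2 {t : ℝ} (ht : 0 < t) (ht1 : t < 1) {x y z : X} (hxz : x ≠ z)
    (hle : ‖x - y‖ ≤ t * ‖x - z‖) : ρ x y ≤ η t * ρ x z := by
  have hm : 0 ≤ η t := (h.ηpos t ht).le
  by_cases hxy : x = y
  · rw [← hxy, h.self]; exact mul_nonneg hm (h.nonneg _ _)
  have hpz : 0 < ‖x - z‖ := norm_pos_iff.2 (sub_ne_zero.2 hxz)
  have hpy : 0 < ‖x - y‖ := norm_pos_iff.2 (sub_ne_zero.2 hxy)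
  have hyz : y ≠ z := by
    intro e
    rw [e] at hle
    nlinarith
  refine (h.qs x y z hxy hxz hyz).trans (mul_le_mul_of_nonneg_right ?_ (h.nonneg _ _))
  exact h.mono (Set.mem_Ioi.2 (div_pos hpy hpz)) (Set.mem_Ioi.2 ht) ((div_le_iff₀ hpz).2 hle)

theorem large (i : ℕ) : ∀ {x y z : X}, x ≠ z → ‖x - y‖ ≤ 2 ^ i * ‖x - z‖ →
    ρ x y ≤ max (η 2) 1 ^ (i + 1) * ρ x z := by
  have hm : 0 ≤ max (η 2) 1 := le_max_of_le_right zero_le_one
  induction i with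
  | zero =>
    intro x y z hxz hle
    rw [zero_add, pow_one]
    refine h.qs1 (by norm_num) hxz (hle.trans ?_)
    rw [pow_zero]
    exact mul_le_mul_of_nonneg_right (by norm_num) (norm_nonneg _)
  | succ i ih =>
    intro x y z hxz hle
    by_cases hxy : x = y
    · rw [← hxy, h.self]; exact mul_nonneg (pow_nonneg hm _) (h.nonneg _ _)
    set y' : X := x + (2 : ℝ)⁻¹ • (y - x) with hy'
    have e1 : x - y' = (2 : ℝ)⁻¹ • (x - y) := by rw [hy']; module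
    have e2 : ‖x - y'‖ = (2 : ℝ)⁻¹ * ‖x - y‖ := by
      rw [e1, norm_smul, Real.norm_eq_abs, abs_of_pos (by norm_num)]
    have hne : x ≠ y' := by
      intro e
      rw [← sub_eq_zero, e1, smul_eq_zero] at e
      rcases e with e | e
      · norm_num at e
      · exact hxy (sub_eq_zero.1 e)
    have h1 := ih (y := y') hxz (by rw [e2]; rw [pow_succ] at hle; linarith)
    have h2 := h.qs1 (t := 2) (by norm_num) (y := y) hne (by rw [e2]; linarith)
    calc ρ x y ≤ max (η 2) 1 * ρ x y' := h2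
      _ ≤ max (η 2) 1 * (max (η 2) 1 ^ (i + 1) * ρ x z) := mul_le_mul_of_nonneg_left h1 hm
      _ = _ := by ring

theorem small {t : ℝ} (ht : 0 < t) (ht1 : t < 1) (hη : η t ≤ 2⁻¹) (i : ℕ) :
    ∀ {x y z : X}, x ≠ z → ‖x - y‖ ≤ t ^ i * ‖x - z‖ →
    ρ x y ≤ (2⁻¹ : ℝ) ^ i * (max (η 2) 1 * ρ x z) := by
  have hm : 0 ≤ max (η 2) 1 := le_max_of_le_right zero_le_one
  induction i with
  | zero =>
    intro x y z hxz hle
    rw [pow_zero, one_mul]
    refine h.qs1 (by norm_num) hxz (hle.trans ?_)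
    rw [pow_zero]
    exact mul_le_mul_of_nonneg_right (by norm_num) (norm_nonneg _)
  | succ i ih =>
    intro x y z hxz hle
    by_cases hxy : x = y
    · rw [← hxy, h.self]
      exact mul_nonneg (by positivity) (mul_nonneg hm (h.nonneg _ _))
    set y' : X := x + t⁻¹ • (y - x) with hy'
    have e1 : x - y' = t⁻¹ • (x - y) := by rw [hy']; module
    have e2 : ‖x - y'‖ = t⁻¹ * ‖x - y‖ := by
      rw [e1, norm_smul, Real.norm_eq_abs, abs_of_pos (by positivity)]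
    have hne : x ≠ y' := by
      intro e
      rw [← sub_eq_zero, e1, smul_eq_zero] at e
      rcases e with e | e
      · exact ht.ne' (inv_eq_zero.1 e)
      · exact hxy (sub_eq_zero.1 e)
    have h1 := ih (y := y') hxz (by
      rw [e2, inv_mul_le_iff₀ ht]
      refine hle.trans (le_of_eq ?_)
      ring)
    have h2 := h.qs2 ht ht1 (y := y) hne (by
      rw [e2, mul_inv_cancel_left₀ ht.ne'])
    calc ρ x y ≤ η t * ρ x y' := h2
      _ ≤ 2⁻¹ * ρ x y' := mul_le_mul_of_nonneg_right hη (h.nonneg _ _)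
      _ ≤ 2⁻¹ * ((2⁻¹ : ℝ) ^ i * (max (η 2) 1 * ρ x z)) :=
          mul_le_mul_of_nonneg_left h1 (by norm_num)
      _ = _ := by ring

/-- polynomial growth -/
theorem poly {a : ℕ} (ha : max (η 2) 1 ≤ 2 ^ a) {e : X} (he : ‖e‖ = 1) {r : ℝ} (hr : 1 ≤ r)
    {u v : X} (huv : ‖u - v‖ ≤ r) : ρ u v ≤ (4 * r) ^ a * ρ u (u + e) := by
  obtain ⟨i, h1, h2⟩ := exists_nat_pow_near hr (show (1 : ℝ) < 2 by norm_num)
  have hne : u ≠ u + e := by
    intro h'
    have : e = 0 := by simpa using h'.symm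
    rw [this, norm_zero] at he; norm_num at he
  have hn1 : ‖u - (u + e)‖ = 1 := by
    rw [sub_add_cancel_left, norm_neg, he]
  have h3 := h.large (i + 1) (y := v) hne (by rw [hn1, mul_one]; linarith)
  refine h3.trans (mul_le_mul_of_nonneg_right ?_ (h.nonneg _ _))
  have hm : 0 ≤ max (η 2) 1 := le_max_of_le_right zero_le_one
  calc max (η 2) 1 ^ (i + 1 + 1) ≤ (2 ^ a) ^ (i + 1 + 1) := pow_le_pow_left₀ hm ha _
    _ = (4 * 2 ^ i) ^ a := by
        rw [← pow_mul, mul_comm a, pow_mul]; congr 1; ring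
    _ ≤ (4 * r) ^ a := pow_le_pow_left₀ (by positivity) (by linarith) _

/-- power type smallness -/
theorem smallPow {B : ℕ} (hB : 1 ≤ B) (hη : η ((2⁻¹ : ℝ) ^ B) ≤ 2⁻¹) {e : X} (he : ‖e‖ = 1)
    {K G : ℕ} (hG : 1 ≤ G) (hKG : B * K ≤ G) {u v : X} (huv : ‖u - v‖ ≤ 1) :
    (ρ u v / ρ u (u + e)) ^ G ≤ (2 * max (η 2) 1) ^ G * ‖u - v‖ ^ K := by
  have hm : 0 ≤ max (η 2) 1 := le_max_of_le_right zero_le_one
  have hne : u ≠ u + e := by
    intro h'
    have : e = 0 := by simpa using h'.symm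
    rw [this, norm_zero] at he; norm_num at he
  have hD : 0 < ρ u (u + e) := h.pos _ _ hne
  have hn1 : ‖u - (u + e)‖ = 1 := by
    rw [sub_add_cancel_left, norm_neg, he]
  by_cases huv0 : u = v
  · rw [huv0, h.self, zero_div, zero_pow (by omega)]
    positivity
  have hr : 0 < ‖u - v‖ := norm_pos_iff.2 (sub_ne_zero.2 huv0)
  have ht0 : (0 : ℝ) < (2⁻¹ : ℝ) ^ B := by positivity
  have ht1 : (2⁻¹ : ℝ) ^ B < 1 := pow_lt_one₀ (by norm_num) (by norm_num) (by omega)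
  obtain ⟨i, h1, h2⟩ := exists_nat_pow_near_of_lt_one hr huv ht0 ht1
  have h3 := h.small ht0 ht1 hη i (y := v) hne (by rw [hn1, mul_one]; exact h2)
  have h4 : ρ u v / ρ u (u + e) ≤ 2 * max (η 2) 1 * (2⁻¹ : ℝ) ^ (i + 1) := by
    rw [div_le_iff₀ hD]
    refine h3.trans (le_of_eq ?_)
    rw [pow_succ]; ring
  refine (pow_le_pow_left₀ (div_nonneg (h.nonneg _ _) hD.le) h4 G).trans ?_
  rw [mul_pow]
  refine mul_le_mul_of_nonneg_left ?_ (by positivity)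
  calc ((2⁻¹ : ℝ) ^ (i + 1)) ^ G ≤ ((2⁻¹ : ℝ) ^ (i + 1)) ^ (B * K) :=
        pow_le_pow_of_le_one (by positivity) (pow_le_one₀ (by norm_num) (by norm_num)) hKG
    _ = (((2⁻¹ : ℝ) ^ B) ^ (i + 1)) ^ K := by
        rw [← pow_mul, ← pow_mul, ← pow_mul]; congr 1; ring
    _ ≤ ‖u - v‖ ^ K := pow_le_pow_left₀ (by positivity) h1.le K

theorem ratioPow {a B : ℕ} (ha : max (η 2) 1 ≤ 2 ^ a) (hB : 1 ≤ B)
    (hη : η ((2⁻¹ : ℝ) ^ B) ≤ 2⁻¹) {e : X} (he : ‖e‖ = 1)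
    {K G : ℕ} (hG : 1 ≤ G) (hKG : B * K ≤ G) (u v : X) :
    (ρ u v / ρ u (u + e)) ^ G ≤
      ((2 * max (η 2) 1) ^ G + (4 ^ a) ^ G) * (‖u - v‖ ^ K + ‖u - v‖ ^ (a * G)) := by
  have hm : 0 ≤ max (η 2) 1 := le_max_of_le_right zero_le_one
  have hne : u ≠ u + e := by
    intro h'
    have : e = 0 := by simpa using h'.symm
    rw [this, norm_zero] at he; norm_num at he
  have hD : 0 < ρ u (u + e) := h.pos _ _ hne
  have hr := norm_nonneg (u - v)
  rcases le_total ‖u - v‖ 1 with huv | huv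
  · refine (h.smallPow hB hη he hG hKG huv).trans ?_
    have h1 : 0 ≤ (4 ^ a : ℝ) ^ G := by positivity
    have h2 : 0 ≤ ‖u - v‖ ^ (a * G) := by positivity
    have h3 : 0 ≤ ‖u - v‖ ^ K := by positivity
    exact mul_le_mul (by linarith) (by linarith) (by positivity) (by positivity)
  · have h1 := h.poly ha he huv (le_refl _)
    have h2 : ρ u v / ρ u (u + e) ≤ (4 * ‖u - v‖) ^ a := by
      rw [div_le_iff₀ hD]; exact h1
    refine (pow_le_pow_left₀ (div_nonneg (h.nonneg _ _) hD.le) h2 G).trans ?_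
    rw [mul_pow, mul_pow, ← pow_mul ‖u - v‖]
    have h3 : 0 ≤ (2 * max (η 2) 1) ^ G := by positivity
    have h4 : 0 ≤ ‖u - v‖ ^ K := by positivity
    exact mul_le_mul (by linarith) (by linarith) (by positivity) (by positivity)

end QSD

end Pool.H45.S1
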