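import Pool.Agent.Helper45.S1.StarTC
import Pool.Agent.Helper45.S1.QS

/-!
# The trace norm as a metric, and weak metric cotype two of the trace class
-/

open scoped BigOperators InnerProductSpace
open Module Filter Topology

set_option linter.unusedSectionVars false

namespace Pool.H45.S1

variable {H : Type*} [NormedAddCommGroup H] [InnerProductSpace ℝ H] [CompleteSpace H]

theorem snum_neg (T : H →L[ℝ] H) (j : ℕ) : snum (-T) j = snum T j := by
  have key : ∀ T : H →L[ℝ] H, snum (-T) j ≤ snum T j := by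
    intro T
    refine le_snum fun F hF => ?_
    have hr : ((-F : H →L[ℝ] H) : H →ₗ[ℝ] H).rank ≤ j := by
      have e : ((-F : H →L[ℝ] H) : H →ₗ[ℝ] H) = -(F : H →ₗ[ℝ] H) := rfl
      rw [e, LinearMap.rank, LinearMap.range_neg]
      exact hF
    refine (snum_le hr).trans (le_of_eq ?_)
    rw [← norm_neg]
    congr 1
    abel
  refine le_antisymm (key T) ?_
  have := key (-T)
  rwa [neg_neg] at this

theorem tnorm_neg (T : H →L[ℝ] H) : tnorm (-T) = tnorm T := by
  simp only [tnorm, snum_neg]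

theorem tnorm_sub_comm (T T' : H →L[ℝ] H) : tnorm (T - T') = tnorm (T' - T) := by
  rw [← tnorm_neg, neg_sub]

theorem snum_zero_op (j : ℕ) : snum (0 : H →L[ℝ] H) j = 0 := by
  refine le_antisymm ?_ (snum_nonneg _ _)
  refine (snum_le (T := 0) (F := 0) (rank_zero_le j)).trans ?_
  rw [sub_zero, norm_zero]

theorem tnorm_zero : tnorm (0 : H →L[ℝ] H) = 0 := by
  simp [tnorm, snum_zero_op]

theorem norm_le_snum_zero (T : H →L[ℝ] H) : ‖T‖ ≤ snum T 0 := by
  refine le_snum fun F hF => ?_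
  have h0 : LinearMap.range (F : H →ₗ[ℝ] H) = ⊥ := by
    rw [Nat.cast_zero] at hF
    exact Submodule.rank_eq_zero.1 (le_antisymm hF zero_le)
  have : F = 0 := by
    ext x
    have hx : F x ∈ LinearMap.range (F : H →ₗ[ℝ] H) := ⟨x, rfl⟩
    rw [h0] at hx
    exact (Submodule.mem_bot ℝ).1 hx
  rw [this, sub_zero]

theorem norm_le_tnorm {T : H →L[ℝ] H} (h : Summable (snum T)) : ‖T‖ ≤ tnorm T := by
  refine (norm_le_snum_zero T).trans ?_
  have := h.sum_le_tsum {0} (fun i _ => snum_nonneg T i)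
  rw [Finset.sum_singleton] at this
  exact this

theorem tnorm_add_le {T T' : H →L[ℝ] H} (h : Summable (snum T)) (h' : Summable (snum T')) :
    tnorm (T + T') ≤ tnorm T + tnorm T' := by
  have hneg : Summable (snum (-T')) := by
    have : snum (-T') = snum T' := funext fun j => snum_neg T' j
    rwa [this]
  have hs : Summable (snum (T + T')) := by
    have := summable_snum_sub h hneg
    rwa [sub_neg_eq_add] at this
  refine le_of_forall_pos_le_add fun ε hε => ?_
  obtain ⟨W, hW, hgood⟩ := exists_good_tn hs hε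
  have : CompleteSpace W := FiniteDimensional.complete ℝ W
  have h1 := hgood W (le_refl W)
  have e : cmp W (T + T') = cmp W T + cmp W T' := by
    ext x; simp [cmp]
  rw [e] at h1
  have h2 := tn_add_le (cmp W T) (cmp W T')
  have h3 := tn_cmp_le W h
  have h4 := tn_cmp_le W h'
  linarith

theorem weakCotype_tc {X : Type*} (φ : X → (H →L[ℝ] H)) (hφ : ∀ x, Summable (snum (φ x))) :
    WeakCotype (fun u v : X => tnorm (φ u - φ v)) := by
  intro k
  set P : ℝ := (2 : ℝ) ^ (k + 1) with hP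
  have hP1 : 1 ≤ P := one_le_pow₀ (by norm_num)
  have hP0 : 0 < P := by linarith
  set c₁ : ℝ := (2 : ℝ) ^ (1 / P) with hc₁
  set c₂ : ℝ := (2 : ℝ) ^ (1 - 1 / P) with hc₂
  have hc₁0 : 0 < c₁ := by positivity
  have hc₂0 : 0 < c₂ := by positivity
  refine ⟨(6 * c₁) ^ 2 * (12 * P * (5 * P * c₂) ^ 2), by positivity, ?_⟩
  intro n m _ F R hR s
  have h := star_ineq_tc k n m (fun x => φ (F x)) (fun x => hφ _) hR s
  rw [← hP] at h
  refine h.trans ?_
  have hR0 : 0 ≤ R := (tnorm_nonneg _).trans (hR 0)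
  have e1 : (2 * R) ^ (1 / P) = c₁ * R ^ (1 / P) := Real.mul_rpow (by norm_num) hR0
  set Av : ℝ := avg (fun ε => ∑ x, (tnorm (φ (F (x + vec ε)) - φ (F x)) ^ (1 - 1 / P)) ^ 2) with hAv
  have hAv0 : 0 ≤ Av := avg_nonneg fun ε => Finset.sum_nonneg fun x _ => sq_nonneg _
  have e2 : avg (fun ε => ∑ x, (5 * P *
      (2 * tnorm (φ (F (x + vec ε)) - φ (F x))) ^ (1 - 1 / P)) ^ 2) = (5 * P * c₂) ^ 2 * Av := by
    rw [hAv, ← avg_const_mul]
    refine congrArg avg (funext fun ε => ?_)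
    rw [Finset.mul_sum]
    refine Finset.sum_congr rfl fun x _ => ?_
    rw [Real.mul_rpow (by norm_num) (tnorm_nonneg _), ← hc₂]
    ring
  rw [e1, e2]
  have h3 : (s : ℝ) ^ 2 * (P - 1) + n ≤ P * ((s : ℝ) ^ 2 + n) := by
    have : 0 ≤ (P - 1) * (n : ℝ) := mul_nonneg (by linarith) (Nat.cast_nonneg n)
    nlinarith [sq_nonneg (s : ℝ)]
  calc (6 * (c₁ * R ^ (1 / P))) ^ 2 * (12 * ((s : ℝ) ^ 2 * (P - 1) + n) * ((5 * P * c₂) ^ 2 * Av))
      ≤ (6 * (c₁ * R ^ (1 / P))) ^ 2 * (12 * (P * ((s : ℝ) ^ 2 + n)) * ((5 * P * c₂) ^ 2 * Av)) := by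
        gcongr
    _ = _ := by ring

end Pool.H45.S1
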