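import Pool.Agent.Helper45.S1.Tracial

/-!
# Operators on finite dimensional real inner product spaces
-/

open scoped BigOperators InnerProductSpace

set_option linter.unusedSectionVars false

namespace Pool.H45.S1

variable {E : Type*} [NormedAddCommGroup E] [InnerProductSpace ℝ E] [FiniteDimensional ℝ E]
  [CompleteSpace E]

omit [FiniteDimensional ℝ E] [CompleteSpace E] in
theorem clm_mul_apply (S T : E →L[ℝ] E) (x : E) : (S * T) x = S (T x) := rfl

omit [FiniteDimensional ℝ E] in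
theorem clm_norm_star (K : E →L[ℝ] E) : ‖star K‖ = ‖K‖ := by
  rw [ContinuousLinearMap.star_eq_adjoint, LinearIsometryEquiv.norm_map]

/-- trace of a bounded operator as a linear functional -/
noncomputable def trL (E : Type*) [NormedAddCommGroup E] [InnerProductSpace ℝ E] :
    (E →L[ℝ] E) →ₗ[ℝ] ℝ where
  toFun T := LinearMap.trace ℝ E T.toLinearMap
  map_add' S T := by simp
  map_smul' c T := by simp

omit [FiniteDimensional ℝ E] [CompleteSpace E] in
theorem trL_apply (T : E →L[ℝ] E) : trL E T = LinearMap.trace ℝ E T.toLinearMap := rfl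

omit [FiniteDimensional ℝ E] [CompleteSpace E] in
theorem trL_eq_sum {ι : Type*} [Fintype ι] (b : OrthonormalBasis ι ℝ E) (T : E →L[ℝ] E) :
    trL E T = ∑ i, ⟪b i, T (b i)⟫_ℝ := by
  rw [trL_apply, LinearMap.trace_eq_sum_inner _ b]
  rfl

omit [FiniteDimensional ℝ E] [CompleteSpace E] in
theorem trL_comm (S T : E →L[ℝ] E) : trL E (S * T) = trL E (T * S) := by
  rw [trL_apply, trL_apply]
  exact LinearMap.trace_mul_comm ℝ S.toLinearMap T.toLinearMap

theorem trL_star (T : E →L[ℝ] E) : trL E (star T) = trL E T := by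
  rw [trL_eq_sum (stdOrthonormalBasis ℝ E), trL_eq_sum (stdOrthonormalBasis ℝ E)]
  refine Finset.sum_congr rfl fun i _ => ?_
  rw [ContinuousLinearMap.star_eq_adjoint, ContinuousLinearMap.adjoint_inner_right,
    real_inner_comm]

theorem trL_star_mul {ι : Type*} [Fintype ι] (b : OrthonormalBasis ι ℝ E) (T : E →L[ℝ] E) :
    trL E (star T * T) = ∑ i, ‖T (b i)‖ ^ 2 := by
  rw [trL_eq_sum b]
  refine Finset.sum_congr rfl fun i _ => ?_
  rw [clm_mul_apply, ContinuousLinearMap.star_eq_adjoint,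
    ContinuousLinearMap.adjoint_inner_right, real_inner_self_eq_norm_sq]

theorem tracial_trL : Tracial (trL E) where
  map_comm := trL_comm
  map_star := trL_star
  map_nonneg T := by
    rw [trL_star_mul (stdOrthonormalBasis ℝ E)]; positivity

/-- the dual bound for the trace -/
theorem abs_trL_mul_le {ι : Type*} [Fintype ι] (b : OrthonormalBasis ι ℝ E) (D B : E →L[ℝ] E) :
    |trL E (D * B)| ≤ ∑ i, ‖D (b i)‖ * ‖star B (b i)‖ := by
  rw [trL_comm, trL_eq_sum b]
  refine (Finset.abs_sum_le_sum_abs _ _).trans (Finset.sum_le_sum fun i _ => ?_)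
  rw [clm_mul_apply, ← ContinuousLinearMap.adjoint_inner_left,
    ← ContinuousLinearMap.star_eq_adjoint, mul_comm]
  exact abs_real_inner_le_norm _ _

theorem abs_trL_le (T : E →L[ℝ] E) : |trL E T| ≤ Module.finrank ℝ E * ‖T‖ := by
  rw [trL_eq_sum (stdOrthonormalBasis ℝ E)]
  refine (Finset.abs_sum_le_sum_abs _ _).trans ?_
  have : ∀ i ∈ (Finset.univ : Finset (Fin (Module.finrank ℝ E))),
      |⟪(stdOrthonormalBasis ℝ E) i, T ((stdOrthonormalBasis ℝ E) i)⟫_ℝ| ≤ ‖T‖ := by
    intro i _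
    refine (abs_real_inner_le_norm _ _).trans ?_
    have h1 := (stdOrthonormalBasis ℝ E).orthonormal.1 i
    have h2 := T.le_opNorm ((stdOrthonormalBasis ℝ E) i)
    rw [h1] at h2 ⊢
    linarith
  refine (Finset.sum_le_sum this).trans ?_
  simp

/-! ### Contractions -/

theorem N_zero_trL_sq (T : E →L[ℝ] E) {ι : Type*} [Fintype ι] (b : OrthonormalBasis ι ℝ E) :
    N (trL E) 0 T ^ 2 = ∑ i, ‖T (b i)‖ ^ 2 := by
  rw [N_zero_sq tracial_trL, trL_star_mul b]

theorem N_contr (k : ℕ) (X K : E →L[ℝ] E) (hK : ‖K‖ ≤ 1) :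
    N (trL E) k (X * K) ≤ N (trL E) k X ∧ N (trL E) k (K * X) ≤ N (trL E) k X := by
  have hstar : ∀ K : E →L[ℝ] E, ‖K‖ ≤ 1 → ‖star K‖ ≤ 1 := fun K hK => by
    rw [clm_norm_star]; exact hK
  induction k generalizing X K with
  | zero =>
    have hl : ∀ (X K : E →L[ℝ] E), ‖K‖ ≤ 1 → N (trL E) 0 (K * X) ≤ N (trL E) 0 X := by
      intro X K hK
      refine le_of_sq_le_sq ?_ (N_nonneg _ _)
      rw [N_zero_trL_sq _ (stdOrthonormalBasis ℝ E), N_zero_trL_sq _ (stdOrthonormalBasis ℝ E)]
      refine Finset.sum_le_sum fun i _ => pow_le_pow_left₀ (norm_nonneg _) ?_ 2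
      rw [clm_mul_apply]
      refine (K.le_opNorm _).trans ?_
      exact mul_le_of_le_one_left (norm_nonneg _) hK
    refine ⟨?_, hl X K hK⟩
    rw [← N_star tracial_trL, star_mul]
    refine (hl (star X) (star K) (hstar K hK)).trans ?_
    rw [N_star tracial_trL]
  | succ k ih =>
    have hr : ∀ (X K : E →L[ℝ] E), ‖K‖ ≤ 1 → N (trL E) (k + 1) (X * K) ≤ N (trL E) (k + 1) X := by
      intro X K hK
      refine le_of_sq_le_sq ?_ (N_nonneg _ _)
      rw [N_succ_sq, N_succ_sq]
      have e : star (X * K) * (X * K) = star K * ((star X * X) * K) := by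
        simp only [star_mul, mul_assoc]
      rw [e]
      exact ((ih _ (star K) (hstar K hK)).2).trans (ih _ K hK).1
    refine ⟨hr X K hK, ?_⟩
    rw [← N_star tracial_trL, star_mul]
    refine (hr (star X) (star K) (hstar K hK)).trans ?_
    rw [N_star tracial_trL]

/-! ### Bessel–Jensen -/

theorem sum_norm_sq_le {ι : Type*} [Fintype ι] {w : ι → E} (hw : Orthonormal ℝ w)
    (B : E →L[ℝ] E) : ∑ i, ‖B (w i)‖ ^ 2 ≤ N (trL E) 0 B ^ 2 := by
  classical
  set b := stdOrthonormalBasis ℝ E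
  rw [← N_star tracial_trL, N_zero_trL_sq _ b]
  have e1 : ∀ i, ‖B (w i)‖ ^ 2 = ∑ j, ⟪w i, star B (b j)⟫_ℝ ^ 2 := by
    intro i
    rw [← b.sum_sq_norm_inner_right (B (w i))]
    refine Finset.sum_congr rfl fun j _ => ?_
    rw [Real.norm_eq_abs, sq_abs, ContinuousLinearMap.star_eq_adjoint,
      ContinuousLinearMap.adjoint_inner_right, real_inner_comm]
  rw [Finset.sum_congr rfl fun i _ => e1 i, Finset.sum_comm]
  refine Finset.sum_le_sum fun j _ => ?_
  have := hw.sum_inner_products_le (x := star B (b j)) (s := Finset.univ)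
  simpa using this

theorem sum_norm_pow_le {ι : Type*} [Fintype ι] {w : ι → E} (hw : Orthonormal ℝ w) (k : ℕ)
    (B : E →L[ℝ] E) :
    ∑ i, ‖B (w i)‖ ^ (2 ^ (k + 1)) ≤ N (trL E) k B ^ (2 ^ (k + 1)) := by
  induction k generalizing B with
  | zero => simpa using sum_norm_sq_le hw B
  | succ k ih =>
    have e1 : N (trL E) (k + 1) B ^ (2 ^ (k + 1 + 1)) =
        N (trL E) k (star B * B) ^ (2 ^ (k + 1)) := by
      rw [pow_succ 2 (k + 1), mul_comm, pow_mul, N_succ_sq]
    rw [e1]
    refine le_trans (Finset.sum_le_sum fun i _ => ?_) (ih (star B * B))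
    rw [pow_succ 2 (k + 1), mul_comm, pow_mul]
    refine pow_le_pow_left₀ (by positivity) ?_ _
    have h1 : ‖B (w i)‖ ^ 2 = ⟪w i, (star B * B) (w i)⟫_ℝ := by
      rw [clm_mul_apply, ContinuousLinearMap.star_eq_adjoint,
        ContinuousLinearMap.adjoint_inner_right, real_inner_self_eq_norm_sq]
    rw [h1]
    refine (real_inner_le_norm _ _).trans ?_
    rw [hw.1 i, one_mul]

/-- norm of an operator `B` in terms of an eigenbasis of `B* B` -/
theorem N_pow_eq_of_eigen {ι : Type*} [Fintype ι] (b : OrthonormalBasis ι ℝ E) (k : ℕ)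
    (B : E →L[ℝ] E) (β : ι → ℝ) (h : ∀ i, (star B * B) (b i) = β i • b i) :
    N (trL E) k B ^ (2 ^ (k + 1)) = ∑ i, β i ^ (2 ^ k) := by
  rw [N_pow tracial_trL, trL_eq_sum b]
  refine Finset.sum_congr rfl fun i _ => ?_
  have : ∀ r : ℕ, ((star B * B) ^ r) (b i) = β i ^ r • b i := by
    intro r
    induction r with
    | zero => simp
    | succ r ih =>
      rw [pow_succ', clm_mul_apply, ih, map_smul, h, smul_smul, pow_succ]
  rw [this, real_inner_smul_right, real_inner_self_eq_norm_sq, b.orthonormal.1 i]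
  simp

end Pool.H45.S1
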