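import Pool.Agent.Helper45.S1.QS

/-!
# The main step: lower bound for Rademacher sums of unit vectors
-/

open scoped BigOperators
open Finset Filter Topology

set_option linter.unusedSectionVars false

namespace Pool.H45.S1

/-- an elementary pointwise replacement for Hölder's inequality -/
theorem young_pow {M y : ℝ} (hM : 0 < M) (hy : 0 ≤ y) (P : ℕ) :
    y ≤ 1 / (2 * M) + (2 * M) ^ P * y ^ (P + 1) := by
  rcases le_total y (1 / (2 * M)) with h | h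
  · have : 0 ≤ (2 * M) ^ P * y ^ (P + 1) := by positivity
    linarith
  · have h1 : 1 ≤ 2 * M * y := by
      rw [div_le_iff₀ (by positivity)] at h; linarith
    have h2 : 1 ≤ (2 * M * y) ^ P := one_le_pow₀ h1
    have h3 : y ≤ (2 * M * y) ^ P * y := le_mul_of_one_le_left hy h2
    have h4 : (2 * M * y) ^ P * y = (2 * M) ^ P * y ^ (P + 1) := by
      rw [mul_pow, pow_succ]; ring
    have h5 : 0 ≤ 1 / (2 * M) := by positivity
    linarith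

variable {X : Type*} [NormedAddCommGroup X] [NormedSpace ℝ X]
variable {ρ : X → X → ℝ} {η : ℝ → ℝ}

theorem self_improve {n m : ℕ} [NeZero m] {k : ℕ} {C₂ A Γ : ℝ} (hC₂ : 0 < C₂) (hΓ : 0 < Γ)
    (D : (Fin n → ZMod m) → ℝ) (ψ : (Fin n → ℤˣ) → (Fin n → ZMod m) → ℝ)
    (hψ : ∀ ε x, 0 ≤ ψ ε x)
    (hA : A = ∑ x, D x ^ 2)
    (hmain : A ≤ C₂ * avg (fun ε => ∑ x, ((Γ ^ (1 / (2 : ℝ) ^ (k + 1))) *
      (D x * ψ ε x ^ (1 - 1 / (2 : ℝ) ^ (k + 1)))) ^ 2)) :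
    A ≤ (2 * C₂) ^ (2 ^ (k + 1)) * Γ ^ 2 *
      avg (fun ε => ∑ x, D x ^ 2 * ψ ε x ^ (2 * (2 ^ (k + 1) - 1))) := by
  set P : ℕ := 2 ^ (k + 1) with hP
  have hP1 : 1 ≤ P := Nat.one_le_two_pow
  have hPc : (2 : ℝ) ^ (k + 1) = (P : ℝ) := by rw [hP]; push_cast; rfl
  rw [hPc] at hmain
  have hP0 : (0 : ℝ) < P := by exact_mod_cast hP1
  set M : ℝ := C₂ * (Γ ^ (1 / (P : ℝ))) ^ 2 with hM
  have hM0 : 0 < M := by positivity
  have hMP : (2 * M) ^ P = (2 * C₂) ^ P * Γ ^ 2 := by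
    rw [hM, ← mul_assoc, mul_pow, ← pow_mul, mul_comm 2 P, pow_mul, one_div,
      Real.rpow_inv_natCast_pow hΓ.le (by omega)]
  -- the function `y`
  set y : (Fin n → ℤˣ) → (Fin n → ZMod m) → ℝ := fun ε x => (ψ ε x ^ (1 - 1 / (P : ℝ))) ^ 2 with hy
  have hy0 : ∀ ε x, 0 ≤ y ε x := fun ε x => by positivity
  have hyP : ∀ ε x, y ε x ^ ((P - 1) + 1) = ψ ε x ^ (2 * (P - 1)) := by
    intro ε x
    rw [Nat.sub_add_cancel hP1, hy]
    simp only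
    rw [← pow_mul, ← Real.rpow_natCast, ← Real.rpow_mul (hψ ε x), ← Real.rpow_natCast]
    congr 1
    push_cast [Nat.cast_sub hP1]
    field_simp
  have h1 : A ≤ M * avg (fun ε => ∑ x, D x ^ 2 * y ε x) := by
    refine hmain.trans (le_of_eq ?_)
    rw [hM, mul_assoc, ← avg_const_mul ((Γ ^ (1 / (P : ℝ))) ^ 2)]
    refine congrArg (fun g => C₂ * avg g) (funext fun ε => ?_)
    rw [Finset.mul_sum]
    refine Finset.sum_congr rfl fun x _ => ?_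
    simp only [hy]
    ring
  have h2 : avg (fun ε => ∑ x, D x ^ 2 * y ε x) ≤
      avg (fun ε => ∑ x, D x ^ 2 * (1 / (2 * M) + (2 * M) ^ (P - 1) * y ε x ^ ((P - 1) + 1))) := by
    refine avg_mono fun ε => Finset.sum_le_sum fun x _ => ?_
    exact mul_le_mul_of_nonneg_left (young_pow hM0 (hy0 ε x) (P - 1)) (sq_nonneg _)
  have h3 : avg (fun ε => ∑ x, D x ^ 2 * (1 / (2 * M) + (2 * M) ^ (P - 1) * y ε x ^ ((P - 1) + 1))) =
      A * (1 / (2 * M)) + (2 * M) ^ (P - 1) *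
        avg (fun ε => ∑ x, D x ^ 2 * ψ ε x ^ (2 * (P - 1))) := by
    rw [← avg_const_mul, ← avg_const (n := n) (A * (1 / (2 * M))), ← avg_add]
    congr 1
    ext ε
    rw [hA, Finset.sum_mul, Finset.mul_sum, ← Finset.sum_add_distrib]
    refine Finset.sum_congr rfl fun x _ => ?_
    rw [hyP]; ring
  rw [h3] at h2
  set Bq := avg (fun ε => ∑ x, D x ^ 2 * ψ ε x ^ (2 * (P - 1))) with hB
  have h4 : A ≤ M * (A * (1 / (2 * M)) + (2 * M) ^ (P - 1) * Bq) :=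
    h1.trans (mul_le_mul_of_nonneg_left h2 hM0.le)
  have h5 : M * (A * (1 / (2 * M)) + (2 * M) ^ (P - 1) * Bq) =
      A / 2 + (2 * M) ^ P * Bq / 2 := by
    have : (2 * M) ^ P = (2 * M) ^ (P - 1) * (2 * M) := by
      rw [← pow_succ, Nat.sub_add_cancel hP1]
    rw [this]
    field_simp
  rw [h5] at h4
  rw [← hMP]
  linarith

theorem natSqrt_facts {n : ℕ} (hn : 1 ≤ n) :
    n ≤ (Nat.sqrt n + 1) ^ 2 ∧ (Nat.sqrt n + 1) ^ 2 ≤ 4 * n := by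
  constructor
  · have := Nat.lt_succ_sqrt n
    rw [sq]; exact this.le
  · have h1 := Nat.sqrt_le n
    have h2 : 1 ≤ Nat.sqrt n := Nat.sqrt_pos.2 hn
    nlinarith

/-- the main inequality -/
theorem main_ineq (h : QSD ρ η) (hW : WeakCotype ρ) {a B : ℕ} (ha : max (η 2) 1 ≤ 2 ^ a)
    (ha1 : 1 ≤ a) (hB : 1 ≤ B) (hη : η ((2⁻¹ : ℝ) ^ B) ≤ 2⁻¹) {e : X} (he : ‖e‖ = 1)
    (κ : ℕ) (hκ : 1 ≤ κ) :
    ∃ C : ℝ, 0 < C ∧ ∀ (n : ℕ), 1 ≤ n → ∀ v : Fin n → X, (∀ j, ‖v j‖ = 1) →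
      avg (fun σ => ‖∑ j, sg (σ j) • v j‖ ^ 2) ≤ n →
      1 ≤ C * (n : ℝ) ^ (8 * a) * (avg (fun σ => ‖∑ j, sg (σ j) • v j‖ ^ 2) / n) ^ κ := by
  -- choose `k`
  obtain ⟨k, hk⟩ : ∃ k : ℕ, B * (2 * κ) ≤ 2 * (2 ^ (k + 1) - 1) := by
    refine ⟨B * κ, ?_⟩
    have h1 : B * κ + 1 < 2 ^ (B * κ + 1) := Nat.lt_two_pow_self
    have h2 : B * κ ≤ 2 ^ (B * κ + 1) - 1 := by omega
    calc B * (2 * κ) = 2 * (B * κ) := by ring
      _ ≤ _ := Nat.mul_le_mul_left 2 h2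
  set P : ℕ := 2 ^ (k + 1) with hP
  have hP2 : 2 ≤ P := by
    rw [hP, pow_succ]
    have : 1 ≤ 2 ^ k := Nat.one_le_two_pow
    omega
  set G : ℕ := 2 * (P - 1) with hG
  have hG1 : 1 ≤ G := by omega
  set κ' : ℕ := a * (P - 1) with hκ'
  have hκκ' : κ ≤ κ' := by
    have h1 : κ ≤ P - 1 := by
      have : 2 * κ ≤ B * (2 * κ) := Nat.le_mul_of_pos_left _ hB
      omega
    exact h1.trans (Nat.le_mul_of_pos_left _ ha1)
  have haG : a * G = 2 * κ' := by rw [hG, hκ']; ring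
  obtain ⟨C, hC, hWk⟩ := hW k
  have hm : 0 < max (η 2) 1 := lt_max_of_lt_right zero_lt_one
  set L : ℝ := max (η 2) 1 with hL
  set C₂ : ℝ := 22 * L ^ 2 * C with hC₂
  have hC₂0 : 0 < C₂ := by positivity
  set C₃ : ℝ := (2 * L) ^ G + (4 ^ a) ^ G with hC₃
  have hC₃0 : 0 < C₃ := by positivity
  set C₄ : ℝ := (4 * κ) ^ (2 * κ) + (4 * κ') ^ (2 * κ') with hC₄
  have hC₄0 : 0 ≤ C₄ := by positivity
  refine ⟨64 * (2 * C₂) ^ P * (16 ^ a) ^ 8 * C₃ * C₄ + 1, by positivity, ?_⟩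
  intro n hn v hv hS
  set S : ℝ := avg (fun σ => ‖∑ j, sg (σ j) • v j‖ ^ 2) with hSd
  have hS0 : 0 ≤ S := avg_nonneg fun σ => by positivity
  have hn0 : (0 : ℝ) < n := by exact_mod_cast hn
  have hn1 : (1 : ℝ) ≤ n := by exact_mod_cast hn
  set N : ℕ := Nat.sqrt n + 1 with hN
  have : NeZero N := ⟨by omega⟩
  obtain ⟨hNn, hNn'⟩ := natSqrt_facts hn
  have hNn1 : (n : ℝ) ≤ (N : ℝ) ^ 2 := by exact_mod_cast hNn
  have hNn2 : (N : ℝ) ^ 2 ≤ 4 * n := by exact_mod_cast hNn'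
  set f : (Fin n → ZMod (8 * N)) → X := tst N v with hf
  have hfn : ∀ x, ‖f x‖ ≤ n := norm_tst_le (fun j => (hv j).le)
  have hne : ∀ u : X, u ≠ u + e := by
    intro u h'
    have : e = 0 := by simpa using h'.symm
    rw [this, norm_zero] at he; norm_num at he
  set D : (Fin n → ZMod (8 * N)) → ℝ := fun x => ρ (f x) (f x + e) with hD
  have hD0 : ∀ x, 0 < D x := fun x => h.pos _ _ (hne _)
  set Γ : ℝ := (4 * (4 * (n : ℝ))) ^ a with hΓ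
  have hΓ1 : 1 ≤ Γ := one_le_pow₀ (by linarith)
  have hΓ0 : 0 < Γ := by linarith
  have hfar : ∀ x (w : X), ‖f x - w‖ ≤ 4 * n → ρ (f x) w ≤ Γ * D x := fun x w hw =>
    h.poly ha he (by linarith) hw
  have hff : ∀ x y, ρ (f x) (f y) ≤ Γ * D x := by
    intro x y
    refine hfar x _ ((norm_sub_le _ _).trans ?_)
    have := hfn x; have := hfn y; linarith
  have hDD : ∀ x y, D x ≤ 2 * Γ * D y := by
    intro x y
    have h1 := h.tri (f x) (f y) (f x + e)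
    have h2 := hff y x
    rw [h.symm (f y) (f x)] at h2
    have h3 : ρ (f y) (f x + e) ≤ Γ * D y := by
      refine hfar y _ ?_
      have h4 : ‖f y - (f x + e)‖ ≤ ‖f y‖ + ‖f x + e‖ := norm_sub_le _ _
      have h5 := norm_add_le (f x) e
      have := hfn x; have := hfn y
      linarith
    calc D x ≤ ρ (f x) (f y) + ρ (f y) (f x + e) := h1
      _ ≤ Γ * D y + Γ * D y := add_le_add h2 h3
      _ = _ := by ring
  set R : ℝ := Γ * D 0 with hR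
  have hR0 : 0 < R := mul_pos hΓ0 (hD0 0)
  have hRx : ∀ x, ρ (f x) (f 0) ≤ R := by
    intro x; rw [h.symm]; exact hff 0 x
  have hRD : ∀ x, R ≤ 2 * Γ ^ 2 * D x := by
    intro x
    calc R ≤ Γ * (2 * Γ * D x) := mul_le_mul_of_nonneg_left (hDD 0 x) hΓ0.le
      _ = _ := by ring
  set ψ : (Fin n → ℤˣ) → (Fin n → ZMod (8 * N)) → ℝ := fun ε x =>
    ρ (f x) (f (x + vec ε)) / D x with hψ
  have hψ0 : ∀ ε x, 0 ≤ ψ ε x := fun ε x => div_nonneg (h.nonneg _ _) (hD0 x).le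
  set A : ℝ := ∑ x, D x ^ 2 with hA
  set Sv : ℝ := avg (fun ε => ∑ x, (ρ (f (x + vec ε)) (f x) ^ (1 - 1 / (2 : ℝ) ^ (k + 1))) ^ 2)
    with hSv
  have hSv0 : 0 ≤ Sv := avg_nonneg fun ε => Finset.sum_nonneg fun x _ => sq_nonneg _
  have hW1 := hWk n (8 * N) f R hRx (2 * N)
  have hW2 := hWk n (8 * N) f R hRx N
  -- lower bound for the left hand side
  have hstep : ∀ (c : ZMod (8 * N)) (x : Fin n → ZMod (8 * N)) (j : Fin n),
      1 / 2 ≤ |zz N (x j + c) - zz N (x j)| → D x ≤ L * ρ (f (x + Pi.single j c)) (f x) := by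
    intro c x j hc
    have h1 : ‖f (x + Pi.single j c) - f x‖ = |zz N (x j + c) - zz N (x j)| := by
      rw [hf, tst_single, norm_smul, hv j, mul_one, Real.norm_eq_abs]
    have h2 : f x ≠ f (x + Pi.single j c) := by
      intro e'
      rw [← e', sub_self, norm_zero] at h1
      rw [← h1] at hc; norm_num at hc
    have h3 := h.qs1 (t := 2) (by norm_num) (y := f x + e) h2 (by
      rw [sub_add_cancel_left, norm_neg, he, norm_sub_rev, h1]; linarith)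
    have h4 : ρ (f x) (f (x + Pi.single j c)) = ρ (f (x + Pi.single j c)) (f x) := h.symm _ _
    rw [h4] at h3
    exact h3
  have hlow : (n : ℝ) * A ≤ L ^ 2 * (
      (∑ j, ∑ x, ρ (f (x + Pi.single j (2 * ((2 * N : ℕ) : ZMod (8 * N))))) (f x) ^ 2) +
      (∑ j, ∑ x, ρ (f (x + Pi.single j (2 * ((N : ℕ) : ZMod (8 * N))))) (f x) ^ 2)) := by
    have e1 : (n : ℝ) * A = ∑ j : Fin n, ∑ x, D x ^ 2 := by
      rw [Finset.sum_const, Finset.card_univ, Fintype.card_fin, nsmul_eq_mul]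
    rw [e1, ← Finset.sum_add_distrib, Finset.mul_sum]
    refine Finset.sum_le_sum fun j _ => ?_
    rw [← Finset.sum_add_distrib, Finset.mul_sum]
    refine Finset.sum_le_sum fun x _ => ?_
    have e2 : (2 * ((2 * N : ℕ) : ZMod (8 * N))) = ((4 * N : ℕ) : ZMod (8 * N)) := by
      push_cast; ring
    have e3 : (2 * ((N : ℕ) : ZMod (8 * N))) = ((2 * N : ℕ) : ZMod (8 * N)) := by
      push_cast; ring
    rw [e2, e3, mul_add]
    rcases zz_nondeg (N := N) (x j) with hc | hc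
    · have h1 := pow_le_pow_left₀ (hD0 x).le (hstep _ x j hc) 2
      rw [mul_pow] at h1
      have h2 : 0 ≤ L ^ 2 * ρ (f (x + Pi.single j ((2 * N : ℕ) : ZMod (8 * N)))) (f x) ^ 2 := by
        positivity
      linarith
    · have h1 := pow_le_pow_left₀ (hD0 x).le (hstep _ x j hc) 2
      rw [mul_pow] at h1
      have h2 : 0 ≤ L ^ 2 * ρ (f (x + Pi.single j ((4 * N : ℕ) : ZMod (8 * N)))) (f x) ^ 2 := by
        positivity
      linarith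
  have hAle : A ≤ C₂ * ((R ^ (1 / (2 : ℝ) ^ (k + 1))) ^ 2 * Sv) := by
    have h1 : (n : ℝ) * A ≤ L ^ 2 * (C * (((2 * N : ℕ) : ℝ) ^ 2 + n) *
        ((R ^ (1 / (2 : ℝ) ^ (k + 1))) ^ 2 * Sv) +
        C * ((N : ℝ) ^ 2 + n) * ((R ^ (1 / (2 : ℝ) ^ (k + 1))) ^ 2 * Sv)) :=
      hlow.trans (mul_le_mul_of_nonneg_left (add_le_add hW1 hW2) (by positivity))
    set Q := (R ^ (1 / (2 : ℝ) ^ (k + 1))) ^ 2 * Sv with hQ
    have hQ0 : 0 ≤ Q := by positivity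
    have h2 : L ^ 2 * (C * (((2 * N : ℕ) : ℝ) ^ 2 + n) * Q + C * ((N : ℝ) ^ 2 + n) * Q) ≤
        L ^ 2 * (C * (17 * n) * Q + C * (5 * n) * Q) := by
      have e1 : ((2 * N : ℕ) : ℝ) ^ 2 = 4 * (N : ℝ) ^ 2 := by push_cast; ring
      rw [e1]
      gcongr
      · linarith
      · linarith
    have h3 : (n : ℝ) * A ≤ n * (C₂ * Q) := by
      refine (h1.trans h2).trans (le_of_eq ?_)
      rw [hC₂]; ring
    exact le_of_mul_le_mul_left h3 hn0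
  have hexp1 : (0 : ℝ) ≤ 1 / (2 : ℝ) ^ (k + 1) := by positivity
  have hexp2 : (0 : ℝ) ≤ 1 - 1 / (2 : ℝ) ^ (k + 1) := by
    have h1 : (1 : ℝ) ≤ 2 ^ (k + 1) := one_le_pow₀ (by norm_num)
    have h2 : 1 / (2 : ℝ) ^ (k + 1) ≤ 1 := by
      rw [div_le_one (by positivity)]; exact h1
    linarith
  have hmain : A ≤ C₂ * avg (fun ε => ∑ x, (((2 * Γ ^ 2) ^ (1 / (2 : ℝ) ^ (k + 1))) *
      (D x * ψ ε x ^ (1 - 1 / (2 : ℝ) ^ (k + 1)))) ^ 2) := by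
    refine hAle.trans (mul_le_mul_of_nonneg_left ?_ hC₂0.le)
    rw [hSv, ← avg_const_mul]
    refine avg_mono fun ε => ?_
    rw [Finset.mul_sum]
    refine Finset.sum_le_sum fun x _ => ?_
    rw [← mul_pow]
    refine pow_le_pow_left₀ (mul_nonneg (Real.rpow_nonneg hR0.le _)
      (Real.rpow_nonneg (h.nonneg _ _) _)) ?_ 2
    have e1 : ρ (f (x + vec ε)) (f x) = D x * ψ ε x := by
      rw [h.symm, hψ]; simp only
      rw [mul_div_cancel₀ _ (hD0 x).ne']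
    rw [e1, Real.mul_rpow (hD0 x).le (hψ0 ε x)]
    have h1 := Real.rpow_le_rpow hR0.le (hRD x) hexp1
    rw [Real.mul_rpow (by positivity) (hD0 x).le] at h1
    have e2 : D x ^ (1 / (2 : ℝ) ^ (k + 1)) * D x ^ (1 - 1 / (2 : ℝ) ^ (k + 1)) = D x := by
      rw [← Real.rpow_add (hD0 x)]
      rw [add_sub_cancel, Real.rpow_one]
    calc R ^ (1 / (2 : ℝ) ^ (k + 1)) * (D x ^ (1 - 1 / (2 : ℝ) ^ (k + 1)) *
          ψ ε x ^ (1 - 1 / (2 : ℝ) ^ (k + 1)))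
        ≤ ((2 * Γ ^ 2) ^ (1 / (2 : ℝ) ^ (k + 1)) * D x ^ (1 / (2 : ℝ) ^ (k + 1))) *
          (D x ^ (1 - 1 / (2 : ℝ) ^ (k + 1)) * ψ ε x ^ (1 - 1 / (2 : ℝ) ^ (k + 1))) :=
          mul_le_mul_of_nonneg_right h1 (mul_nonneg (Real.rpow_nonneg (hD0 x).le _)
            (Real.rpow_nonneg (hψ0 ε x) _))
      _ = (2 * Γ ^ 2) ^ (1 / (2 : ℝ) ^ (k + 1)) * ((D x ^ (1 / (2 : ℝ) ^ (k + 1)) *
          D x ^ (1 - 1 / (2 : ℝ) ^ (k + 1))) * ψ ε x ^ (1 - 1 / (2 : ℝ) ^ (k + 1))) := by ring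
      _ = _ := by rw [e2]
  have hself := self_improve (k := k) hC₂0 (show 0 < 2 * Γ ^ 2 by positivity) D ψ hψ0 hA hmain
  rw [← hP, ← hG] at hself
  -- number of points
  set Nx : ℝ := ((8 * N : ℕ) : ℝ) ^ n with hNx
  have hNx0 : 0 < Nx := by
    rw [hNx]
    have := Npos (N := N)
    push_cast
    positivity
  have hcard : ((Fintype.card (Fin n → ZMod (8 * N)) : ℕ) : ℝ) = Nx := by
    rw [hNx, Fintype.card_pi, Finset.prod_const, ZMod.card, Finset.card_univ, Fintype.card_fin]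
    push_cast; rfl
  have hAlow : Nx * (D 0 ^ 2 / (4 * Γ ^ 2)) ≤ A := by
    have h1 : ∀ x, D 0 ^ 2 / (4 * Γ ^ 2) ≤ D x ^ 2 := by
      intro x
      rw [div_le_iff₀ (by positivity)]
      have := pow_le_pow_left₀ (hD0 0).le (hDD 0 x) 2
      calc D 0 ^ 2 ≤ (2 * Γ * D x) ^ 2 := this
        _ = _ := by ring
    have h2 := Finset.card_nsmul_le_sum Finset.univ (fun x => D x ^ 2) _ (fun x _ => h1 x)
    rw [nsmul_eq_mul, Finset.card_univ, hcard] at h2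
    exact h2
  set Eψ : ℝ := avg (fun ε => ∑ x, ψ ε x ^ G) with hEψ
  have hEψ0 : 0 ≤ Eψ := avg_nonneg fun ε => Finset.sum_nonneg fun x _ => pow_nonneg (hψ0 ε x) _
  have hBle : avg (fun ε => ∑ x, D x ^ 2 * ψ ε x ^ G) ≤ (4 * Γ ^ 2 * D 0 ^ 2) * Eψ := by
    rw [hEψ, ← avg_const_mul]
    refine avg_mono fun ε => ?_
    rw [Finset.mul_sum]
    refine Finset.sum_le_sum fun x _ => mul_le_mul_of_nonneg_right ?_ (pow_nonneg (hψ0 ε x) _)
    have := pow_le_pow_left₀ (hD0 x).le (hDD x 0) 2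
    calc D x ^ 2 ≤ (2 * Γ * D 0) ^ 2 := this
      _ = _ := by ring
  have hkey : Nx ≤ 64 * (2 * C₂) ^ P * Γ ^ 8 * Eψ := by
    have h1 : Nx * (D 0 ^ 2 / (4 * Γ ^ 2)) ≤ (2 * C₂) ^ P * (2 * Γ ^ 2) ^ 2 *
        ((4 * Γ ^ 2 * D 0 ^ 2) * Eψ) :=
      (hAlow.trans hself).trans (mul_le_mul_of_nonneg_left hBle (by positivity))
    have hD2 : 0 < D 0 ^ 2 / (4 * Γ ^ 2) := div_pos (pow_pos (hD0 0) 2) (by positivity)
    have h2 : (2 * C₂) ^ P * (2 * Γ ^ 2) ^ 2 * ((4 * Γ ^ 2 * D 0 ^ 2) * Eψ) =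
        (64 * (2 * C₂) ^ P * Γ ^ 8 * Eψ) * (D 0 ^ 2 / (4 * Γ ^ 2)) := by
      field_simp
      ring
    rw [h2] at h1
    exact le_of_mul_le_mul_right h1 hD2
  -- moments
  have hmom : ∀ μ : ℕ, 1 ≤ μ → avg (fun ε => ∑ x, ‖f x - f (x + vec ε)‖ ^ (2 * μ)) ≤
      Nx * ((4 * μ) ^ (2 * μ) * (S / n) ^ μ) := by
    intro μ hμ
    have h1 : ∀ ε : Fin n → ℤˣ, ∑ x, ‖f x - f (x + vec ε)‖ ^ (2 * μ) ≤
        Nx * ((1 / (2 * N)) ^ (2 * μ) * avg (fun σ => ‖∑ j, sg (σ j) • v j‖ ^ (2 * μ))) := by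
      intro ε
      have h2 := sum_tst_le (N := N) v ε (2 * μ)
      refine le_trans (le_of_eq ?_) h2
      refine Finset.sum_congr rfl fun x _ => ?_
      rw [norm_sub_rev]
    have h3 := avg_mono h1
    rw [avg_const] at h3
    refine h3.trans (mul_le_mul_of_nonneg_left ?_ hNx0.le)
    have h4 := kahane hμ n v
    rw [← hSd] at h4
    have hN0 := Npos (N := N)
    calc (1 / (2 * (N : ℝ))) ^ (2 * μ) * avg (fun σ => ‖∑ j, sg (σ j) • v j‖ ^ (2 * μ))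
        ≤ (1 / (2 * (N : ℝ))) ^ (2 * μ) * ((4 * μ) ^ (2 * μ) * S ^ μ) :=
          mul_le_mul_of_nonneg_left h4 (by positivity)
      _ = (4 * μ) ^ (2 * μ) * ((1 / (2 * (N : ℝ))) ^ 2 * S) ^ μ := by
          rw [mul_pow ((1 / (2 * (N : ℝ))) ^ 2), ← pow_mul]; ring
      _ ≤ (4 * μ) ^ (2 * μ) * (S / n) ^ μ := by
          refine mul_le_mul_of_nonneg_left (pow_le_pow_left₀ (by positivity) ?_ μ) (by positivity)
          rw [div_pow, one_pow, one_div_mul_eq_div]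
          refine div_le_div_of_nonneg_left hS0 hn0 ?_
          nlinarith
  have hq0 : 0 ≤ S / n := by positivity
  have hq1 : S / n ≤ 1 := by rw [div_le_one hn0]; exact hS
  have hEle : Eψ ≤ C₃ * (Nx * (C₄ * (S / n) ^ κ)) := by
    have h1 : Eψ ≤ C₃ * (avg (fun ε => ∑ x, ‖f x - f (x + vec ε)‖ ^ (2 * κ)) +
        avg (fun ε => ∑ x, ‖f x - f (x + vec ε)‖ ^ (2 * κ'))) := by
      rw [hEψ, ← avg_add, ← avg_const_mul]
      refine avg_mono fun ε => ?_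
      rw [← Finset.sum_add_distrib, Finset.mul_sum]
      refine Finset.sum_le_sum fun x _ => ?_
      have h2 := h.ratioPow ha hB hη he hG1 hk (f x) (f (x + vec ε))
      rw [haG] at h2
      exact h2
    refine h1.trans (mul_le_mul_of_nonneg_left ?_ hC₃0.le)
    have h2 := hmom κ hκ
    have h3 := hmom κ' (hκ.trans hκκ')
    have h4 : (S / n) ^ κ' ≤ (S / n) ^ κ := pow_le_pow_of_le_one hq0 hq1 hκκ'
    calc _ ≤ Nx * ((4 * κ) ^ (2 * κ) * (S / n) ^ κ) + Nx * ((4 * κ') ^ (2 * κ') * (S / n) ^ κ') :=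
          add_le_add h2 h3
      _ ≤ Nx * ((4 * κ) ^ (2 * κ) * (S / n) ^ κ) + Nx * ((4 * κ') ^ (2 * κ') * (S / n) ^ κ) := by
          gcongr
      _ = _ := by rw [hC₄]; ring
  have hfin : Nx ≤ Nx * (64 * (2 * C₂) ^ P * (16 ^ a) ^ 8 * C₃ * C₄ * (n : ℝ) ^ (8 * a) *
      (S / n) ^ κ) := by
    refine (hkey.trans (mul_le_mul_of_nonneg_left hEle (by positivity))).trans (le_of_eq ?_)
    have : Γ ^ 8 = (16 ^ a) ^ 8 * (n : ℝ) ^ (8 * a) := by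
      rw [hΓ, ← mul_assoc, mul_pow, mul_pow, ← pow_mul (n : ℝ), mul_comm a 8]
      norm_num
    rw [this]; ring
  have h1 : 1 ≤ 64 * (2 * C₂) ^ P * (16 ^ a) ^ 8 * C₃ * C₄ * (n : ℝ) ^ (8 * a) * (S / n) ^ κ := by
    have h2 : Nx * 1 ≤ Nx * (64 * (2 * C₂) ^ P * (16 ^ a) ^ 8 * C₃ * C₄ * (n : ℝ) ^ (8 * a) *
      (S / n) ^ κ) := by rw [mul_one]; exact hfin
    exact le_of_mul_le_mul_left h2 hNx0
  have h2 : 0 ≤ (n : ℝ) ^ (8 * a) * (S / n) ^ κ := by positivity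
  calc (1 : ℝ) ≤ 64 * (2 * C₂) ^ P * (16 ^ a) ^ 8 * C₃ * C₄ * (n : ℝ) ^ (8 * a) * (S / n) ^ κ := h1
    _ ≤ _ := by
      have e1 : (64 * (2 * C₂) ^ P * (16 ^ a) ^ 8 * C₃ * C₄ + 1) * (n : ℝ) ^ (8 * a) * (S / n) ^ κ =
        64 * (2 * C₂) ^ P * (16 ^ a) ^ 8 * C₃ * C₄ * (n : ℝ) ^ (8 * a) * (S / n) ^ κ +
        (n : ℝ) ^ (8 * a) * (S / n) ^ κ := by ring
      rw [e1]; linarith

end Pool.H45.S1
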