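import Pool.Agent.Helper45.S1.Svd

/-!
# Resolvents of skew-adjoint operators
-/

open scoped BigOperators InnerProductSpace
open Module

set_option linter.unusedSectionVars false
set_option linter.unusedSimpArgs false

namespace Pool.H45.S1

variable {E : Type*} [NormedAddCommGroup E] [InnerProductSpace ℝ E] [FiniteDimensional ℝ E]
  [CompleteSpace E]

/-- the resolvent `(t + A)⁻¹` -/
noncomputable def Rs (t : ℝ) (A : E →L[ℝ] E) : E →L[ℝ] E := Ring.inverse (t • (1 : E →L[ℝ] E) + A)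

/-- `A (t + A)⁻¹` -/
noncomputable def Ps (t : ℝ) (A : E →L[ℝ] E) : E →L[ℝ] E := 1 - t • Rs t A

theorem skew_inner {A : E →L[ℝ] E} (hA : star A = -A) (x : E) : ⟪A x, x⟫_ℝ = 0 := by
  have h1 : ⟪A x, x⟫_ℝ = ⟪x, star A x⟫_ℝ := by
    rw [ContinuousLinearMap.star_eq_adjoint, ContinuousLinearMap.adjoint_inner_right]
  rw [hA, neg_apply, inner_neg_right] at h1
  have h2 : ⟪x, A x⟫_ℝ = ⟪A x, x⟫_ℝ := real_inner_comm _ _
  linarith

theorem inner_add_skew {A : E →L[ℝ] E} (hA : star A = -A) (t : ℝ) (x : E) :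
    ⟪(t • (1 : E →L[ℝ] E) + A) x, x⟫_ℝ = t * ‖x‖ ^ 2 := by
  rw [add_apply, inner_add_left, skew_inner hA, smul_apply, real_inner_smul_left]
  simp [real_inner_self_eq_norm_sq]

theorem isUnit_add_skew {A : E →L[ℝ] E} (hA : star A = -A) {t : ℝ} (ht : 0 < t) :
    IsUnit (t • (1 : E →L[ℝ] E) + A) := by
  refine ContinuousLinearMap.isUnit_of_forall_le_norm_inner_map _ (c := ⟨t, ht.le⟩) ht fun x => ?_
  rw [inner_add_skew hA, Real.norm_of_nonneg (by positivity)]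
  exact le_of_eq (mul_comm _ _)

theorem mul_Rs {A : E →L[ℝ] E} (hA : star A = -A) {t : ℝ} (ht : 0 < t) :
    (t • (1 : E →L[ℝ] E) + A) * Rs t A = 1 := Ring.mul_inverse_cancel _ (isUnit_add_skew hA ht)

theorem Rs_mul {A : E →L[ℝ] E} (hA : star A = -A) {t : ℝ} (ht : 0 < t) :
    Rs t A * (t • (1 : E →L[ℝ] E) + A) = 1 := Ring.inverse_mul_cancel _ (isUnit_add_skew hA ht)

theorem skew_neg {A : E →L[ℝ] E} (hA : star A = -A) : star (-A) = -(-A) := by
  rw [star_neg, hA]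

theorem star_Rs {A : E →L[ℝ] E} (hA : star A = -A) (t : ℝ) : star (Rs t A) = Rs t (-A) := by
  rw [Rs, Rs, ← Ring.inverse_star, star_add, hA, star_smul, star_one, star_trivial]

theorem A_mul_Rs {A : E →L[ℝ] E} (hA : star A = -A) {t : ℝ} (ht : 0 < t) :
    A * Rs t A = Ps t A := by
  have h := mul_Rs hA ht
  rw [add_mul, smul_mul_assoc, one_mul] at h
  rw [Ps, ← h]; abel

theorem Rs_mul_A {A : E →L[ℝ] E} (hA : star A = -A) {t : ℝ} (ht : 0 < t) :
    Rs t A * A = Ps t A := by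
  have h := Rs_mul hA ht
  rw [mul_add, mul_smul_comm, mul_one] at h
  rw [Ps, ← h]; abel

theorem norm_smul_Rs_le {A : E →L[ℝ] E} (hA : star A = -A) {t : ℝ} (ht : 0 < t) :
    ‖t • Rs t A‖ ≤ 1 := by
  refine ContinuousLinearMap.opNorm_le_bound _ zero_le_one fun y => ?_
  rw [smul_apply, norm_smul, Real.norm_of_nonneg ht.le, one_mul]
  set x := Rs t A y with hx
  have hy : (t • (1 : E →L[ℝ] E) + A) x = y := by
    have := congrArg (fun T : E →L[ℝ] E => T y) (mul_Rs hA ht)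
    simpa [clm_mul_apply] using this
  have h1 := inner_add_skew hA t x
  rw [hy] at h1
  have h2 := real_inner_le_norm y x
  rcases (norm_nonneg x).eq_or_lt with h0 | h0
  · rw [← h0, mul_zero]; exact norm_nonneg _
  · have : (t * ‖x‖) * ‖x‖ ≤ ‖y‖ * ‖x‖ := by nlinarith only [h1, h2]
    exact le_of_mul_le_mul_right this h0

theorem norm_Ps_le {A : E →L[ℝ] E} (hA : star A = -A) {t : ℝ} (ht : 0 < t) :
    ‖Ps t A‖ ≤ 1 := by
  refine ContinuousLinearMap.opNorm_le_bound _ zero_le_one fun y => ?_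
  rw [← A_mul_Rs hA ht, clm_mul_apply, one_mul]
  set x := Rs t A y with hx
  have hy : (t • (1 : E →L[ℝ] E) + A) x = y := by
    have := congrArg (fun T : E →L[ℝ] E => T y) (mul_Rs hA ht)
    simpa [clm_mul_apply] using this
  refine le_of_sq_le_sq ?_ (norm_nonneg _)
  rw [← hy, add_apply, smul_apply, one_apply_eq_self, ← real_inner_self_eq_norm_sq (t • x + A x),
    inner_add_left, inner_add_right, inner_add_right, real_inner_smul_left, real_inner_smul_right,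
    real_inner_smul_left, real_inner_smul_right, skew_inner hA,
    real_inner_self_eq_norm_sq, real_inner_self_eq_norm_sq]
  have h0 : ⟪x, A x⟫_ℝ = 0 := by rw [real_inner_comm]; exact skew_inner hA x
  rw [h0]
  nlinarith only [sq_nonneg (t * ‖x‖)]

theorem Ps_sub_Ps {A A' : E →L[ℝ] E} (hA : star A = -A) (hA' : star A' = -A') {t : ℝ}
    (ht : 0 < t) : Ps t A - Ps t A' = t • (Rs t A' * (A - A') * Rs t A) := by
  have h1 : Rs t A' * (A - A') * Rs t A = Rs t A' - Rs t A := by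
    have e : A - A' = (t • (1 : E →L[ℝ] E) + A) - (t • (1 : E →L[ℝ] E) + A') := by abel
    rw [e, mul_sub, sub_mul, mul_assoc, mul_Rs hA ht, Rs_mul hA' ht]; simp
  rw [h1, Ps, Ps, smul_sub]; abel

/-- `(t^2 - A^2)⁻¹` -/
noncomputable def Qs (t : ℝ) (A : E →L[ℝ] E) : E →L[ℝ] E := Rs t A * Rs t (-A)

theorem Qs_mul {A : E →L[ℝ] E} (hA : star A = -A) {t : ℝ} (ht : 0 < t) :
    Qs t A * (t ^ 2 • (1 : E →L[ℝ] E) - A * A) = 1 := by
  have e : t ^ 2 • (1 : E →L[ℝ] E) - A * A = (t • 1 + -A) * (t • 1 + A) := by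
    simp only [add_mul, mul_add, smul_mul_assoc, mul_smul_comm, smul_smul, one_mul, mul_one,
      neg_mul, mul_neg, smul_neg, smul_add]
    rw [pow_two]; abel
  rw [e, Qs, mul_assoc, ← mul_assoc (Rs t (-A)), Rs_mul (skew_neg hA) ht, one_mul, Rs_mul hA ht]

theorem mul_Qs {A : E →L[ℝ] E} (hA : star A = -A) {t : ℝ} (ht : 0 < t) :
    (t ^ 2 • (1 : E →L[ℝ] E) - A * A) * Qs t A = 1 := by
  have e : t ^ 2 • (1 : E →L[ℝ] E) - A * A = (t • 1 + -A) * (t • 1 + A) := by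
    simp only [add_mul, mul_add, smul_mul_assoc, mul_smul_comm, smul_smul, one_mul, mul_one,
      neg_mul, mul_neg, smul_neg, smul_add]
    rw [pow_two]; abel
  rw [e, Qs, mul_assoc, ← mul_assoc (t • 1 + A), mul_Rs hA ht, one_mul, mul_Rs (skew_neg hA) ht]

theorem A_mul_Qs {A : E →L[ℝ] E} (hA : star A = -A) {t : ℝ} (ht : 0 < t) :
    Qs t A * A = A * Qs t A := by
  have h1 : Qs t A * A = Qs t A * (A * ((t ^ 2 • (1 : E →L[ℝ] E) - A * A) * Qs t A)) := by
    rw [mul_Qs hA ht, mul_one]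
  have h2 : A * (t ^ 2 • (1 : E →L[ℝ] E) - A * A) = (t ^ 2 • (1 : E →L[ℝ] E) - A * A) * A := by
    simp only [mul_sub, sub_mul, mul_smul_comm, smul_mul_assoc, mul_one, one_mul, mul_assoc]
  rw [h1, ← mul_assoc A, h2, ← mul_assoc, ← mul_assoc, Qs_mul hA ht, one_mul]

theorem AA_mul_Qs {A : E →L[ℝ] E} (hA : star A = -A) {t : ℝ} (ht : 0 < t) :
    A * (A * Qs t A) = t ^ 2 • Qs t A - 1 := by
  have h := mul_Qs hA ht
  rw [sub_mul, smul_mul_assoc, one_mul, mul_assoc] at h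
  rw [← h]; abel

theorem star_Ps {A : E →L[ℝ] E} (hA : star A = -A) (t : ℝ) : star (Ps t A) = Ps t (-A) := by
  rw [Ps, Ps, star_sub, star_one, star_smul, star_trivial, star_Rs hA]

theorem Rs_add {A : E →L[ℝ] E} (hA : star A = -A) {t : ℝ} (ht : 0 < t) :
    Rs t A + Rs t (-A) = (2 * t) • Qs t A := by
  have h1 : Rs t A = Rs t A * ((t • (1 : E →L[ℝ] E) + -A) * Rs t (-A)) := by
    rw [mul_Rs (skew_neg hA) ht, mul_one]
  have h2 : Rs t (-A) = (Rs t A * (t • (1 : E →L[ℝ] E) + A)) * Rs t (-A) := by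
    rw [Rs_mul hA ht, one_mul]
  have h3 : Rs t A + Rs t (-A) = Rs t A * ((t • (1 : E →L[ℝ] E) + -A) + (t • (1 : E →L[ℝ] E) + A)) *
      Rs t (-A) := by
    refine (congrArg₂ (· + ·) h1 h2).trans ?_
    simp only [mul_add, add_mul, mul_assoc]
  rw [h3]
  have h4 : (t • (1 : E →L[ℝ] E) + -A) + (t • (1 : E →L[ℝ] E) + A) = (2 * t) • 1 := by
    rw [two_mul, add_smul]; abel
  rw [h4, mul_smul_comm, smul_mul_assoc, mul_one, Qs]

theorem Rs_sub {A : E →L[ℝ] E} (hA : star A = -A) {t : ℝ} (ht : 0 < t) :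
    Rs t (-A) - Rs t A = (2 : ℝ) • (A * Qs t A) := by
  have h1 : Rs t A = Rs t A * ((t • (1 : E →L[ℝ] E) + -A) * Rs t (-A)) := by
    rw [mul_Rs (skew_neg hA) ht, mul_one]
  have h2 : Rs t (-A) = (Rs t A * (t • (1 : E →L[ℝ] E) + A)) * Rs t (-A) := by
    rw [Rs_mul hA ht, one_mul]
  have h3 : Rs t (-A) - Rs t A = Rs t A * ((t • (1 : E →L[ℝ] E) + A) - (t • (1 : E →L[ℝ] E) + -A)) *
      Rs t (-A) := by
    refine (congrArg₂ (· - ·) h2 h1).trans ?_
    simp only [mul_add, add_mul, mul_sub, sub_mul, mul_assoc]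
  rw [h3]
  have h4 : (t • (1 : E →L[ℝ] E) + A) - (t • (1 : E →L[ℝ] E) + -A) = (2 : ℝ) • A := by
    rw [two_smul]; abel
  rw [h4, mul_smul_comm, smul_mul_assoc, Rs_mul_A hA ht, ← A_mul_Rs hA ht, mul_assoc, Qs]

/-- symmetric part of `Ps` -/
noncomputable def Xs (t : ℝ) (A : E →L[ℝ] E) : E →L[ℝ] E := (2 : ℝ)⁻¹ • (Ps t A + star (Ps t A))

/-- skew part of `Ps` -/
noncomputable def Fs (t : ℝ) (A : E →L[ℝ] E) : E →L[ℝ] E := (2 : ℝ)⁻¹ • (Ps t A - star (Ps t A))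

theorem Xs_eq {A : E →L[ℝ] E} (hA : star A = -A) {t : ℝ} (ht : 0 < t) :
    Xs t A = 1 - t ^ 2 • Qs t A := by
  rw [Xs, star_Ps hA, Ps, Ps]
  have h := Rs_add hA ht
  have : (1 : E →L[ℝ] E) - t • Rs t A + (1 - t • Rs t (-A)) = (2 : ℝ) • 1 - t • (Rs t A + Rs t (-A)) := by
    rw [smul_add, two_smul]; abel
  rw [this, h, smul_sub, smul_smul, smul_smul, smul_smul]
  congr 1
  · norm_num
  · congr 1; ring

theorem Fs_eq {A : E →L[ℝ] E} (hA : star A = -A) {t : ℝ} (ht : 0 < t) :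
    Fs t A = t • (A * Qs t A) := by
  rw [Fs, star_Ps hA, Ps, Ps]
  have h := Rs_sub hA ht
  have : (1 : E →L[ℝ] E) - t • Rs t A - (1 - t • Rs t (-A)) = t • (Rs t (-A) - Rs t A) := by
    rw [smul_sub]; abel
  rw [this, h, smul_smul, smul_smul]
  congr 1; ring

theorem Xs_eq' {A : E →L[ℝ] E} (hA : star A = -A) {t : ℝ} (ht : 0 < t) :
    Xs t A = - (A * (A * Qs t A)) := by
  rw [Xs_eq hA ht, AA_mul_Qs hA ht]; abel

/-- the telescoping identity -/
theorem telescope {A : E →L[ℝ] E} (hA : star A = -A) {t : ℝ} (ht : 0 < t) :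
    (2 * t) • Fs (2 * t) A - t • Fs t A = (3 / 2 * t) • (Fs (2 * t) A * Xs t A) := by
  have ht2 : 0 < 2 * t := by positivity
  have hq := AA_mul_Qs hA ht
  have hr := AA_mul_Qs hA ht2
  have c1 := A_mul_Qs hA ht
  have c2 := A_mul_Qs hA ht2
  set q := Qs t A
  set r := Qs (2 * t) A
  have hres : q - r = (3 * t ^ 2) • (r * q) := by
    have e1 : r * (((2 * t) ^ 2 • (1 : E →L[ℝ] E) - A * A) * q) = q := by
      rw [← mul_assoc, Qs_mul hA ht2, one_mul]
    have e2 : r * ((t ^ 2 • (1 : E →L[ℝ] E) - A * A) * q) = r := by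
      rw [mul_Qs hA ht, mul_one]
    have e3 : q - r = r * (((2 * t) ^ 2 • (1 : E →L[ℝ] E) - A * A) * q) -
      r * ((t ^ 2 • (1 : E →L[ℝ] E) - A * A) * q) := by rw [e1, e2]
    rw [e3]
    simp only [sub_mul, mul_sub, smul_mul_assoc, mul_smul_comm, one_mul]
    have : (3 * t ^ 2) • (r * q) = (2 * t) ^ 2 • (r * q) - t ^ 2 • (r * q) := by
      rw [← sub_smul]; congr 1; ring
    rw [this]; abel
  rw [Fs_eq hA ht2, Fs_eq hA ht, Xs_eq hA ht]
  have hq' : q = r + (3 * t ^ 2) • (r * q) := by rw [← hres]; abel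
  have e4 : A * q = A * r + (3 * t ^ 2) • (A * (r * q)) := by
    conv_lhs => rw [hq']
    rw [mul_add, mul_smul_comm]
  rw [e4]
  simp only [smul_mul_assoc, mul_sub, mul_one, mul_smul_comm, smul_smul, smul_sub, smul_add, mul_assoc]
  have : ∀ (a b c d e : ℝ) (x y : E →L[ℝ] E), a - b = d → c = e →
      a • x - (b • x + c • y) = d • x - e • y := by
    intro a b c d e x y h1 h2
    rw [← h1, ← h2, sub_smul]; abel
  exact this _ _ _ _ _ _ _ (by ring) (by ring)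

theorem norm_Fs_le {A : E →L[ℝ] E} (hA : star A = -A) {t : ℝ} (ht : 0 < t) : ‖Fs t A‖ ≤ 1 := by
  rw [Fs, norm_smul]
  have h1 := norm_sub_le (Ps t A) (star (Ps t A))
  rw [clm_norm_star] at h1
  have h2 := norm_Ps_le hA ht
  rw [norm_inv, Real.norm_two]
  linarith

theorem norm_Qs_le {A : E →L[ℝ] E} (hA : star A = -A) {t : ℝ} (ht : 0 < t) :
    t ^ 2 * ‖Qs t A‖ ≤ 1 := by
  have h1 := norm_smul_Rs_le hA ht
  have h2 := norm_smul_Rs_le (skew_neg hA) ht
  rw [norm_smul, Real.norm_of_nonneg ht.le] at h1 h2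
  have h3 := norm_mul_le (Rs t A) (Rs t (-A))
  rw [Qs]
  calc t ^ 2 * ‖Rs t A * Rs t (-A)‖ ≤ t ^ 2 * (‖Rs t A‖ * ‖Rs t (-A)‖) :=
        mul_le_mul_of_nonneg_left h3 (by positivity)
    _ = (t * ‖Rs t A‖) * (t * ‖Rs t (-A)‖) := by ring
    _ ≤ 1 * 1 := mul_le_mul h1 h2 (by positivity) zero_le_one
    _ = 1 := one_mul 1

/-- error of the truncated reproducing formula -/
theorem norm_A_sub_le {A : E →L[ℝ] E} (hA : star A = -A) {t : ℝ} (ht : 0 < t) :
    ‖A - t • Fs t A‖ ≤ ‖A‖ ^ 3 / t ^ 2 := by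
  have e : A - t • Fs t A = A * Xs t A := by
    rw [Fs_eq hA ht, Xs_eq hA ht, mul_sub, mul_one, mul_smul_comm, smul_smul, pow_two]
  rw [e, Xs_eq' hA ht, mul_neg, norm_neg, le_div_iff₀ (by positivity)]
  have h1 := norm_mul_le A (A * (A * Qs t A))
  have h2 := norm_mul_le A (A * Qs t A)
  have h3 := norm_mul_le A (Qs t A)
  have h4 := norm_Qs_le hA ht
  have hA0 := norm_nonneg A
  calc ‖A * (A * (A * Qs t A))‖ * t ^ 2 ≤ (‖A‖ * (‖A‖ * (‖A‖ * ‖Qs t A‖))) * t ^ 2 := by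
        refine mul_le_mul_of_nonneg_right (h1.trans ?_) (by positivity)
        refine mul_le_mul_of_nonneg_left (h2.trans ?_) hA0
        exact mul_le_mul_of_nonneg_left h3 hA0
    _ = ‖A‖ ^ 3 * (t ^ 2 * ‖Qs t A‖) := by ring
    _ ≤ ‖A‖ ^ 3 * 1 := mul_le_mul_of_nonneg_left h4 (by positivity)
    _ = ‖A‖ ^ 3 := mul_one _

/-- `Ps` on an SVD basis -/
theorem Ps_eigen {A : E →L[ℝ] E} (hA : star A = -A) {t : ℝ} (ht : 0 < t) {x : E} {α : ℝ}
    (hx : (star A * A) x = α ^ 2 • x) :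
    (star (Ps t A) * Ps t A) x = (α ^ 2 / (t ^ 2 + α ^ 2)) • x := by
  have hpos : 0 < t ^ 2 + α ^ 2 := by positivity
  have h1 : A (A x) = -(α ^ 2 • x) := by
    rw [hA, neg_mul, neg_apply, clm_mul_apply] at hx
    rw [← hx]; simp
  have h2 : (t ^ 2 + α ^ 2) • Qs t A x = x := by
    have := congrArg (fun T : E →L[ℝ] E => T x) (Qs_mul hA ht)
    simp only [clm_mul_apply, sub_apply, smul_apply, one_apply_eq_self, h1] at this
    rw [← map_smul, add_smul]
    convert this using 2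
    abel
  have h3 : Qs t A x = (t ^ 2 + α ^ 2)⁻¹ • x := by
    conv_rhs => rw [← h2]
    rw [smul_smul, inv_mul_cancel₀ hpos.ne', one_smul]
  have h4 : star (Ps t A) * Ps t A = - (A * (A * Qs t A)) := by
    have c : Rs t (-A) * Rs t A = Qs t A := by
      have e1 : Rs t (-A) * Rs t A = Rs t (-A) * (Rs t A * ((t ^ 2 • (1 : E →L[ℝ] E) - A * A) * Qs t A)) := by
        rw [mul_Qs hA ht, mul_one]
      have e : t ^ 2 • (1 : E →L[ℝ] E) - A * A = (t • 1 + A) * (t • 1 + -A) := by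
        simp only [add_mul, mul_add, smul_mul_assoc, mul_smul_comm, smul_smul, one_mul, mul_one,
          neg_mul, mul_neg, smul_neg, smul_add]
        rw [pow_two]; abel
      rw [e1, e]
      simp only [← mul_assoc]
      rw [mul_assoc (Rs t (-A)) (Rs t A), Rs_mul hA ht, mul_one, Rs_mul (skew_neg hA) ht, one_mul]
    rw [star_Ps hA, ← A_mul_Rs hA ht, ← A_mul_Rs (skew_neg hA) ht]
    have e2 : Rs t (-A) * A = A * Rs t (-A) := by
      have h5 := Rs_mul_A (skew_neg hA) ht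
      have h6 := A_mul_Rs (skew_neg hA) ht
      rw [mul_neg] at h5
      rw [neg_mul] at h6
      have : -(Rs t (-A) * A) = -(A * Rs t (-A)) := by rw [h5, h6]
      exact neg_injective this
    rw [neg_mul, neg_mul]
    congr 1
    rw [mul_assoc, ← mul_assoc (Rs t (-A)) A, e2, mul_assoc, c]
  rw [h4, neg_apply, clm_mul_apply, clm_mul_apply, h3, map_smul, map_smul, h1, smul_neg, neg_neg,
    smul_smul]
  congr 1
  field_simp

end Pool.H45.S1
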