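import Pool.Agent.Helper45.S1.MetricTC

/-!
# Real and complex scalars
-/

open scoped BigOperators InnerProductSpace Cardinal
open Module Filter Topology

set_option linter.unusedSectionVars false

namespace Pool.H45.S1

section defs
variable {𝕜 H : Type*} [RCLike 𝕜] [NormedAddCommGroup H] [InnerProductSpace 𝕜 H]

/-- singular values (approximation numbers) over `𝕜` -/
noncomputable def sNum (T : H →L[𝕜] H) (j : ℕ) : ℝ :=
  sInf ((fun F : H →L[𝕜] H => ‖T - F‖) '' {F | (F : H →ₗ[𝕜] H).rank ≤ j})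

/-- trace norm over `𝕜` -/
noncomputable def tNorm (T : H →L[𝕜] H) : ℝ := ∑' j, sNum T j

theorem sNum_nonneg (T : H →L[𝕜] H) (j : ℕ) : 0 ≤ sNum T j :=
  Real.sInf_nonneg (by rintro _ ⟨F, _, rfl⟩; exact norm_nonneg _)

theorem tNorm_nonneg (T : H →L[𝕜] H) : 0 ≤ tNorm T := tsum_nonneg fun j => sNum_nonneg T j

theorem sNum_nonempty (T : H →L[𝕜] H) (j : ℕ) :
    ((fun F : H →L[𝕜] H => ‖T - F‖) '' {F | (F : H →ₗ[𝕜] H).rank ≤ j}).Nonempty := by
  refine ⟨_, 0, ?_, rfl⟩
  have : ((0 : H →L[𝕜] H) : H →ₗ[𝕜] H) = 0 := rfl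
  show ((0 : H →L[𝕜] H) : H →ₗ[𝕜] H).rank ≤ j
  rw [this, LinearMap.rank_zero]
  exact zero_le

theorem sNum_bdd (T : H →L[𝕜] H) (j : ℕ) :
    BddBelow ((fun F : H →L[𝕜] H => ‖T - F‖) '' {F | (F : H →ₗ[𝕜] H).rank ≤ j}) :=
  ⟨0, by rintro _ ⟨F, _, rfl⟩; exact norm_nonneg _⟩

end defs

section scalars
variable {𝕜 H : Type*} [RCLike 𝕜] [NormedAddCommGroup H] [InnerProductSpace ℝ H] [CompleteSpace H]
  [InnerProductSpace 𝕜 H] [IsScalarTower ℝ 𝕜 H]

theorem norm_restrict (T : H →L[𝕜] H) : ‖T.restrictScalars ℝ‖ = ‖T‖ :=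
  ContinuousLinearMap.norm_restrictScalars T

/-- real singular values are controlled by the singular values over `𝕜` -/
theorem snum_two_mul_le (T : H →L[𝕜] H) (j : ℕ) : snum (T.restrictScalars ℝ) (2 * j) ≤ sNum T j := by
  refine le_csInf (sNum_nonempty T j) ?_
  rintro _ ⟨F, hF, rfl⟩
  have hF' : (F : H →ₗ[𝕜] H).rank ≤ j := hF
  have hfin : FiniteDimensional 𝕜 (LinearMap.range (F : H →ₗ[𝕜] H)) :=
    Module.rank_lt_aleph0_iff.1 (lt_of_le_of_lt hF' (Cardinal.natCast_lt_aleph0))
  have h1 : finrank 𝕜 (LinearMap.range (F : H →ₗ[𝕜] H)) ≤ j := finrank_le_of_rank_le hF'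
  have h2 : finrank ℝ 𝕜 * finrank 𝕜 (LinearMap.range (F : H →ₗ[𝕜] H)) =
      finrank ℝ (LinearMap.range (F : H →ₗ[𝕜] H)) := Module.finrank_mul_finrank ℝ 𝕜 _
  have hfin2 : FiniteDimensional ℝ (LinearMap.range (F : H →ₗ[𝕜] H)) :=
    Module.Finite.trans 𝕜 _
  have hr : ((F.restrictScalars ℝ : H →L[ℝ] H) : H →ₗ[ℝ] H).rank ≤ ((2 * j : ℕ) : Cardinal) := by
    have e : Module.rank ℝ (LinearMap.range ((F.restrictScalars ℝ : H →L[ℝ] H) : H →ₗ[ℝ] H)) =
        Module.rank ℝ (LinearMap.range (F : H →ₗ[𝕜] H)) := by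
      have : LinearMap.range ((F.restrictScalars ℝ : H →L[ℝ] H) : H →ₗ[ℝ] H) =
          (LinearMap.range (F : H →ₗ[𝕜] H)).restrictScalars ℝ := by
        ext x; rfl
      rw [this]
      rfl
    rw [LinearMap.rank, e, ← finrank_eq_rank, ← h2]
    have h3 : finrank ℝ 𝕜 ≤ 2 := RCLike.finrank_le_two 𝕜
    exact_mod_cast Nat.mul_le_mul h3 h1
  refine (snum_le hr).trans (le_of_eq ?_)
  have e : T.restrictScalars ℝ - F.restrictScalars ℝ = (T - F).restrictScalars ℝ := rfl
  rw [e, norm_restrict]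

/-- the `𝕜`-linear part of a real linear operator -/
theorem exists_linear_part (T : H →L[𝕜] H) (F : H →L[ℝ] H) :
    ∃ G : H →L[𝕜] H, (∀ x, G x ∈ Submodule.span 𝕜 (Set.range F)) ∧
      ‖T - G‖ ≤ ‖T.restrictScalars ℝ - F‖ := by
  have hFle := (T.restrictScalars ℝ - F).le_opNorm
  by_cases hI : (RCLike.I : 𝕜) = 0
  · -- real case
    have hre : ∀ z : 𝕜, ((RCLike.re z : ℝ) : 𝕜) = z := by
      intro z
      have := RCLike.re_add_im z
      rw [hI, mul_zero, add_zero] at this
      exact this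
    have hsm : ∀ (z : 𝕜) (x : H), z • x = (RCLike.re z) • x := by
      intro z x
      conv_lhs => rw [← hre z]
      exact (RCLike.real_smul_eq_coe_smul (K := 𝕜) (RCLike.re z) x).symm
    let G₀ : H →ₗ[𝕜] H :=
      { toFun := F
        map_add' := map_add F
        map_smul' := fun z x => by
          rw [RingHom.id_apply, hsm z x, hsm z (F x), map_smul] }
    let G : H →L[𝕜] H := ⟨G₀, F.continuous⟩
    have hG : ∀ x, G x = F x := fun _ => rfl
    refine ⟨G, fun x => by rw [hG]; exact Submodule.subset_span ⟨x, rfl⟩, ?_⟩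
    refine ContinuousLinearMap.opNorm_le_bound _ (norm_nonneg (T.restrictScalars ℝ - F)) fun x => ?_
    exact hFle x
  · have hII : (RCLike.I : 𝕜) * RCLike.I = -1 := (RCLike.I_mul_I (K := 𝕜)).resolve_left hI
    set J : 𝕜 := RCLike.I with hJ
    have hJn : ‖J‖ = 1 := by
      have h1 : ‖J‖ * ‖J‖ = 1 := by rw [← norm_mul, hII, norm_neg, norm_one]
      nlinarith [norm_nonneg J]
    let g : H → H := fun x => (2 : ℝ)⁻¹ • (F x - J • F (J • x))
    have gadd : ∀ x y, g (x + y) = g x + g y := by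
      intro x y
      show (2 : ℝ)⁻¹ • (F (x + y) - J • F (J • (x + y))) =
        (2 : ℝ)⁻¹ • (F x - J • F (J • x)) + (2 : ℝ)⁻¹ • (F y - J • F (J • y))
      have h1 : J • F (J • (x + y)) = J • F (J • x) + J • F (J • y) := by
        rw [smul_add J x y, map_add, smul_add]
      rw [h1, map_add, ← smul_add (2 : ℝ)⁻¹]
      congr 1; abel
    have greal : ∀ (r : ℝ) (x : H), g (r • x) = r • g x := by
      intro r x
      simp only [g]
      rw [smul_comm J r x, map_smul, map_smul, smul_comm J r (F (J • x)), ← smul_sub,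
        smul_comm (2 : ℝ)⁻¹ r]
    have gJ : ∀ x : H, g (J • x) = J • g x := by
      intro x
      simp only [g]
      rw [smul_smul J J x, hII, neg_one_smul, map_neg, smul_neg, sub_neg_eq_add,
        smul_comm J (2 : ℝ)⁻¹, smul_sub, smul_smul J J, hII, neg_one_smul, sub_neg_eq_add, add_comm]
    have gsmul : ∀ (z : 𝕜) (x : H), g (z • x) = z • g x := by
      intro z x
      have hz : z = ((RCLike.re z : ℝ) : 𝕜) + ((RCLike.im z : ℝ) : 𝕜) * J := (RCLike.re_add_im z).symm
      have hsm : ∀ (w : H), z • w = (RCLike.re z) • w + (RCLike.im z) • (J • w) := by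
        intro w
        conv_lhs => rw [hz]
        rw [add_smul, mul_smul, ← RCLike.real_smul_eq_coe_smul, ← RCLike.real_smul_eq_coe_smul]
      rw [hsm x, hsm (g x), gadd, greal, greal, gJ]
    have gcont : Continuous g := by
      have h1 : Continuous F := F.continuous
      have h2 : Continuous fun x : H => J • F (J • x) :=
        (h1.comp (continuous_const_smul J)).const_smul J
      exact (h1.sub h2).const_smul _
    let G₀ : H →ₗ[𝕜] H :=
      { toFun := g
        map_add' := gadd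
        map_smul' := fun z x => by rw [RingHom.id_apply, gsmul] }
    let G : H →L[𝕜] H := ⟨G₀, gcont⟩
    have hG : ∀ x, G x = (2 : ℝ)⁻¹ • (F x - J • F (J • x)) := fun _ => rfl
    refine ⟨G, fun x => ?_, ?_⟩
    · rw [hG, RCLike.real_smul_eq_coe_smul (K := 𝕜)]
      refine Submodule.smul_mem _ _ (Submodule.sub_mem _ (Submodule.subset_span ⟨x, rfl⟩) ?_)
      exact Submodule.smul_mem _ _ (Submodule.subset_span ⟨J • x, rfl⟩)
    · refine ContinuousLinearMap.opNorm_le_bound _ (norm_nonneg (T.restrictScalars ℝ - F)) fun x => ?_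
      have e : (T - G) x = (2 : ℝ)⁻¹ • ((T.restrictScalars ℝ - F) x -
          J • (T.restrictScalars ℝ - F) (J • x)) := by
        have e1 : (T.restrictScalars ℝ - F) x = T x - F x := rfl
        have e2 : (T.restrictScalars ℝ - F) (J • x) = T (J • x) - F (J • x) := rfl
        rw [e1, e2, map_smul]
        show T x - G x = _
        rw [hG, smul_sub J, smul_smul J J, hII, neg_one_smul]
        have : T x = (2 : ℝ)⁻¹ • (T x + T x) := by
          rw [← two_smul ℝ (T x), smul_smul]; norm_num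
        conv_lhs => rw [this]
        rw [← smul_sub]
        congr 1; abel
      rw [e, norm_smul, Real.norm_eq_abs, abs_of_pos (by norm_num)]
      have h1 := hFle x
      have h2 := hFle (J • x)
      have h3 := norm_sub_le ((T.restrictScalars ℝ - F) x) (J • (T.restrictScalars ℝ - F) (J • x))
      rw [norm_smul, hJn, one_mul] at h2 h3
      linarith

theorem sNum_le_snum (T : H →L[𝕜] H) (j : ℕ) : sNum T j ≤ snum (T.restrictScalars ℝ) j := by
  classical
  refine le_snum fun F hF => ?_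
  obtain ⟨G, hG, hle⟩ := exists_linear_part T F
  refine (csInf_le (sNum_bdd T j) ⟨G, ?_, rfl⟩).trans hle
  show Module.rank 𝕜 (LinearMap.range (G : H →ₗ[𝕜] H)) ≤ j
  -- a finite real basis of the range of `F`
  have hfin : FiniteDimensional ℝ (LinearMap.range (F : H →ₗ[ℝ] H)) :=
    Module.rank_lt_aleph0_iff.1 (lt_of_le_of_lt hF (Cardinal.natCast_lt_aleph0))
  have h1 : finrank ℝ (LinearMap.range (F : H →ₗ[ℝ] H)) ≤ j := finrank_le_of_rank_le hF
  let b := Module.finBasis ℝ (LinearMap.range (F : H →ₗ[ℝ] H))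
  set S : Set H := Set.range fun i => (b i : H) with hS
  have hsub : LinearMap.range (G : H →ₗ[𝕜] H) ≤ Submodule.span 𝕜 S := by
    rintro _ ⟨x, rfl⟩
    have h2 : Submodule.span 𝕜 (Set.range F) ≤ Submodule.span 𝕜 S := by
      rw [Submodule.span_le]
      rintro _ ⟨y, rfl⟩
      have h3 : F y ∈ Submodule.span ℝ S := by
        have h4 : (⟨F y, ⟨y, rfl⟩⟩ : LinearMap.range (F : H →ₗ[ℝ] H)) ∈
            Submodule.span ℝ (Set.range b) := by rw [b.span_eq]; trivial
        have h5 := Submodule.mem_map_of_mem (f := Submodule.subtype _) h4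
        rw [Submodule.map_span, ← Set.range_comp] at h5
        exact h5
      exact Submodule.span_le_restrictScalars ℝ 𝕜 S h3
    exact h2 (hG x)
  have h2 : Module.rank 𝕜 (LinearMap.range (G : H →ₗ[𝕜] H)) ≤ Module.rank 𝕜 (Submodule.span 𝕜 S) :=
    Submodule.rank_mono hsub
  refine h2.trans ?_
  have e : S = ((Finset.univ.image fun i => (b i : H) : Finset H) : Set H) := by
    rw [hS]; ext x; simp
  rw [e]
  refine (rank_span_finset_le _).trans ?_
  have h3 : (Finset.univ.image fun i => (b i : H)).card ≤ j :=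
    Finset.card_image_le.trans (by rw [Finset.card_univ, Fintype.card_fin]; exact h1)
  exact_mod_cast h3

theorem summable_snum_restrict {T : H →L[𝕜] H} (h : Summable (sNum T)) :
    Summable (snum (T.restrictScalars ℝ)) ∧ tnorm (T.restrictScalars ℝ) ≤ 2 * tNorm T := by
  have h2 : ∀ n : ℕ, ∑ i ∈ Finset.range (2 * n), snum (T.restrictScalars ℝ) i ≤
      2 * ∑ i ∈ Finset.range n, sNum T i := by
    intro n
    induction n with
    | zero => simp
    | succ n ih =>
      rw [Finset.sum_range_succ, show 2 * (n + 1) = 2 * n + 1 + 1 by ring, Finset.sum_range_succ,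
        Finset.sum_range_succ]
      have h3 := snum_two_mul_le T n
      have h4 : snum (T.restrictScalars ℝ) (2 * n + 1) ≤ snum (T.restrictScalars ℝ) (2 * n) :=
        snum_anti _ (by omega)
      linarith
  have h3 : ∀ n : ℕ, ∑ i ∈ Finset.range n, snum (T.restrictScalars ℝ) i ≤ 2 * tNorm T := by
    intro n
    have h1 : ∑ i ∈ Finset.range n, snum (T.restrictScalars ℝ) i ≤
        ∑ i ∈ Finset.range (2 * n), snum (T.restrictScalars ℝ) i :=
      Finset.sum_le_sum_of_subset_of_nonneg (Finset.range_mono (by omega))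
        (fun i _ _ => snum_nonneg _ i)
    refine h1.trans ((h2 n).trans ?_)
    exact mul_le_mul_of_nonneg_left (h.sum_le_tsum _ (fun i _ => sNum_nonneg _ i)) (by norm_num)
  have hs : Summable (snum (T.restrictScalars ℝ)) :=
    summable_of_sum_range_le (fun j => snum_nonneg _ j) h3
  exact ⟨hs, hs.tsum_le_of_sum_range_le h3⟩

theorem tNorm_le_tnorm {T : H →L[𝕜] H} (h : Summable (sNum T)) :
    tNorm T ≤ tnorm (T.restrictScalars ℝ) :=
  h.tsum_le_tsum (sNum_le_snum T) (summable_snum_restrict h).1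

end scalars

end Pool.H45.S1
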