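import Pool.Agent.Helper45.S1.Lower
import Pool.Agent.Helper45.S1.Metric

/-!
# The weak metric cotype inequality for maps with values in skew-adjoint operators
-/

open scoped BigOperators InnerProductSpace
open Module Filter Topology

set_option linter.unusedSectionVars false

namespace Pool.H45.S1

/-! ### A vector space with a given seminorm, as a seminormed space -/

section semw
variable {V : Type*} [AddCommGroup V] [Module ℝ V]

/-- type synonym for `V` equipped with the seminorm `p` -/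
def SemW (_p : Seminorm ℝ V) : Type _ := V

instance (p : Seminorm ℝ V) : AddCommGroup (SemW p) := inferInstanceAs (AddCommGroup V)
instance (p : Seminorm ℝ V) : Module ℝ (SemW p) := inferInstanceAs (Module ℝ V)
noncomputable instance (p : Seminorm ℝ V) : SeminormedAddCommGroup (SemW p) :=
  AddGroupSeminorm.toSeminormedAddCommGroup (E := SemW p)
    { toFun := fun v => p v
      map_zero' := map_zero p
      add_le' := fun v w => map_add_le_add p v w
      neg' := fun v => map_neg_eq_map p v }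

theorem SemW.norm_def (p : Seminorm ℝ V) (v : SemW p) : ‖v‖ = p v := rfl

noncomputable instance (p : Seminorm ℝ V) : NormedSpace ℝ (SemW p) where
  norm_smul_le c v := by
    rw [SemW.norm_def, SemW.norm_def]
    exact (map_smul_eq_mul p c v).le

end semw

variable {E : Type*} [NormedAddCommGroup E] [InnerProductSpace ℝ E] [FiniteDimensional ℝ E]
  [CompleteSpace E]

/-- the seminorm `N` -/
noncomputable def Nsem {A : Type*} [Ring A] [StarRing A] [Algebra ℝ A] [StarModule ℝ A]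
    {τ : A →ₗ[ℝ] ℝ} (h : Tracial τ) (k : ℕ) : Seminorm ℝ A :=
  Seminorm.of (N τ k) (N_add_le h k) (fun c a => by rw [N_smul h, Real.norm_eq_abs])

theorem Nsem_apply {A : Type*} [Ring A] [StarRing A] [Algebra ℝ A] [StarModule ℝ A]
    {τ : A →ₗ[ℝ] ℝ} (h : Tracial τ) (k : ℕ) (a : A) : Nsem h k a = N τ k a := rfl

theorem hasType2_Nsem {A : Type*} [Ring A] [StarRing A] [Algebra ℝ A] [StarModule ℝ A]
    {τ : A →ₗ[ℝ] ℝ} (h : Tracial τ) (k : ℕ) : HasType2 (SemW (Nsem h k)) ((2 : ℝ) ^ (k + 1) - 1) := by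
  refine hasType2_of_smooth _ _ fun a b => ?_
  exact N_smooth h k a b

theorem Ps_zero {t : ℝ} (ht : 0 < t) : Ps t (0 : E →L[ℝ] E) = 0 := by
  have h0 : star (0 : E →L[ℝ] E) = -0 := by simp
  rw [← A_mul_Rs h0 ht, zero_mul]

section main
variable (E)

/-- the pairing functional -/
noncomputable def pairL {M : ℕ} (t : Fin (M + 1) → ℝ) (D : Fin (M + 1) → (E →L[ℝ] E)) :
    (Fin (M + 1) → (E →L[ℝ] E)) →ₗ[ℝ] ℝ where
  toFun B := ∑ i, t i * trL E (D i * B i)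
  map_add' B B' := by
    rw [← Finset.sum_add_distrib]
    refine Finset.sum_congr rfl fun i _ => ?_
    rw [Pi.add_apply, mul_add, map_add, mul_add]
  map_smul' c B := by
    rw [RingHom.id_apply, smul_eq_mul, Finset.mul_sum]
    refine Finset.sum_congr rfl fun i _ => ?_
    rw [Pi.smul_apply, mul_smul_comm, map_smul, smul_eq_mul]; ring

end main

theorem skew_sub {A A' : E →L[ℝ] E} (hA : star A = -A) (hA' : star A' = -A') :
    star (A - A') = -(A - A') := by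
  rw [star_sub, hA, hA']; abel

theorem star_ineq_aux (k n m L : ℕ) [NeZero m] (F : (Fin n → ZMod m) → (E →L[ℝ] E))
    (hF : ∀ x, star (F x) = -F x) {R C : ℝ} (hR : ∀ x, tn (F x) ≤ R) (hC : ∀ x, ‖F x‖ ^ 3 ≤ C)
    (s : ℕ) :
    ∑ j, ∑ x, (max (tn (F (x + Pi.single j (2 * (s : ZMod m))) - F x) -
        finrank ℝ E * (2 * (2 : ℝ)⁻¹ ^ L + (C + C) / ((2 : ℝ) ^ L) ^ 2)) 0) ^ 2 ≤
      (6 * R ^ (1 / (2 : ℝ) ^ (k + 1))) ^ 2 *
      (12 * ((s : ℝ) ^ 2 * ((2 : ℝ) ^ (k + 1) - 1) + n) *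
        avg (fun ε => ∑ x, (5 * 2 ^ (k + 1) *
          tn (F (x + vec ε) - F x) ^ (1 - 1 / (2 : ℝ) ^ (k + 1))) ^ 2)) := by
  classical
  set t0 : ℝ := (2 : ℝ)⁻¹ ^ L with ht0d
  have ht0 : 0 < t0 := by positivity
  set M := L + L with hM
  have htM : t0 * 2 ^ M = 2 ^ L := by
    rw [ht0d, hM, pow_add, inv_pow]; field_simp
  set t : Fin (M + 1) → ℝ := fun i => t0 * 2 ^ (i : ℕ) with ht
  have htn : ∀ i, 0 ≤ t i := fun i => by positivity
  have hτ : Tracial (tauW E t) := tracial_tauW htn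
  set p := Nsem hτ k with hp
  have hK : KProp (SemW p →L[ℝ] ℝ) ((2 : ℝ) ^ (k + 1) - 1) := by
    refine kProp_dual _ ?_ (hasType2_Nsem hτ k)
    have : (1 : ℝ) ≤ 2 ^ (k + 1) := one_le_pow₀ (by norm_num)
    linarith
  -- the map G
  set Gf : (Fin n → ZMod m) → (SemW p →ₗ[ℝ] ℝ) := fun x => pairL E t (fun i => Ps (t i) (F x)) with hGf
  have h0s : star (0 : E →L[ℝ] E) = -0 := by simp
  have hbd : ∀ x (B : SemW p), ‖Gf x B‖ ≤
      5 * 2 ^ (k + 1) * tn (F x) ^ (1 - 1 / (2 : ℝ) ^ (k + 1)) * ‖B‖ := by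
    intro x B
    have h := upper (hF x) h0s ht0 M k B
    simp only [Ps_zero (show 0 < t0 * 2 ^ (_ : ℕ) by positivity), sub_zero] at h
    exact h
  set G : (Fin n → ZMod m) → (SemW p →L[ℝ] ℝ) := fun x => LinearMap.mkContinuous (Gf x) _ (hbd x)
    with hG
  have hGapp : ∀ x y (B : SemW p), (G x - G y) B =
      ∑ i : Fin (M + 1), (t0 * 2 ^ (i : ℕ)) *
        trL E ((Ps (t0 * 2 ^ (i : ℕ)) (F x) - Ps (t0 * 2 ^ (i : ℕ)) (F y)) * B i) := by
    intro x y B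
    have h1 : (G x - G y) B = Gf x B - Gf y B := rfl
    rw [h1]
    show ∑ i, t i * trL E (Ps (t i) (F x) * B i) - ∑ i, t i * trL E (Ps (t i) (F y) * B i) = _
    rw [← Finset.sum_sub_distrib]
    refine Finset.sum_congr rfl fun i _ => ?_
    rw [sub_mul, map_sub, mul_sub]
  have hup : ∀ x y, ‖G x - G y‖ ≤ 5 * 2 ^ (k + 1) * tn (F x - F y) ^ (1 - 1 / (2 : ℝ) ^ (k + 1)) := by
    intro x y
    refine ContinuousLinearMap.opNorm_le_bound _ ?_ fun B => ?_
    · exact mul_nonneg (by positivity) (Real.rpow_nonneg (tn_nonneg _) _)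
    · rw [hGapp]
      exact upper (hF x) (hF y) ht0 M k B
  have hlow : ∀ x y, tn (F x - F y) - finrank ℝ E * (2 * t0 + (C + C) / ((2 : ℝ) ^ L) ^ 2) ≤
      (6 * R ^ (1 / (2 : ℝ) ^ (k + 1))) * ‖G x - G y‖ := by
    intro x y
    obtain ⟨B, hB1, hB2⟩ := lower (hF x) (hF y) ht0 M k
    have h1 : ∑ i : Fin (M + 1), (t0 * 2 ^ (i : ℕ)) *
        trL E ((Ps (t0 * 2 ^ (i : ℕ)) (F x) - Ps (t0 * 2 ^ (i : ℕ)) (F y)) * B i) ≤
        ‖G x - G y‖ * N (tauW E t) k B := by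
      rw [← hGapp x y B]
      refine (le_abs_self _).trans ?_
      rw [← Real.norm_eq_abs]
      exact (G x - G y).le_opNorm B
    have hexp : (0 : ℝ) ≤ 1 / (2 : ℝ) ^ (k + 1) := by positivity
    have h2 : N (tauW E t) k B ≤ 6 * R ^ (1 / (2 : ℝ) ^ (k + 1)) := by
      have h3 := Real.rpow_le_rpow (tn_nonneg (F x)) (hR x) hexp
      have h4 := Real.rpow_le_rpow (tn_nonneg (F y)) (hR y) hexp
      linarith
    have h5 : (finrank ℝ E : ℝ) * (2 * t0 + (‖F x‖ ^ 3 + ‖F y‖ ^ 3) / (t0 * 2 ^ M) ^ 2) ≤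
        finrank ℝ E * (2 * t0 + (C + C) / ((2 : ℝ) ^ L) ^ 2) := by
      rw [htM]
      have := hC x
      have := hC y
      gcongr
    have h6 := mul_le_mul_of_nonneg_left h2 (norm_nonneg (G x - G y))
    linarith
  have hmet := metric_ineq hK G s
  have hR0 : 0 ≤ 6 * R ^ (1 / (2 : ℝ) ^ (k + 1)) := by
    have : 0 ≤ R := (tn_nonneg _).trans (hR 0)
    positivity
  have hPn : (0 : ℝ) ≤ (2 : ℝ) ^ (k + 1) - 1 := by
    have : (1 : ℝ) ≤ 2 ^ (k + 1) := one_le_pow₀ (by norm_num)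
    linarith
  calc ∑ j, ∑ x, (max (tn (F (x + Pi.single j (2 * (s : ZMod m))) - F x) -
        finrank ℝ E * (2 * t0 + (C + C) / ((2 : ℝ) ^ L) ^ 2)) 0) ^ 2
      ≤ ∑ j, ∑ x, ((6 * R ^ (1 / (2 : ℝ) ^ (k + 1))) *
          ‖G (x + Pi.single j (2 * (s : ZMod m))) - G x‖) ^ 2 := by
        refine Finset.sum_le_sum fun j _ => Finset.sum_le_sum fun x _ => ?_
        refine pow_le_pow_left₀ (le_max_right _ _) ?_ 2
        exact max_le (hlow _ _) (mul_nonneg hR0 (norm_nonneg _))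
    _ = (6 * R ^ (1 / (2 : ℝ) ^ (k + 1))) ^ 2 *
          ∑ j, ∑ x, ‖G (x + Pi.single j (2 * (s : ZMod m))) - G x‖ ^ 2 := by
        rw [Finset.mul_sum]
        refine Finset.sum_congr rfl fun j _ => ?_
        rw [Finset.mul_sum]
        refine Finset.sum_congr rfl fun x _ => ?_
        rw [mul_pow]
    _ ≤ (6 * R ^ (1 / (2 : ℝ) ^ (k + 1))) ^ 2 *
        (12 * ((s : ℝ) ^ 2 * ((2 : ℝ) ^ (k + 1) - 1) + n) *
          avg (fun ε => ∑ x, ‖G (x + vec ε) - G x‖ ^ 2)) :=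
        mul_le_mul_of_nonneg_left hmet (by positivity)
    _ ≤ _ := by
        refine mul_le_mul_of_nonneg_left (mul_le_mul_of_nonneg_left ?_ (by positivity)) (by positivity)
        refine avg_mono fun ε => Finset.sum_le_sum fun x _ => ?_
        exact pow_le_pow_left₀ (norm_nonneg _) (hup _ _) 2

theorem star_ineq_skew (k n m : ℕ) [NeZero m] (F : (Fin n → ZMod m) → (E →L[ℝ] E))
    (hF : ∀ x, star (F x) = -F x) {R : ℝ} (hR : ∀ x, tn (F x) ≤ R) (s : ℕ) :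
    ∑ j, ∑ x, tn (F (x + Pi.single j (2 * (s : ZMod m))) - F x) ^ 2 ≤
      (6 * R ^ (1 / (2 : ℝ) ^ (k + 1))) ^ 2 *
      (12 * ((s : ℝ) ^ 2 * ((2 : ℝ) ^ (k + 1) - 1) + n) *
        avg (fun ε => ∑ x, (5 * 2 ^ (k + 1) *
          tn (F (x + vec ε) - F x) ^ (1 - 1 / (2 : ℝ) ^ (k + 1))) ^ 2)) := by
  set C : ℝ := ∑ x, ‖F x‖ ^ 3 with hCd
  have hC : ∀ x, ‖F x‖ ^ 3 ≤ C := fun x =>
    Finset.single_le_sum (f := fun x => ‖F x‖ ^ 3) (fun y _ => by positivity) (Finset.mem_univ x)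
  have herr : Tendsto (fun L : ℕ => (finrank ℝ E : ℝ) *
      (2 * (2 : ℝ)⁻¹ ^ L + (C + C) / ((2 : ℝ) ^ L) ^ 2)) atTop (𝓝 0) := by
    have h1 : Tendsto (fun L : ℕ => (2 : ℝ)⁻¹ ^ L) atTop (𝓝 0) :=
      tendsto_pow_atTop_nhds_zero_of_lt_one (by norm_num) (by norm_num)
    have h2 : Tendsto (fun L : ℕ => (C + C) * ((2 : ℝ)⁻¹ ^ L) ^ 2) atTop (𝓝 ((C + C) * 0 ^ 2)) :=
      (h1.pow 2).const_mul _
    have h3 : Tendsto (fun L : ℕ => (finrank ℝ E : ℝ) *
        (2 * (2 : ℝ)⁻¹ ^ L + (C + C) * ((2 : ℝ)⁻¹ ^ L) ^ 2)) atTop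
        (𝓝 ((finrank ℝ E : ℝ) * (2 * 0 + (C + C) * 0 ^ 2))) :=
      ((h1.const_mul 2).add h2).const_mul _
    have e : (finrank ℝ E : ℝ) * (2 * 0 + (C + C) * 0 ^ 2) = 0 := by ring
    rw [e] at h3
    refine h3.congr fun L => ?_
    rw [inv_pow]; field_simp
  have hlim : Tendsto (fun L : ℕ => ∑ j, ∑ x,
      (max (tn (F (x + Pi.single j (2 * (s : ZMod m))) - F x) - (finrank ℝ E : ℝ) *
        (2 * (2 : ℝ)⁻¹ ^ L + (C + C) / ((2 : ℝ) ^ L) ^ 2)) 0) ^ 2) atTop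
      (𝓝 (∑ j, ∑ x, (max (tn (F (x + Pi.single j (2 * (s : ZMod m))) - F x) - 0) 0) ^ 2)) := by
    refine tendsto_finset_sum _ fun j _ => tendsto_finset_sum _ fun x _ => ?_
    exact ((herr.const_sub _).max tendsto_const_nhds).pow 2
  have h := le_of_tendsto' hlim (fun L => star_ineq_aux k n m L F hF hR hC s)
  simp only [sub_zero, max_eq_left (tn_nonneg _)] at h
  exact h

end Pool.H45.S1
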