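import Pool.Agent.Helper45.S1.Compress
import Pool.Agent.Helper45.S1.Dilation
import Pool.Agent.Helper45.S1.StarIneq

/-!
# The weak metric cotype inequality for maps with values in the trace class
-/

open scoped BigOperators InnerProductSpace
open Module Filter Topology

set_option linter.unusedSectionVars false

namespace Pool.H45.S1

variable {H : Type*} [NormedAddCommGroup H] [InnerProductSpace ℝ H] [CompleteSpace H]

theorem star_ineq_tc (k n m : ℕ) [NeZero m] (F : (Fin n → ZMod m) → (H →L[ℝ] H))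
    (hF : ∀ x, Summable (snum (F x))) {R : ℝ} (hR : ∀ x, tnorm (F x - F 0) ≤ R) (s : ℕ) :
    ∑ j, ∑ x, tnorm (F (x + Pi.single j (2 * (s : ZMod m))) - F x) ^ 2 ≤
      (6 * (2 * R) ^ (1 / (2 : ℝ) ^ (k + 1))) ^ 2 *
      (12 * ((s : ℝ) ^ 2 * ((2 : ℝ) ^ (k + 1) - 1) + n) *
        avg (fun ε => ∑ x, (5 * 2 ^ (k + 1) *
          (2 * tnorm (F (x + vec ε) - F x)) ^ (1 - 1 / (2 : ℝ) ^ (k + 1))) ^ 2)) := by
  classical
  set RHS := (6 * (2 * R) ^ (1 / (2 : ℝ) ^ (k + 1))) ^ 2 *
      (12 * ((s : ℝ) ^ 2 * ((2 : ℝ) ^ (k + 1) - 1) + n) *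
        avg (fun ε => ∑ x, (5 * 2 ^ (k + 1) *
          (2 * tnorm (F (x + vec ε) - F x)) ^ (1 - 1 / (2 : ℝ) ^ (k + 1))) ^ 2)) with hRHS
  have hsub : ∀ x y, Summable (snum (F x - F y)) := fun x y => summable_snum_sub (hF x) (hF y)
  have hPn : (0 : ℝ) ≤ (2 : ℝ) ^ (k + 1) - 1 := by
    have : (1 : ℝ) ≤ 2 ^ (k + 1) := one_le_pow₀ (by norm_num)
    linarith
  have hexp : (0 : ℝ) ≤ 1 - 1 / (2 : ℝ) ^ (k + 1) := by
    have h1 : (1 : ℝ) ≤ 2 ^ (k + 1) := one_le_pow₀ (by norm_num)
    have h2 : 1 / (2 : ℝ) ^ (k + 1) ≤ 1 := by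
      rw [div_le_one (by positivity)]; exact h1
    linarith
  have key : ∀ e : ℝ, 0 < e →
      ∑ j, ∑ x, (max (tnorm (F (x + Pi.single j (2 * (s : ZMod m))) - F x) - e) 0) ^ 2 ≤ RHS := by
    intro e he
    obtain ⟨W, hW, hgood⟩ := exists_good_family
      (fun p : (Fin n → ZMod m) × (Fin n → ZMod m) => F p.1 - F p.2)
      (fun p => hsub p.1 p.2) he
    have : CompleteSpace W := FiniteDimensional.complete ℝ W
    obtain ⟨V₁, V₂, h₁, h₂, e₁, e₂, e₃⟩ := exists_isometries W
    set G : (Fin n → ZMod m) → (WithLp 2 (W × W) →L[ℝ] WithLp 2 (W × W)) :=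
      fun x => dil V₁ V₂ (cmp W (F x - F 0)) with hG
    have hGsub : ∀ x y, G x - G y = dil V₁ V₂ (cmp W (F x - F y)) := by
      intro x y
      rw [hG]
      simp only
      rw [← dil_sub, ← cmp_sub]
      congr 2
      abel
    have hGR : ∀ x, tn (G x) ≤ 2 * R := by
      intro x
      refine (tn_dil_le h₁ h₂ _).trans ?_
      have := (tn_cmp_le W (hsub x 0)).trans (hR x)
      linarith
    have hlow : ∀ x y, tnorm (F x - F y) - e ≤ tn (G x - G y) := by
      intro x y
      rw [hGsub]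
      have h1 := hgood (x, y)
      have h2 := le_tn_dil h₁ h₂ e₁ e₂ e₃ (cmp W (F x - F y))
      simp only at h1
      linarith
    have hupp : ∀ x y, tn (G x - G y) ≤ 2 * tnorm (F x - F y) := by
      intro x y
      rw [hGsub]
      refine (tn_dil_le h₁ h₂ _).trans ?_
      have := tn_cmp_le W (hsub x y)
      linarith
    have hst := star_ineq_skew k n m G (fun x => star_dil V₁ V₂ _) hGR s
    refine le_trans ?_ (hst.trans ?_)
    · refine Finset.sum_le_sum fun j _ => Finset.sum_le_sum fun x _ => ?_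
      exact pow_le_pow_left₀ (le_max_right _ _) (max_le (hlow _ _) (tn_nonneg _)) 2
    · rw [hRHS]
      refine mul_le_mul_of_nonneg_left (mul_le_mul_of_nonneg_left ?_ (by positivity))
        (by positivity)
      refine avg_mono fun ε => Finset.sum_le_sum fun x _ => ?_
      refine pow_le_pow_left₀ (mul_nonneg (by positivity) (Real.rpow_nonneg (tn_nonneg _) _)) ?_ 2
      refine mul_le_mul_of_nonneg_left ?_ (by positivity)
      exact Real.rpow_le_rpow (tn_nonneg _) (hupp _ _) hexp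
  have hlim : Tendsto (fun e : ℝ => ∑ j, ∑ x,
      (max (tnorm (F (x + Pi.single j (2 * (s : ZMod m))) - F x) - e) 0) ^ 2) (𝓝[>] 0)
      (𝓝 (∑ j, ∑ x, (max (tnorm (F (x + Pi.single j (2 * (s : ZMod m))) - F x) - 0) 0) ^ 2)) := by
    refine Tendsto.mono_left (Continuous.tendsto ?_ _) nhdsWithin_le_nhds
    fun_prop
  have h0 := le_of_tendsto hlim (by
    filter_upwards [self_mem_nhdsWithin] with e he using key e he)
  refine le_trans (le_of_eq ?_) h0
  refine Finset.sum_congr rfl fun j _ => Finset.sum_congr rfl fun x _ => ?_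
  rw [sub_zero, max_eq_left (tnorm_nonneg _)]

end Pool.H45.S1
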