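import Pool.Agent.Helper45.S1.Compress
import Pool.Agent.Helper45.S1.Dilation
import Pool.Agent.Helper45.S1.StarL

/-!
# The weak metric cotype inequality in the trace class, constant independent of the exponent
-/

open scoped BigOperators InnerProductSpace
open Module Filter Topology

set_option linter.unusedSectionVars false

namespace Pool.H45.S1

variable {H : Type*} [NormedAddCommGroup H] [InnerProductSpace ℝ H] [CompleteSpace H]

theorem star_ineqL_tc (k n m : ℕ) [NeZero m] (F : (Fin n → ZMod m) → (H →L[ℝ] H))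
    (hF : ∀ x, Summable (snum (F x))) {R : ℝ} (hR : ∀ x, tnorm (F x - F 0) ≤ R) (s : ℕ) :
    ∑ j, ∑ x, tnorm (F (x + Pi.single j (2 * (s : ZMod m))) - F x) ^ 2 ≤
      (20 * (2 * R) ^ (1 / (2 : ℝ) ^ (k + 1))) ^ 2 *
      (12 * ((s : ℝ) ^ 2 * ((2 : ℝ) ^ (k + 1) - 1) + n) *
        avg (fun ε => ∑ x, (8 *
          (2 * tnorm (F (x + vec ε) - F x)) ^ (1 - 1 / (2 : ℝ) ^ (k + 1))) ^ 2)) := by
  classical
  set RHS := (20 * (2 * R) ^ (1 / (2 : ℝ) ^ (k + 1))) ^ 2 *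
      (12 * ((s : ℝ) ^ 2 * ((2 : ℝ) ^ (k + 1) - 1) + n) *
        avg (fun ε => ∑ x, (8 *
          (2 * tnorm (F (x + vec ε) - F x)) ^ (1 - 1 / (2 : ℝ) ^ (k + 1))) ^ 2)) with hRHS
  have hsub : ∀ x y, Summable (snum (F x - F y)) := fun x y => summable_snum_sub (hF x) (hF y)
  have hPn : (0 : ℝ) ≤ (2 : ℝ) ^ (k + 1) - 1 := by
    have : (1 : ℝ) ≤ 2 ^ (k + 1) := one_le_pow₀ (by norm_num)
    linarith
  have hexp : (0 : ℝ) ≤ 1 - 1 / (2 : ℝ) ^ (k + 1) := by
    have h1 : (1 : ℝ) ≤ 2 ^ (k + 1) := one_le_pow₀ (by norm_num)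
    have h2 : 1 / (2 : ℝ) ^ (k + 1) ≤ 1 := by
      rw [div_le_one (by positivity)]; exact h1
    linarith
  have key : ∀ e : ℝ, 0 < e →
      ∑ j, ∑ x, (max (tnorm (F (x + Pi.single j (2 * (s : ZMod m))) - F x) - e) 0) ^ 2 ≤ RHS := by
    intro e he
    obtain ⟨W, hW, hgood⟩ := exists_good_family
      (fun p : (Fin n → ZMod m) × (Fin n → ZMod m) => F p.1 - F p.2)
      (fun p => hsub p.1 p.2) he
    have : CompleteSpace W := FiniteDimensional.complete ℝ W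
    obtain ⟨V₁, V₂, h₁, h₂, e₁, e₂, e₃⟩ := exists_isometries W
    set G : (Fin n → ZMod m) → (WithLp 2 (W × W) →L[ℝ] WithLp 2 (W × W)) :=
      fun x => dil V₁ V₂ (cmp W (F x - F 0)) with hG
    have hGsub : ∀ x y, G x - G y = dil V₁ V₂ (cmp W (F x - F y)) := by
      intro x y
      rw [hG]
      simp only
      rw [← dil_sub, ← cmp_sub]
      congr 2
      abel
    have hGR : ∀ x, tn (G x) ≤ 2 * R := by
      intro x
      refine (tn_dil_le h₁ h₂ _).trans ?_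
      have := (tn_cmp_le W (hsub x 0)).trans (hR x)
      linarith
    have hlow : ∀ x y, tnorm (F x - F y) - e ≤ tn (G x - G y) := by
      intro x y
      rw [hGsub]
      have h1 := hgood (x, y)
      have h2 := le_tn_dil h₁ h₂ e₁ e₂ e₃ (cmp W (F x - F y))
      simp only at h1
      linarith
    have hupp : ∀ x y, tn (G x - G y) ≤ 2 * tnorm (F x - F y) := by
      intro x y
      rw [hGsub]
      refine (tn_dil_le h₁ h₂ _).trans ?_
      have := tn_cmp_le W (hsub x y)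
      linarith
    have hst := star_ineqL_skew k n m G (fun x => star_dil V₁ V₂ _) hGR s
    refine le_trans ?_ (hst.trans ?_)
    · refine Finset.sum_le_sum fun j _ => Finset.sum_le_sum fun x _ => ?_
      exact pow_le_pow_left₀ (le_max_right _ _) (max_le (hlow _ _) (tn_nonneg _)) 2
    · rw [hRHS]
      refine mul_le_mul_of_nonneg_left (mul_le_mul_of_nonneg_left ?_ (by positivity))
        (by positivity)
      refine avg_mono fun ε => Finset.sum_le_sum fun x _ => ?_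
      refine pow_le_pow_left₀ (mul_nonneg (by positivity) (Real.rpow_nonneg (tn_nonneg _) _)) ?_ 2
      refine mul_le_mul_of_nonneg_left ?_ (by positivity)
      exact Real.rpow_le_rpow (tn_nonneg _) (hupp _ _) hexp
  have hlim : Tendsto (fun e : ℝ => ∑ j, ∑ x,
      (max (tnorm (F (x + Pi.single j (2 * (s : ZMod m))) - F x) - e) 0) ^ 2) (𝓝[>] 0)
      (𝓝 (∑ j, ∑ x, (max (tnorm (F (x + Pi.single j (2 * (s : ZMod m))) - F x) - 0) 0) ^ 2)) := by
    refine Tendsto.mono_left (Continuous.tendsto ?_ _) nhdsWithin_le_nhds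
    fun_prop
  have h0 := le_of_tendsto hlim (by
    filter_upwards [self_mem_nhdsWithin] with e he using key e he)
  refine le_trans (le_of_eq ?_) h0
  refine Finset.sum_congr rfl fun j _ => Finset.sum_congr rfl fun x _ => ?_
  rw [sub_zero, max_eq_left (tnorm_nonneg _)]

/-- The inequality with an absolute constant, in the form used below. -/
def StrongCotype {X : Type*} (ρ : X → X → ℝ) (C : ℝ) : Prop :=
  ∀ (k n m : ℕ) [NeZero m] (F : (Fin n → ZMod m) → X) (R : ℝ),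
    (∀ x, ρ (F x) (F 0) ≤ R) → ∀ s : ℕ,
    ∑ j, ∑ x, ρ (F (x + Pi.single j (2 * (s : ZMod m)))) (F x) ^ 2 ≤
      C * ((s : ℝ) ^ 2 * 2 ^ (k + 1) + n) * ((R ^ (1 / (2 : ℝ) ^ (k + 1))) ^ 2 *
        avg (fun ε => ∑ x, (ρ (F (x + vec ε)) (F x) ^ (1 - 1 / (2 : ℝ) ^ (k + 1))) ^ 2))

theorem strongCotype_tc {X : Type*} (φ : X → (H →L[ℝ] H)) (hφ : ∀ x, Summable (snum (φ x))) :
    StrongCotype (fun u v : X => tnorm (φ u - φ v)) 4915200 := by
  intro k n m _ F R hR s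
  set P : ℝ := (2 : ℝ) ^ (k + 1) with hP
  have hP1 : 1 ≤ P := one_le_pow₀ (by norm_num)
  have hP0 : 0 < P := by linarith
  have h1P : 0 ≤ 1 / P := by positivity
  have h1P' : 1 / P ≤ 1 := by rw [div_le_one hP0]; exact hP1
  set c₁ : ℝ := (2 : ℝ) ^ (1 / P) with hc₁
  set c₂ : ℝ := (2 : ℝ) ^ (1 - 1 / P) with hc₂
  have hc₁0 : 0 < c₁ := by positivity
  have hc₂0 : 0 < c₂ := by positivity
  have hc₁2 : c₁ ≤ 2 := by
    calc c₁ ≤ (2 : ℝ) ^ (1 : ℝ) := Real.rpow_le_rpow_of_exponent_le (by norm_num) h1P'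
      _ = 2 := Real.rpow_one _
  have hc₂2 : c₂ ≤ 2 := by
    calc c₂ ≤ (2 : ℝ) ^ (1 : ℝ) := Real.rpow_le_rpow_of_exponent_le (by norm_num) (by linarith)
      _ = 2 := Real.rpow_one _
  have h := star_ineqL_tc k n m (fun x => φ (F x)) (fun x => hφ _) hR s
  rw [← hP] at h
  refine h.trans ?_
  have hR0 : 0 ≤ R := (tnorm_nonneg _).trans (hR 0)
  have e1 : (2 * R) ^ (1 / P) = c₁ * R ^ (1 / P) := Real.mul_rpow (by norm_num) hR0
  set Av : ℝ := avg (fun ε => ∑ x, (tnorm (φ (F (x + vec ε)) - φ (F x)) ^ (1 - 1 / P)) ^ 2) with hAv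
  have hAv0 : 0 ≤ Av := avg_nonneg fun ε => Finset.sum_nonneg fun x _ => sq_nonneg _
  have e2 : avg (fun ε => ∑ x, (8 *
      (2 * tnorm (φ (F (x + vec ε)) - φ (F x))) ^ (1 - 1 / P)) ^ 2) = (8 * c₂) ^ 2 * Av := by
    rw [hAv, ← avg_const_mul]
    refine congrArg avg (funext fun ε => ?_)
    rw [Finset.mul_sum]
    refine Finset.sum_congr rfl fun x _ => ?_
    rw [Real.mul_rpow (by norm_num) (tnorm_nonneg _), ← hc₂]
    ring
  rw [e1, e2]
  have h3 : (s : ℝ) ^ 2 * (P - 1) + n ≤ (s : ℝ) ^ 2 * P + n := by nlinarith [sq_nonneg (s : ℝ)]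
  have h4 : 0 ≤ (s : ℝ) ^ 2 * (P - 1) + n := by
    have : 0 ≤ (s : ℝ) ^ 2 * (P - 1) := mul_nonneg (sq_nonneg _) (by linarith)
    positivity
  have hRP : 0 ≤ R ^ (1 / P) := Real.rpow_nonneg hR0 _
  calc (20 * (c₁ * R ^ (1 / P))) ^ 2 * (12 * ((s : ℝ) ^ 2 * (P - 1) + n) * ((8 * c₂) ^ 2 * Av))
      ≤ (20 * (2 * R ^ (1 / P))) ^ 2 * (12 * ((s : ℝ) ^ 2 * P + n) * ((8 * 2) ^ 2 * Av)) := by
        gcongr
    _ = _ := by ring

end Pool.H45.S1
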