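import Pool.Agent.Helper45.S1.Ops

/-!
# Singular values and trace norm of operators on finite dimensional real inner product spaces
-/

open scoped BigOperators InnerProductSpace
open Module

set_option linter.unusedSectionVars false

namespace Pool.H45.S1

variable {E : Type*} [NormedAddCommGroup E] [InnerProductSpace ℝ E] [FiniteDimensional ℝ E]
  [CompleteSpace E]

/-- the `i`-th singular value -/
noncomputable def sv (T : E →L[ℝ] E) (i : ℕ) : ℝ := T.toLinearMap.singularValues i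

/-- the trace norm -/
noncomputable def tn (T : E →L[ℝ] E) : ℝ := ∑ i : Fin (finrank ℝ E), sv T i

omit [CompleteSpace E] in
theorem sv_nonneg (T : E →L[ℝ] E) (i : ℕ) : 0 ≤ sv T i := T.toLinearMap.singularValues_nonneg i

omit [CompleteSpace E] in
theorem tn_nonneg (T : E →L[ℝ] E) : 0 ≤ tn T := Finset.sum_nonneg fun i _ => sv_nonneg T i

theorem exists_svd (T : E →L[ℝ] E) : ∃ b : OrthonormalBasis (Fin (finrank ℝ E)) ℝ E,
    ∀ i, (star T * T) (b i) = (sv T i) ^ 2 • b i := by
  refine ⟨T.toLinearMap.isSymmetric_adjoint_comp_self.eigenvectorBasis rfl, fun i => ?_⟩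
  have h1 := T.toLinearMap.isSymmetric_adjoint_comp_self.apply_eigenvectorBasis rfl i
  rw [sv, T.toLinearMap.sq_singularValues_fin rfl i]
  have h2 : ∀ x : E, (star T * T) x =
      (LinearMap.adjoint T.toLinearMap ∘ₗ T.toLinearMap) x := by
    intro x
    rw [clm_mul_apply, LinearMap.comp_apply, LinearMap.adjoint_eq_toCLM_adjoint,
      ContinuousLinearMap.star_eq_adjoint]
    congr 1
  rw [h2, h1]
  rfl

/-- properties of an SVD basis -/
theorem svd_inner {ι : Type*} [Fintype ι] {b : OrthonormalBasis ι ℝ E} {T : E →L[ℝ] E}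
    {σ : ι → ℝ} (h : ∀ i, (star T * T) (b i) = (σ i) ^ 2 • b i) (i j : ι) :
    ⟪T (b i), T (b j)⟫_ℝ = σ j ^ 2 * ⟪b i, b j⟫_ℝ := by
  rw [← real_inner_smul_right, ← h j, clm_mul_apply, ContinuousLinearMap.star_eq_adjoint,
    ContinuousLinearMap.adjoint_inner_right]

theorem svd_norm {ι : Type*} [Fintype ι] {b : OrthonormalBasis ι ℝ E} {T : E →L[ℝ] E}
    {σ : ι → ℝ} (hσ : ∀ i, 0 ≤ σ i) (h : ∀ i, (star T * T) (b i) = (σ i) ^ 2 • b i) (i : ι) :
    ‖T (b i)‖ = σ i := by
  have h1 := svd_inner h i i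
  rw [real_inner_self_eq_norm_sq, real_inner_self_eq_norm_sq, b.orthonormal.1 i] at h1
  have h2 : ‖T (b i)‖ ^ 2 = σ i ^ 2 := by rw [h1]; ring
  exact (pow_left_inj₀ (norm_nonneg _) (hσ i) two_ne_zero).1 h2

/-- norm of the sum of an orthogonal family -/
theorem norm_sq_sum_orthogonal {ι : Type*} (s : Finset ι) (v : ι → E)
    (h : ∀ i j, i ≠ j → ⟪v i, v j⟫_ℝ = 0) : ‖∑ i ∈ s, v i‖ ^ 2 = ∑ i ∈ s, ‖v i‖ ^ 2 := by
  classical
  rw [← real_inner_self_eq_norm_sq, sum_inner]
  refine Finset.sum_congr rfl fun i hi => ?_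
  rw [inner_sum, Finset.sum_eq_single i, real_inner_self_eq_norm_sq]
  · intro j _ hj; exact h i j (Ne.symm hj)
  · intro hi'; exact absurd hi hi'

theorem clm_expand {ι : Type*} [Fintype ι] (b : OrthonormalBasis ι ℝ E) (T : E →L[ℝ] E) (x : E) :
    T x = ∑ i, ⟪b i, x⟫_ℝ • T (b i) := by
  conv_lhs => rw [← b.sum_repr' x]
  rw [map_sum]
  exact Finset.sum_congr rfl fun i _ => map_smul _ _ _

/-- the singular values are the norms of `T b_i`; operator norm bounds them -/
theorem sv_le_norm (T : E →L[ℝ] E) (i : Fin (finrank ℝ E)) : sv T i ≤ ‖T‖ := by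
  obtain ⟨b, hb⟩ := exists_svd T
  rw [← svd_norm (σ := fun i : Fin (finrank ℝ E) => sv T i) (fun i => sv_nonneg T i) hb i]
  have := T.le_opNorm (b i)
  rwa [b.orthonormal.1 i, mul_one] at this

/-- operator defined by prescribing images of an orthonormal basis -/
noncomputable def ofBasis {ι : Type*} [Fintype ι] (b : OrthonormalBasis ι ℝ E) (v : ι → E) :
    E →L[ℝ] E := ∑ i, (innerSL ℝ (b i)).smulRight (v i)

theorem ofBasis_apply {ι : Type*} [Fintype ι] (b : OrthonormalBasis ι ℝ E) (v : ι → E) (x : E) :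
    ofBasis b v x = ∑ i, ⟪b i, x⟫_ℝ • v i := by
  simp [ofBasis]

theorem ofBasis_self {ι : Type*} [Fintype ι] (b : OrthonormalBasis ι ℝ E) (v : ι → E) (i : ι) :
    ofBasis b v (b i) = v i := by
  classical
  rw [ofBasis_apply, Finset.sum_eq_single i]
  · rw [real_inner_self_eq_norm_sq, b.orthonormal.1 i]; simp
  · intro j _ hj
    rw [b.orthonormal.2 hj, zero_smul]
  · intro h; exact absurd (Finset.mem_univ i) h

theorem norm_ofBasis_le {ι : Type*} [Fintype ι] (b : OrthonormalBasis ι ℝ E) (v : ι → E)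
    (h : ∀ i j, i ≠ j → ⟪v i, v j⟫_ℝ = 0) {C : ℝ} (hC : 0 ≤ C) (hv : ∀ i, ‖v i‖ ≤ C) :
    ‖ofBasis b v‖ ≤ C := by
  refine ContinuousLinearMap.opNorm_le_bound _ hC fun x => ?_
  refine le_of_sq_le_sq ?_ (mul_nonneg hC (norm_nonneg _))
  rw [ofBasis_apply, norm_sq_sum_orthogonal, mul_pow, ← b.sum_sq_norm_inner_right x,
    Finset.mul_sum]
  · refine Finset.sum_le_sum fun i _ => ?_
    rw [norm_smul, mul_pow, mul_comm]
    exact mul_le_mul_of_nonneg_right (pow_le_pow_left₀ (norm_nonneg _) (hv i) 2) (by positivity)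
  · intro i j hij
    rw [real_inner_smul_left, real_inner_smul_right, h i j hij]; ring

/-- the trace norm is attained by a contraction -/
theorem exists_contraction (T : E →L[ℝ] E) : ∃ K : E →L[ℝ] E, ‖K‖ ≤ 1 ∧ tn T = trL E (K * T) := by
  obtain ⟨b, hb⟩ := exists_svd T
  have hn := svd_norm (σ := fun i : Fin (finrank ℝ E) => sv T i) (fun i => sv_nonneg T i) hb
  let v : Fin (finrank ℝ E) → E := fun i => (sv T i)⁻¹ • T (b i)
  have hv : ∀ i j, i ≠ j → ⟪v i, v j⟫_ℝ = 0 := by
    intro i j hij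
    simp only [v]
    rw [real_inner_smul_left, real_inner_smul_right, svd_inner hb, b.orthonormal.2 hij]
    ring
  have hv1 : ∀ i, ‖v i‖ ≤ 1 := by
    intro i
    simp only [v]
    rw [norm_smul, norm_inv, hn i, Real.norm_of_nonneg (sv_nonneg T i)]
    exact inv_mul_le_one
  refine ⟨star (ofBasis b v), ?_, ?_⟩
  · rw [clm_norm_star]
    exact norm_ofBasis_le b v hv zero_le_one hv1
  · rw [trL_eq_sum b, tn]
    refine Finset.sum_congr rfl fun i _ => ?_
    rw [clm_mul_apply, ContinuousLinearMap.star_eq_adjoint, ContinuousLinearMap.adjoint_inner_right,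
      ofBasis_self]
    simp only [v]
    rw [real_inner_smul_left, real_inner_self_eq_norm_sq, hn i]
    rcases (sv_nonneg T i).eq_or_lt with h0 | h0
    · rw [← h0]; simp
    · field_simp

/-- the pairing of an operator with a contraction is at most the trace norm -/
theorem abs_trL_mul_le_tn (T K : E →L[ℝ] E) (hK : ‖K‖ ≤ 1) : |trL E (T * K)| ≤ tn T := by
  obtain ⟨b, hb⟩ := exists_svd T
  refine (abs_trL_mul_le b T K).trans ?_
  rw [tn]
  refine Finset.sum_le_sum fun i _ => ?_
  rw [svd_norm (σ := fun i : Fin (finrank ℝ E) => sv T i) (fun i => sv_nonneg T i) hb i]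
  have h1 : ‖star K (b i)‖ ≤ 1 := by
    have := (star K).le_opNorm (b i)
    rw [b.orthonormal.1 i, mul_one, clm_norm_star] at this
    exact this.trans hK
  exact mul_le_of_le_one_right (sv_nonneg T i) h1

theorem tn_add_le (T T' : E →L[ℝ] E) : tn (T + T') ≤ tn T + tn T' := by
  obtain ⟨K, hK, h⟩ := exists_contraction (T + T')
  rw [h, mul_add, map_add, trL_comm K T, trL_comm K T']
  have h1 := (le_abs_self _).trans (abs_trL_mul_le_tn T K hK)
  have h2 := (le_abs_self _).trans (abs_trL_mul_le_tn T' K hK)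
  linarith

/-- `N` of an operator with vanishing part: the `SVD` form -/
theorem sv_eq_zero_of_rank_le (T : E →L[ℝ] E) {r : ℕ} (hr : finrank ℝ T.toLinearMap.range ≤ r) :
    sv T r = 0 :=
  T.toLinearMap.singularValues_eq_zero_iff_le_finrank_range.2 hr

end Pool.H45.S1
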