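import Pool.Agent.Helper45.S1.Upper

/-!
# The trace class on a real Hilbert space, via approximation numbers
-/

open scoped BigOperators InnerProductSpace Cardinal
open Module

set_option linter.unusedSectionVars false

namespace Pool.H45.S1

variable {H : Type*} [NormedAddCommGroup H] [InnerProductSpace ℝ H] [CompleteSpace H]

/-- the `j`-th singular value (counted from `0`) of a compact operator, as the distance to the
operators of rank at most `j` -/
noncomputable def snum (T : H →L[ℝ] H) (j : ℕ) : ℝ :=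
  sInf ((fun F : H →L[ℝ] H => ‖T - F‖) '' {F | (F : H →ₗ[ℝ] H).rank ≤ j})

/-- membership in the trace class `S_1` -/
def IsTC (T : H →L[ℝ] H) : Prop := IsCompactOperator T ∧ Summable (snum T)

/-- the norm of `S_1` -/
noncomputable def tnorm (T : H →L[ℝ] H) : ℝ := ∑' j, snum T j

section basic

theorem snum_bdd (T : H →L[ℝ] H) (j : ℕ) :
    BddBelow ((fun F : H →L[ℝ] H => ‖T - F‖) '' {F | (F : H →ₗ[ℝ] H).rank ≤ j}) :=
  ⟨0, by rintro _ ⟨F, _, rfl⟩; exact norm_nonneg _⟩

theorem rank_zero_le (j : ℕ) : ((0 : H →L[ℝ] H) : H →ₗ[ℝ] H).rank ≤ j := by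
  have : ((0 : H →L[ℝ] H) : H →ₗ[ℝ] H) = 0 := rfl
  rw [this, LinearMap.rank_zero]
  exact zero_le

theorem snum_nonempty (T : H →L[ℝ] H) (j : ℕ) :
    ((fun F : H →L[ℝ] H => ‖T - F‖) '' {F | (F : H →ₗ[ℝ] H).rank ≤ j}).Nonempty :=
  ⟨_, 0, rank_zero_le j, rfl⟩

theorem snum_nonneg (T : H →L[ℝ] H) (j : ℕ) : 0 ≤ snum T j :=
  Real.sInf_nonneg (by rintro _ ⟨F, _, rfl⟩; exact norm_nonneg _)

theorem snum_le {T F : H →L[ℝ] H} {j : ℕ} (hF : (F : H →ₗ[ℝ] H).rank ≤ j) :
    snum T j ≤ ‖T - F‖ := csInf_le (snum_bdd T j) ⟨F, hF, rfl⟩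

theorem exists_approx (T : H →L[ℝ] H) (j : ℕ) {ε : ℝ} (hε : 0 < ε) :
    ∃ F : H →L[ℝ] H, (F : H →ₗ[ℝ] H).rank ≤ j ∧ ‖T - F‖ < snum T j + ε := by
  obtain ⟨_, ⟨F, hF, rfl⟩, h⟩ := exists_lt_of_csInf_lt (snum_nonempty T j)
    (lt_add_of_pos_right (snum T j) hε)
  exact ⟨F, hF, h⟩

theorem le_snum {T : H →L[ℝ] H} {j : ℕ} {c : ℝ}
    (h : ∀ F : H →L[ℝ] H, (F : H →ₗ[ℝ] H).rank ≤ j → c ≤ ‖T - F‖) : c ≤ snum T j := by
  refine le_csInf (snum_nonempty T j) ?_
  rintro _ ⟨F, hF, rfl⟩
  exact h F hF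

theorem snum_anti (T : H →L[ℝ] H) {i j : ℕ} (hij : i ≤ j) : snum T j ≤ snum T i :=
  le_snum fun _ hF => snum_le (hF.trans (by exact_mod_cast hij))

theorem snum_sub_le (T T' : H →L[ℝ] H) (i j : ℕ) :
    snum (T - T') (i + j) ≤ snum T i + snum T' j := by
  refine le_of_forall_pos_le_add fun ε hε => ?_
  obtain ⟨F, hF, h1⟩ := exists_approx T i (half_pos hε)
  obtain ⟨F', hF', h2⟩ := exists_approx T' j (half_pos hε)
  have hr : ((F - F' : H →L[ℝ] H) : H →ₗ[ℝ] H).rank ≤ ((i + j : ℕ) : Cardinal) := by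
    have e : ((F - F' : H →L[ℝ] H) : H →ₗ[ℝ] H) = (F : H →ₗ[ℝ] H) + (-(F' : H →ₗ[ℝ] H)) := by
      ext x; simp [sub_eq_add_neg]
    rw [e]
    refine (LinearMap.rank_add_le _ _).trans ?_
    have e2 : (-(F' : H →ₗ[ℝ] H)).rank = (F' : H →ₗ[ℝ] H).rank := by
      rw [LinearMap.rank, LinearMap.rank, LinearMap.range_neg]
    rw [e2]
    push_cast
    exact add_le_add hF hF'
  refine (snum_le hr).trans ?_
  have e : T - T' - (F - F') = (T - F) - (T' - F') := by abel
  rw [e]
  have := norm_sub_le (T - F) (T' - F')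
  linarith

theorem summable_snum_sub {T T' : H →L[ℝ] H} (h : Summable (snum T)) (h' : Summable (snum T')) :
    Summable (snum (T - T')) := by
  refine summable_of_sum_range_le (c := 2 * (tnorm T + tnorm T')) (fun j => snum_nonneg _ j) fun n => ?_
  have h1 : ∑ i ∈ Finset.range n, snum (T - T') i ≤ ∑ i ∈ Finset.range (2 * n), snum (T - T') i :=
    Finset.sum_le_sum_of_subset_of_nonneg (Finset.range_mono (by omega))
      (fun i _ _ => snum_nonneg _ i)
  have h2 : ∀ n : ℕ, ∑ i ∈ Finset.range (2 * n), snum (T - T') i ≤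
      2 * ∑ i ∈ Finset.range n, (snum T i + snum T' i) := by
    intro n
    induction n with
    | zero => simp
    | succ n ih =>
      rw [Finset.sum_range_succ, show 2 * (n + 1) = 2 * n + 1 + 1 by ring, Finset.sum_range_succ,
        Finset.sum_range_succ]
      have h3 := snum_sub_le T T' n n
      have h4 : snum (T - T') (2 * n + 1) ≤ snum (T - T') (2 * n) := snum_anti _ (by omega)
      rw [← two_mul] at h3
      linarith
  refine h1.trans ((h2 n).trans ?_)
  refine mul_le_mul_of_nonneg_left ?_ (by norm_num)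
  rw [Finset.sum_add_distrib]
  exact add_le_add (h.sum_le_tsum _ (fun i _ => snum_nonneg _ i))
    (h'.sum_le_tsum _ (fun i _ => snum_nonneg _ i))

theorem IsTC.sub {T T' : H →L[ℝ] H} (h : IsTC T) (h' : IsTC T') : IsTC (T - T') :=
  ⟨h.1.sub h'.1, summable_snum_sub h.2 h'.2⟩

theorem tnorm_nonneg (T : H →L[ℝ] H) : 0 ≤ tnorm T := tsum_nonneg fun j => snum_nonneg T j

end basic

section finite
variable {W : Type*} [NormedAddCommGroup W] [InnerProductSpace ℝ W] [FiniteDimensional ℝ W]
  [CompleteSpace W]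

theorem sv_anti (δ : W →L[ℝ] W) {i j : ℕ} (h : i ≤ j) : sv δ j ≤ sv δ i :=
  δ.toLinearMap.singularValues_antitone h

theorem sv_le_of_rank (δ F : W →L[ℝ] W) {j : ℕ} (hj : j < finrank ℝ W)
    (hF : finrank ℝ F.toLinearMap.range ≤ j) : sv δ j ≤ ‖δ - F‖ := by
  classical
  obtain ⟨b, hb⟩ := exists_svd δ
  have hσ : ∀ m : Fin (finrank ℝ W), ‖δ (b m)‖ = sv δ m :=
    svd_norm (σ := fun i : Fin (finrank ℝ W) => sv δ i) (fun i => sv_nonneg δ i) hb
  -- the span of the first `j+1` basis vectors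
  set e : Fin (j + 1) → Fin (finrank ℝ W) := fun i => ⟨i, by omega⟩ with he
  have hinj : Function.Injective e := fun a c h => by
    simp only [he, Fin.mk.injEq] at h; exact Fin.ext h
  set U : Submodule ℝ W := Submodule.span ℝ (Set.range fun i => b (e i)) with hU
  have hli : LinearIndependent ℝ fun i => b (e i) :=
    (b.orthonormal.comp e hinj).linearIndependent
  have hUd : finrank ℝ U = j + 1 := by
    rw [hU, finrank_span_eq_card hli, Fintype.card_fin]
  have hker : finrank ℝ W ≤ finrank ℝ (LinearMap.ker F.toLinearMap) + j := by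
    have := F.toLinearMap.finrank_range_add_finrank_ker
    omega
  have hinf : 0 < finrank ℝ (U ⊓ LinearMap.ker F.toLinearMap : Submodule ℝ W) := by
    have h1 := Submodule.finrank_sup_add_finrank_inf_eq U (LinearMap.ker F.toLinearMap)
    have h2 := Submodule.finrank_le (U ⊔ LinearMap.ker F.toLinearMap)
    omega
  obtain ⟨x, hx0⟩ : ∃ x : (U ⊓ LinearMap.ker F.toLinearMap : Submodule ℝ W), x ≠ 0 := by
    have := Module.nontrivial_of_finrank_pos hinf
    exact exists_ne 0
  obtain ⟨x, hxU, hxF⟩ := x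
  have hx : x ≠ 0 := fun h => hx0 (by simp [h])
  have hFx : F x = 0 := hxF
  -- coordinates of x
  have hcoord : ∀ m : Fin (finrank ℝ W), ¬ ((m : ℕ) ≤ j) → ⟪b m, x⟫_ℝ = 0 := by
    intro m hm
    have : U ≤ LinearMap.ker (innerSL ℝ (b m)).toLinearMap := by
      rw [hU, Submodule.span_le]
      rintro _ ⟨i, rfl⟩
      have hne : m ≠ e i := by
        intro h; apply hm; rw [h]; simp only [he]; omega
      show ⟪b m, b (e i)⟫_ℝ = 0
      exact b.orthonormal.2 hne
    exact this hxU
  have hnorm : sv δ j ^ 2 * ‖x‖ ^ 2 ≤ ‖δ x‖ ^ 2 := by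
    rw [clm_expand b δ x, norm_sq_sum_orthogonal, ← b.sum_sq_norm_inner_right x, Finset.mul_sum]
    · refine Finset.sum_le_sum fun m _ => ?_
      rw [norm_smul, mul_pow, hσ, mul_comm]
      by_cases hm : (m : ℕ) ≤ j
      · exact mul_le_mul_of_nonneg_left (pow_le_pow_left₀ (sv_nonneg _ _) (sv_anti δ hm) 2)
          (by positivity)
      · rw [hcoord m hm]; simp
    · intro i k hik
      rw [real_inner_smul_left, real_inner_smul_right,
        svd_inner (σ := fun i : Fin (finrank ℝ W) => sv δ i) hb, b.orthonormal.2 hik]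
      ring
  have h1 : sv δ j * ‖x‖ ≤ ‖δ x‖ := by
    refine le_of_sq_le_sq ?_ (norm_nonneg _)
    rw [mul_pow]; exact hnorm
  have h2 : ‖δ x‖ ≤ ‖δ - F‖ * ‖x‖ := by
    have := (δ - F).le_opNorm x
    rwa [sub_apply, hFx, sub_zero] at this
  exact le_of_mul_le_mul_right (h1.trans h2) (norm_pos_iff.2 hx)

theorem exists_trunc (δ : W →L[ℝ] W) (j : ℕ) :
    ∃ F : W →L[ℝ] W, finrank ℝ F.toLinearMap.range ≤ j ∧ ‖δ - F‖ ≤ sv δ j := by
  classical
  by_cases hj : finrank ℝ W ≤ j
  · exact ⟨δ, (Submodule.finrank_le _).trans hj, by rw [sub_self, norm_zero]; exact sv_nonneg _ _⟩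
  · push Not at hj
    obtain ⟨b, hb⟩ := exists_svd δ
    have hσ : ∀ m : Fin (finrank ℝ W), ‖δ (b m)‖ = sv δ m :=
      svd_norm (σ := fun i : Fin (finrank ℝ W) => sv δ i) (fun i => sv_nonneg δ i) hb
    set s : Finset (Fin (finrank ℝ W)) := Finset.univ.filter fun m => (m : ℕ) < j with hs
    set π := ofBasis b (fun m => if m ∈ s then b m else 0) with hπ
    have hcard : s.card ≤ j := by
      have : (s.map Fin.valEmbedding) ⊆ Finset.range j := by
        intro i hi
        simp only [hs, Finset.mem_map, Finset.mem_filter, Finset.mem_univ, true_and,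
          Fin.valEmbedding_apply] at hi
        obtain ⟨a, ha, rfl⟩ := hi
        exact Finset.mem_range.2 ha
      have h4 := Finset.card_le_card this
      rwa [Finset.card_map, Finset.card_range] at h4
    refine ⟨δ * π, ?_, ?_⟩
    · have h1 := rank_mul_mul_le δ π 1
      rw [mul_one] at h1
      exact h1.trans ((rank_ofBasis_le b s).trans hcard)
    · have e : δ - δ * π = ofBasis b (fun m => if m ∈ s then 0 else δ (b m)) := by
        have h1 : δ = ofBasis b (fun m => δ (b m)) := by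
          rw [← mul_ofBasis, ofBasis_basis, mul_one]
        have h2 : δ * π = ofBasis b (fun m => if m ∈ s then δ (b m) else 0) := by
          rw [hπ, mul_ofBasis]
          congr 1; ext m; by_cases hm : m ∈ s <;> simp [hm]
        have h3 : ofBasis b (fun m => if m ∈ s then 0 else δ (b m)) +
            ofBasis b (fun m => if m ∈ s then δ (b m) else 0) = ofBasis b (fun m => δ (b m)) := by
          rw [← ofBasis_add]
          congr 1; ext m
          by_cases hm : m ∈ s <;> simp [hm]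
        rw [h2, sub_eq_iff_eq_add, h3]
        exact h1
      rw [e]
      refine norm_ofBasis_le b _ ?_ (sv_nonneg _ _) ?_
      · intro i k hik
        by_cases hi : i ∈ s
        · simp [hi]
        · by_cases hk : k ∈ s
          · simp [hk]
          · simp only [hi, hk, if_false]
            rw [svd_inner (σ := fun i : Fin (finrank ℝ W) => sv δ i) hb, b.orthonormal.2 hik,
              mul_zero]
      · intro i
        by_cases hi : i ∈ s
        · simp [hi, sv_nonneg]
        · simp only [hi, if_false]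
          rw [hσ]
          refine sv_anti δ ?_
          simp only [hs, Finset.mem_filter, Finset.mem_univ, true_and, not_lt] at hi
          exact hi

end finite

end Pool.H45.S1
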