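import Pool.Agent.Helper45.S1.Defs

/-!
# Schatten norms with exponent a power of two, for tracial functionals on real star algebras
-/

open scoped BigOperators

set_option linter.unusedSectionVars false

namespace Pool.H45.S1

variable {A : Type*} [Ring A] [StarRing A] [Algebra ℝ A] [StarModule ℝ A] {τ : A →ₗ[ℝ] ℝ}

theorem N_nonneg (k : ℕ) (a : A) : 0 ≤ N τ k a := by
  cases k <;> exact Real.sqrt_nonneg _

theorem N_zero_sq (h : Tracial τ) (a : A) : N τ 0 a ^ 2 = τ (star a * a) := by
  rw [N, Real.sq_sqrt (h.map_nonneg a)]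

theorem N_succ_sq (k : ℕ) (a : A) : N τ (k + 1) a ^ 2 = N τ k (star a * a) := by
  rw [N, Real.sq_sqrt (N_nonneg _ _)]

theorem tau_pow_nonneg (h : Tracial τ) (k : ℕ) (a : A) : 0 ≤ τ ((star a * a) ^ (2 ^ k)) := by
  cases k with
  | zero => simpa using h.map_nonneg a
  | succ k =>
    have h1 : (star a * a) ^ (2 ^ (k + 1)) = star ((star a * a) ^ (2 ^ k)) * (star a * a) ^ (2 ^ k) := by
      rw [star_pow, star_mul, star_star, ← pow_add, pow_succ, mul_two]
    rw [h1]; exact h.map_nonneg _

theorem N_pow (h : Tracial τ) (k : ℕ) (a : A) :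
    N τ k a ^ (2 ^ (k + 1)) = τ ((star a * a) ^ (2 ^ k)) := by
  induction k generalizing a with
  | zero => simpa using N_zero_sq h a
  | succ k ih =>
    rw [pow_succ 2 (k + 1), mul_comm, pow_mul, N_succ_sq, ih, star_mul, star_star]
    congr 1
    rw [← pow_two, ← pow_mul, pow_succ 2 k, mul_comm 2]

theorem tau_mul_le (h : Tracial τ) (a b : A) : |τ (a * b)| ≤ N τ 0 (star a) * N τ 0 b := by
  -- Cauchy–Schwarz
  have key : ∀ t : ℝ, 0 ≤ τ (a * star a) * (t * t) + (2 * τ (a * b)) * t + τ (star b * b) := by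
    intro t
    have h1 := h.map_nonneg (t • star a + b)
    have h2 : star (t • star a + b) * (t • star a + b) =
        (t * t) • (a * star a) + t • (a * b) + t • (star b * star a) + star b * b := by
      simp only [star_add, star_smul, star_star, add_mul, mul_add, smul_mul_assoc,
        mul_smul_comm, smul_add, smul_smul, star_trivial]
      abel
    have h3 : τ (star b * star a) = τ (a * b) := by
      rw [← star_mul, h.map_star]
    rw [h2] at h1
    simp only [map_add, map_smul, smul_eq_mul, h3] at h1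
    linarith
  have hd := discrim_le_zero key
  rw [discrim] at hd
  have h4 : τ (a * b) ^ 2 ≤ τ (a * star a) * τ (star b * b) := by nlinarith
  have h5 : N τ 0 (star a) ^ 2 = τ (a * star a) := by
    rw [N_zero_sq h, star_star]
  have h6 := N_zero_sq h b
  rw [← h5, ← h6, ← mul_pow] at h4
  exact abs_le_of_sq_le_sq h4 (mul_nonneg (N_nonneg _ _) (N_nonneg _ _))

theorem N_star (h : Tracial τ) (k : ℕ) (a : A) : N τ k (star a) = N τ k a := by
  have h1 : N τ k (star a) ^ (2 ^ (k + 1)) = N τ k a ^ (2 ^ (k + 1)) := by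
    rw [N_pow h, N_pow h, star_star]
    have : ∀ m : ℕ, τ ((a * star a) ^ (m + 1)) = τ ((star a * a) ^ (m + 1)) := by
      intro m
      have h2 : (a * star a) ^ (m + 1) = a * ((star a * a) ^ m * star a) := by
        rw [pow_succ']
        have : ∀ m : ℕ, star a * (a * star a) ^ m = (star a * a) ^ m * star a := by
          intro m
          induction m with
          | zero => simp
          | succ m ih =>
            rw [pow_succ, ← mul_assoc, ih, pow_succ]
            simp only [mul_assoc]
        rw [mul_assoc, this]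
      rw [h2, h.map_comm, mul_assoc, ← pow_succ]
    obtain ⟨m, hm⟩ : ∃ m, 2 ^ k = m + 1 := ⟨2 ^ k - 1, by have := Nat.one_le_two_pow (n := k); omega⟩
    rw [hm]; exact this m
  exact (pow_left_inj₀ (N_nonneg _ _) (N_nonneg _ _) (by positivity)).1 h1

theorem N_smul (h : Tracial τ) (k : ℕ) (c : ℝ) (a : A) : N τ k (c • a) = |c| * N τ k a := by
  induction k generalizing a c with
  | zero =>
    have h1 : N τ 0 (c • a) ^ 2 = (|c| * N τ 0 a) ^ 2 := by
      rw [N_zero_sq h, mul_pow, N_zero_sq h, sq_abs, star_smul, star_trivial, smul_mul_assoc,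
        mul_smul_comm, smul_smul, map_smul, smul_eq_mul, pow_two]
    exact (pow_left_inj₀ (N_nonneg _ _) (mul_nonneg (abs_nonneg _) (N_nonneg _ _)) two_ne_zero).1 h1
  | succ k ih =>
    have h1 : N τ (k + 1) (c • a) ^ 2 = (|c| * N τ (k + 1) a) ^ 2 := by
      rw [N_succ_sq, mul_pow, N_succ_sq, star_smul, star_trivial, smul_mul_assoc,
        mul_smul_comm, smul_smul, ih, abs_mul, pow_two]
    exact (pow_left_inj₀ (N_nonneg _ _) (mul_nonneg (abs_nonneg _) (N_nonneg _ _)) two_ne_zero).1 h1

/-- trace inequality and product inequality, proved simultaneously -/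
theorem tr_and_mul (h : Tracial τ) (k : ℕ) :
    (∀ M : A, |τ (M ^ (2 ^ (k + 1)))| ≤ N τ k M ^ (2 ^ (k + 1))) ∧
    (∀ a b : A, N τ k (a * b) ≤ N τ (k + 1) a * N τ (k + 1) b) := by
  have cyc : ∀ (a b : A) (m : ℕ), τ ((star (a * b) * (a * b)) ^ (m + 1)) =
      τ (((star a * a) * (b * star b)) ^ (m + 1)) := by
    intro a b m
    have h2 : (star (a * b) * (a * b)) ^ (m + 1) =
        star b * ((((star a * a) * (b * star b)) ^ m) * ((star a * a) * b)) := by
      induction m with
      | zero => simp [mul_assoc]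
      | succ m ih =>
        rw [pow_succ, ih, pow_succ ((star a * a) * (b * star b)) m]
        simp only [star_mul, mul_assoc]
    rw [h2, h.map_comm, pow_succ]
    simp only [mul_assoc]
  induction k with
  | zero =>
    refine ⟨?_, ?_⟩
    · intro M
      have := tau_mul_le h M M
      rw [N_star h] at this
      simpa [pow_two] using this
    · intro a b
      have h1 : N τ 0 (a * b) ^ 2 ≤ (N τ 1 a * N τ 1 b) ^ 2 := by
        rw [N_zero_sq h]
        have e1 := cyc a b 0
        simp only [zero_add, pow_one] at e1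
        rw [e1]
        refine (le_abs_self _).trans ((tau_mul_le h _ _).trans ?_)
        rw [N_star h, mul_pow, N_succ_sq, ← N_star h 1 b, N_succ_sq, star_star]
      exact le_of_sq_le_sq h1 (mul_nonneg (N_nonneg _ _) (N_nonneg _ _))
  | succ k ih =>
    obtain ⟨ih1, ih2⟩ := ih
    refine ⟨?_, ?_⟩
    · intro M
      have e : M ^ (2 ^ (k + 1 + 1)) = (M * M) ^ (2 ^ (k + 1)) := by
        rw [← pow_two, ← pow_mul, pow_succ 2 (k + 1), mul_comm 2]
      rw [e]
      refine (ih1 (M * M)).trans ?_
      have := ih2 M M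
      rw [pow_succ 2 (k + 1), mul_comm, pow_mul, pow_two (N τ (k + 1) M)]
      exact pow_le_pow_left₀ (N_nonneg _ _) this _
    · intro a b
      have h1 : N τ (k + 1) (a * b) ^ (2 ^ (k + 2)) ≤
          (N τ (k + 2) a * N τ (k + 2) b) ^ (2 ^ (k + 2)) := by
        rw [N_pow h]
        obtain ⟨m, hm⟩ : ∃ m, 2 ^ (k + 1) = m + 1 :=
          ⟨2 ^ (k + 1) - 1, by have := Nat.one_le_two_pow (n := k + 1); omega⟩
        have e1 : τ ((star (a * b) * (a * b)) ^ (2 ^ (k + 1))) =
            τ (((star a * a) * (b * star b)) ^ (2 ^ (k + 1))) := by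
          rw [hm]; exact cyc a b m
        rw [e1]
        refine (le_abs_self _).trans ((ih1 _).trans ?_)
        have e2 : (N τ (k + 2) a * N τ (k + 2) b) ^ (2 ^ (k + 2)) =
            (N τ (k + 1) (star a * a) * N τ (k + 1) (b * star b)) ^ (2 ^ (k + 1)) := by
          rw [pow_succ 2 (k + 1), mul_comm (2 ^ (k + 1)), pow_mul, mul_pow _ _ 2,
            N_succ_sq, ← N_star h (k + 2) b, N_succ_sq, star_star]
        rw [e2]
        exact pow_le_pow_left₀ (N_nonneg _ _) (ih2 _ _) _
      exact (pow_le_pow_iff_left₀ (N_nonneg _ _)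
        (mul_nonneg (N_nonneg _ _) (N_nonneg _ _)) (by positivity)).1 h1

theorem N_mul_le (h : Tracial τ) (k : ℕ) (a b : A) :
    N τ k (a * b) ≤ N τ (k + 1) a * N τ (k + 1) b := (tr_and_mul h k).2 a b

theorem N_add_le (h : Tracial τ) (k : ℕ) (a b : A) : N τ k (a + b) ≤ N τ k a + N τ k b := by
  induction k generalizing a b with
  | zero =>
    have h1 : N τ 0 (a + b) ^ 2 ≤ (N τ 0 a + N τ 0 b) ^ 2 := by
      rw [N_zero_sq h]
      have e : star (a + b) * (a + b) = star a * a + star a * b + star b * a + star b * b := by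
        simp only [star_add, add_mul, mul_add]; abel
      rw [e]
      simp only [map_add]
      have c1 := (le_abs_self _).trans (tau_mul_le h (star a) b)
      have c2 := (le_abs_self _).trans (tau_mul_le h (star b) a)
      rw [star_star] at c1 c2
      nlinarith [N_zero_sq h a, N_zero_sq h b]
    exact le_of_sq_le_sq h1 (add_nonneg (N_nonneg _ _) (N_nonneg _ _))
  | succ k ih =>
    have h1 : N τ (k + 1) (a + b) ^ 2 ≤ (N τ (k + 1) a + N τ (k + 1) b) ^ 2 := by
      rw [N_succ_sq]
      have e : star (a + b) * (a + b) = (star a * a + star b * b) + (star a * b + star b * a) := by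
        simp only [star_add, add_mul, mul_add]; abel
      rw [e]
      have c1 := ih (star a * a + star b * b) (star a * b + star b * a)
      have c2 := ih (star a * a) (star b * b)
      have c3 := ih (star a * b) (star b * a)
      have c4 := N_mul_le h k (star a) b
      have c5 := N_mul_le h k (star b) a
      rw [N_star h] at c4 c5
      have c6 := N_succ_sq (τ := τ) k a
      have c7 := N_succ_sq (τ := τ) k b
      nlinarith
    exact le_of_sq_le_sq h1 (add_nonneg (N_nonneg _ _) (N_nonneg _ _))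

/-- two-uniform smoothness -/
theorem N_smooth (h : Tracial τ) (k : ℕ) (a b : A) :
    N τ k (a + b) ^ 2 + N τ k (a - b) ^ 2 ≤
      2 * N τ k a ^ 2 + 2 * ((2 : ℝ) ^ (k + 1) - 1) * N τ k b ^ 2 := by
  induction k generalizing a b with
  | zero =>
    rw [N_zero_sq h, N_zero_sq h, N_zero_sq h, N_zero_sq h]
    have e1 : star (a + b) * (a + b) = star a * a + star a * b + star b * a + star b * b := by
      simp only [star_add, add_mul, mul_add]; abel
    have e2 : star (a - b) * (a - b) = star a * a - star a * b - star b * a + star b * b := by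
      simp only [star_sub, sub_mul, mul_sub]; abel
    rw [e1, e2]
    simp only [map_add, map_sub]
    ring_nf
    exact le_refl _
  | succ k ih =>
    rw [N_succ_sq, N_succ_sq]
    set P := star a * a + star b * b with hP
    set Q := star a * b + star b * a with hQ
    have e1 : star (a + b) * (a + b) = P + Q := by
      simp only [hP, hQ, star_add, add_mul, mul_add]; abel
    have e2 : star (a - b) * (a - b) = P - Q := by
      simp only [hP, hQ, star_sub, sub_mul, mul_sub]; abel
    rw [e1, e2]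
    have c1 := ih P Q
    have c2 : N τ k P ≤ N τ (k + 1) a ^ 2 + N τ (k + 1) b ^ 2 := by
      rw [N_succ_sq, N_succ_sq]; exact N_add_le h k _ _
    have c3 : N τ k Q ≤ 2 * (N τ (k + 1) a * N τ (k + 1) b) := by
      refine (N_add_le h k _ _).trans ?_
      have c4 := N_mul_le h k (star a) b
      have c5 := N_mul_le h k (star b) a
      rw [N_star h] at c4 c5
      linarith [mul_comm (N τ (k + 1) a) (N τ (k + 1) b)]
    set x := N τ (k + 1) a
    set y := N τ (k + 1) b
    set U := N τ k (P + Q)
    set V := N τ k (P - Q)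
    set p := N τ k P
    set q := N τ k Q
    have hx : 0 ≤ x := N_nonneg _ _
    have hy : 0 ≤ y := N_nonneg _ _
    have hp : 0 ≤ p := N_nonneg _ _
    have hq : 0 ≤ q := N_nonneg _ _
    have hU : 0 ≤ U := N_nonneg _ _
    have hV : 0 ≤ V := N_nonneg _ _
    have hK : (0 : ℝ) ≤ 2 ^ (k + 1) - 1 := by
      have : (1 : ℝ) ≤ 2 ^ (k + 1) := one_le_pow₀ (by norm_num)
      linarith
    have e3 : (2 : ℝ) ^ (k + 1 + 1) - 1 = 1 + 2 * (2 ^ (k + 1) - 1) := by ring
    rw [e3]
    set K := (2 : ℝ) ^ (k + 1) - 1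
    -- (U+V)^2 ≤ 2 (U^2+V^2) ≤ 4 p^2 + 4 K q^2
    have h1 : (U + V) ^ 2 ≤ (2 * (x ^ 2 + (1 + 2 * K) * y ^ 2)) ^ 2 := by
      have h2 : (U + V) ^ 2 ≤ 2 * (U ^ 2 + V ^ 2) := by nlinarith [sq_nonneg (U - V)]
      have h3 : p ^ 2 ≤ (x ^ 2 + y ^ 2) ^ 2 := pow_le_pow_left₀ hp c2 2
      have h4 : q ^ 2 ≤ (2 * (x * y)) ^ 2 := pow_le_pow_left₀ hq c3 2
      have h5 : K * q ^ 2 ≤ K * (2 * (x * y)) ^ 2 := mul_le_mul_of_nonneg_left h4 hK
      have h6 : 0 ≤ (K ^ 2 + K) * y ^ 4 := by positivity
      nlinarith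
    have h7 : 0 ≤ 2 * (x ^ 2 + (1 + 2 * K) * y ^ 2) := by positivity
    have := le_of_sq_le_sq h1 h7
    linarith

end Pool.H45.S1
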