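import Pool.Agent.Helper45.S1.Cotype
import Pool.Agent.Helper45.S1.Scalars

/-!
# Quasisymmetric embeddings into the trace class over real or complex scalars
-/

open scoped BigOperators InnerProductSpace
open Filter Topology

set_option linter.unusedSectionVars false

namespace Pool.H45.S1

theorem unitLower_tc {𝕜 H X : Type*} [RCLike 𝕜] [NormedAddCommGroup H]
    [InnerProductSpace 𝕜 H] [CompleteSpace H] [NormedAddCommGroup X] [NormedSpace ℝ X]
    (φ : X → (H →L[𝕜] H)) (hS : ∀ x, Summable (sNum (φ x))) (hinj : Function.Injective φ)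
    (η : ℝ → ℝ) (ηpos : ∀ t, 0 < t → 0 < η t) (ηmono : MonotoneOn η (Set.Ioi 0))
    (ηlim : Tendsto η (𝓝[>] 0) (𝓝 0))
    (hqs : ∀ x y z, x ≠ y → x ≠ z → y ≠ z →
        tNorm (φ x - φ y) / tNorm (φ x - φ z) ≤ η (‖x - y‖ / ‖x - z‖)) : UnitLower X := by
  let _ : InnerProductSpace ℝ H := InnerProductSpace.rclikeToReal 𝕜 H
  set ψ : X → (H →L[ℝ] H) := fun x => (φ x).restrictScalars ℝ with hψ
  have hψs : ∀ x, Summable (snum (ψ x)) := fun x => (summable_snum_restrict (hS x)).1
  have hdiff : ∀ x y, ψ x - ψ y = (φ x - φ y).restrictScalars ℝ := fun x y => rfl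
  have hdS' : ∀ x y, Summable (snum (ψ x - ψ y)) := fun x y => summable_snum_sub (hψs x) (hψs y)
  have hdS : ∀ x y, Summable (sNum (φ x - φ y)) := by
    intro x y
    refine Summable.of_nonneg_of_le (fun j => sNum_nonneg _ j) (fun j => ?_) (hdS' x y)
    rw [hdiff]
    exact sNum_le_snum (φ x - φ y) j
  have hle : ∀ x y, tNorm (φ x - φ y) ≤ tnorm (ψ x - ψ y) := fun x y => tNorm_le_tnorm (hdS x y)
  have hge : ∀ x y, tnorm (ψ x - ψ y) ≤ 2 * tNorm (φ x - φ y) := fun x y =>
    (summable_snum_restrict (hdS x y)).2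
  have hpos : ∀ x y, x ≠ y → 0 < tnorm (ψ x - ψ y) := by
    intro x y hxy
    have hne : ψ x - ψ y ≠ 0 := by
      intro h0
      apply hxy
      apply hinj
      rw [sub_eq_zero] at h0
      ext v
      exact congrArg (fun g : H →L[ℝ] H => g v) h0
    exact lt_of_lt_of_le (norm_pos_iff.2 hne) (norm_le_tnorm (hdS' x y))
  have hQ : QSD (fun u v : X => tnorm (ψ u - ψ v)) (fun t => 2 * η t) := by
    refine ⟨fun x => ?_, fun x y => tnorm_sub_comm _ _, fun x y z => ?_, hpos, fun t ht => ?_,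
      fun a ha b hb hab => ?_, ?_, fun x y z h1 h2 h3 => ?_⟩
    · simp only [sub_self]; exact tnorm_zero
    · have e : ψ x - ψ z = (ψ x - ψ y) + (ψ y - ψ z) := by abel
      rw [e]
      exact tnorm_add_le (hdS' x y) (hdS' y z)
    · have := ηpos t ht
      linarith
    · have := ηmono ha hb hab
      linarith
    · have := ηlim.const_mul 2
      rwa [mul_zero] at this
    · have h4 := hqs x y z h1 h2 h3
      have h5 : 0 < tNorm (φ x - φ z) := by
        have := hge x z
        have := hpos x z h2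
        linarith
      rw [div_le_iff₀ h5] at h4
      have h6 : 0 < η (‖x - y‖ / ‖x - z‖) := ηpos _ (div_pos (norm_pos_iff.2 (sub_ne_zero.2 h1))
        (norm_pos_iff.2 (sub_ne_zero.2 h2)))
      calc tnorm (ψ x - ψ y) ≤ 2 * tNorm (φ x - φ y) := hge x y
        _ ≤ 2 * (η (‖x - y‖ / ‖x - z‖) * tNorm (φ x - φ z)) := by linarith
        _ = 2 * η (‖x - y‖ / ‖x - z‖) * tNorm (φ x - φ z) := by ring
        _ ≤ 2 * η (‖x - y‖ / ‖x - z‖) * tnorm (ψ x - ψ z) :=
            mul_le_mul_of_nonneg_left (hle x z) (by positivity)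
  exact unitLower_of_qs hQ (weakCotype_tc ψ hψs)

end Pool.H45.S1
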