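import Pool.Agent.Helper45.S1.GapUnit
import Pool.Agent.Helper45.S1.Transfer

/-!
# Uniform and coarse embeddings into the trace class over real or complex scalars
-/

open scoped BigOperators InnerProductSpace
open Filter Topology

set_option linter.unusedSectionVars false

namespace Pool.H45.S1

/-- the metric on `X` induced by a map into the trace class, seen over the reals -/
theorem exists_real_metric {𝕜 H X : Type*} [RCLike 𝕜] [NormedAddCommGroup H]
    [InnerProductSpace 𝕜 H] [CompleteSpace H]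
    (φ : X → (H →L[𝕜] H)) (hS : ∀ x, Summable (sNum (φ x))) :
    ∃ ρ : X → X → ℝ, (∀ x y, 0 ≤ ρ x y) ∧ (∀ x, ρ x x = 0) ∧
      (∀ x y z, ρ x z ≤ ρ x y + ρ y z) ∧ StrongCotype ρ 4915200 ∧
      (∀ x y, tNorm (φ x - φ y) ≤ ρ x y) ∧ (∀ x y, ρ x y ≤ 2 * tNorm (φ x - φ y)) := by
  let _ : InnerProductSpace ℝ H := InnerProductSpace.rclikeToReal 𝕜 H
  set ψ : X → (H →L[ℝ] H) := fun x => (φ x).restrictScalars ℝ with hψ
  have hψs : ∀ x, Summable (snum (ψ x)) := fun x => (summable_snum_restrict (hS x)).1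
  have hdiff : ∀ x y, ψ x - ψ y = (φ x - φ y).restrictScalars ℝ := fun x y => rfl
  have hdS' : ∀ x y, Summable (snum (ψ x - ψ y)) := fun x y => summable_snum_sub (hψs x) (hψs y)
  have hdS : ∀ x y, Summable (sNum (φ x - φ y)) := by
    intro x y
    refine Summable.of_nonneg_of_le (fun j => sNum_nonneg _ j) (fun j => ?_) (hdS' x y)
    rw [hdiff]
    exact sNum_le_snum (φ x - φ y) j
  refine ⟨fun u v => tnorm (ψ u - ψ v), fun x y => tnorm_nonneg _, fun x => ?_,
    fun x y z => ?_, strongCotype_tc ψ hψs, fun x y => tNorm_le_tnorm (hdS x y),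
    fun x y => (summable_snum_restrict (hdS x y)).2⟩
  · simp only [sub_self]; exact tnorm_zero
  · have e : ψ x - ψ z = (ψ x - ψ y) + (ψ y - ψ z) := by abel
    change tnorm (ψ x - ψ z) ≤ tnorm (ψ x - ψ y) + tnorm (ψ y - ψ z)
    rw [e]
    exact tnorm_add_le (hdS' x y) (hdS' y z)

variable {𝕜 H X : Type*} [RCLike 𝕜] [NormedAddCommGroup H]
    [InnerProductSpace 𝕜 H] [CompleteSpace H] [NormedAddCommGroup X] [NormedSpace ℝ X]

theorem unitLower_coarse_tc (φ : X → (H →L[𝕜] H)) (hS : ∀ x, Summable (sNum (φ x)))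
    (α β : ℝ → ℝ) (hα : MonotoneOn α (Set.Ici 0)) (hβ : MonotoneOn β (Set.Ici 0))
    (hlim : Tendsto α atTop atTop)
    (hlow : ∀ x y, α ‖x - y‖ ≤ tNorm (φ x - φ y))
    (hup : ∀ x y, tNorm (φ x - φ y) ≤ β ‖x - y‖) : UnitLower X := by
  obtain ⟨ρ, h1, h2, h3, h4, h5, h6⟩ := exists_real_metric φ hS
  refine unitLower_of_coarse (by norm_num) h1 h2 h3 h4 (β := fun t => 2 * β t) (α := α)
    (fun x y => ?_) (fun s hs t ht hst => ?_) (fun x y => (hlow x y).trans (h5 x y)) hα hlim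
  · have := h6 x y
    have := hup x y
    linarith
  · have := hβ hs ht hst
    change 2 * β s ≤ 2 * β t
    linarith

theorem unitLower_uniform_tc (φ : X → (H →L[𝕜] H)) (hS : ∀ x, Summable (sNum (φ x)))
    (hcont : ∀ e : ℝ, 0 < e → ∃ d : ℝ, 0 < d ∧ ∀ x y, ‖x - y‖ < d → tNorm (φ x - φ y) < e)
    (hinv : ∀ e : ℝ, 0 < e → ∃ d : ℝ, 0 < d ∧ ∀ x y, tNorm (φ x - φ y) < d → ‖x - y‖ < e) :
    UnitLower X := by
  obtain ⟨ρ, h1, h2, h3, h4, h5, h6⟩ := exists_real_metric φ hS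
  refine unitLower_of_uniform (by norm_num) h1 h2 h3 h4 (fun e he => ?_) (fun e he => ?_)
  · obtain ⟨d, hd, h⟩ := hcont (e / 2) (by linarith)
    refine ⟨d, hd, fun x y hxy => ?_⟩
    have := h x y hxy
    have := h6 x y
    linarith
  · obtain ⟨d, hd, h⟩ := hinv e he
    exact ⟨d, hd, fun x y hxy => h x y (lt_of_le_of_lt (h5 x y) hxy)⟩

end Pool.H45.S1
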