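import Pool.Agent.Helper45.S1.Defs

/-!
# Averages over signs, type 2 from smoothness, and the dual inequality
-/

open scoped BigOperators

namespace Pool.H45.S1

theorem sg_one : sg 1 = 1 := by simp [sg]
theorem sg_neg_one : sg (-1) = -1 := by simp [sg]
theorem sg_neg (u : ℤˣ) : sg (-u) = - sg u := by simp [sg]
theorem sg_sq (u : ℤˣ) : sg u * sg u = 1 := by
  rcases Int.units_eq_one_or u with rfl | rfl <;> simp [sg]
theorem abs_sg (u : ℤˣ) : |sg u| = 1 := by
  rcases Int.units_eq_one_or u with rfl | rfl <;> simp [sg]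

theorem sum_units {Y : Type*} [AddCommMonoid Y] (f : ℤˣ → Y) : ∑ u, f u = f 1 + f (-1) := by
  have : (Finset.univ : Finset ℤˣ) = {1, -1} := by decide
  rw [this, Finset.sum_pair (by decide)]

section avg
variable {Y : Type*} [AddCommGroup Y] [Module ℝ Y] {n : ℕ}

theorem avg_zero_dim (f : (Fin 0 → ℤˣ) → Y) : avg f = f (fun i => i.elim0) := by
  rw [avg, Fintype.sum_unique]
  simp only [pow_zero, inv_one, one_smul]
  congr 1

theorem avg_succ (f : (Fin (n + 1) → ℤˣ) → Y) :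
    avg f = (2 : ℝ)⁻¹ • (avg (fun ε => f (Fin.cons 1 ε)) + avg (fun ε => f (Fin.cons (-1) ε))) := by
  have h : ∑ ε, f ε = ∑ u : ℤˣ, ∑ ε : Fin n → ℤˣ, f (Fin.cons u ε) := by
    rw [← Fintype.sum_prod_type']
    exact (Fintype.sum_equiv (Fin.consEquiv (fun _ => ℤˣ)) _ _ (fun x => rfl)).symm
  simp only [avg]
  rw [h, sum_units, ← smul_add, smul_smul, pow_succ, mul_inv, mul_comm]

theorem avg_add (f g : (Fin n → ℤˣ) → Y) : avg (fun ε => f ε + g ε) = avg f + avg g := by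
  simp only [avg, Finset.sum_add_distrib, smul_add]

theorem avg_sub (f g : (Fin n → ℤˣ) → Y) : avg (fun ε => f ε - g ε) = avg f - avg g := by
  simp only [avg, Finset.sum_sub_distrib, smul_sub]

theorem avg_smul (c : ℝ) (f : (Fin n → ℤˣ) → Y) : avg (fun ε => c • f ε) = c • avg f := by
  simp only [avg, ← Finset.smul_sum, smul_smul, mul_comm]

theorem avg_const (c : Y) : avg (fun _ : Fin n → ℤˣ => c) = c := by
  simp only [avg, Finset.sum_const, Finset.card_univ, Fintype.card_pi, Finset.prod_const,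
    Fintype.card_units_int, Fintype.card_fin]
  rw [← Nat.cast_smul_eq_nsmul ℝ, smul_smul]
  push_cast
  rw [inv_mul_cancel₀ (by positivity), one_smul]

theorem avg_map {Y' : Type*} [AddCommGroup Y'] [Module ℝ Y'] (L : Y →ₗ[ℝ] Y')
    (f : (Fin n → ℤˣ) → Y) : L (avg f) = avg (fun ε => L (f ε)) := by
  simp only [avg, map_smul, map_sum]

theorem avg_sum {ι : Type*} (s : Finset ι) (f : ι → (Fin n → ℤˣ) → Y) :
    avg (fun ε => ∑ i ∈ s, f i ε) = ∑ i ∈ s, avg (f i) := by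
  simp only [avg]
  rw [Finset.sum_comm, Finset.smul_sum]

/-- multiplying all signs by a fixed sign vector does not change the average -/
theorem avg_mul (u : Fin n → ℤˣ) (f : (Fin n → ℤˣ) → Y) :
    avg (fun ε => f (u * ε)) = avg f := by
  simp only [avg]
  congr 1
  exact Fintype.sum_equiv (Equiv.mulLeft u) _ _ (fun x => rfl)

end avg

section real
variable {n : ℕ}

theorem avg_eq_mul (f : (Fin n → ℤˣ) → ℝ) : avg f = ((2 : ℝ) ^ n)⁻¹ * ∑ ε, f ε := rfl

theorem avg_mono {f g : (Fin n → ℤˣ) → ℝ} (h : ∀ ε, f ε ≤ g ε) : avg f ≤ avg g := by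
  rw [avg_eq_mul, avg_eq_mul]
  exact mul_le_mul_of_nonneg_left (Finset.sum_le_sum fun ε _ => h ε) (by positivity)

theorem avg_nonneg {f : (Fin n → ℤˣ) → ℝ} (h : ∀ ε, 0 ≤ f ε) : 0 ≤ avg f := by
  rw [avg_eq_mul]
  exact mul_nonneg (by positivity) (Finset.sum_nonneg fun ε _ => h ε)

theorem avg_mul_const (c : ℝ) (f : (Fin n → ℤˣ) → ℝ) : avg (fun ε => f ε * c) = avg f * c := by
  rw [avg_eq_mul, avg_eq_mul, ← Finset.sum_mul, mul_assoc]

theorem avg_const_mul (c : ℝ) (f : (Fin n → ℤˣ) → ℝ) : avg (fun ε => c * f ε) = c * avg f := by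
  rw [avg_eq_mul, avg_eq_mul, ← Finset.mul_sum]; ring

/-- Cauchy–Schwarz for averages -/
theorem avg_mul_sq_le (f g : (Fin n → ℤˣ) → ℝ) :
    (avg (fun ε => f ε * g ε)) ^ 2 ≤ avg (fun ε => f ε ^ 2) * avg (fun ε => g ε ^ 2) := by
  rw [avg_eq_mul, avg_eq_mul, avg_eq_mul]
  have := Finset.sum_mul_sq_le_sq_mul_sq Finset.univ f g
  have h2 : (0 : ℝ) ≤ (((2 : ℝ) ^ n)⁻¹) ^ 2 := by positivity
  calc (((2 : ℝ) ^ n)⁻¹ * ∑ ε, f ε * g ε) ^ 2
      = (((2 : ℝ) ^ n)⁻¹) ^ 2 * (∑ ε, f ε * g ε) ^ 2 := by ring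
    _ ≤ (((2 : ℝ) ^ n)⁻¹) ^ 2 * ((∑ ε, f ε ^ 2) * ∑ ε, g ε ^ 2) :=
        mul_le_mul_of_nonneg_left this h2
    _ = _ := by ring

/-- Jensen for squares -/
theorem norm_avg_sq_le {Y : Type*} [SeminormedAddCommGroup Y] [NormedSpace ℝ Y]
    (f : (Fin n → ℤˣ) → Y) : ‖avg f‖ ^ 2 ≤ avg (fun ε => ‖f ε‖ ^ 2) := by
  have h1 : ‖avg f‖ ≤ avg (fun ε => ‖f ε‖ * 1) := by
    rw [avg, avg_eq_mul, norm_smul, Real.norm_eq_abs, abs_of_nonneg (by positivity)]
    simp only [mul_one]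
    exact mul_le_mul_of_nonneg_left (norm_sum_le _ _) (by positivity)
  have h2 := avg_mul_sq_le (fun ε => ‖f ε‖) (fun _ : Fin n → ℤˣ => (1 : ℝ))
  simp only [one_pow] at h2
  rw [show avg (fun _ : Fin n → ℤˣ => (1 : ℝ)) = 1 from avg_const 1, mul_one] at h2
  exact (pow_le_pow_left₀ (norm_nonneg _) h1 2).trans h2

end real

/-- 2-uniform smoothness gives type 2. -/
theorem hasType2_of_smooth (Z : Type*) [SeminormedAddCommGroup Z] [NormedSpace ℝ Z] (K : ℝ)
    (hs : ∀ a b : Z, ‖a + b‖ ^ 2 + ‖a - b‖ ^ 2 ≤ 2 * ‖a‖ ^ 2 + 2 * K * ‖b‖ ^ 2) :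
    HasType2 Z K := by
  intro n
  induction n with
  | zero => intro z; rw [avg_zero_dim]; simp
  | succ n ih =>
    intro z
    rw [avg_succ, Fin.sum_univ_succ]
    have h1 : ∀ ε : Fin n → ℤˣ, ‖∑ j, sg ((Fin.cons 1 ε : Fin (n + 1) → ℤˣ) j) • z j‖ ^ 2 +
        ‖∑ j, sg ((Fin.cons (-1) ε : Fin (n + 1) → ℤˣ) j) • z j‖ ^ 2 ≤
        2 * ‖∑ j, sg (ε j) • z j.succ‖ ^ 2 + 2 * K * ‖z 0‖ ^ 2 := by
      intro ε
      simp only [Fin.sum_univ_succ, Fin.cons_zero, Fin.cons_succ, sg_one, sg_neg_one, one_smul,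
        neg_smul]
      have := hs (∑ j, sg (ε j) • z j.succ) (z 0)
      rw [add_comm (z 0), add_comm (-z 0), ← sub_eq_add_neg]
      exact this
    have h2 := avg_mono h1
    rw [avg_add, avg_add, avg_const_mul, avg_const] at h2
    have h3 := ih (fun j => z j.succ)
    rw [smul_eq_mul]
    linarith

theorem exists_almost_norming (Z : Type*) [SeminormedAddCommGroup Z] [NormedSpace ℝ Z]
    (h : Z →L[ℝ] ℝ) {η : ℝ} (h0 : 0 < η) (h1 : η < 1) : ∃ B : Z, ‖B‖ ≤ 1 ∧ η * ‖h‖ ≤ h B := by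
  by_contra hcon
  push Not at hcon
  have hpos : 0 < ‖h‖ := by
    have := hcon 0 (by simp)
    rw [map_zero] at this
    exact (mul_pos_iff_of_pos_left h0).1 this
  have hb : ‖h‖ ≤ η * ‖h‖ := by
    refine ContinuousLinearMap.opNorm_le_bound h (by positivity) fun x => ?_
    rcases (norm_nonneg x).eq_or_lt with hx | hx
    · have := h.le_opNorm x
      rw [← hx, mul_zero] at this ⊢
      exact this
    · have e1 : ∀ y : Z, ‖y‖ = ‖x‖ → h y ≤ η * ‖h‖ * ‖x‖ := by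
        intro y hy
        have hlt := hcon ((‖x‖)⁻¹ • y) (by rw [norm_smul, norm_inv, norm_norm, hy,
          inv_mul_cancel₀ hx.ne'])
        rw [map_smul, smul_eq_mul] at hlt
        have := mul_le_mul_of_nonneg_right hlt.le hx.le
        rwa [mul_assoc, mul_comm (h y), ← mul_assoc, inv_mul_cancel₀ hx.ne', one_mul] at this
      rw [Real.norm_eq_abs, abs_le]
      constructor
      · have := e1 (-x) (norm_neg x)
        rw [map_neg] at this
        linarith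
      · exact e1 x rfl
  nlinarith

/-- the dual of a type 2 space satisfies the inequality `KProp` -/
theorem kProp_dual (Z : Type*) [SeminormedAddCommGroup Z] [NormedSpace ℝ Z] {K : ℝ} (hK : 0 ≤ K)
    (hZ : HasType2 Z K) : KProp (Z →L[ℝ] ℝ) K := by
  intro n g
  obtain ⟨h, hh⟩ : ∃ h : Fin n → (Z →L[ℝ] ℝ), h = fun j => avg (fun ε => sg (ε j) • g ε) := ⟨_, rfl⟩
  have hhv : ∀ j (B : Z), h j B = avg (fun ε => sg (ε j) * g ε B) := by
    intro j B
    rw [hh]
    simp only [avg, smul_apply, sum_apply, smul_eq_mul]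
  have hgoal : ∑ j, ‖avg (fun ε => sg (ε j) • g ε)‖ ^ 2 = ∑ j, ‖h j‖ ^ 2 := by rw [hh]
  rw [hgoal]
  clear hgoal hh
  set c : Fin n → ℝ := fun j => ‖h j‖ with hc
  set G := avg (fun ε => ‖g ε‖ ^ 2) with hG
  have hG0 : 0 ≤ G := avg_nonneg fun ε => by positivity
  have key : ∀ η : ℝ, 0 < η → η < 1 → η ^ 2 * ∑ j, c j ^ 2 ≤ K * G := by
    intro η h0 h1
    have hB : ∀ j, ∃ B : Z, ‖B‖ ≤ 1 ∧ η * c j ≤ h j B := fun j => exists_almost_norming Z (h j) h0 h1
    choose B hB1 hB2 using hB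
    have e1 : η * ∑ j, c j ^ 2 ≤ ∑ j, c j * h j (B j) := by
      rw [Finset.mul_sum]
      refine Finset.sum_le_sum fun j _ => ?_
      have := mul_le_mul_of_nonneg_left (hB2 j) (norm_nonneg (h j))
      calc η * c j ^ 2 = c j * (η * c j) := by ring
        _ ≤ c j * h j (B j) := this
    have e2 : ∑ j, c j * h j (B j) = avg (fun ε => g ε (∑ j, (c j * sg (ε j)) • B j)) := by
      have : ∀ j, c j * h j (B j) = avg (fun ε => c j * (sg (ε j) * g ε (B j))) := by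
        intro j
        rw [avg_const_mul, hhv]
      simp only [this]
      rw [← avg_sum]
      congr 1
      ext ε
      rw [map_sum]
      refine Finset.sum_congr rfl fun j _ => ?_
      rw [map_smul, smul_eq_mul, mul_assoc]
    have e3 : ∀ ε : Fin n → ℤˣ, g ε (∑ j, (c j * sg (ε j)) • B j) ≤
        ‖g ε‖ * ‖∑ j, sg (ε j) • (c j • B j)‖ := by
      intro ε
      refine (le_abs_self _).trans ?_
      rw [← Real.norm_eq_abs]
      refine ((g ε).le_opNorm _).trans (le_of_eq ?_)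
      congr 2
      refine Finset.sum_congr rfl fun j _ => ?_
      rw [smul_smul, mul_comm]
    have e4 : (η * ∑ j, c j ^ 2) ^ 2 ≤ G * (K * ∑ j, c j ^ 2) := by
      have hnn : 0 ≤ η * ∑ j, c j ^ 2 := by positivity
      have e5 : η * ∑ j, c j ^ 2 ≤ avg (fun ε => ‖g ε‖ * ‖∑ j, sg (ε j) • (c j • B j)‖) :=
        e1.trans (e2.le.trans (avg_mono e3))
      refine (pow_le_pow_left₀ hnn e5 2).trans ((avg_mul_sq_le _ _).trans ?_)
      refine mul_le_mul_of_nonneg_left ?_ hG0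
      refine (hZ n (fun j => c j • B j)).trans ?_
      refine mul_le_mul_of_nonneg_left (Finset.sum_le_sum fun j _ => ?_) hK
      rw [norm_smul, mul_pow, Real.norm_eq_abs, sq_abs]
      have : ‖B j‖ ^ 2 ≤ 1 := by
        have := pow_le_pow_left₀ (norm_nonneg _) (hB1 j) 2
        simpa using this
      nlinarith [sq_nonneg (c j)]
    have hS : 0 ≤ ∑ j, c j ^ 2 := by positivity
    rcases hS.eq_or_lt with hS0 | hS0
    · rw [← hS0, mul_zero]; positivity
    · have : (η ^ 2 * ∑ j, c j ^ 2) * ∑ j, c j ^ 2 ≤ (K * G) * ∑ j, c j ^ 2 := by nlinarith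
      exact le_of_mul_le_mul_right this hS0
  have hlim : Filter.Tendsto (fun η : ℝ => η ^ 2 * ∑ j, c j ^ 2) (nhdsWithin 1 (Set.Iio 1))
      (nhds (1 ^ 2 * ∑ j, c j ^ 2)) := by
    refine Filter.Tendsto.mono_left ?_ nhdsWithin_le_nhds
    exact ((continuous_id.pow 2).mul continuous_const).tendsto 1
  have hle : (1 : ℝ) ^ 2 * ∑ j, c j ^ 2 ≤ K * G := by
    refine le_of_tendsto hlim ?_
    have : Set.Ioo (0 : ℝ) 1 ∈ nhdsWithin (1 : ℝ) (Set.Iio 1) := Ioo_mem_nhdsLT (by norm_num)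
    filter_upwards [this] with η hη
    exact key η hη.1 hη.2
  simpa using hle

end Pool.H45.S1
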