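import Pool.Agent.Helper45.S1.Weighted

/-!
# The upper estimate for the resolvent map
-/

open scoped BigOperators InnerProductSpace
open Module

set_option linter.unusedSectionVars false

namespace Pool.H45.S1

variable {E : Type*} [NormedAddCommGroup E] [InnerProductSpace ℝ E] [FiniteDimensional ℝ E]
  [CompleteSpace E]

theorem ofBasis_add {ι : Type*} [Fintype ι] (b : OrthonormalBasis ι ℝ E) (v w : ι → E) :
    ofBasis b (fun i => v i + w i) = ofBasis b v + ofBasis b w := by
  ext x
  simp only [ofBasis_apply, add_apply, smul_add, Finset.sum_add_distrib]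

theorem ofBasis_basis {ι : Type*} [Fintype ι] (b : OrthonormalBasis ι ℝ E) :
    ofBasis b (fun i => b i) = 1 := by
  ext x
  rw [ofBasis_apply, b.sum_repr', one_apply_eq_self]

theorem mul_ofBasis {ι : Type*} [Fintype ι] (b : OrthonormalBasis ι ℝ E) (T : E →L[ℝ] E)
    (v : ι → E) : T * ofBasis b v = ofBasis b (fun i => T (v i)) := by
  ext x
  rw [clm_mul_apply, ofBasis_apply, ofBasis_apply, map_sum]
  exact Finset.sum_congr rfl fun i _ => map_smul _ _ _

/-- rank of a partial basis projection -/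
theorem rank_ofBasis_le {ι : Type*} [Fintype ι] [DecidableEq ι] (b : OrthonormalBasis ι ℝ E)
    (s : Finset ι) :
    finrank ℝ (ofBasis b (fun i => if i ∈ s then b i else 0)).toLinearMap.range ≤ s.card := by
  classical
  have h1 : (ofBasis b (fun i => if i ∈ s then b i else 0)).toLinearMap.range ≤
      Submodule.span ℝ ((s.image b : Finset E) : Set E) := by
    rintro _ ⟨x, rfl⟩
    show ofBasis b _ x ∈ _
    rw [ofBasis_apply]
    refine Submodule.sum_mem _ fun i _ => Submodule.smul_mem _ _ ?_
    by_cases hi : i ∈ s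
    · simp only [hi, if_true]
      exact Submodule.subset_span (by simpa using ⟨i, hi, rfl⟩)
    · simp only [hi, if_false]; exact Submodule.zero_mem _
  exact (Submodule.finrank_mono h1).trans ((finrank_span_finset_le_card _).trans
    Finset.card_image_le)

theorem rank_mul_mul_le (S T U : E →L[ℝ] E) :
    finrank ℝ (S * (T * U)).toLinearMap.range ≤ finrank ℝ T.toLinearMap.range := by
  have h1 : (S * (T * U)).toLinearMap.range ≤ T.toLinearMap.range.map S.toLinearMap := by
    rintro _ ⟨x, rfl⟩
    exact ⟨T (U x), ⟨U x, rfl⟩, rfl⟩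
  exact (Submodule.finrank_mono h1).trans (Submodule.finrank_map_le _ _)

theorem scale_bound {A A' : E →L[ℝ] E} (hA : star A = -A) (hA' : star A' = -A') {t : ℝ}
    (ht : 0 < t) (k : ℕ) (B : E →L[ℝ] E) (b : OrthonormalBasis (Fin (finrank ℝ E)) ℝ E)
    (hb : ∀ i, (star (A - A') * (A - A')) (b i) = (sv (A - A') i) ^ 2 • b i) :
    ∃ (B' : E →L[ℝ] E) (b' : OrthonormalBasis (Fin (finrank ℝ E)) ℝ E),
      N (trL E) k B' ≤ N (trL E) k B ∧
      |trL E ((Ps t A - Ps t A') * B)| ≤
        ∑ m : Fin (finrank ℝ E),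
          (if sv (A - A') m ≤ t then sv (A - A') m / t else 0) * ‖star B' (b m)‖ +
        ∑ j : Fin (finrank ℝ E),
          (if (j : ℕ) < (Finset.univ.filter fun m : Fin (finrank ℝ E) => ¬ sv (A - A') m ≤ t).card
            then 3 else 0) * ‖star B (b' j)‖ := by
  classical
  set d := A - A' with hd
  set s := Finset.univ.filter (fun m : Fin (finrank ℝ E) => ¬ sv d m ≤ t) with hs
  have hσ : ∀ m : Fin (finrank ℝ E), ‖d (b m)‖ = sv d m :=
    svd_norm (σ := fun i : Fin (finrank ℝ E) => sv d i) (fun i => sv_nonneg d i) hb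
  set π₁ := ofBasis b (fun m => if m ∈ s then 0 else b m) with hπ₁
  set π₂ := ofBasis b (fun m => if m ∈ s then b m else 0) with hπ₂
  have hsum : π₁ + π₂ = 1 := by
    rw [hπ₁, hπ₂, ← ofBasis_add, ← ofBasis_basis b]
    congr 1
    ext m
    by_cases hm : m ∈ s <;> simp [hm]
  set D₁ := t • (Rs t A' * (d * π₁) * Rs t A) with hD₁
  set D₂ := t • (Rs t A' * (d * π₂) * Rs t A) with hD₂
  have hD : Ps t A - Ps t A' = D₁ + D₂ := by
    rw [Ps_sub_Ps hA hA' ht, hD₁, hD₂, ← smul_add, ← add_mul, ← mul_add, ← mul_add, hsum, mul_one]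
  have hdπ : ‖d * π₁‖ ≤ t := by
    rw [hπ₁, mul_ofBasis]
    refine norm_ofBasis_le b _ ?_ ht.le ?_
    · intro i j hij
      by_cases hi : i ∈ s
      · simp [hi]
      · by_cases hj : j ∈ s
        · simp [hj]
        · simp only [hi, hj, if_false]
          rw [svd_inner (σ := fun i : Fin (finrank ℝ E) => sv d i) hb, b.orthonormal.2 hij, mul_zero]
    · intro i
      by_cases hi : i ∈ s
      · simp [hi, ht.le]
      · simp only [hi, if_false]
        rw [hσ]
        simpa [hs] using hi
  have hR := norm_smul_Rs_le hA ht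
  have hR' := norm_smul_Rs_le hA' ht
  have hD₁n : ‖D₁‖ ≤ 1 := by
    have e : D₁ = t⁻¹ • ((t • Rs t A') * (d * π₁) * (t • Rs t A)) := by
      rw [hD₁]
      simp only [smul_mul_assoc, mul_smul_comm, smul_smul]
      congr 1
      field_simp
    rw [e, norm_smul, norm_inv, Real.norm_of_nonneg ht.le]
    have h1 := norm_mul_le ((t • Rs t A') * (d * π₁)) (t • Rs t A)
    have h2 := norm_mul_le (t • Rs t A') (d * π₁)
    have h3 : ‖(t • Rs t A') * (d * π₁) * (t • Rs t A)‖ ≤ t := by
      calc _ ≤ ‖(t • Rs t A') * (d * π₁)‖ * ‖t • Rs t A‖ := h1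
        _ ≤ (‖t • Rs t A'‖ * ‖d * π₁‖) * 1 :=
            mul_le_mul h2 hR (norm_nonneg _) (by positivity)
        _ ≤ (1 * t) * 1 := by
            refine mul_le_mul_of_nonneg_right ?_ zero_le_one
            exact mul_le_mul hR' hdπ (norm_nonneg _) zero_le_one
        _ = t := by ring
    calc t⁻¹ * ‖(t • Rs t A') * (d * π₁) * (t • Rs t A)‖ ≤ t⁻¹ * t :=
          mul_le_mul_of_nonneg_left h3 (by positivity)
      _ = 1 := inv_mul_cancel₀ ht.ne'
  have hD₂n : ‖D₂‖ ≤ 3 := by
    have e : D₂ = (Ps t A - Ps t A') - D₁ := by rw [hD]; abel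
    rw [e]
    have h1 := norm_sub_le (Ps t A - Ps t A') D₁
    have h2 := norm_sub_le (Ps t A) (Ps t A')
    have h3 := norm_Ps_le hA ht
    have h4 := norm_Ps_le hA' ht
    linarith
  have hrank : finrank ℝ D₂.toLinearMap.range ≤ s.card := by
    have e : D₂ = (t • (Rs t A' * d)) * (π₂ * Rs t A) := by
      rw [hD₂]; simp only [smul_mul_assoc, mul_assoc]
    rw [e]
    exact (rank_mul_mul_le _ _ _).trans (rank_ofBasis_le b s)
  obtain ⟨b', hb'⟩ := exists_svd D₂
  refine ⟨(t • Rs t A) * B * (t • Rs t A'), b', ?_, ?_⟩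
  · exact ((N_contr k _ _ hR').1).trans (N_contr k _ _ hR).2
  · rw [hD, add_mul, map_add]
    refine (abs_add_le _ _).trans (add_le_add ?_ ?_)
    · have e : trL E (D₁ * B) = t⁻¹ * trL E ((d * π₁) * ((t • Rs t A) * B * (t • Rs t A'))) := by
        have e1 : D₁ * B = t • (Rs t A' * ((d * π₁) * (Rs t A * B))) := by
          rw [hD₁]; simp only [smul_mul_assoc, mul_assoc]
        have e2 : (d * π₁) * ((t • Rs t A) * B * (t • Rs t A')) =
            (t * t) • (((d * π₁) * (Rs t A * B)) * Rs t A') := by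
          simp only [smul_mul_assoc, mul_smul_comm, mul_assoc, smul_smul]
        rw [e1, e2, map_smul, map_smul, trL_comm, smul_eq_mul, smul_eq_mul]
        field_simp
      rw [e, abs_mul, abs_of_pos (inv_pos.2 ht)]
      have h1 := abs_trL_mul_le b (d * π₁) ((t • Rs t A) * B * (t • Rs t A'))
      refine (mul_le_mul_of_nonneg_left h1 (by positivity)).trans (le_of_eq ?_)
      rw [Finset.mul_sum]
      refine Finset.sum_congr rfl fun m _ => ?_
      have h2 : ‖(d * π₁) (b m)‖ = if sv d m ≤ t then sv d m else 0 := by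
        rw [hπ₁, mul_ofBasis, ofBasis_self]
        by_cases hm : sv d m ≤ t
        · have : m ∉ s := by simp [hs, hm]
          simp only [this, if_false, hm, if_true, hσ]
        · have : m ∈ s := by simp only [hs, Finset.mem_filter, Finset.mem_univ, true_and]; exact hm
          simp only [this, if_true, hm, if_false, map_zero, norm_zero]
      rw [h2]
      by_cases hm : sv d m ≤ t
      · simp only [hm, if_true]; field_simp
      · simp only [hm, if_false]; ring
    · refine (abs_trL_mul_le b' D₂ B).trans (Finset.sum_le_sum fun j _ => ?_)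
      refine mul_le_mul_of_nonneg_right ?_ (norm_nonneg _)
      rw [svd_norm (σ := fun i : Fin (finrank ℝ E) => sv D₂ i) (fun i => sv_nonneg D₂ i) hb' j]
      by_cases hj : (j : ℕ) < s.card
      · rw [if_pos hj]; exact (sv_le_norm D₂ j).trans hD₂n
      · rw [if_neg hj]
        exact (sv_eq_zero_of_rank_le D₂ (hrank.trans (not_lt.1 hj))).le

end Pool.H45.S1
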