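import Pool.Agent.Helper45.S1.Upper

/-!
# The upper estimate, summed over the scales
-/

open scoped BigOperators InnerProductSpace
open Module

set_option linter.unusedSectionVars false

namespace Pool.H45.S1

variable {E : Type*} [NormedAddCommGroup E] [InnerProductSpace ℝ E] [FiniteDimensional ℝ E]
  [CompleteSpace E]

theorem holder_two_pow (k : ℕ) :
    ((2 : ℝ) ^ (k + 1)).HolderConjugate ((2 : ℝ) ^ (k + 1) / ((2 : ℝ) ^ (k + 1) - 1)) := by
  have h : (1 : ℝ) < (2 : ℝ) ^ (k + 1) := one_lt_pow₀ (by norm_num) (by omega)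
  exact Real.HolderConjugate.conjExponent h

theorem rpow_two_pow (k : ℕ) (x : ℝ) : x ^ ((2 : ℝ) ^ (k + 1)) = x ^ (2 ^ (k + 1) : ℕ) := by
  have : ((2 : ℝ) ^ (k + 1)) = ((2 ^ (k + 1) : ℕ) : ℝ) := by norm_num
  rw [this, Real.rpow_natCast]

theorem half_rpow_le {x : ℝ} (h0 : 0 ≤ x) (h1 : x ≤ 1) : (1 / 2 : ℝ) ^ x ≤ 1 - x / 2 := by
  have := rpow_one_add_le_one_add_mul_self (s := -1/2) (by norm_num) h0 h1
  have e : (1 : ℝ) + -1 / 2 = 1 / 2 := by norm_num
  rw [e] at this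
  linarith

theorem geom_scale {P q σ t0 : ℝ} (hP : 2 ≤ P) (hq : q = P / (P - 1)) (ht0 : 0 < t0) (hσ : 0 ≤ σ)
    (M : ℕ) :
    ∑ i ∈ Finset.range M, (t0 * 2 ^ i) * (if σ ≤ t0 * 2 ^ i then σ / (t0 * 2 ^ i) else 0) ^ q ≤
      2 * P * σ := by
  have hP1 : 0 < P - 1 := by linarith
  have hq1 : q - 1 = 1 / (P - 1) := by rw [hq]; field_simp; ring
  have hqpos : 0 < q := by rw [hq]; positivity
  rcases hσ.eq_or_lt with h0 | h0
  · rw [← h0]
    simp only [zero_div, ite_self, Real.zero_rpow hqpos.ne', mul_zero, Finset.sum_const_zero]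
    exact le_refl _
  · have hx0 : 0 < q - 1 := by rw [hq1]; positivity
    have hx1 : q - 1 ≤ 1 := by rw [hq1, div_le_one hP1]; linarith
    set r : ℝ := (1 / 2) ^ (q - 1) with hr
    have hr0 : 0 < r := Real.rpow_pos_of_pos (by norm_num) _
    have hr1 : r ≤ 1 - (q - 1) / 2 := half_rpow_le hx0.le hx1
    have hr2 : r < 1 := by linarith
    have hgeo := geom_large (σ := σ) (t0 := t0) (r := r) ht0 hσ
      (u := fun i => (σ / (t0 * 2 ^ i)) ^ (q - 1)) hr0 hr2 (by
        intro i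
        rw [hr, ← Real.mul_rpow (by norm_num) (by positivity)]
        congr 1
        rw [pow_succ]; field_simp) (fun i => by positivity) (by
        intro i hi
        refine Real.rpow_le_one (by positivity) ?_ hx0.le
        rw [div_le_one (by positivity)]; exact hi) M
    have e : ∀ i ∈ Finset.range M, (t0 * 2 ^ i) * (if σ ≤ t0 * 2 ^ i then σ / (t0 * 2 ^ i) else 0) ^ q =
        σ * (if σ ≤ t0 * 2 ^ i then (σ / (t0 * 2 ^ i)) ^ (q - 1) else 0) := by
      intro i _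
      by_cases h : σ ≤ t0 * 2 ^ i
      · rw [if_pos h, if_pos h]
        have hpos : 0 < σ / (t0 * 2 ^ i) := by positivity
        have : (σ / (t0 * 2 ^ i)) ^ q = (σ / (t0 * 2 ^ i)) ^ (q - 1) * (σ / (t0 * 2 ^ i)) := by
          rw [← Real.rpow_add_one hpos.ne']; congr 1; ring
        rw [this]; field_simp
      · rw [if_neg h, if_neg h, Real.zero_rpow hqpos.ne', mul_zero, mul_zero]
    rw [Finset.sum_congr rfl e, ← Finset.mul_sum]
    have h1 : (1 - r)⁻¹ ≤ 2 * P := by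
      have h2 : (q - 1) / 2 ≤ 1 - r := by linarith only [hr1]
      refine (inv_anti₀ (by positivity) h2).trans ?_
      rw [hq1, inv_div, div_div_eq_mul_div, div_one]
      linarith
    nlinarith only [hσ, hgeo, h1]

/-- the key consequence of Hölder for a family of operators and orthonormal bases -/
theorem holder_family (k M : ℕ) {t : Fin (M + 1) → ℝ} (ht : ∀ i, 0 ≤ t i)
    (B B' : Fin (M + 1) → (E →L[ℝ] E)) (hB : ∀ i, N (trL E) k (B' i) ≤ N (trL E) k (B i))
    (b : Fin (M + 1) → OrthonormalBasis (Fin (finrank ℝ E)) ℝ E)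
    (x : Fin (M + 1) → Fin (finrank ℝ E) → ℝ) (hx : ∀ i m, 0 ≤ x i m) :
    ∑ i, t i * ∑ m, x i m * ‖star (B' i) (b i m)‖ ≤
      (∑ i, ∑ m, t i * x i m ^ ((2 : ℝ) ^ (k + 1) / ((2 : ℝ) ^ (k + 1) - 1))) ^
        (1 - 1 / (2 : ℝ) ^ (k + 1)) * N (tauW E t) k B := by
  set P : ℝ := (2 : ℝ) ^ (k + 1) with hP
  set q : ℝ := P / (P - 1) with hq
  have hpq : P.HolderConjugate q := holder_two_pow k
  have hPpos := hpq.pos
  have h1q : 1 / q = 1 - 1 / P := by
    have := hpq.inv_add_inv_eq_one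
    rw [one_div, one_div]; linarith only [this]
  have hh := holder_weighted (Finset.univ : Finset (Fin (M + 1) × Fin (finrank ℝ E)))
    (fun j => t j.1) (fun j => x j.1 j.2) (fun j => ‖star (B' j.1) (b j.1 j.2)‖) hpq
    (fun j _ => ht j.1) (fun j _ => hx _ _) (fun j _ => norm_nonneg _)
  rw [Fintype.sum_prod_type, Fintype.sum_prod_type, Fintype.sum_prod_type] at hh
  simp only [← Finset.mul_sum] at hh
  rw [h1q] at hh
  have hN : (∑ i, t i * ∑ m, ‖star (B' i) (b i m)‖ ^ P) ≤ N (tauW E t) k B ^ P := by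
    have e1 : N (tauW E t) k B ^ P = N (tauW E t) k B ^ (2 ^ (k + 1)) := rpow_two_pow _ _
    rw [e1, N_pow_tauW ht]
    refine Finset.sum_le_sum fun i _ => mul_le_mul_of_nonneg_left ?_ (ht i)
    have h2 := sum_norm_pow_le (b i).orthonormal k (star (B' i))
    have e2 : ∀ m, ‖star (B' i) (b i m)‖ ^ P = ‖star (B' i) (b i m)‖ ^ (2 ^ (k + 1)) :=
      fun m => rpow_two_pow _ _
    simp only [e2]
    refine h2.trans (pow_le_pow_left₀ (N_nonneg _ _) ?_ _)
    rw [N_star tracial_trL]; exact hB i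
  have hN2 : (∑ i, t i * ∑ m, ‖star (B' i) (b i m)‖ ^ P) ^ (1 / P) ≤ N (tauW E t) k B := by
    have h0 : 0 ≤ ∑ i, t i * ∑ m, ‖star (B' i) (b i m)‖ ^ P :=
      Finset.sum_nonneg fun i _ => mul_nonneg (ht i) (Finset.sum_nonneg fun m _ => by positivity)
    refine (Real.rpow_le_rpow h0 hN (by positivity)).trans (le_of_eq ?_)
    rw [← Real.rpow_mul (N_nonneg _ _), mul_one_div, div_self hPpos.ne', Real.rpow_one]
  refine hh.trans (mul_le_mul (le_of_eq ?_) hN2 ?_ ?_)
  · congr 1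
    refine Finset.sum_congr rfl fun i _ => ?_
    rw [Finset.mul_sum]
  · refine Real.rpow_nonneg (Finset.sum_nonneg fun i _ => mul_nonneg (ht i)
      (Finset.sum_nonneg fun m _ => by positivity)) _
  · refine Real.rpow_nonneg (Finset.sum_nonneg fun i _ => Finset.sum_nonneg fun m _ =>
      mul_nonneg (ht i) (Real.rpow_nonneg (hx i m) _)) _

theorem upper {A A' : E →L[ℝ] E} (hA : star A = -A) (hA' : star A' = -A') {t0 : ℝ}
    (ht0 : 0 < t0) (M k : ℕ) (B : Fin (M + 1) → (E →L[ℝ] E)) :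
    |∑ i : Fin (M + 1), (t0 * 2 ^ (i : ℕ)) *
        trL E ((Ps (t0 * 2 ^ (i : ℕ)) A - Ps (t0 * 2 ^ (i : ℕ)) A') * B i)| ≤
      5 * 2 ^ (k + 1) * tn (A - A') ^ (1 - 1 / (2 : ℝ) ^ (k + 1)) *
        N (tauW E fun i : Fin (M + 1) => t0 * 2 ^ (i : ℕ)) k B := by
  classical
  set P : ℝ := (2 : ℝ) ^ (k + 1) with hP
  set q : ℝ := P / (P - 1) with hq
  have hpq : P.HolderConjugate q := holder_two_pow k
  have hPpos := hpq.pos
  have hqpos := hpq.symm.pos
  have hP2 : 2 ≤ P := by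
    rw [hP, pow_succ]
    have : (1 : ℝ) ≤ 2 ^ k := one_le_pow₀ (by norm_num)
    linarith
  have h1q : 1 / q = 1 - 1 / P := by
    have := hpq.inv_add_inv_eq_one
    rw [one_div, one_div]; linarith
  obtain ⟨b, hb⟩ := exists_svd (A - A')
  have htpos : ∀ i : Fin (M + 1), 0 < t0 * 2 ^ (i : ℕ) := fun i => by positivity
  choose B' b' hB' hbound using fun i : Fin (M + 1) => scale_bound hA hA' (htpos i) k (B i) b hb
  set S := tn (A - A') with hS
  have hS0 : 0 ≤ S := tn_nonneg _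
  -- the two parts
  set x₁ : Fin (M + 1) → Fin (finrank ℝ E) → ℝ := fun i m =>
    if sv (A - A') m ≤ t0 * 2 ^ (i : ℕ) then sv (A - A') m / (t0 * 2 ^ (i : ℕ)) else 0 with hx₁
  set x₂ : Fin (M + 1) → Fin (finrank ℝ E) → ℝ := fun i j =>
    if (j : ℕ) < (Finset.univ.filter fun m : Fin (finrank ℝ E) =>
      ¬ sv (A - A') m ≤ t0 * 2 ^ (i : ℕ)).card then 3 else 0 with hx₂
  have hx₁0 : ∀ i m, 0 ≤ x₁ i m := by
    intro i m
    simp only [hx₁]
    split_ifs
    · exact div_nonneg (sv_nonneg _ _) (htpos i).le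
    · exact le_refl _
  have hx₂0 : ∀ i m, 0 ≤ x₂ i m := by
    intro i m
    simp only [hx₂]
    split_ifs <;> norm_num
  have hf₁ := holder_family k M (fun i => (htpos i).le) B B' hB' (fun _ => b) x₁ hx₁0
  have hf₂ := holder_family k M (fun i => (htpos i).le) B B (fun i => le_refl _) b' x₂ hx₂0
  have hs₁ : ∑ i : Fin (M + 1), ∑ m, (t0 * 2 ^ (i : ℕ)) * x₁ i m ^ q ≤ 2 * P * S := by
    rw [Finset.sum_comm, hS, tn, Finset.mul_sum]
    refine Finset.sum_le_sum fun m _ => ?_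
    have := geom_scale hP2 hq ht0 (sv_nonneg (A - A') m) (M + 1)
    rw [Finset.sum_range] at this
    exact this
  have hs₂ : ∑ i : Fin (M + 1), ∑ m, (t0 * 2 ^ (i : ℕ)) * x₂ i m ^ q ≤ (3 : ℝ) ^ q * (2 * S) := by
    have e1 : ∀ i : Fin (M + 1), ∑ m, (t0 * 2 ^ (i : ℕ)) * x₂ i m ^ q ≤
        (3 : ℝ) ^ q * ∑ m : Fin (finrank ℝ E),
          (if sv (A - A') m ≤ t0 * 2 ^ (i : ℕ) then 0 else t0 * 2 ^ (i : ℕ)) := by
      intro i
      set s := Finset.univ.filter fun m : Fin (finrank ℝ E) =>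
        ¬ sv (A - A') m ≤ t0 * 2 ^ (i : ℕ) with hs
      have h1 : ∑ m : Fin (finrank ℝ E),
          (if sv (A - A') m ≤ t0 * 2 ^ (i : ℕ) then 0 else t0 * 2 ^ (i : ℕ)) =
          (s.card : ℝ) * (t0 * 2 ^ (i : ℕ)) := by
        rw [← nsmul_eq_mul, ← Finset.sum_const, hs, Finset.sum_filter]
        refine Finset.sum_congr rfl fun m _ => ?_
        by_cases h : sv (A - A') m ≤ t0 * 2 ^ (i : ℕ) <;> simp [h]
      have h2 : ∑ m : Fin (finrank ℝ E), (t0 * 2 ^ (i : ℕ)) * x₂ i m ^ q =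
          (t0 * 2 ^ (i : ℕ)) * (3 : ℝ) ^ q *
            ((Finset.univ.filter fun j : Fin (finrank ℝ E) => (j : ℕ) < s.card).card : ℝ) := by
        rw [mul_comm _ (Finset.card _ : ℝ), ← nsmul_eq_mul, ← Finset.sum_const, Finset.sum_filter]
        refine Finset.sum_congr rfl fun j _ => ?_
        have hx₂e : x₂ i j = if (j : ℕ) < s.card then 3 else 0 := rfl
        rw [hx₂e]
        by_cases h : (j : ℕ) < s.card
        · rw [if_pos h, if_pos h]
        · rw [if_neg h, if_neg h, Real.zero_rpow hqpos.ne', mul_zero]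
      have h3 : (Finset.univ.filter fun j : Fin (finrank ℝ E) => (j : ℕ) < s.card).card ≤ s.card := by
        have : ((Finset.univ.filter fun j : Fin (finrank ℝ E) => (j : ℕ) < s.card).map
            Fin.valEmbedding) ⊆ Finset.range s.card := by
          intro j hj
          simp only [Finset.mem_map, Finset.mem_filter, Finset.mem_univ, true_and,
            Fin.valEmbedding_apply] at hj
          obtain ⟨a, ha, rfl⟩ := hj
          exact Finset.mem_range.2 ha
        have h4 := Finset.card_le_card this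
        rwa [Finset.card_map, Finset.card_range] at h4
      rw [h1, h2]
      have h5 : ((Finset.univ.filter fun j : Fin (finrank ℝ E) => (j : ℕ) < s.card).card : ℝ) ≤
        s.card := by exact_mod_cast h3
      have h6 : 0 ≤ (t0 * 2 ^ (i : ℕ)) * (3 : ℝ) ^ q := by positivity
      calc _ ≤ (t0 * 2 ^ (i : ℕ)) * (3 : ℝ) ^ q * (s.card : ℝ) := mul_le_mul_of_nonneg_left h5 h6
        _ = _ := by ring
    refine (Finset.sum_le_sum fun i _ => e1 i).trans ?_
    rw [← Finset.mul_sum]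
    refine mul_le_mul_of_nonneg_left ?_ (by positivity)
    rw [Finset.sum_comm, hS, tn, Finset.mul_sum]
    refine Finset.sum_le_sum fun m _ => ?_
    have := geom_small ht0 (sv_nonneg (A - A') m) (M + 1)
    rw [Finset.sum_range] at this
    exact this
  have he : 0 ≤ 1 - 1 / P := by rw [← h1q]; positivity
  have he1 : 1 - 1 / P ≤ 1 := by have : 0 ≤ 1 / P := by positivity
                                 linarith only [this]
  have hc₁ : (∑ i : Fin (M + 1), ∑ m, (t0 * 2 ^ (i : ℕ)) * x₁ i m ^ q) ^ (1 - 1 / P) ≤ 2 * P * S ^ (1 - 1 / P) := by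
    refine (Real.rpow_le_rpow (Finset.sum_nonneg fun i _ => Finset.sum_nonneg fun m _ =>
      mul_nonneg (htpos i).le (Real.rpow_nonneg (hx₁0 i m) _)) hs₁ he).trans ?_
    rw [Real.mul_rpow (by positivity) hS0]
    refine mul_le_mul_of_nonneg_right ?_ (Real.rpow_nonneg hS0 _)
    calc (2 * P) ^ (1 - 1 / P) ≤ (2 * P) ^ (1 : ℝ) :=
          Real.rpow_le_rpow_of_exponent_le (by linarith) he1
      _ = 2 * P := Real.rpow_one _
  have hc₂ : (∑ i : Fin (M + 1), ∑ m, (t0 * 2 ^ (i : ℕ)) * x₂ i m ^ q) ^ (1 - 1 / P) ≤ 6 * S ^ (1 - 1 / P) := by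
    refine (Real.rpow_le_rpow (Finset.sum_nonneg fun i _ => Finset.sum_nonneg fun m _ =>
      mul_nonneg (htpos i).le (Real.rpow_nonneg (hx₂0 i m) _)) hs₂ he).trans ?_
    rw [Real.mul_rpow (by positivity) (by positivity), Real.mul_rpow (by norm_num) hS0,
      ← Real.rpow_mul (by norm_num), ← h1q, mul_one_div, div_self hqpos.ne', Real.rpow_one, h1q,
      ← mul_assoc]
    refine mul_le_mul_of_nonneg_right ?_ (Real.rpow_nonneg hS0 _)
    have : (2 : ℝ) ^ (1 - 1 / P) ≤ 2 ^ (1 : ℝ) :=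
      Real.rpow_le_rpow_of_exponent_le (by norm_num) he1
    rw [Real.rpow_one] at this
    linarith only [this]
  have hNn : 0 ≤ N (tauW E fun i : Fin (M + 1) => t0 * 2 ^ (i : ℕ)) k B := N_nonneg _ _
  refine (Finset.abs_sum_le_sum_abs _ _).trans ?_
  have hb1 : ∀ i : Fin (M + 1), |(t0 * 2 ^ (i : ℕ)) *
        trL E ((Ps (t0 * 2 ^ (i : ℕ)) A - Ps (t0 * 2 ^ (i : ℕ)) A') * B i)| ≤
      (t0 * 2 ^ (i : ℕ)) * ∑ m, x₁ i m * ‖star (B' i) (b m)‖ +
      (t0 * 2 ^ (i : ℕ)) * ∑ m, x₂ i m * ‖star (B i) (b' i m)‖ := by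
    intro i
    rw [abs_mul, abs_of_pos (htpos i), ← mul_add]
    exact mul_le_mul_of_nonneg_left (hbound i) (htpos i).le
  refine (Finset.sum_le_sum fun i _ => hb1 i).trans ?_
  rw [Finset.sum_add_distrib]
  have g1 := hf₁.trans (mul_le_mul_of_nonneg_right hc₁ hNn)
  have g2 := hf₂.trans (mul_le_mul_of_nonneg_right hc₂ hNn)
  have hSp : 0 ≤ S ^ (1 - 1 / P) := Real.rpow_nonneg hS0 _
  have hSN : 0 ≤ S ^ (1 - 1 / P) * N (tauW E fun i : Fin (M + 1) => t0 * 2 ^ (i : ℕ)) k B :=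
    mul_nonneg hSp hNn
  nlinarith only [g1, g2, hP2, hSN]

end Pool.H45.S1
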