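import Pool.Agent.Helper45.S1.Upper2

/-!
# The upper estimate with sparse scales (constant independent of the exponent)
-/

open scoped BigOperators InnerProductSpace
open Module

set_option linter.unusedSectionVars false

namespace Pool.H45.S1

/-- geometric sum: large scales -/
theorem geomG_large {σ r : ℝ} {t u : ℕ → ℝ} (hr0 : 0 < r) (hr1 : r < 1)
    (hu : ∀ i, u (i + 1) = r * u i) (hu0 : ∀ i, 0 ≤ u i) (hu1 : ∀ i, σ ≤ t i → u i ≤ 1)
    (M : ℕ) :
    ∑ i ∈ Finset.range M, (if σ ≤ t i then u i else 0) ≤ (1 - r)⁻¹ := by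
  have h1r : 0 < 1 - r := by linarith
  have key : ∑ i ∈ Finset.range M, (if σ ≤ t i then u i else 0) ≤
      (1 - r)⁻¹ * (1 - min 1 (u M)) := by
    induction M with
    | zero =>
      rw [Finset.sum_range_zero]
      have := min_le_left 1 (u 0)
      exact mul_nonneg (by positivity) (by linarith)
    | succ M ih =>
      rw [Finset.sum_range_succ]
      have hmono : u (M + 1) ≤ u M := by
        rw [hu]; exact mul_le_of_le_one_left (hu0 M) hr1.le
      by_cases h : σ ≤ t M
      · rw [if_pos h]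
        have h1 := hu1 M h
        have h2 : u (M + 1) ≤ 1 := hmono.trans h1
        rw [min_eq_right h1] at ih
        rw [min_eq_right h2, hu]
        have : (1 - r)⁻¹ * (1 - u M) + u M = (1 - r)⁻¹ * (1 - r * u M) := by
          field_simp; ring
        linarith
      · rw [if_neg h, add_zero]
        refine ih.trans (mul_le_mul_of_nonneg_left ?_ (by positivity))
        have := min_le_min_left 1 hmono
        linarith
  refine key.trans ?_
  have : 0 ≤ min 1 (u M) := le_min zero_le_one (hu0 M)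
  calc (1 - r)⁻¹ * (1 - min 1 (u M)) ≤ (1 - r)⁻¹ * 1 :=
        mul_le_mul_of_nonneg_left (by linarith) (by positivity)
    _ = (1 - r)⁻¹ := mul_one _

/-- geometric sum: small scales -/
theorem geomG_small {σ : ℝ} {t : ℕ → ℝ} (ht : ∀ i, 0 < t i) (h2 : ∀ i, 2 * t i ≤ t (i + 1))
    (hσ : 0 ≤ σ) (M : ℕ) :
    ∑ i ∈ Finset.range M, (if σ ≤ t i then 0 else t i) ≤ 2 * σ := by
  have key : ∑ i ∈ Finset.range M, (if σ ≤ t i then 0 else t i) ≤
      min (2 * σ) (t M) := by
    induction M with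
    | zero => simp; exact ⟨hσ, (ht 0).le⟩
    | succ M ih =>
      rw [Finset.sum_range_succ]
      have hpos := ht M
      have h2M := h2 M
      by_cases h : σ ≤ t M
      · rw [if_pos h, add_zero]
        refine ih.trans (min_le_min_left _ ?_)
        linarith
      · rw [if_neg h]
        push Not at h
        have h1 := ih.trans (min_le_right _ _)
        refine le_min ?_ ?_
        · linarith
        · linarith
  exact key.trans (min_le_left _ _)

/-- the ratio of consecutive scales -/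
noncomputable def Lk (k : ℕ) : ℝ := (2 : ℝ) ^ (2 ^ (k + 1))

/-- the scales -/
noncomputable def sc (t0 : ℝ) (k i : ℕ) : ℝ := t0 * Lk k ^ i

theorem Lk_pos (k : ℕ) : 0 < Lk k := by unfold Lk; positivity

theorem two_le_Lk (k : ℕ) : 2 ≤ Lk k := by
  unfold Lk
  have h : 1 ≤ 2 ^ (k + 1) := Nat.one_le_two_pow
  calc (2 : ℝ) = 2 ^ 1 := (pow_one _).symm
    _ ≤ 2 ^ (2 ^ (k + 1)) := pow_le_pow_right₀ (by norm_num) h

theorem sc_pos {t0 : ℝ} (ht0 : 0 < t0) (k i : ℕ) : 0 < sc t0 k i := by
  have := Lk_pos k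
  unfold sc; positivity

theorem sc_succ (t0 : ℝ) (k i : ℕ) : sc t0 k (i + 1) = Lk k * sc t0 k i := by
  unfold sc; rw [pow_succ]; ring

theorem two_sc_le {t0 : ℝ} (ht0 : 0 < t0) (k i : ℕ) : 2 * sc t0 k i ≤ sc t0 k (i + 1) := by
  rw [sc_succ]
  exact mul_le_mul_of_nonneg_right (two_le_Lk k) (sc_pos ht0 k i).le

theorem Lk_rpow (k : ℕ) : Lk k ^ (1 / (2 : ℝ) ^ (k + 1)) = 2 := by
  have : ((2 : ℝ) ^ (k + 1)) = ((2 ^ (k + 1) : ℕ) : ℝ) := by norm_num
  rw [this, one_div, Lk, Real.pow_rpow_inv_natCast (by norm_num)]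
  positivity

theorem Lk_inv_rpow_le (k : ℕ) : (1 / Lk k) ^ (1 / ((2 : ℝ) ^ (k + 1) - 1)) ≤ 1 / 2 := by
  have hP : (2 : ℝ) ≤ (2 : ℝ) ^ (k + 1) := by
    rw [pow_succ]
    have : (1 : ℝ) ≤ 2 ^ k := one_le_pow₀ (by norm_num)
    linarith
  set P : ℝ := (2 : ℝ) ^ (k + 1) with hPd
  have hL : Lk k = (2 : ℝ) ^ P := by
    rw [hPd, Lk]
    have : ((2 : ℝ) ^ (k + 1)) = ((2 ^ (k + 1) : ℕ) : ℝ) := by norm_num
    rw [this, Real.rpow_natCast]
  have e : (1 / Lk k) ^ (1 / (P - 1)) = (1 / 2 : ℝ) ^ (P / (P - 1)) := by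
    rw [hL, one_div, ← Real.inv_rpow (by norm_num), ← Real.rpow_mul (by norm_num)]
    congr 1
    · norm_num
    · rw [mul_one_div]
  rw [e]
  have h1 : 1 ≤ P / (P - 1) := by rw [one_le_div (by linarith)]; linarith
  calc (1 / 2 : ℝ) ^ (P / (P - 1)) ≤ (1 / 2 : ℝ) ^ (1 : ℝ) :=
        Real.rpow_le_rpow_of_exponent_ge (by norm_num) (by norm_num) h1
    _ = 1 / 2 := Real.rpow_one _

theorem geomG_scale {q σ t0 : ℝ} {k : ℕ} (hq : q = (2 : ℝ) ^ (k + 1) / ((2 : ℝ) ^ (k + 1) - 1))
    (ht0 : 0 < t0) (hσ : 0 ≤ σ) (M : ℕ) :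
    ∑ i ∈ Finset.range M, sc t0 k i * (if σ ≤ sc t0 k i then σ / sc t0 k i else 0) ^ q ≤
      2 * σ := by
  have hP2 : (2 : ℝ) ≤ (2 : ℝ) ^ (k + 1) := by
    rw [pow_succ]
    have : (1 : ℝ) ≤ 2 ^ k := one_le_pow₀ (by norm_num)
    linarith
  set P : ℝ := (2 : ℝ) ^ (k + 1) with hPd
  have hP1 : 0 < P - 1 := by linarith
  have hq1 : q - 1 = 1 / (P - 1) := by rw [hq]; field_simp; ring
  have hqpos : 0 < q := by rw [hq]; positivity
  have hL := Lk_pos k
  rcases hσ.eq_or_lt with h0 | h0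
  · rw [← h0]
    simp only [zero_div, ite_self, Real.zero_rpow hqpos.ne', mul_zero, Finset.sum_const_zero]
    exact le_refl _
  · have hx0 : 0 < q - 1 := by rw [hq1]; positivity
    set r : ℝ := (1 / Lk k) ^ (q - 1) with hr
    have hr0 : 0 < r := Real.rpow_pos_of_pos (by positivity) _
    have hr1 : r ≤ 1 / 2 := by rw [hr, hq1]; exact Lk_inv_rpow_le k
    have hr2 : r < 1 := by linarith
    have hgeo := geomG_large (σ := σ) (r := r) (t := sc t0 k)
      (u := fun i => (σ / sc t0 k i) ^ (q - 1)) hr0 hr2 (by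
        intro i
        have := sc_pos ht0 k i
        rw [hr, ← Real.mul_rpow (by positivity) (by positivity)]
        congr 1
        rw [sc_succ]; field_simp) (fun i => by
          have := sc_pos ht0 k i
          positivity) (by
        intro i hi
        have := sc_pos ht0 k i
        refine Real.rpow_le_one (by positivity) ?_ hx0.le
        rw [div_le_one (by positivity)]; exact hi) M
    have e : ∀ i ∈ Finset.range M, sc t0 k i * (if σ ≤ sc t0 k i then σ / sc t0 k i else 0) ^ q =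
        σ * (if σ ≤ sc t0 k i then (σ / sc t0 k i) ^ (q - 1) else 0) := by
      intro i _
      have hs := sc_pos ht0 k i
      by_cases h : σ ≤ sc t0 k i
      · rw [if_pos h, if_pos h]
        have hpos : 0 < σ / sc t0 k i := by positivity
        have : (σ / sc t0 k i) ^ q = (σ / sc t0 k i) ^ (q - 1) * (σ / sc t0 k i) := by
          rw [← Real.rpow_add_one hpos.ne']; congr 1; ring
        rw [this]; field_simp
      · rw [if_neg h, if_neg h, Real.zero_rpow hqpos.ne', mul_zero, mul_zero]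
    rw [Finset.sum_congr rfl e, ← Finset.mul_sum]
    have h1 : (1 - r)⁻¹ ≤ 2 := by
      rw [inv_le_comm₀ (by linarith) (by norm_num)]; linarith
    nlinarith

variable {E : Type*} [NormedAddCommGroup E] [InnerProductSpace ℝ E] [FiniteDimensional ℝ E]
  [CompleteSpace E]

theorem upperL {A A' : E →L[ℝ] E} (hA : star A = -A) (hA' : star A' = -A') {t0 : ℝ}
    (ht0 : 0 < t0) (M k : ℕ) (B : Fin (M + 1) → (E →L[ℝ] E)) :
    |∑ i : Fin (M + 1), sc t0 k i *
        trL E ((Ps (sc t0 k i) A - Ps (sc t0 k i) A') * B i)| ≤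
      8 * tn (A - A') ^ (1 - 1 / (2 : ℝ) ^ (k + 1)) *
        N (tauW E fun i : Fin (M + 1) => sc t0 k i) k B := by
  classical
  set P : ℝ := (2 : ℝ) ^ (k + 1) with hP
  set q : ℝ := P / (P - 1) with hq
  have hpq : P.HolderConjugate q := holder_two_pow k
  have hPpos := hpq.pos
  have hqpos := hpq.symm.pos
  have hP2 : 2 ≤ P := by
    rw [hP, pow_succ]
    have : (1 : ℝ) ≤ 2 ^ k := one_le_pow₀ (by norm_num)
    linarith
  have h1q : 1 / q = 1 - 1 / P := by
    have := hpq.inv_add_inv_eq_one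
    rw [one_div, one_div]; linarith
  obtain ⟨b, hb⟩ := exists_svd (A - A')
  have htpos : ∀ i : Fin (M + 1), 0 < sc t0 k i := fun i => sc_pos ht0 k i
  choose B' b' hB' hbound using fun i : Fin (M + 1) => scale_bound hA hA' (htpos i) k (B i) b hb
  set S := tn (A - A') with hS
  have hS0 : 0 ≤ S := tn_nonneg _
  -- the two parts
  set x₁ : Fin (M + 1) → Fin (finrank ℝ E) → ℝ := fun i m =>
    if sv (A - A') m ≤ sc t0 k i then sv (A - A') m / sc t0 k i else 0 with hx₁
  set x₂ : Fin (M + 1) → Fin (finrank ℝ E) → ℝ := fun i j =>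
    if (j : ℕ) < (Finset.univ.filter fun m : Fin (finrank ℝ E) =>
      ¬ sv (A - A') m ≤ sc t0 k i).card then 3 else 0 with hx₂
  have hx₁0 : ∀ i m, 0 ≤ x₁ i m := by
    intro i m
    simp only [hx₁]
    split_ifs
    · exact div_nonneg (sv_nonneg _ _) (htpos i).le
    · exact le_refl _
  have hx₂0 : ∀ i m, 0 ≤ x₂ i m := by
    intro i m
    simp only [hx₂]
    split_ifs <;> norm_num
  have hf₁ := holder_family k M (fun i => (htpos i).le) B B' hB' (fun _ => b) x₁ hx₁0
  have hf₂ := holder_family k M (fun i => (htpos i).le) B B (fun i => le_refl _) b' x₂ hx₂0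
  have hs₁ : ∑ i : Fin (M + 1), ∑ m, sc t0 k i * x₁ i m ^ q ≤ 2 * S := by
    rw [Finset.sum_comm, hS, tn, Finset.mul_sum]
    refine Finset.sum_le_sum fun m _ => ?_
    have := geomG_scale hq ht0 (sv_nonneg (A - A') m) (M + 1)
    rw [Finset.sum_range] at this
    exact this
  have hs₂ : ∑ i : Fin (M + 1), ∑ m, sc t0 k i * x₂ i m ^ q ≤ (3 : ℝ) ^ q * (2 * S) := by
    have e1 : ∀ i : Fin (M + 1), ∑ m, sc t0 k i * x₂ i m ^ q ≤
        (3 : ℝ) ^ q * ∑ m : Fin (finrank ℝ E),
          (if sv (A - A') m ≤ sc t0 k i then 0 else sc t0 k i) := by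
      intro i
      set s := Finset.univ.filter fun m : Fin (finrank ℝ E) =>
        ¬ sv (A - A') m ≤ sc t0 k i with hs
      have h1 : ∑ m : Fin (finrank ℝ E),
          (if sv (A - A') m ≤ sc t0 k i then 0 else sc t0 k i) =
          (s.card : ℝ) * sc t0 k i := by
        rw [← nsmul_eq_mul, ← Finset.sum_const, hs, Finset.sum_filter]
        refine Finset.sum_congr rfl fun m _ => ?_
        by_cases h : sv (A - A') m ≤ sc t0 k i <;> simp [h]
      have h2 : ∑ m : Fin (finrank ℝ E), sc t0 k i * x₂ i m ^ q =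
          sc t0 k i * (3 : ℝ) ^ q *
            ((Finset.univ.filter fun j : Fin (finrank ℝ E) => (j : ℕ) < s.card).card : ℝ) := by
        rw [mul_comm _ (Finset.card _ : ℝ), ← nsmul_eq_mul, ← Finset.sum_const, Finset.sum_filter]
        refine Finset.sum_congr rfl fun j _ => ?_
        have hx₂e : x₂ i j = if (j : ℕ) < s.card then 3 else 0 := rfl
        rw [hx₂e]
        by_cases h : (j : ℕ) < s.card
        · rw [if_pos h, if_pos h]
        · rw [if_neg h, if_neg h, Real.zero_rpow hqpos.ne', mul_zero]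
      have h3 : (Finset.univ.filter fun j : Fin (finrank ℝ E) => (j : ℕ) < s.card).card ≤ s.card := by
        have : ((Finset.univ.filter fun j : Fin (finrank ℝ E) => (j : ℕ) < s.card).map
            Fin.valEmbedding) ⊆ Finset.range s.card := by
          intro j hj
          simp only [Finset.mem_map, Finset.mem_filter, Finset.mem_univ, true_and,
            Fin.valEmbedding_apply] at hj
          obtain ⟨a, ha, rfl⟩ := hj
          exact Finset.mem_range.2 ha
        have h4 := Finset.card_le_card this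
        rwa [Finset.card_map, Finset.card_range] at h4
      rw [h1, h2]
      have h5 : ((Finset.univ.filter fun j : Fin (finrank ℝ E) => (j : ℕ) < s.card).card : ℝ) ≤
        s.card := by exact_mod_cast h3
      have h6 : 0 ≤ sc t0 k i * (3 : ℝ) ^ q := mul_nonneg (htpos i).le (by positivity)
      calc _ ≤ sc t0 k i * (3 : ℝ) ^ q * (s.card : ℝ) := mul_le_mul_of_nonneg_left h5 h6
        _ = _ := by ring
    refine (Finset.sum_le_sum fun i _ => e1 i).trans ?_
    rw [← Finset.mul_sum]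
    refine mul_le_mul_of_nonneg_left ?_ (by positivity)
    rw [Finset.sum_comm, hS, tn, Finset.mul_sum]
    refine Finset.sum_le_sum fun m _ => ?_
    have := geomG_small (t := sc t0 k) (sc_pos ht0 k) (two_sc_le ht0 k)
      (sv_nonneg (A - A') m) (M + 1)
    rw [Finset.sum_range] at this
    exact this
  have he : 0 ≤ 1 - 1 / P := by rw [← h1q]; positivity
  have he1 : 1 - 1 / P ≤ 1 := by have : 0 ≤ 1 / P := by positivity
                                 linarith
  have h2p : (2 : ℝ) ^ (1 - 1 / P) ≤ 2 := by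
    have : (2 : ℝ) ^ (1 - 1 / P) ≤ 2 ^ (1 : ℝ) :=
      Real.rpow_le_rpow_of_exponent_le (by norm_num) he1
    rwa [Real.rpow_one] at this
  have hSp : 0 ≤ S ^ (1 - 1 / P) := Real.rpow_nonneg hS0 _
  have hc₁ : (∑ i : Fin (M + 1), ∑ m, sc t0 k i * x₁ i m ^ q) ^ (1 - 1 / P) ≤
      2 * S ^ (1 - 1 / P) := by
    refine (Real.rpow_le_rpow (Finset.sum_nonneg fun i _ => Finset.sum_nonneg fun m _ =>
      mul_nonneg (htpos i).le (Real.rpow_nonneg (hx₁0 i m) _)) hs₁ he).trans ?_
    rw [Real.mul_rpow (by norm_num) hS0]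
    exact mul_le_mul_of_nonneg_right h2p hSp
  have hc₂ : (∑ i : Fin (M + 1), ∑ m, sc t0 k i * x₂ i m ^ q) ^ (1 - 1 / P) ≤
      6 * S ^ (1 - 1 / P) := by
    refine (Real.rpow_le_rpow (Finset.sum_nonneg fun i _ => Finset.sum_nonneg fun m _ =>
      mul_nonneg (htpos i).le (Real.rpow_nonneg (hx₂0 i m) _)) hs₂ he).trans ?_
    rw [Real.mul_rpow (by positivity) (by positivity), Real.mul_rpow (by norm_num) hS0,
      ← Real.rpow_mul (by norm_num), ← h1q, mul_one_div, div_self hqpos.ne', Real.rpow_one, h1q,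
      ← mul_assoc]
    refine mul_le_mul_of_nonneg_right ?_ hSp
    linarith
  have hNn : 0 ≤ N (tauW E fun i : Fin (M + 1) => sc t0 k i) k B := N_nonneg _ _
  refine (Finset.abs_sum_le_sum_abs _ _).trans ?_
  have hb1 : ∀ i : Fin (M + 1), |sc t0 k i *
        trL E ((Ps (sc t0 k i) A - Ps (sc t0 k i) A') * B i)| ≤
      sc t0 k i * ∑ m, x₁ i m * ‖star (B' i) (b m)‖ +
      sc t0 k i * ∑ m, x₂ i m * ‖star (B i) (b' i m)‖ := by
    intro i
    rw [abs_mul, abs_of_pos (htpos i), ← mul_add]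
    exact mul_le_mul_of_nonneg_left (hbound i) (htpos i).le
  refine (Finset.sum_le_sum fun i _ => hb1 i).trans ?_
  rw [Finset.sum_add_distrib]
  have g1 := hf₁.trans (mul_le_mul_of_nonneg_right hc₁ hNn)
  have g2 := hf₂.trans (mul_le_mul_of_nonneg_right hc₂ hNn)
  linarith

end Pool.H45.S1
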