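import Pool.Agent.Helper45.S1.Resolvent

/-!
# Weighted families of operators, Hölder, geometric sums
-/

open scoped BigOperators InnerProductSpace
open Module

set_option linter.unusedSectionVars false

namespace Pool.H45.S1

variable {E : Type*} [NormedAddCommGroup E] [InnerProductSpace ℝ E] [FiniteDimensional ℝ E]
  [CompleteSpace E] {ι : Type*} [Fintype ι]

/-- weighted trace on families of operators -/
noncomputable def tauW (E : Type*) [NormedAddCommGroup E] [InnerProductSpace ℝ E] {ι : Type*}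
    [Fintype ι] (t : ι → ℝ) : (ι → (E →L[ℝ] E)) →ₗ[ℝ] ℝ :=
  ∑ i, t i • (trL E ∘ₗ LinearMap.proj i)

theorem tauW_apply (t : ι → ℝ) (B : ι → (E →L[ℝ] E)) : tauW E t B = ∑ i, t i * trL E (B i) := by
  simp [tauW]

theorem tracial_tauW {t : ι → ℝ} (ht : ∀ i, 0 ≤ t i) : Tracial (tauW E t) where
  map_comm a b := by
    rw [tauW_apply, tauW_apply]
    exact Finset.sum_congr rfl fun i _ => by rw [Pi.mul_apply, Pi.mul_apply, trL_comm]
  map_star a := by
    rw [tauW_apply, tauW_apply]
    exact Finset.sum_congr rfl fun i _ => by rw [Pi.star_apply, trL_star]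
  map_nonneg a := by
    rw [tauW_apply]
    exact Finset.sum_nonneg fun i _ => mul_nonneg (ht i) (tracial_trL.map_nonneg (a i))

theorem N_pow_tauW {t : ι → ℝ} (ht : ∀ i, 0 ≤ t i) (k : ℕ) (B : ι → (E →L[ℝ] E)) :
    N (tauW E t) k B ^ (2 ^ (k + 1)) = ∑ i, t i * N (trL E) k (B i) ^ (2 ^ (k + 1)) := by
  rw [N_pow (tracial_tauW ht), tauW_apply]
  refine Finset.sum_congr rfl fun i _ => ?_
  rw [N_pow tracial_trL]
  rfl

/-- weighted Hölder inequality -/
theorem holder_weighted {κ : Type*} (s : Finset κ) (w x y : κ → ℝ) {p q : ℝ}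
    (hpq : p.HolderConjugate q) (hw : ∀ j ∈ s, 0 ≤ w j) (hx : ∀ j ∈ s, 0 ≤ x j)
    (hy : ∀ j ∈ s, 0 ≤ y j) :
    ∑ j ∈ s, w j * (x j * y j) ≤
      (∑ j ∈ s, w j * x j ^ q) ^ (1 / q) * (∑ j ∈ s, w j * y j ^ p) ^ (1 / p) := by
  have hp := hpq.pos
  have hq := hpq.symm.pos
  have h := Real.inner_le_Lp_mul_Lq_of_nonneg s (f := fun j => w j ^ (1 / q) * x j)
    (g := fun j => w j ^ (1 / p) * y j) hpq.symm
    (fun j hj => mul_nonneg (Real.rpow_nonneg (hw j hj) _) (hx j hj))
    (fun j hj => mul_nonneg (Real.rpow_nonneg (hw j hj) _) (hy j hj))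
  have e1 : ∀ j ∈ s, w j * (x j * y j) = (w j ^ (1 / q) * x j) * (w j ^ (1 / p) * y j) := by
    intro j hj
    have : w j = w j ^ (1 / q) * w j ^ (1 / p) := by
      rw [← Real.rpow_add_of_nonneg (hw j hj) (by positivity) (by positivity), one_div, one_div,
        hpq.symm.inv_add_inv_eq_one, Real.rpow_one]
    conv_lhs => rw [this]
    ring
  have e2 : ∀ j ∈ s, (w j ^ (1 / q) * x j) ^ q = w j * x j ^ q := by
    intro j hj
    rw [Real.mul_rpow (Real.rpow_nonneg (hw j hj) _) (hx j hj), ← Real.rpow_mul (hw j hj),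
      one_div, inv_mul_cancel₀ hq.ne', Real.rpow_one]
  have e3 : ∀ j ∈ s, (w j ^ (1 / p) * y j) ^ p = w j * y j ^ p := by
    intro j hj
    rw [Real.mul_rpow (Real.rpow_nonneg (hw j hj) _) (hy j hj), ← Real.rpow_mul (hw j hj),
      one_div, inv_mul_cancel₀ hp.ne', Real.rpow_one]
  rw [Finset.sum_congr rfl e1]
  rw [Finset.sum_congr rfl e2, Finset.sum_congr rfl e3] at h
  exact h

/-- geometric sum: large scales -/
theorem geom_large {σ t0 r : ℝ} (ht0 : 0 < t0) (hσ : 0 ≤ σ) {u : ℕ → ℝ} (hr0 : 0 < r) (hr1 : r < 1)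
    (hu : ∀ i, u (i + 1) = r * u i) (hu0 : ∀ i, 0 ≤ u i) (hu1 : ∀ i, σ ≤ t0 * 2 ^ i → u i ≤ 1)
    (M : ℕ) :
    ∑ i ∈ Finset.range M, (if σ ≤ t0 * 2 ^ i then u i else 0) ≤ (1 - r)⁻¹ := by
  have h1r : 0 < 1 - r := by linarith
  have key : ∑ i ∈ Finset.range M, (if σ ≤ t0 * 2 ^ i then u i else 0) ≤
      (1 - r)⁻¹ * (1 - min 1 (u M)) := by
    induction M with
    | zero =>
      rw [Finset.sum_range_zero]
      have := min_le_left 1 (u 0)
      exact mul_nonneg (by positivity) (by linarith)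
    | succ M ih =>
      rw [Finset.sum_range_succ]
      have hmono : u (M + 1) ≤ u M := by
        rw [hu]; exact mul_le_of_le_one_left (hu0 M) hr1.le
      by_cases h : σ ≤ t0 * 2 ^ M
      · rw [if_pos h]
        have h1 := hu1 M h
        have h2 : u (M + 1) ≤ 1 := hmono.trans h1
        rw [min_eq_right h1] at ih
        rw [min_eq_right h2, hu]
        have : (1 - r)⁻¹ * (1 - u M) + u M = (1 - r)⁻¹ * (1 - r * u M) := by
          field_simp; ring
        linarith
      · rw [if_neg h, add_zero]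
        refine ih.trans (mul_le_mul_of_nonneg_left ?_ (by positivity))
        have := min_le_min_left 1 hmono
        linarith
  refine key.trans ?_
  have : 0 ≤ min 1 (u M) := le_min zero_le_one (hu0 M)
  calc (1 - r)⁻¹ * (1 - min 1 (u M)) ≤ (1 - r)⁻¹ * 1 :=
        mul_le_mul_of_nonneg_left (by linarith) (by positivity)
    _ = (1 - r)⁻¹ := mul_one _

/-- geometric sum: small scales -/
theorem geom_small {σ t0 : ℝ} (ht0 : 0 < t0) (hσ : 0 ≤ σ) (M : ℕ) :
    ∑ i ∈ Finset.range M, (if σ ≤ t0 * 2 ^ i then 0 else t0 * 2 ^ i) ≤ 2 * σ := by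
  have key : ∑ i ∈ Finset.range M, (if σ ≤ t0 * 2 ^ i then 0 else t0 * 2 ^ i) ≤
      min (2 * σ) (t0 * 2 ^ M) := by
    induction M with
    | zero => simp; exact ⟨hσ, ht0.le⟩
    | succ M ih =>
      rw [Finset.sum_range_succ]
      have hpos : 0 < t0 * 2 ^ M := by positivity
      by_cases h : σ ≤ t0 * 2 ^ M
      · rw [if_pos h, add_zero]
        refine ih.trans (min_le_min_left _ ?_)
        rw [pow_succ]; nlinarith
      · rw [if_neg h]
        push Not at h
        have h1 := ih.trans (min_le_right _ _)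
        refine le_min ?_ ?_
        · linarith
        · rw [pow_succ]; linarith
  exact key.trans (min_le_left _ _)

end Pool.H45.S1
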