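import Pool.Agent.Helper45.S1.Kahane
import Pool.Agent.Helper45.S1.Metric

/-!
# The test map
-/

open scoped BigOperators
open Finset

set_option linter.unusedSectionVars false

namespace Pool.H45.S1

/-- the zigzag function on `ZMod (8 N)` -/
noncomputable def zz (N : ℕ) (t : ZMod (8 * N)) : ℝ := 1 - |(t.val : ℝ) / (2 * N) - 2|

section zz
variable {N : ℕ} [NeZero N]

instance : NeZero (8 * N) := ⟨by have := NeZero.ne N; omega⟩

theorem Npos : (0 : ℝ) < N := by
  have := NeZero.pos N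
  exact_mod_cast this

theorem val_div_nonneg (t : ZMod (8 * N)) : 0 ≤ (t.val : ℝ) / (2 * N) := by positivity

theorem val_div_lt (t : ZMod (8 * N)) : (t.val : ℝ) / (2 * N) < 4 := by
  have hN := Npos (N := N)
  rw [div_lt_iff₀ (by positivity)]
  have := ZMod.val_lt t
  have h2 : (t.val : ℝ) < ((8 * N : ℕ) : ℝ) := by exact_mod_cast this
  push_cast at h2
  linarith

theorem val_add_cases (t : ZMod (8 * N)) {c : ℕ} (hc : c < 8 * N) :
    ((t + (c : ZMod (8 * N))).val : ℝ) = t.val + c ∨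
    ((t + (c : ZMod (8 * N))).val : ℝ) = t.val + c - 8 * N := by
  have h1 : (t + (c : ZMod (8 * N))).val = (t.val + c) % (8 * N) := by
    rw [ZMod.val_add, ZMod.val_natCast, Nat.mod_eq_of_lt hc]
  have h2 := ZMod.val_lt t
  by_cases h : t.val + c < 8 * N
  · left
    rw [h1, Nat.mod_eq_of_lt h]; push_cast; ring
  · right
    have h3 : (t.val + c) % (8 * N) = t.val + c - 8 * N := by
      rw [Nat.mod_eq_sub_mod (by omega), Nat.mod_eq_of_lt (by omega)]
    rw [h1, h3, Nat.cast_sub (by omega)]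
    push_cast; ring

/-- the shift in units of the quarter period -/
theorem val_div_cases (t : ZMod (8 * N)) {c : ℕ} (hc : c < 8 * N) {u : ℝ}
    (hu : (c : ℝ) = u * (2 * N)) :
    ((t + (c : ZMod (8 * N))).val : ℝ) / (2 * N) = (t.val : ℝ) / (2 * N) + u ∨
    ((t + (c : ZMod (8 * N))).val : ℝ) / (2 * N) = (t.val : ℝ) / (2 * N) + u - 4 := by
  have hN := Npos (N := N)
  rcases val_add_cases t hc with h | h
  · left
    rw [h, hu]; field_simp
  · right
    rw [h, hu]; field_simp; ring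

theorem zz_abs_le (t : ZMod (8 * N)) : |zz N t| ≤ 1 := by
  have h1 := val_div_nonneg t
  have h2 := val_div_lt t
  rw [zz]
  set y := (t.val : ℝ) / (2 * N)
  rcases abs_cases (y - 2) with ⟨h3, h4⟩ | ⟨h3, h4⟩ <;> rw [h3, abs_le] <;> constructor <;> linarith

theorem zz_half (t : ZMod (8 * N)) : zz N (t + ((4 * N : ℕ) : ZMod (8 * N))) = - zz N t := by
  have h1 := val_div_nonneg t
  have h2 := val_div_lt t
  have h1' := val_div_nonneg (t + ((4 * N : ℕ) : ZMod (8 * N)))
  have h2' := val_div_lt (t + ((4 * N : ℕ) : ZMod (8 * N)))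
  have hc : 4 * N < 8 * N := by have := NeZero.pos N; omega
  have h := val_div_cases t hc (u := 2) (by push_cast; ring)
  rw [zz, zz]
  set y := (t.val : ℝ) / (2 * N)
  set y' := ((t + ((4 * N : ℕ) : ZMod (8 * N))).val : ℝ) / (2 * N)
  rcases h with h | h <;> rw [h] at h1' h2' ⊢ <;>
    rcases abs_cases (y - 2) with ⟨h3, h4⟩ | ⟨h3, h4⟩ <;> rw [h3]
  · rw [abs_of_nonneg (by linarith)]; linarith
  · rw [abs_of_nonneg (by linarith)]; linarith
  · rw [abs_of_nonpos (by linarith)]; linarith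
  · rw [abs_of_nonpos (by linarith)]; linarith

theorem zz_step (t : ZMod (8 * N)) : |zz N (t + 1) - zz N t| ≤ 1 / (2 * N) := by
  have hN := Npos (N := N)
  have hN1 : (1 : ℝ) ≤ N := by
    have := NeZero.pos N
    exact_mod_cast this
  have h1 := val_div_nonneg t
  have h2 := val_div_lt t
  have h1' := val_div_nonneg (t + ((1 : ℕ) : ZMod (8 * N)))
  have h2' := val_div_lt (t + ((1 : ℕ) : ZMod (8 * N)))
  have hc : 1 < 8 * N := by have := NeZero.pos N; omega
  have h := val_div_cases t hc (u := 1 / (2 * N)) (by push_cast; field_simp)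
  have hu0 : 0 < 1 / (2 * (N : ℝ)) := by positivity
  have hu1 : 1 / (2 * (N : ℝ)) ≤ 1 / 2 := by
    exact one_div_le_one_div_of_le (by norm_num) (by linarith)
  rw [zz, zz]
  rw [Nat.cast_one] at h h1' h2'
  set u := 1 / (2 * (N : ℝ))
  set y := (t.val : ℝ) / (2 * N)
  set y' := ((t + 1).val : ℝ) / (2 * N)
  have e : 1 - |y' - 2| - (1 - |y - 2|) = |y - 2| - |y' - 2| := by ring
  rw [e]
  rcases h with h | h
  · refine (abs_abs_sub_abs_le _ _).trans ?_
    have : y - 2 - (y' - 2) = -u := by rw [h]; ring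
    rw [this, abs_neg, abs_of_pos hu0]
  · have h3 : |y' - 2| = 2 - y' := by rw [abs_of_nonpos (by linarith)]; ring
    have h4 : |y - 2| = y - 2 := abs_of_nonneg (by linarith)
    rw [h3, h4, abs_le]
    constructor <;> linarith

theorem zz_step' (t : ZMod (8 * N)) (u : ℤˣ) :
    |zz N (t + ((u : ℤ) : ZMod (8 * N))) - zz N t| ≤ 1 / (2 * N) := by
  rcases Int.units_eq_one_or u with rfl | rfl
  · simpa using zz_step t
  · have h := zz_step (t - 1)
    rw [sub_add_cancel, abs_sub_comm] at h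
    simpa [sub_eq_add_neg] using h

theorem zz_nondeg (t : ZMod (8 * N)) :
    1 / 2 ≤ |zz N (t + ((4 * N : ℕ) : ZMod (8 * N))) - zz N t| ∨
    1 / 2 ≤ |zz N (t + ((2 * N : ℕ) : ZMod (8 * N))) - zz N t| := by
  by_cases hz : 1 / 4 ≤ |zz N t|
  · left
    rw [zz_half]
    have : - zz N t - zz N t = -(2 * zz N t) := by ring
    rw [this, abs_neg, abs_mul, abs_of_pos (by norm_num : (0 : ℝ) < 2)]
    linarith
  · right
    push Not at hz
    have h1 := val_div_nonneg t
    have h2 := val_div_lt t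
    have h1' := val_div_nonneg (t + ((2 * N : ℕ) : ZMod (8 * N)))
    have h2' := val_div_lt (t + ((2 * N : ℕ) : ZMod (8 * N)))
    have hc : 2 * N < 8 * N := by have := NeZero.pos N; omega
    have h := val_div_cases t hc (u := 1) (by push_cast; ring)
    rw [zz] at hz
    rw [zz, zz]
    set y := (t.val : ℝ) / (2 * N)
    set y' := ((t + ((2 * N : ℕ) : ZMod (8 * N))).val : ℝ) / (2 * N)
    obtain ⟨hz1, hz2⟩ := abs_lt.1 hz
    have e : 1 - |y' - 2| - (1 - |y - 2|) = |y - 2| - |y' - 2| := by ring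
    rw [e]
    rcases h with h | h <;> rcases abs_cases (y - 2) with ⟨h3, h4⟩ | ⟨h3, h4⟩ <;>
      rw [h3] at hz1 hz2 ⊢ <;> rcases abs_cases (y' - 2) with ⟨h5, h6⟩ | ⟨h5, h6⟩ <;>
      rw [h5, le_abs] <;> first | (left; linarith) | (right; linarith)

end zz

section test
variable {X : Type*} [SeminormedAddCommGroup X] [NormedSpace ℝ X] {n N : ℕ} [NeZero N]

/-- the test map attached to `v` -/
noncomputable def tst (N : ℕ) (v : Fin n → X) (x : Fin n → ZMod (8 * N)) : X :=
  ∑ j, zz N (x j) • v j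

theorem norm_tst_le {v : Fin n → X} (hv : ∀ j, ‖v j‖ ≤ 1) (x : Fin n → ZMod (8 * N)) :
    ‖tst N v x‖ ≤ n := by
  rw [tst]
  refine (norm_sum_le _ _).trans ?_
  refine (Finset.sum_le_sum (g := fun _ => (1 : ℝ)) fun j _ => ?_).trans (by simp)
  rw [norm_smul]
  exact mul_le_one₀ (zz_abs_le _) (norm_nonneg _) (hv j)

theorem tst_single (v : Fin n → X) (x : Fin n → ZMod (8 * N)) (j : Fin n) (c : ZMod (8 * N)) :
    tst N v (x + Pi.single j c) - tst N v x = (zz N (x j + c) - zz N (x j)) • v j := by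
  classical
  rw [tst, tst, ← Finset.sum_sub_distrib, Finset.sum_eq_single j]
  · rw [Pi.add_apply, Pi.single_eq_same, sub_smul]
  · intro i _ hi
    rw [Pi.add_apply, Pi.single_eq_of_ne hi, add_zero, sub_self]
  · intro h; exact absurd (Finset.mem_univ j) h

theorem tst_vec (v : Fin n → X) (x : Fin n → ZMod (8 * N)) (ε : Fin n → ℤˣ) :
    tst N v (x + vec ε) - tst N v x =
      ∑ j, (zz N (x j + ((ε j : ℤ) : ZMod (8 * N))) - zz N (x j)) • v j := by
  rw [tst, tst, ← Finset.sum_sub_distrib]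
  refine Finset.sum_congr rfl fun j _ => ?_
  rw [← sub_smul]
  rfl

theorem sum_tst_le (v : Fin n → X) (ε : Fin n → ℤˣ) (M : ℕ) :
    ∑ x : Fin n → ZMod (8 * N), ‖tst N v (x + vec ε) - tst N v x‖ ^ M ≤
      ((8 * N : ℕ) : ℝ) ^ n * ((1 / (2 * N)) ^ M * avg (fun σ => ‖∑ j, sg (σ j) • v j‖ ^ M)) := by
  classical
  set Δ : (Fin n → ZMod (8 * N)) → Fin n → ℝ := fun x j =>
    zz N (x j + ((ε j : ℤ) : ZMod (8 * N))) - zz N (x j) with hΔ
  have hΔle : ∀ x j, |Δ x j| ≤ 1 / (2 * N) := fun x j => zz_step' _ _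
  let hs : (Fin n → ℤˣ) → (Fin n → ZMod (8 * N)) := fun σ j =>
    if σ j = 1 then 0 else ((4 * N : ℕ) : ZMod (8 * N))
  have hshift : ∀ σ x j, Δ (x + hs σ) j = sg (σ j) * Δ x j := by
    intro σ x j
    simp only [hΔ, Pi.add_apply, hs]
    rcases Int.units_eq_one_or (σ j) with h | h
    · rw [h, if_pos rfl, add_zero, sg_one, one_mul]
    · rw [h, if_neg (by decide), sg_neg_one, zz_half, add_right_comm, zz_half]; ring
  have e1 : ∀ σ : Fin n → ℤˣ, ∑ x, ‖tst N v (x + vec ε) - tst N v x‖ ^ M =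
      ∑ x, ‖∑ j, sg (σ j) • (Δ x j • v j)‖ ^ M := by
    intro σ
    rw [← Equiv.sum_comp (Equiv.addRight (hs σ))]
    refine Finset.sum_congr rfl fun x _ => ?_
    rw [tst_vec]
    congr 2
    refine Finset.sum_congr rfl fun j _ => ?_
    have := hshift σ x j
    simp only [hΔ] at this
    rw [Equiv.coe_addRight, this, mul_smul]
  have e2 : ∑ x, ‖tst N v (x + vec ε) - tst N v x‖ ^ M =
      ∑ x, avg (fun σ => ‖∑ j, sg (σ j) • (Δ x j • v j)‖ ^ M) := by
    rw [← avg_sum]
    have : (fun σ : Fin n → ℤˣ => ∑ x, ‖∑ j, sg (σ j) • (Δ x j • v j)‖ ^ M) =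
        fun _ => ∑ x, ‖tst N v (x + vec ε) - tst N v x‖ ^ M := by
      ext σ; rw [e1 σ]
    rw [this, avg_const]
  rw [e2]
  have hN := Npos (N := N)
  refine (Finset.sum_le_sum fun x _ => contraction_le M v (Δ x) (by positivity) (hΔle x)).trans ?_
  rw [Finset.sum_const, Finset.card_univ, Fintype.card_pi, Finset.prod_const, ZMod.card,
    Finset.card_univ, Fintype.card_fin, nsmul_eq_mul]
  push_cast
  exact le_refl _

end test

end Pool.H45.S1
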